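import Pool.Agent.Helper513.AS.A1
import Pool.Agent.Helper513.AS.A2
import Pool.Agent.Helper513.AS.A3
import Pool.Agent.Helper513.AS.A4
import Pool.Agent.Helper338.RA.Assembly

set_option autoImplicit false

namespace RA
variable {V : Type} {k : ℕ}
end RA

namespace AS
open Finset RA






theorem aux_term (k n i : ℕ) (hk : 2 ≤ k) (hi : 1 ≤ i) (hin : i * (27 * 2^k) ≤ n) :
    (n.choose i : ℝ) * (i:ℝ)^(k*i) / ((n:ℝ) - k*i)^(k*i) ≤ (1/9)^i := by
  have hi0 : (0:ℝ) < i := by exact_mod_cast hi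
  have h2k : k < 2^k := Nat.lt_two_pow_self
  have hinR : (i:ℝ) * (27 * 2^k) ≤ n := by exact_mod_cast hin
  have h2kR : (k:ℝ) ≤ 2^k := by exact_mod_cast h2k.le
  have h2pos : (0:ℝ) < 2^k := by positivity
  have hn0 : (0:ℝ) < n := lt_of_lt_of_le (by positivity) hinR
  have hki : (k:ℝ) * i ≤ n / 2 := by
    have : (k:ℝ) * i ≤ 2^k * i := mul_le_mul_of_nonneg_right h2kR hi0.le
    nlinarith
  set x : ℝ := i / n with hx
  have hx0 : 0 < x := by positivity
  have hxle : x * (27 * 2^k) ≤ 1 := by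
    rw [hx, div_mul_eq_mul_div, div_le_one hn0]; exact hinR
  have hx1 : x ≤ 1 := by
    have : (1:ℝ) ≤ 2^k := one_le_pow₀ (by norm_num)
    nlinarith
  -- choose bound
  have hc : (n.choose i : ℝ) ≤ (3 / x)^i := by
    have h1 : (n.choose i : ℝ) ≤ (n:ℝ)^i / (i.factorial : ℝ) := Nat.choose_le_pow_div i n
    have h2 : (i:ℝ)^i / (i.factorial : ℝ) ≤ 3^i := by
      refine (Real.pow_div_factorial_le_exp (i:ℝ) hi0.le i).trans ?_
      have : Real.exp (i:ℝ) = (Real.exp 1)^i := by rw [← Real.exp_nat_mul, mul_one]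
      rw [this]
      exact pow_le_pow_left₀ (Real.exp_pos 1).le (by have := Real.exp_one_lt_d9; linarith) i
    have hf : (0:ℝ) < i.factorial := by exact_mod_cast i.factorial_pos
    have h3 : (n:ℝ)^i / (i.factorial : ℝ) = ((i:ℝ)^i / (i.factorial : ℝ)) * (1/x)^i := by
      rw [hx, one_div_div, div_pow]; field_simp
    rw [h3] at h1
    refine h1.trans ?_
    have h4 : (3 / x)^i = 3^i * (1/x)^i := by rw [← mul_pow]; congr 1; ring
    rw [h4]
    exact mul_le_mul_of_nonneg_right h2 (by positivity)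
  have hq : (i:ℝ)^(k*i) / ((n:ℝ) - k*i)^(k*i) ≤ ((2*x)^k)^i := by
    rw [← div_pow, ← pow_mul]
    refine pow_le_pow_left₀ (div_nonneg hi0.le (by linarith)) ?_ _
    rw [div_le_iff₀ (by linarith), hx]
    have : (2 * (i / n)) * (n / 2 : ℝ) = i := by field_simp
    calc (i:ℝ) = (2 * (i / n)) * (n / 2 : ℝ) := this.symm
      _ ≤ 2 * (i / n) * ((n:ℝ) - k * i) := by
          apply mul_le_mul_of_nonneg_left (by linarith); positivity
  rw [mul_div_assoc]
  refine (mul_le_mul hc hq (div_nonneg (by positivity) (pow_nonneg (by linarith) _)) (by positivity)).trans ?_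
  rw [← mul_pow]
  refine pow_le_pow_left₀ (by positivity) ?_ _
  obtain ⟨l, rfl⟩ : ∃ l, k = l + 1 := ⟨k - 1, by omega⟩
  have hl : l ≠ 0 := by omega
  have h5 : x^l ≤ x := pow_le_of_le_one hx0.le hx1 hl
  have h6 : 3 / x * (2 * x)^(l+1) = 3 * 2^(l+1) * x^l := by
    rw [mul_pow, pow_succ x l]; field_simp
  rw [h6]
  have : 3 * (2:ℝ)^(l+1) * x^l ≤ 3 * 2^(l+1) * x := mul_le_mul_of_nonneg_left h5 (by positivity)
  nlinarith

theorem aux_geom (N : ℕ) : ∑ i ∈ Finset.Icc 1 N, ((1:ℝ)/9)^i = (1 - (1/9)^N) / 8 := by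
  induction N with
  | zero => simp
  | succ N ih =>
    rw [Finset.sum_Icc_succ_top (by omega), ih, pow_succ]
    ring

theorem aux_tend (k : ℕ) (hk : 2 ≤ k) : ∃ j0 : ℕ, ∀ j ≥ j0,
    ((k:ℝ) * (432 * 2^k * (j+1))) * ((1 + 1/(6*(k:ℝ)))^k / (1 + 1/(6*(k:ℝ)))^j) ≤ 1/8 := by
  have hk0 : (0:ℝ) < k := by exact_mod_cast (by omega : 0 < k)
  set z : ℝ := 1 + 1/(6*(k:ℝ)) with hz
  have hz1 : 1 < z := by rw [hz]; have : 0 < 1/(6*(k:ℝ)) := by positivity
                         linarith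
  have h1 := tendsto_pow_const_div_const_pow_of_one_lt 1 hz1
  have h0 := tendsto_pow_const_div_const_pow_of_one_lt 0 hz1
  have h2 := (h1.add h0).const_mul ((k:ℝ) * (432 * 2^k) * z^k)
  rw [add_zero, mul_zero] at h2
  have h3 := h2.eventually (ge_mem_nhds (show (0:ℝ) < 1/8 by norm_num))
  obtain ⟨j0, hj0⟩ := Filter.eventually_atTop.1 h3
  refine ⟨j0, fun j hj => ?_⟩
  refine le_trans (le_of_eq ?_) (hj0 j hj)
  have : z^j ≠ 0 := by positivity
  field_simp

theorem sj_iter (N v t : ℕ) (h : 3 * v ≤ 2 * N) : sj (N + t) v ≤ (3 * v)^t * sj N v := by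
  induction t with
  | zero => simp
  | succ t ih =>
    rw [← add_assoc]
    refine (sj_up (N + t) v (by omega)).trans ?_
    calc 3 * v * sj (N + t) v ≤ 3 * v * ((3 * v)^t * sj N v) := Nat.mul_le_mul_left _ ih
      _ = (3 * v)^(t+1) * sj N v := by ring

/-- prefix-good surjective words -/
def Gs (k N n : ℕ) : Set (Fin N → Fin n) :=
  {f | Function.Surjective f ∧ ∀ i, 1 ≤ i → k * i ≤ N →
      i < ((Finset.univ.filter (fun p : Fin N => p.val < k * i)).image f).card}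

/-- gluing -/
def glue {N t M n : ℕ} (h : N + t = M) (fg : (Fin N → Fin n) × (Fin t → Fin n)) : Fin M → Fin n :=
  fun p => if hp : p.val < N then fg.1 ⟨p.val, hp⟩ else fg.2 ⟨p.val - N, by omega⟩

theorem glue_left {N t M n : ℕ} (h : N + t = M) (fg : (Fin N → Fin n) × (Fin t → Fin n))
    (p : Fin N) : glue h fg ⟨p.val, by omega⟩ = fg.1 p := by
  simp [glue, p.isLt]

theorem glue_right {N t M n : ℕ} (h : N + t = M) (fg : (Fin N → Fin n) × (Fin t → Fin n))
    (p : Fin t) : glue h fg ⟨N + p.val, by omega⟩ = fg.2 p := by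
  simp [glue]

theorem glue_inj {N t M n : ℕ} (h : N + t = M) :
    Function.Injective (glue (n := n) h) := by
  intro a b hab
  refine Prod.ext ?_ ?_
  · funext p
    rw [← glue_left h a p, ← glue_left h b p, hab]
  · funext p
    rw [← glue_right h a p, ← glue_right h b p, hab]

theorem glue_good (m k N t : ℕ) (hk : 1 ≤ k) (h : N + t = k * (m+1))
    (f : Fin N → Fin (m+1)) (hf : f ∈ Gs k N (m+1)) (g : Fin t → Fin (m+1)) :
    GoodWord m k (glue h (f, g)) ∧ Function.Surjective (glue h (f, g)) := by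
  refine ⟨?_, ?_⟩
  · intro i hi
    by_cases hi0 : i = 0
    · subst hi0
      exact Finset.card_pos.2 (Finset.insert_nonempty _ _)
    · by_cases hN : k * i ≤ N
      · have h1 := hf.2 i (by omega) hN
        refine Nat.succ_le_of_lt (lt_of_lt_of_le h1 ?_)
        apply Finset.card_le_card
        intro y hy
        obtain ⟨p, hp, rfl⟩ := Finset.mem_image.1 hy
        have hp' : p.val < k * i := (Finset.mem_filter.1 hp).2
        refine Finset.mem_insert_of_mem (Finset.mem_image.2 ⟨⟨p.val, by omega⟩, ?_, ?_⟩)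
        · exact Finset.mem_filter.2 ⟨Finset.mem_univ _, hp'⟩
        · exact glue_left h (f, g) p
      · have h2 : (insert 0 ((Finset.univ.filter (fun p : Fin (k*(m+1)) => p.val < k*i)).image
            (glue h (f, g)))) = Finset.univ := by
          rw [Finset.eq_univ_iff_forall]
          intro y
          obtain ⟨p, rfl⟩ := hf.1 y
          refine Finset.mem_insert_of_mem (Finset.mem_image.2 ⟨⟨p.val, by omega⟩, ?_, ?_⟩)
          · refine Finset.mem_filter.2 ⟨Finset.mem_univ _, ?_⟩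
            show p.val < k * i
            have := p.isLt
            omega
          · exact glue_left h (f, g) p
        rw [h2, Finset.card_univ, Fintype.card_fin]
        omega
  · intro y
    obtain ⟨p, rfl⟩ := hf.1 y
    exact ⟨⟨p.val, by omega⟩, glue_left h (f, g) p⟩

theorem glue_count (m k N t : ℕ) (hk : 1 ≤ k) (h : N + t = k * (m+1)) :
    (Gs k N (m+1)).ncard * (m+1)^t ≤
      Set.ncard {w : Fin (k*(m+1)) → Fin (m+1) | GoodWord m k w ∧ Function.Surjective w} := by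
  have h1 : ((Gs k N (m+1)) ×ˢ (Set.univ : Set (Fin t → Fin (m+1)))).ncard =
      (Gs k N (m+1)).ncard * (m+1)^t := by
    rw [Set.ncard_prod, Set.ncard_univ, Nat.card_fun]
    simp
  rw [← h1]
  refine Set.ncard_le_ncard_of_injOn (glue h) ?_ (glue_inj h).injOn (Set.toFinite _)
  rintro ⟨f, g⟩ hfg
  exact glue_good m k N t hk h f hfg.1 g

theorem gp_le_A5 (k N n i1 : ℕ) (hk : 1 ≤ k) :
    gp k (k * i1) N n ≤ (Gs k N n).ncard + Set.ncard {f : Fin N → Fin n | Function.Surjective f ∧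
      ∃ i, 1 ≤ i ∧ i ≤ i1 ∧
      ((Finset.univ.filter (fun p : Fin N => p.val < k * i)).image f).card ≤ i} := by
  rw [← gp_card k (k * i1) hk N n]
  refine le_trans (Set.ncard_le_ncard ?_ (Set.toFinite _)) (Set.ncard_union_le _ _)
  intro f hf
  by_cases hb : ∃ i, 1 ≤ i ∧ i ≤ i1 ∧
      ((Finset.univ.filter (fun p : Fin N => p.val < k * i)).image f).card ≤ i
  · exact Or.inr ⟨hf.1, hb⟩
  · refine Or.inl ⟨hf.1, fun i hi hiN => ?_⟩
    by_cases h2 : k * i1 < k * i
    · exact hf.2 i h2 hiN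
    · by_contra h3
      refine hb ⟨i, hi, ?_, not_lt.1 h3⟩
      have h4 : k * i ≤ k * i1 := not_lt.1 h2
      exact Nat.le_of_mul_le_mul_left h4 (by omega)

theorem half (k : ℕ) (hk : 2 ≤ k) : ∃ n0 : ℕ, ∀ n, n0 ≤ n → 72 ≤ n → 
    sj (k * n - 18 * k) n ≤ 2 * (Gs k (k * n - 18 * k) n).ncard := by
  obtain ⟨j0, hj0⟩ := aux_tend k hk
  refine ⟨432 * 2^k * (j0 + 1) + 1, fun n hn0 hn72 => ?_⟩
  have hk0 : (0:ℝ) < k := by exact_mod_cast (by omega : 0 < k)
  have h2pos : 0 < 2^k := by positivity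
  set N : ℕ := k * n - 18 * k with hN
  set i1 : ℕ := n / (27 * 2^k) with hi1
  have hkn : 18 * k ≤ k * n := by nlinarith
  have hNn : N + 18 * k = k * n := by omega
  have hi1n : i1 * (27 * 2^k) ≤ n := Nat.div_mul_le_self _ _
  have hk2 : k < 2^k := Nat.lt_two_pow_self
  have hki1 : 2 * (k * i1) ≤ n := by nlinarith
  have hN1N : k * i1 ≤ N := by
    have : k * n ≥ 2 * n := Nat.mul_le_mul_right _ hk
    have : 36 * k ≤ k * n := by nlinarith
    omega
  have hnN : n ≤ N := by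
    have h1 : 36 * k ≤ k * n := by nlinarith
    have h2 : 2 * n ≤ k * n := Nat.mul_le_mul_right _ hk
    omega
  have hlt : n < 27 * 2^k * (i1 + 1) := by
    rw [hi1]; exact Nat.lt_mul_div_succ n (by positivity)
  -- the exponent
  set j : ℕ := (k * i1) / 16 with hj
  have hi1j : i1 + 1 ≤ 16 * (j + 1) := by
    have h1 : i1 ≤ k * i1 := Nat.le_mul_of_pos_left _ (by omega)
    omega
  have hnD : n ≤ 432 * 2^k * (j + 1) := by
    have h1 : 27 * 2^k * (i1 + 1) ≤ 27 * 2^k * (16 * (j + 1)) := Nat.mul_le_mul_left _ hi1j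
    nlinarith
  have hjj : j0 ≤ j := by
    by_contra hcon
    have h1 : j + 1 ≤ j0 + 1 := by omega
    have h2 : 432 * 2^k * (j + 1) ≤ 432 * 2^k * (j0 + 1) := Nat.mul_le_mul_left _ h1
    omega
  set z : ℝ := 1 + 1/(6*(k:ℝ)) with hz
  have hz0 : 0 < z := by positivity
  have hz1 : 1 < z := by rw [hz]; have : 0 < 1/(6*(k:ℝ)) := by positivity
                         linarith
  have hch := chain k hk (k * i1) N n hN1N
  rw [← hz] at hch
  have hexp : (-((k:ℤ) * n - N)) = -((18 * k : ℕ) : ℤ) := by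
    have : (k:ℤ) * n = N + 18 * k := by exact_mod_cast hNn.symm
    rw [this]; push_cast; ring
  have hq1 : z ^ (-((k:ℤ) * n - N)) ≤ 1/4 := by
    rw [hexp, zpow_neg, zpow_natCast]
    have h1 : (4:ℝ) ≤ z^(18*k) := by
      have h2 := one_add_mul_le_pow (a := 1/(6*(k:ℝ))) (by
        have : 0 < 1/(6*(k:ℝ)) := by positivity
        linarith) (18 * k)
      have h3 : (1:ℝ) + ((18 * k : ℕ):ℝ) * (1/(6*(k:ℝ))) = 4 := by
        push_cast; field_simp; norm_num
      rw [h3] at h2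
      exact h2
    rw [one_div]
    exact inv_anti₀ (by norm_num) h1
  have hq2 : ((N:ℝ) - ((k * i1 : ℕ):ℝ)) * (z^k / z^((k * i1)/16)) ≤ 1/8 := by
    refine le_trans ?_ (hj0 j hjj)
    apply mul_le_mul_of_nonneg_right _ (by positivity)
    have h1 : (N:ℝ) ≤ k * n := by exact_mod_cast (by omega : N ≤ k * n)
    have h2 : (n:ℝ) ≤ 432 * 2^k * (j+1) := by exact_mod_cast hnD
    have h3 : (0:ℝ) ≤ ((k * i1 : ℕ):ℝ) := by positivity
    have h4 : (k:ℝ) * n ≤ k * (432 * 2^k * (j+1)) := mul_le_mul_of_nonneg_left h2 hk0.le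
    linarith
  have hsb := start_bad k N n i1 (by omega) (by omega) hnN
  have hsum : (∑ i ∈ Finset.Icc 1 i1, ((n.choose i : ℝ) * (i:ℝ) ^ (k * i) /
      ((n:ℝ) - k * i) ^ (k * i))) ≤ 1/8 := by
    refine (Finset.sum_le_sum (fun i hi => ?_)).trans (b := ∑ i ∈ Finset.Icc 1 i1, ((1:ℝ)/9)^i) ?_
    · obtain ⟨h1, h2⟩ := Finset.mem_Icc.1 hi
      exact aux_term k n i hk h1 ((Nat.mul_le_mul_right _ h2).trans hi1n)
    · rw [aux_geom]
      have : (0:ℝ) ≤ (1/9)^i1 := by positivity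
      linarith
  have hgp := gp_le_A5 k N n i1 (by omega)
  have hgpR : (gp k (k * i1) N n : ℝ) ≤ (Gs k N n).ncard + (Set.ncard {f : Fin N → Fin n |
      Function.Surjective f ∧ ∃ i, 1 ≤ i ∧ i ≤ i1 ∧
      ((Finset.univ.filter (fun p : Fin N => p.val < k * i)).image f).card ≤ i} : ℝ) := by
    exact_mod_cast hgp
  have hs0 : (0:ℝ) ≤ sj N n := by positivity
  have hA : (sj N n : ℝ) - gp k (k * i1) N n ≤ sj N n * (1/4 + 1/8) :=
    hch.trans (mul_le_mul_of_nonneg_left (add_le_add hq1 hq2) hs0)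
  have hB := hsb.trans (mul_le_mul_of_nonneg_right hsum hs0)
  have hfin : (sj N n : ℝ) ≤ 2 * (Gs k N n).ncard := by linarith
  exact_mod_cast hfin

theorem acc_fraction (k : ℕ) (hk : 2 ≤ k) : ∃ C m0 : ℕ, ∀ m, m0 ≤ m →
    sj (k * (m + 1)) (m + 1) ≤ C * Set.ncard {T : Fin (m+1) → Fin k → Fin (m+1) | Acc T 0} := by
  obtain ⟨n0, hn0⟩ := half k hk
  refine ⟨2 * 3^(18*k), n0 + 72, fun m hm => ?_⟩
  have h1 := hn0 (m+1) (by omega) (by omega)
  have hkn : 18 * k ≤ k * (m+1) := by nlinarith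
  have hN : (k * (m+1) - 18 * k) + 18 * k = k * (m+1) := by omega
  have h2 := glue_count m k (k * (m+1) - 18 * k) (18 * k) (by omega) hN
  have h3 := good_le_acc m k (by omega)
  have h36 : 36 * k ≤ (2 * k - 3) * (m + 1) := by
    obtain ⟨l, rfl⟩ : ∃ l, k = l + 2 := ⟨k - 2, by omega⟩
    have : 2 * (l + 2) - 3 = 2 * l + 1 := by omega
    rw [this]
    nlinarith
  have h4 := sj_iter (k * (m+1) - 18 * k) (m+1) (18 * k) (by
    have h5 : (2 * k - 3) * (m + 1) = 2 * (k * (m+1)) - 3 * (m+1) := by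
      rw [Nat.sub_mul]; congr 1; ring
    have h6 : 3 * (m+1) ≤ 2 * (k * (m+1)) := by nlinarith
    omega)
  rw [hN] at h4
  calc sj (k * (m + 1)) (m + 1) ≤ (3 * (m+1))^(18*k) * sj (k * (m+1) - 18 * k) (m+1) := h4
    _ ≤ (3 * (m+1))^(18*k) * (2 * (Gs k (k * (m+1) - 18 * k) (m+1)).ncard) :=
        Nat.mul_le_mul_left _ h1
    _ = 2 * 3^(18*k) * ((Gs k (k * (m+1) - 18 * k) (m+1)).ncard * (m+1)^(18*k)) := by
        rw [mul_pow]; ring
    _ ≤ 2 * 3^(18*k) * _ := Nat.mul_le_mul_left _ (h2.trans h3)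
end AS
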