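import Pool.Agent.Helper513.AS.B2

set_option autoImplicit false

namespace AS
open Finset


theorem poa_mem {V : Type} [Fintype V] {k : ℕ} (T0 T : V → Fin k → V) (X : Finset (V × Fin k))
    (K R : Finset V) :
    T ∈ Om T0 X K R ↔ (Equiv.curry V (Fin k) V).symm T ∈ OmG (Function.uncurry T0) X K R := by
  simp only [Om, OmG, Finset.mem_filter, Finset.mem_univ, true_and]
  rfl

theorem poa_card {V : Type} [Fintype V] {k : ℕ} (T0 : V → Fin k → V) (X : Finset (V × Fin k))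
    (K R : Finset V) :
    (Om T0 X K R).card = (OmG (Function.uncurry T0) X K R).card :=
  Finset.card_equiv (Equiv.curry V (Fin k) V).symm (fun T => poa_mem T0 T X K R)

theorem poa_ncard {V : Type} [Fintype V] {k : ℕ} (T0 σ : V → Fin k → V)
    (X Z : Finset (V × Fin k)) (K R : Finset V) :
    Set.ncard {T | T ∈ Om T0 X K R ∧ ∀ c ∈ Z, T c.1 c.2 = σ c.1 c.2}
      = Set.ncard {f | f ∈ OmG (Function.uncurry T0) X K R ∧ ∀ c ∈ Z, f c = Function.uncurry σ c} := by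
  rw [← Set.ncard_image_of_injective {T | T ∈ Om T0 X K R ∧ ∀ c ∈ Z, T c.1 c.2 = σ c.1 c.2}
    (Equiv.curry V (Fin k) V).symm.injective]
  congr 1
  ext f
  constructor
  · rintro ⟨T, ⟨h1, h2⟩, rfl⟩
    exact ⟨(poa_mem T0 T X K R).1 h1, h2⟩
  · rintro ⟨h1, h2⟩
    refine ⟨(Equiv.curry V (Fin k) V) f, ⟨?_, h2⟩, Equiv.symm_apply_apply _ f⟩
    rw [poa_mem, Equiv.symm_apply_apply]
    exact h1

theorem prescribe_upper_Om {V : Type} [Fintype V] [DecidableEq V] {k : ℕ}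
    (T0 σ : V → Fin k → V) (X Z : Finset (V × Fin k)) (K R : Finset V) (hZ : Disjoint Z X) :
    Set.ncard {T | T ∈ Om T0 X K R ∧ ∀ c ∈ Z, T c.1 c.2 = σ c.1 c.2} * R.card.descFactorial Z.card
      ≤ (Om T0 X K R).card := by
  rw [poa_ncard, poa_card]
  exact prescribe_upper (Function.uncurry T0) (Function.uncurry σ) X Z K R hZ

theorem prescribe_lower_Om {V : Type} [Fintype V] [DecidableEq V] {k : ℕ}
    (T0 σ : V → Fin k → V) (X Z : Finset (V × Fin k)) (K R : Finset V)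
    (hZ : Disjoint Z X) (hRK : Disjoint R K)
    (hinj : Set.InjOn (fun c : V × Fin k => σ c.1 c.2) Z) (hσ : ∀ c ∈ Z, σ c.1 c.2 ∈ R) :
    (Om T0 X K R).card ≤ Set.ncard {T | T ∈ Om T0 X K R ∧ ∀ c ∈ Z, T c.1 c.2 = σ c.1 c.2}
      * (Fintype.card V - K.card) ^ Z.card := by
  rw [poa_ncard, poa_card]
  exact prescribe_lower (Function.uncurry T0) (Function.uncurry σ) X Z K R hZ hRK hinj hσ
end AS
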