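import Pool.Agent.Helper513.AS.Defs

set_option autoImplicit false

namespace AS
open Finset
theorem sj_explicit (N : ℕ) : ∀ u : ℕ, (sj N u : ℝ) =
    (-1) ^ u * ∑ j ∈ range (u + 1), (-1) ^ j * (u.choose j : ℝ) * (j : ℝ) ^ N := by
  induction N with
  | zero =>
    intro u
    cases u with
    | zero => simp [sj]
    | succ u =>
      have h := add_pow (-1 : ℝ) 1 (u + 1)
      have h0 : ((-1 : ℝ) + 1) ^ (u + 1) = 0 := by
        rw [neg_add_cancel]; exact zero_pow (Nat.succ_ne_zero u)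
      rw [h0] at h
      have h1 : ∑ j ∈ range (u + 1 + 1), (-1 : ℝ) ^ j * ((u + 1).choose j : ℝ) * (j : ℝ) ^ 0 = 0 := by
        rw [h]
        refine Finset.sum_congr rfl fun j _ => ?_
        simp
      rw [h1]
      simp [sj]
  | succ N ih =>
    intro u
    cases u with
    | zero => simp [sj]
    | succ u =>
      have h1 : (sj (N + 1) (u + 1) : ℝ) = ((u : ℝ) + 1) * ((sj N (u + 1) : ℝ) + (sj N u : ℝ)) := by
        rw [show sj (N + 1) (u + 1) = (u + 1) * (sj N (u + 1) + sj N u) from rfl]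
        push_cast
        ring
      have h2 : ∑ j ∈ range (u + 1), (-1 : ℝ) ^ j * (u.choose j : ℝ) * (j : ℝ) ^ N =
          ∑ j ∈ range (u + 1 + 1), (-1 : ℝ) ^ j * (u.choose j : ℝ) * (j : ℝ) ^ N := by
        rw [Finset.sum_range_succ _ (u + 1), Nat.choose_succ_self]
        simp
      rw [h1, ih (u + 1), ih u, h2, pow_succ (-1 : ℝ) u]
      have h3 : ∀ j : ℕ, ((u : ℝ) + 1) * (((u + 1).choose j : ℝ) - (u.choose j : ℝ)) =
          (j : ℝ) * ((u + 1).choose j : ℝ) := by
        intro j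
        cases j with
        | zero => simp
        | succ j =>
          have h4 := Nat.add_one_mul_choose_eq u j
          have h5 : ((u : ℝ) + 1) * (u.choose j : ℝ) = ((u + 1).choose (j + 1) : ℝ) * ((j : ℝ) + 1) := by
            exact_mod_cast h4
          have h6 : ((u + 1).choose (j + 1) : ℝ) = (u.choose j : ℝ) + (u.choose (j + 1) : ℝ) := by
            rw [Nat.choose_succ_succ]; push_cast; ring
          push_cast
          rw [h6] at h5 ⊢
          linarith
      have h7 : ∑ j ∈ range (u + 1 + 1), (-1 : ℝ) ^ j * ((u + 1).choose j : ℝ) * (j : ℝ) ^ (N + 1) =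
          ((u : ℝ) + 1) * (∑ j ∈ range (u + 1 + 1), (-1 : ℝ) ^ j * ((u + 1).choose j : ℝ) * (j : ℝ) ^ N -
            ∑ j ∈ range (u + 1 + 1), (-1 : ℝ) ^ j * (u.choose j : ℝ) * (j : ℝ) ^ N) := by
        rw [← Finset.sum_sub_distrib, Finset.mul_sum]
        refine Finset.sum_congr rfl fun j _ => ?_
        have h8 := h3 j
        calc (-1 : ℝ) ^ j * ((u + 1).choose j : ℝ) * (j : ℝ) ^ (N + 1)
            = (-1) ^ j * (j : ℝ) ^ N * ((j : ℝ) * ((u + 1).choose j : ℝ)) := by ring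
          _ = (-1) ^ j * (j : ℝ) ^ N *
              (((u : ℝ) + 1) * (((u + 1).choose j : ℝ) - (u.choose j : ℝ))) := by rw [h8]
          _ = _ := by ring
      rw [h7]
      ring

theorem hasSum_exp_aux (y : ℝ) : HasSum (fun N : ℕ => y ^ N / (N.factorial : ℝ)) (Real.exp y) := by
  have h := NormedSpace.expSeries_div_hasSum_exp (𝔸 := ℝ) y
  rwa [← Real.exp_eq_exp_ℝ] at h


theorem sj_egf (u : ℕ) (x : ℝ) :
    HasSum (fun N : ℕ => (sj N u : ℝ) * x ^ N / (N.factorial : ℝ)) ((Real.exp x - 1) ^ u) := by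
  have h1 : HasSum (fun N : ℕ => ∑ j ∈ range (u + 1), ((-1 : ℝ) ^ u * ((-1) ^ j * (u.choose j : ℝ))) *
      (((j : ℝ) * x) ^ N / (N.factorial : ℝ)))
      (∑ j ∈ range (u + 1), ((-1 : ℝ) ^ u * ((-1) ^ j * (u.choose j : ℝ))) * Real.exp ((j : ℝ) * x)) :=
    hasSum_sum fun j _ => (hasSum_exp_aux ((j : ℝ) * x)).mul_left _
  have h2 : (∑ j ∈ range (u + 1), ((-1 : ℝ) ^ u * ((-1) ^ j * (u.choose j : ℝ))) *
      Real.exp ((j : ℝ) * x)) = (Real.exp x - 1) ^ u := by
    have h3 : (Real.exp x - 1) ^ u = (-1) ^ u * (-Real.exp x + 1) ^ u := by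
      rw [← mul_pow]; congr 1; ring
    rw [h3, add_pow, Finset.mul_sum]
    refine Finset.sum_congr rfl fun j _ => ?_
    rw [Real.exp_nat_mul, one_pow, mul_one, neg_pow]
    ring
  rw [h2] at h1
  refine h1.congr_fun fun N => ?_
  rw [sj_explicit N u, Finset.mul_sum, Finset.sum_mul, Finset.sum_div]
  refine Finset.sum_congr rfl fun j _ => ?_
  rw [mul_pow]
  ring
end AS
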