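import Pool.Agent.Helper513.AS.Defs

set_option autoImplicit false

namespace AS
open Finset

/-- log-concave without internal zeros -/
def C2_PF (a : ℕ → ℚ) : Prop := (∀ n, 0 ≤ a n) ∧ ∀ m n, m ≤ n → a m * a (n + 1) ≤ a (m + 1) * a n

theorem C2_PF_gen {a : ℕ → ℚ} (h : C2_PF a) (s : ℕ) :
    ∀ x n, x ≤ n → a x * a (n + s) ≤ a (x + s) * a n := by
  induction s with
  | zero => intro x n _; simp
  | succ s ih =>
    intro x n hxn
    rcases hxn.lt_or_eq with hlt | rfl
    · calc a x * a (n + (s + 1)) = a x * a ((n + s) + 1) := rfl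
        _ ≤ a (x + 1) * a (n + s) := h.2 x (n + s) (by omega)
        _ ≤ a (x + 1 + s) * a n := ih (x + 1) n hlt
        _ = a (x + (s + 1)) * a n := by
          rw [show x + 1 + s = x + (s + 1) by ring]
    · rw [mul_comm]

theorem C2_PF_gen' {a : ℕ → ℚ} (h : C2_PF a) {x y z w : ℕ} (hxy : x ≤ y) (hxz : x ≤ z)
    (hs : x + w = y + z) : a x * a w ≤ a y * a z := by
  have := C2_PF_gen h (y - x) x z hxz
  rwa [show z + (y - x) = w by omega, show x + (y - x) = y by omega] at this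

def C2_As (a : ℕ → ℚ) (i l : ℕ) : ℚ := if l ≤ i then a (i - l) else 0
def C2_bs (b : ℕ → ℚ) (l : ℕ) : ℚ := if l = 0 then 0 else b (l - 1)
def C2_conv (a b : ℕ → ℚ) (n : ℕ) : ℚ := ∑ l ∈ range (n + 1), a (n - l) * b l

theorem C2_conv_eq (a b : ℕ → ℚ) (i L : ℕ) (hL : i + 1 ≤ L) :
    C2_conv a b i = ∑ l ∈ range L, C2_As a i l * b l := by
  obtain ⟨d, rfl⟩ := Nat.exists_eq_add_of_le hL
  rw [Finset.sum_range_add, C2_conv]
  have h2 : ∑ x ∈ range d, C2_As a i (i + 1 + x) * b (i + 1 + x) = 0 := by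
    apply Finset.sum_eq_zero
    intro x _
    have : ¬ (i + 1 + x ≤ i) := by omega
    simp [C2_As, this]
  rw [h2, add_zero]
  apply Finset.sum_congr rfl
  intro l hl
  have : l ≤ i := by have := Finset.mem_range.mp hl; omega
  simp [C2_As, this]

theorem C2_conv_eq' (a b : ℕ → ℚ) (i L : ℕ) (hL : i + 2 ≤ L) :
    C2_conv a b i = ∑ l ∈ range L, C2_As a (i + 1) l * C2_bs b l := by
  obtain ⟨K, rfl⟩ : ∃ K, L = K + 1 := ⟨L - 1, by omega⟩
  rw [Finset.sum_range_succ', C2_conv_eq a b i K (by omega)]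
  simp [C2_As, C2_bs]

theorem C2_As_le {a : ℕ → ℚ} (h : C2_PF a) {i1 i2 l l' : ℕ} (hi : i1 ≤ i2) (hl : l ≤ l') :
    C2_As a i1 l' * C2_As a i2 l ≤ C2_As a i1 l * C2_As a i2 l' := by
  unfold C2_As
  by_cases h1 : l' ≤ i1
  · rw [if_pos h1, if_pos (by omega), if_pos (by omega), if_pos (by omega)]
    exact C2_PF_gen' h (by omega) (by omega) (by omega)
  · rw [if_neg h1, zero_mul]
    apply mul_nonneg
    · split_ifs
      · exact h.1 _
      · exact le_rfl
    · split_ifs
      · exact h.1 _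
      · exact le_rfl

theorem C2_bs_le {b : ℕ → ℚ} (h : C2_PF b) {l l' : ℕ} (hl : l ≤ l') :
    b l' * C2_bs b l ≤ b l * C2_bs b l' := by
  unfold C2_bs
  by_cases h0 : l = 0
  · rw [if_pos h0, mul_zero]
    apply mul_nonneg (h.1 _)
    split_ifs
    · exact le_rfl
    · exact h.1 _
  · rw [if_neg h0, if_neg (by omega), mul_comm]
    exact C2_PF_gen' h (by omega) (by omega) (by omega)

theorem C2_BC (L : ℕ) (A1 A2 B1 B2 : ℕ → ℚ) (hA : ∀ l l', l ≤ l' → A1 l' * A2 l ≤ A1 l * A2 l')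
    (hB : ∀ l l', l ≤ l' → B1 l' * B2 l ≤ B1 l * B2 l') :
    (∑ l ∈ range L, A1 l * B2 l) * (∑ l ∈ range L, A2 l * B1 l) ≤
      (∑ l ∈ range L, A1 l * B1 l) * (∑ l ∈ range L, A2 l * B2 l) := by
  have key : ∑ l ∈ range L, ∑ l' ∈ range L, (A1 l * A2 l' - A1 l' * A2 l) * (B1 l * B2 l' - B1 l' * B2 l)
      = 2 * ((∑ l ∈ range L, A1 l * B1 l) * (∑ l ∈ range L, A2 l * B2 l)
        - (∑ l ∈ range L, A1 l * B2 l) * (∑ l ∈ range L, A2 l * B1 l)) := by
    have e : ∀ l l', (A1 l * A2 l' - A1 l' * A2 l) * (B1 l * B2 l' - B1 l' * B2 l)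
        = (A1 l * B1 l) * (A2 l' * B2 l') - (A1 l * B2 l) * (A2 l' * B1 l')
          - (A2 l * B1 l) * (A1 l' * B2 l') + (A2 l * B2 l) * (A1 l' * B1 l') := by
      intro l l'; ring
    simp_rw [e, Finset.sum_add_distrib, Finset.sum_sub_distrib, ← Finset.sum_mul_sum]
    ring
  have hpos : 0 ≤ ∑ l ∈ range L, ∑ l' ∈ range L,
      (A1 l * A2 l' - A1 l' * A2 l) * (B1 l * B2 l' - B1 l' * B2 l) := by
    apply Finset.sum_nonneg; intro l _
    apply Finset.sum_nonneg; intro l' _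
    rcases le_total l l' with h | h
    · exact mul_nonneg (sub_nonneg.mpr (hA l l' h)) (sub_nonneg.mpr (hB l l' h))
    · exact mul_nonneg_of_nonpos_of_nonpos (sub_nonpos.mpr (hA l' l h)) (sub_nonpos.mpr (hB l' l h))
  rw [key] at hpos
  linarith

theorem C2_conv_PF {a b : ℕ → ℚ} (ha : C2_PF a) (hb : C2_PF b) : C2_PF (C2_conv a b) := by
  refine ⟨fun n => Finset.sum_nonneg (fun l _ => mul_nonneg (ha.1 _) (hb.1 _)), fun m n hmn => ?_⟩
  rw [C2_conv_eq' a b m (n + 2) (by omega), C2_conv_eq a b (n + 1) (n + 2) (by omega),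
    C2_conv_eq a b (m + 1) (n + 2) (by omega), C2_conv_eq' a b n (n + 2) (by omega)]
  exact C2_BC _ _ _ _ _ (fun l l' h => C2_As_le ha (by omega) h) (fun l l' h => C2_bs_le hb h)

open PowerSeries in
theorem C2_sj_coeff (N : ℕ) : ∀ u : ℕ,
    (sj N u : ℚ) = coeff N ((exp ℚ - 1) ^ u : PowerSeries ℚ) * (N.factorial : ℚ) := by
  induction N with
  | zero =>
    intro u
    cases u with
    | zero => simp [sj]
    | succ u => simp [sj]
  | succ N ih =>
    intro u
    cases u with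
    | zero => simp [sj, PowerSeries.coeff_one]
    | succ u =>
      have hd : derivative ℚ ((exp ℚ - 1) ^ (u + 1)) =
          ((u : ℚ) + 1) • ((exp ℚ - 1) ^ (u + 1) + (exp ℚ - 1) ^ u) := by
        rw [Derivation.leibniz_pow, map_sub, derivative_exp, derivative_one, sub_zero]
        simp only [Nat.add_sub_cancel, smul_eq_mul]
        rw [← Nat.cast_smul_eq_nsmul ℚ]
        push_cast
        congr 1
        ring
      have hc := congrArg (coeff N) hd
      rw [coeff_derivative, coeff_smul, map_add] at hc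
      rw [sj]
      push_cast
      rw [ih (u + 1), ih u, Nat.factorial_succ]
      push_cast
      have : coeff (N + 1) ((exp ℚ - 1) ^ (u + 1)) * (((N : ℚ) + 1) * (N.factorial : ℚ))
        = (coeff (N + 1) ((exp ℚ - 1) ^ (u + 1)) * ((N : ℚ) + 1)) * (N.factorial : ℚ) := by ring
      rw [this, hc, smul_eq_mul]
      ring

open PowerSeries in
theorem C2_PF_exp : C2_PF (fun n => coeff n (exp ℚ - 1 : PowerSeries ℚ)) := by
  have hc : ∀ n, coeff n (exp ℚ - 1 : PowerSeries ℚ) = if n = 0 then 0 else 1 / (n.factorial : ℚ) := by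
    intro n
    rw [map_sub, coeff_exp, PowerSeries.coeff_one]
    split_ifs with h
    · subst h; simp
    · simp
  simp_rw [hc]
  constructor
  · intro n
    show 0 ≤ if n = 0 then 0 else 1 / (n.factorial : ℚ)
    split_ifs
    · exact le_rfl
    · positivity
  · intro m n hmn
    show (if m = 0 then 0 else 1 / (m.factorial : ℚ)) * (if n + 1 = 0 then 0 else 1 / ((n + 1).factorial : ℚ))
      ≤ (if m + 1 = 0 then 0 else 1 / ((m + 1).factorial : ℚ)) * (if n = 0 then 0 else 1 / (n.factorial : ℚ))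
    by_cases h0 : m = 0
    · rw [if_pos h0, zero_mul]
      split_ifs <;> positivity
    · rw [if_neg h0, if_neg (by omega), if_neg (by omega), if_neg (by omega)]
      rw [Nat.factorial_succ, Nat.factorial_succ]
      push_cast
      have h1 : (0:ℚ) < m.factorial := by positivity
      have h2 : (0:ℚ) < n.factorial := by positivity
      have h3 : (m:ℚ) + 1 ≤ (n:ℚ) + 1 := by exact_mod_cast Nat.succ_le_succ hmn
      rw [div_mul_div_comm, div_mul_div_comm, one_mul]
      apply div_le_div_of_nonneg_left (by norm_num) (by positivity)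
      have h4 : 0 ≤ (m.factorial : ℚ) * n.factorial := by positivity
      nlinarith [mul_le_mul_of_nonneg_right h3 h4]

open PowerSeries in
theorem C2_PF_pow (u : ℕ) : C2_PF (fun n => coeff n ((exp ℚ - 1) ^ u : PowerSeries ℚ)) := by
  induction u with
  | zero =>
    simp only [pow_zero, PowerSeries.coeff_one]
    constructor
    · intro n
      show 0 ≤ if n = 0 then (1:ℚ) else 0
      split_ifs <;> norm_num
    · intro m n _
      simp
  | succ u ih =>
    have := C2_conv_PF ih C2_PF_exp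
    convert this using 2 with n
    rw [pow_succ, PowerSeries.coeff_mul, C2_conv, ← Finset.Nat.sum_antidiagonal_swap,
      Finset.Nat.sum_antidiagonal_eq_sum_range_succ_mk]
    rfl

end AS

namespace AS
open Finset
/-- log-concavity in the number of letters of `sj N u / N!` -/
theorem sj_logconcave (N u : ℕ) :
    (N + 1) * sj N u * sj (N + 2) u ≤ (N + 2) * (sj (N + 1) u) ^ 2 := by
  have h := (C2_PF_pow u).2 N (N + 1) (by omega)
  have e0 := C2_sj_coeff N u
  have e1 := C2_sj_coeff (N + 1) u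
  have e2 := C2_sj_coeff (N + 2) u
  have hq : ((N : ℚ) + 1) * sj N u * sj (N + 2) u ≤ ((N : ℚ) + 2) * (sj (N + 1) u) ^ 2 := by
    rw [e0, e1, e2]
    simp only [Nat.factorial_succ] at *
    push_cast
    set p0 := PowerSeries.coeff N ((PowerSeries.exp ℚ - 1) ^ u : PowerSeries ℚ)
    set p1 := PowerSeries.coeff (N + 1) ((PowerSeries.exp ℚ - 1) ^ u : PowerSeries ℚ)
    set p2 := PowerSeries.coeff (N + 2) ((PowerSeries.exp ℚ - 1) ^ u : PowerSeries ℚ)
    have h' : p0 * p2 ≤ p1 * p1 := h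
    have hF : (0:ℚ) ≤ ((N : ℚ) + 1) ^ 2 * ((N : ℚ) + 2) * (N.factorial : ℚ) ^ 2 := by positivity
    have := mul_le_mul_of_nonneg_right h' hF
    calc ((N : ℚ) + 1) * (p0 * N.factorial) * (p2 * (((N : ℚ) + 1 + 1) * (((N : ℚ) + 1) * N.factorial)))
        = p0 * p2 * (((N : ℚ) + 1) ^ 2 * ((N : ℚ) + 2) * (N.factorial : ℚ) ^ 2) := by ring
      _ ≤ p1 * p1 * (((N : ℚ) + 1) ^ 2 * ((N : ℚ) + 2) * (N.factorial : ℚ) ^ 2) := this
      _ = _ := by ring
  exact_mod_cast hq
end AS
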