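import Pool.Agent.Helper513.AS.A1
import Pool.Agent.Helper513.AS.C1
import Pool.Agent.Helper513.AS.C2

set_option autoImplicit false

namespace AS
open Finset Filter Topology





lemma sr5_kappa {s t : ℝ} (hs : 0 < s) (hst : s < t) :
    s * (1 - Real.exp (-t)) < t * (1 - Real.exp (-s)) := by
  have ht : 0 < t := hs.trans hst
  have h1 := strictConvexOn_exp.2 (Set.mem_univ (-t)) (Set.mem_univ 0) (by linarith : (-t) ≠ 0)
    (show 0 < s / t by positivity) (show 0 < 1 - s / t by
      rw [sub_pos, div_lt_one ht]; exact hst) (by ring)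
  simp only [smul_eq_mul, mul_zero, add_zero, Real.exp_zero, mul_one] at h1
  have e1 : s / t * -t = -s := by field_simp
  rw [e1] at h1
  have h2 := mul_lt_mul_of_pos_left h1 ht
  have e2 : t * (s / t * Real.exp (-t) + (1 - s / t)) = s * Real.exp (-t) + t - s := by
    field_simp
    ring
  rw [e2] at h2
  nlinarith

noncomputable def sr5_h (k t : ℝ) : ℝ := Real.log (Real.exp t - 1) - k * Real.log t

lemma sr5_e1 {t : ℝ} (ht : 0 < t) : 0 < Real.exp t - 1 := by
  have := Real.one_lt_exp_iff.2 ht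
  linarith

lemma sr5_hd (k : ℝ) {t : ℝ} (ht : 0 < t) :
    HasDerivAt (sr5_h k) (Real.exp t / (Real.exp t - 1) - k * t⁻¹) t :=
  (((Real.hasDerivAt_exp t).sub_const 1).log (sr5_e1 ht).ne').sub
    ((Real.hasDerivAt_log ht.ne').const_mul k)

lemma sr5_sgn (k : ℝ) {t : ℝ} (ht : 0 < t) :
    Real.exp t / (Real.exp t - 1) - k * t⁻¹ =
      (t - k * (1 - Real.exp (-t))) / (t * (1 - Real.exp (-t))) ∧
      0 < t * (1 - Real.exp (-t)) := by
  have h1 := sr5_e1 ht
  have h2 : 0 < 1 - Real.exp (-t) := by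
    have : Real.exp (-t) < 1 := by rw [Real.exp_lt_one_iff]; linarith
    linarith
  refine ⟨?_, by positivity⟩
  have h3 : Real.exp t / (Real.exp t - 1) = 1 / (1 - Real.exp (-t)) := by
    rw [div_eq_div_iff h1.ne' h2.ne', mul_sub, ← Real.exp_add]
    simp
  rw [h3]
  field_simp

lemma sr5_hlt {k lam : ℝ} (hk : 1 < k) (hlam : 0 < lam) (h : lam = k * (1 - Real.exp (-lam)))
    {x : ℝ} (hx : 0 < x) (hne : x ≠ lam) : sr5_h k lam < sr5_h k x := by
  rcases lt_or_gt_of_ne hne with hlt | hgt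
  · have hanti : StrictAntiOn (sr5_h k) (Set.Ioc 0 lam) := by
      refine strictAntiOn_of_deriv_neg (convex_Ioc 0 lam)
        (fun t ht => (sr5_hd k ht.1).continuousAt.continuousWithinAt) fun t ht => ?_
      rw [interior_Ioc] at ht
      rw [(sr5_hd k ht.1).deriv, (sr5_sgn k ht.1).1]
      refine div_neg_of_neg_of_pos ?_ (sr5_sgn k ht.1).2
      have h1 := sr5_kappa ht.1 ht.2
      have h2 : k * (t * (1 - Real.exp (-lam))) < k * (lam * (1 - Real.exp (-t))) :=
        mul_lt_mul_of_pos_left h1 (by linarith)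
      have h3 : k * (t * (1 - Real.exp (-lam))) = lam * t := by
        calc k * (t * (1 - Real.exp (-lam))) = t * (k * (1 - Real.exp (-lam))) := by ring
          _ = lam * t := by rw [← h]; ring
      rw [h3] at h2
      have h4 : lam * t < lam * (k * (1 - Real.exp (-t))) := by linarith
      have h5 := lt_of_mul_lt_mul_left h4 hlam.le
      linarith
    exact hanti ⟨hx, hlt.le⟩ ⟨hlam, le_rfl⟩ hlt
  · have hmono : StrictMonoOn (sr5_h k) (Set.Ici lam) := by
      refine strictMonoOn_of_deriv_pos (convex_Ici lam)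
        (fun t ht => (sr5_hd k (lt_of_lt_of_le hlam ht)).continuousAt.continuousWithinAt)
        fun t ht => ?_
      rw [interior_Ici] at ht
      have ht0 : 0 < t := hlam.trans ht
      rw [(sr5_hd k ht0).deriv, (sr5_sgn k ht0).1]
      refine div_pos ?_ (sr5_sgn k ht0).2
      have h1 := sr5_kappa hlam (show lam < t from ht)
      have h2 : k * (lam * (1 - Real.exp (-t))) < k * (t * (1 - Real.exp (-lam))) :=
        mul_lt_mul_of_pos_left h1 (by linarith)
      have h3 : k * (t * (1 - Real.exp (-lam))) = lam * t := by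
        calc k * (t * (1 - Real.exp (-lam))) = t * (k * (1 - Real.exp (-lam))) := by ring
          _ = lam * t := by rw [← h]; ring
      rw [h3] at h2
      have h4 : lam * (k * (1 - Real.exp (-t))) < lam * t := by linarith
      have h5 := lt_of_mul_lt_mul_left h4 hlam.le
      linarith
    exact hmono (Set.mem_Ici.2 le_rfl) (Set.mem_Ici.2 hgt.le) hgt

lemma sr5_A (p : ℕ → ℝ) (hp : ∀ M, 0 ≤ p M) {x lam L F Fl : ℝ} (hlam : 0 < lam) (hx : lam < x)
    (hL : x < L) (hFx : HasSum (fun M => p M * x ^ M) F)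
    (hFl : HasSum (fun M => p M * lam ^ M) Fl) (N : ℕ)
    (hr : ∀ M, N ≤ M → L * p (M + 1) ≤ p M) :
    F ≤ (1 + (1 - x / L)⁻¹) * ((x / lam) ^ N * Fl) := by
  have hx0 : 0 < x := hlam.trans hx
  have hL0 : 0 < L := hx0.trans hL
  have hsplit := hFx.summable.sum_add_tsum_nat_add N
  rw [hFx.tsum_eq] at hsplit
  have hq : 1 ≤ x / lam := by rw [le_div_iff₀ hlam]; linarith
  have hxe : ∀ M : ℕ, x ^ M = (x / lam) ^ M * lam ^ M := by
    intro M
    rw [← mul_pow, div_mul_cancel₀ _ hlam.ne']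
  have hterm : ∀ M : ℕ, p M * lam ^ M ≤ Fl := fun M =>
    le_hasSum hFl M fun j _ => mul_nonneg (hp j) (by positivity)
  have h1 : ∑ M ∈ Finset.range N, p M * x ^ M ≤ (x / lam) ^ N * Fl := by
    calc ∑ M ∈ Finset.range N, p M * x ^ M
        ≤ ∑ M ∈ Finset.range N, (x / lam) ^ N * (p M * lam ^ M) := by
          refine Finset.sum_le_sum fun M hM => ?_
          rw [hxe M]
          have h2 : (x / lam) ^ M ≤ (x / lam) ^ N :=
            pow_le_pow_right₀ hq (Finset.mem_range.1 hM).le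
          calc p M * ((x / lam) ^ M * lam ^ M) = (x / lam) ^ M * (p M * lam ^ M) := by ring
            _ ≤ _ := mul_le_mul_of_nonneg_right h2 (mul_nonneg (hp M) (by positivity))
      _ = (x / lam) ^ N * ∑ M ∈ Finset.range N, p M * lam ^ M := by rw [Finset.mul_sum]
      _ ≤ (x / lam) ^ N * Fl := by
          refine mul_le_mul_of_nonneg_left ?_ (by positivity)
          exact sum_le_hasSum _ (fun j _ => mul_nonneg (hp j) (by positivity)) hFl
  have hth0 : 0 ≤ x / L := by positivity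
  have hth1 : x / L < 1 := by rw [div_lt_one hL0]; exact hL
  have h2 : ∀ i : ℕ, p (i + N) * x ^ (i + N) ≤ p N * x ^ N * (x / L) ^ i := by
    intro i
    induction i with
    | zero => simp
    | succ i ih =>
      have h3 := hr (i + N) (by omega)
      have h4 : p (i + 1 + N) ≤ p (i + N) / L := by
        rw [le_div_iff₀ hL0]
        have e : i + 1 + N = i + N + 1 := by ring
        rw [e]
        linarith
      calc p (i + 1 + N) * x ^ (i + 1 + N) ≤ p (i + N) / L * x ^ (i + 1 + N) :=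
            mul_le_mul_of_nonneg_right h4 (by positivity)
        _ = (p (i + N) * x ^ (i + N)) * (x / L) := by
            have e : i + 1 + N = i + N + 1 := by ring
            rw [e, pow_succ]
            ring
        _ ≤ (p N * x ^ N * (x / L) ^ i) * (x / L) := mul_le_mul_of_nonneg_right ih hth0
        _ = _ := by rw [pow_succ]; ring
  have hgeo := (hasSum_geometric_of_lt_one hth0 hth1).mul_left (p N * x ^ N)
  have h3 : ∑' i, p (i + N) * x ^ (i + N) ≤ p N * x ^ N * (1 - x / L)⁻¹ := by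
    rw [← hgeo.tsum_eq]
    exact ((summable_nat_add_iff (f := fun M => p M * x ^ M) N).2 hFx.summable).tsum_le_tsum h2
      hgeo.summable
  have h4 : p N * x ^ N ≤ (x / lam) ^ N * Fl := by
    rw [hxe N]
    calc p N * ((x / lam) ^ N * lam ^ N) = (x / lam) ^ N * (p N * lam ^ N) := by ring
      _ ≤ _ := mul_le_mul_of_nonneg_left (hterm N) (by positivity)
  have h5 : 0 < (1 - x / L)⁻¹ := inv_pos.2 (by linarith)
  have h6 : p N * x ^ N * (1 - x / L)⁻¹ ≤ (x / lam) ^ N * Fl * (1 - x / L)⁻¹ :=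
    mul_le_mul_of_nonneg_right h4 h5.le
  rw [← hsplit]
  linarith

lemma sr5_B (p : ℕ → ℝ) (hp : ∀ M, 0 ≤ p M) {x lam L F Fl : ℝ} (hL0 : 0 < L) (hL : L < x)
    (hx : x < lam) (hFx : HasSum (fun M => p M * x ^ M) F)
    (hFl : HasSum (fun M => p M * lam ^ M) Fl) (N : ℕ)
    (hr : ∀ M, M ≤ N → p M ≤ L * p (M + 1)) :
    F ≤ (1 + (1 - L / x)⁻¹) * ((x / lam) ^ (N + 1) * Fl) := by
  have hx0 : 0 < x := hL0.trans hL
  have hlam : 0 < lam := hx0.trans hx
  have hsplit := hFx.summable.sum_add_tsum_nat_add (N + 1)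
  rw [hFx.tsum_eq] at hsplit
  have hq : x / lam ≤ 1 := by rw [div_le_iff₀ hlam]; linarith
  have hq0 : 0 ≤ x / lam := by positivity
  have hxe : ∀ M : ℕ, x ^ M = (x / lam) ^ M * lam ^ M := by
    intro M
    rw [← mul_pow, div_mul_cancel₀ _ hlam.ne']
  have hterm : ∀ M : ℕ, p M * lam ^ M ≤ Fl := fun M =>
    le_hasSum hFl M fun j _ => mul_nonneg (hp j) (by positivity)
  have hth0 : 0 < L / x := by positivity
  have hth1 : L / x < 1 := by rw [div_lt_one hx0]; exact hL
  have h5 : 0 < (1 - L / x)⁻¹ := inv_pos.2 (by linarith)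
  have h6 : 1 + L / x * (1 - L / x)⁻¹ = (1 - L / x)⁻¹ := by
    have h60 : (1 - L / x) ≠ 0 := by linarith
    calc 1 + L / x * (1 - L / x)⁻¹ = (1 - L / x) * (1 - L / x)⁻¹ + L / x * (1 - L / x)⁻¹ := by
          rw [mul_inv_cancel₀ h60]
      _ = (1 - L / x)⁻¹ := by ring
  have h1 : ∀ j : ℕ, j ≤ N + 1 → ∑ M ∈ Finset.range j, p M * x ^ M ≤
      p j * x ^ j * (L / x * (1 - L / x)⁻¹) := by
    intro j
    induction j with
    | zero =>
      intro _
      have := hp 0
      simp only [Finset.range_zero, Finset.sum_empty]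
      positivity
    | succ j ih =>
      intro hj
      rw [Finset.sum_range_succ]
      have h2 := ih (by omega)
      have h3 : p j * x ^ j ≤ p (j + 1) * x ^ (j + 1) * (L / x) := by
        calc p j * x ^ j ≤ (L * p (j + 1)) * x ^ j :=
              mul_le_mul_of_nonneg_right (hr j (by omega)) (by positivity)
          _ = _ := by rw [pow_succ]; field_simp
      calc ∑ M ∈ Finset.range j, p M * x ^ M + p j * x ^ j
          ≤ p j * x ^ j * (L / x * (1 - L / x)⁻¹) + p j * x ^ j := by linarith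
        _ = p j * x ^ j * (1 + L / x * (1 - L / x)⁻¹) := by ring
        _ = p j * x ^ j * (1 - L / x)⁻¹ := by rw [h6]
        _ ≤ (p (j + 1) * x ^ (j + 1) * (L / x)) * (1 - L / x)⁻¹ :=
            mul_le_mul_of_nonneg_right h3 h5.le
        _ = _ := by ring
  have h4 : p (N + 1) * x ^ (N + 1) ≤ (x / lam) ^ (N + 1) * Fl := by
    rw [hxe (N + 1)]
    calc p (N + 1) * ((x / lam) ^ (N + 1) * lam ^ (N + 1))
        = (x / lam) ^ (N + 1) * (p (N + 1) * lam ^ (N + 1)) := by ring
      _ ≤ _ := mul_le_mul_of_nonneg_left (hterm (N + 1)) (by positivity)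
  have h7 : ∑ M ∈ Finset.range (N + 1), p M * x ^ M ≤
      (x / lam) ^ (N + 1) * Fl * (1 - L / x)⁻¹ := by
    refine (h1 (N + 1) le_rfl).trans ?_
    have h8 : L / x * (1 - L / x)⁻¹ ≤ (1 - L / x)⁻¹ := by linarith
    exact mul_le_mul h4 h8 (by positivity)
      (le_trans (mul_nonneg (hp _) (by positivity)) h4)
  have hs1 : Summable fun i => p (i + (N + 1)) * x ^ (i + (N + 1)) :=
    (summable_nat_add_iff (f := fun M => p M * x ^ M) (N + 1)).2 hFx.summable
  have hs2 : Summable fun i => p (i + (N + 1)) * lam ^ (i + (N + 1)) :=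
    (summable_nat_add_iff (f := fun M => p M * lam ^ M) (N + 1)).2 hFl.summable
  have h8 : ∑' i, p (i + (N + 1)) * lam ^ (i + (N + 1)) ≤ Fl := by
    have h9 := hFl.summable.sum_add_tsum_nat_add (N + 1)
    rw [hFl.tsum_eq] at h9
    have h10 : 0 ≤ ∑ M ∈ Finset.range (N + 1), p M * lam ^ M :=
      Finset.sum_nonneg fun j _ => mul_nonneg (hp j) (by positivity)
    linarith
  have h9 : ∑' i, p (i + (N + 1)) * x ^ (i + (N + 1)) ≤ (x / lam) ^ (N + 1) * Fl := by
    calc ∑' i, p (i + (N + 1)) * x ^ (i + (N + 1))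
        ≤ ∑' i, (x / lam) ^ (N + 1) * (p (i + (N + 1)) * lam ^ (i + (N + 1))) := by
          refine hs1.tsum_le_tsum (fun i => ?_) (hs2.mul_left _)
          rw [hxe (i + (N + 1))]
          have h2 : (x / lam) ^ (i + (N + 1)) ≤ (x / lam) ^ (N + 1) :=
            pow_le_pow_of_le_one hq0 hq (by omega)
          calc p (i + (N + 1)) * ((x / lam) ^ (i + (N + 1)) * lam ^ (i + (N + 1)))
              = (x / lam) ^ (i + (N + 1)) * (p (i + (N + 1)) * lam ^ (i + (N + 1))) := by ring
            _ ≤ _ := mul_le_mul_of_nonneg_right h2 (mul_nonneg (hp _) (by positivity))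
      _ = (x / lam) ^ (N + 1) * ∑' i, p (i + (N + 1)) * lam ^ (i + (N + 1)) := tsum_mul_left
      _ ≤ _ := mul_le_mul_of_nonneg_left h8 (by positivity)
  rw [← hsplit]
  linarith

lemma sr5_fin {k lam x C : ℝ} (hlam : 0 < lam) (hx : 0 < x) (hG : sr5_h k lam < sr5_h k x)
    (hC : 0 < C) (u M : ℕ → ℕ) (hu : Tendsto u atTop atTop)
    (hM : Tendsto (fun n => (M n : ℝ) / u n) atTop (𝓝 k)) :
    ∀ᶠ n in atTop, C * ((x / lam) ^ (M n) * (Real.exp lam - 1) ^ (u n)) <
      (Real.exp x - 1) ^ (u n) := by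
  have hel := sr5_e1 hlam
  have hex := sr5_e1 hx
  set c : ℝ := (Real.exp lam - 1) / (Real.exp x - 1) with hc
  have hc0 : 0 < c := by positivity
  have hq0 : 0 < x / lam := by positivity
  have hG1 : (x / lam) ^ k * c < 1 := by
    have h1 : 0 < (x / lam) ^ k * c := by positivity
    rw [← Real.log_neg_iff h1, Real.log_mul (by positivity) hc0.ne', Real.log_rpow hq0, hc,
      Real.log_div hx.ne' hlam.ne', Real.log_div hel.ne' hex.ne']
    unfold sr5_h at hG
    linarith
  have htend : Tendsto (fun n => (x / lam) ^ ((M n : ℝ) / u n) * c) atTop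
      (𝓝 ((x / lam) ^ k * c)) :=
    (Tendsto.rpow tendsto_const_nhds hM (Or.inl hq0.ne')).mul_const c
  obtain ⟨ρ, hρ1, hρ2⟩ := exists_between hG1
  have hρ0 : 0 < ρ := lt_trans (by positivity) hρ1
  have ev1 : ∀ᶠ n in atTop, (x / lam) ^ ((M n : ℝ) / u n) * c < ρ :=
    htend.eventually (gt_mem_nhds hρ1)
  have ev2 : ∀ᶠ n in atTop, C * ρ ^ (u n) < 1 := by
    have h1 : Tendsto (fun n => C * ρ ^ (u n)) atTop (𝓝 (C * 0)) :=
      ((tendsto_pow_atTop_nhds_zero_of_lt_one hρ0.le hρ2).comp hu).const_mul C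
    rw [mul_zero] at h1
    exact h1.eventually (gt_mem_nhds one_pos)
  have ev3 : ∀ᶠ n in atTop, 1 ≤ u n := hu.eventually (eventually_ge_atTop 1)
  filter_upwards [ev1, ev2, ev3] with n h1 h2 h3
  have hun : (u n : ℝ) ≠ 0 := by
    have : u n ≠ 0 := by omega
    exact_mod_cast this
  have h4 : ((x / lam) ^ ((M n : ℝ) / u n) * c) ^ (u n) = (x / lam) ^ (M n) * c ^ (u n) := by
    rw [mul_pow]
    congr 1
    rw [← Real.rpow_natCast, ← Real.rpow_mul hq0.le, div_mul_cancel₀ _ hun, Real.rpow_natCast]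
  have h5 : (x / lam) ^ (M n) * c ^ (u n) ≤ ρ ^ (u n) := by
    rw [← h4]
    exact pow_le_pow_left₀ (by positivity) h1.le _
  have h6 : C * ((x / lam) ^ (M n) * c ^ (u n)) < 1 :=
    lt_of_le_of_lt (mul_le_mul_of_nonneg_left h5 hC.le) h2
  have h7 : (Real.exp lam - 1) ^ (u n) = c ^ (u n) * (Real.exp x - 1) ^ (u n) := by
    rw [← mul_pow, hc, div_mul_cancel₀ _ hex.ne']
  rw [h7]
  have h8 : 0 < (Real.exp x - 1) ^ (u n) := by positivity
  calc C * ((x / lam) ^ (M n) * (c ^ (u n) * (Real.exp x - 1) ^ (u n)))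
      = (C * ((x / lam) ^ (M n) * c ^ (u n))) * (Real.exp x - 1) ^ (u n) := by ring
    _ < 1 * (Real.exp x - 1) ^ (u n) := mul_lt_mul_of_pos_right h6 h8
    _ = _ := one_mul _

noncomputable def sr5_p (u M : ℕ) : ℝ := (sj M u : ℝ) / (M.factorial : ℝ)

lemma sr5_p0 (u M : ℕ) : 0 ≤ sr5_p u M := by unfold sr5_p; positivity

lemma sr5_ppos {u M : ℕ} (h1 : 1 ≤ u) (h2 : u ≤ M) : 0 < sr5_p u M := by
  unfold sr5_p
  have h3 : (0 : ℝ) < sj M u := by exact_mod_cast sj_pos M u h1 h2
  have h4 : (0 : ℝ) < M.factorial := by exact_mod_cast M.factorial_pos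
  positivity

lemma sr5_pzero {u M : ℕ} (h : M < u) : sr5_p u M = 0 := by
  unfold sr5_p
  rw [sj_zero_of_lt M u h]
  simp

lemma sr5_plc (u M : ℕ) : sr5_p u M * sr5_p u (M + 2) ≤ sr5_p u (M + 1) ^ 2 := by
  have h1 := sj_logconcave M u
  have h2 : ((M : ℝ) + 1) * sj M u * sj (M + 2) u ≤ ((M : ℝ) + 2) * (sj (M + 1) u : ℝ) ^ 2 := by
    exact_mod_cast h1
  unfold sr5_p
  have h4 : (0 : ℝ) < M.factorial := by exact_mod_cast M.factorial_pos
  have e1 : ((M + 1).factorial : ℝ) = (M + 1) * M.factorial := by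
    rw [Nat.factorial_succ]; push_cast; ring
  have e2 : ((M + 2).factorial : ℝ) = (M + 2) * ((M + 1) * M.factorial) := by
    rw [Nat.factorial_succ, Nat.cast_mul, e1]; push_cast; ring
  rw [e1, e2, div_mul_div_comm, div_pow, div_le_div_iff₀ (by positivity) (by positivity)]
  have h5 : (0 : ℝ) ≤ ((M : ℝ) + 1) * M.factorial ^ 2 := by positivity
  have h6 := mul_le_mul_of_nonneg_left h2 h5
  nlinarith

lemma sr5_hs (u : ℕ) (x : ℝ) : HasSum (fun M : ℕ => sr5_p u M * x ^ M) ((Real.exp x - 1) ^ u) := by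
  have h1 := sj_egf u x
  have e : (fun M : ℕ => sr5_p u M * x ^ M) =
      fun N : ℕ => (sj N u : ℝ) * x ^ N / (N.factorial : ℝ) := by
    funext M
    unfold sr5_p
    ring
  rw [e]
  exact h1

theorem sj_ratio (k lam : ℝ) (hk : 1 < k) (hlam : 0 < lam) (h : lam = k * (1 - Real.exp (-lam)))
    (N u : ℕ → ℕ) (hu : Tendsto u atTop atTop)
    (hN : Tendsto (fun n => (N n : ℝ) / u n) atTop (𝓝 k)) :
    Tendsto (fun n => (u n : ℝ) * sj (N n) (u n) / sj (N n + 1) (u n)) atTop
      (𝓝 (1 - Real.exp (-lam))) := by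
  have hk0 : 0 < k := by linarith
  -- eventually `1 ≤ u ≤ N`
  have ev3 : ∀ᶠ n in atTop, 1 ≤ u n := hu.eventually (eventually_ge_atTop 1)
  have ev4 : ∀ᶠ n in atTop, 1 < (N n : ℝ) / u n := hN.eventually (lt_mem_nhds hk)
  have ev5 : ∀ᶠ n in atTop, 1 ≤ u n ∧ u n ≤ N n := by
    filter_upwards [ev3, ev4] with n h1 h2
    have h3 : (0 : ℝ) < u n := by exact_mod_cast h1
    rw [lt_div_iff₀ h3, one_mul] at h2
    exact ⟨h1, by exact_mod_cast h2.le⟩
  have huinv : Tendsto (fun n => (1 : ℝ) / u n) atTop (𝓝 0) :=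
    tendsto_one_div_atTop_nhds_zero_nat.comp hu
  have hN1 : Tendsto (fun n => ((N n + 1 : ℕ) : ℝ) / u n) atTop (𝓝 k) := by
    have h1 := hN.add huinv
    rw [add_zero] at h1
    refine h1.congr fun n => ?_
    push_cast
    rw [add_div]
  set r : ℕ → ℝ := fun n => sr5_p (u n) (N n) / sr5_p (u n) (N n + 1) with hr
  -- upper bound
  have hup : ∀ a, lam < a → ∀ᶠ n in atTop, r n < a := by
    intro a ha
    set x := (lam + a) / 2 with hx
    have hx1 : lam < x := by rw [hx]; linarith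
    have hx2 : x < a := by rw [hx]; linarith
    have hx0 : 0 < x := hlam.trans hx1
    have ha0 : 0 < a := hlam.trans ha
    have hC : 0 < 1 + (1 - x / a)⁻¹ := by
      have h1 : x / a < 1 := by rw [div_lt_one ha0]; exact hx2
      have h2 : 0 < (1 - x / a)⁻¹ := inv_pos.2 (by linarith)
      linarith
    have hfin := sr5_fin hlam hx0 (sr5_hlt hk hlam h hx0 hx1.ne') hC u N hu hN
    filter_upwards [hfin, ev5] with n h1 h2
    by_contra hcon
    have hp1 : 0 < sr5_p (u n) (N n + 1) := sr5_ppos h2.1 (by omega)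
    have h3 : a * sr5_p (u n) (N n + 1) ≤ sr5_p (u n) (N n) := by
      have h4 := not_lt.1 hcon
      simp only [hr] at h4
      rwa [le_div_iff₀ hp1] at h4
    have h4 : ∀ M, N n ≤ M → a * sr5_p (u n) (M + 1) ≤ sr5_p (u n) M := by
      intro M hM
      induction M, hM using Nat.le_induction with
      | base => exact h3
      | succ M hM ih =>
        have h5 := sr5_plc (u n) M
        have h6 : 0 < sr5_p (u n) (M + 1) := sr5_ppos h2.1 (by omega)
        have h7 : a * sr5_p (u n) (M + 1) * sr5_p (u n) (M + 2) ≤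
            sr5_p (u n) M * sr5_p (u n) (M + 2) :=
          mul_le_mul_of_nonneg_right ih (sr5_p0 _ _)
        have h8 : sr5_p (u n) (M + 1) * (a * sr5_p (u n) (M + 2)) ≤
            sr5_p (u n) (M + 1) * sr5_p (u n) (M + 1) := by nlinarith
        exact le_of_mul_le_mul_left h8 h6
    have h5 := sr5_A (sr5_p (u n)) (sr5_p0 (u n)) hlam hx1 hx2 (sr5_hs (u n) x)
      (sr5_hs (u n) lam) (N n) h4
    linarith
  -- lower bound
  have hlo : ∀ a, a < lam → ∀ᶠ n in atTop, a < r n := by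
    intro a ha
    set L := max a (lam / 2) with hL
    have hL1 : L < lam := max_lt ha (by linarith)
    have hL0 : 0 < L := lt_of_lt_of_le (by linarith) (le_max_right _ _)
    set x := (L + lam) / 2 with hx
    have hx1 : L < x := by rw [hx]; linarith
    have hx2 : x < lam := by rw [hx]; linarith
    have hx0 : 0 < x := hL0.trans hx1
    have hC : 0 < 1 + (1 - L / x)⁻¹ := by
      have h1 : L / x < 1 := by rw [div_lt_one hx0]; exact hx1
      have h2 : 0 < (1 - L / x)⁻¹ := inv_pos.2 (by linarith)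
      linarith
    have hfin := sr5_fin hlam hx0 (sr5_hlt hk hlam h hx0 hx2.ne) hC u (fun n => N n + 1) hu hN1
    filter_upwards [hfin, ev5] with n h1 h2
    by_contra hcon
    have hp1 : 0 < sr5_p (u n) (N n + 1) := sr5_ppos h2.1 (by omega)
    have h3 : sr5_p (u n) (N n) ≤ L * sr5_p (u n) (N n + 1) := by
      have h4 : r n ≤ L := (not_lt.1 hcon).trans (le_max_left _ _)
      simp only [hr] at h4
      rwa [div_le_iff₀ hp1] at h4
    have h4 : ∀ j M, M + j = N n → sr5_p (u n) M ≤ L * sr5_p (u n) (M + 1) := by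
      intro j
      induction j with
      | zero =>
        intro M hM
        rw [Nat.add_zero] at hM
        rw [hM]; exact h3
      | succ j ih =>
        intro M hM
        have h5 := ih (M + 1) (by omega)
        have h6 := sr5_plc (u n) M
        rcases Nat.lt_or_ge (M + 2) (u n) with h7 | h7
        · rw [sr5_pzero (show M < u n by omega)]
          exact mul_nonneg hL0.le (sr5_p0 _ _)
        · have h8 : 0 < sr5_p (u n) (M + 2) := sr5_ppos h2.1 h7
          have h9 : sr5_p (u n) (M + 1) * sr5_p (u n) (M + 1) ≤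
              (L * sr5_p (u n) (M + 2)) * sr5_p (u n) (M + 1) :=
            mul_le_mul_of_nonneg_right h5 (sr5_p0 _ _)
          have h10 : sr5_p (u n) (M + 2) * sr5_p (u n) M ≤
              sr5_p (u n) (M + 2) * (L * sr5_p (u n) (M + 1)) := by nlinarith
          exact le_of_mul_le_mul_left h10 h8
    have h5 := sr5_B (sr5_p (u n)) (sr5_p0 (u n)) hL0 hx1 hx2 (sr5_hs (u n) x)
      (sr5_hs (u n) lam) (N n) (fun M hM => h4 (N n - M) M (by omega))
    linarith
  have hrt : Tendsto r atTop (𝓝 lam) := tendsto_order.2 ⟨hlo, hup⟩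
  have hfin2 : Tendsto (fun n => r n * (((N n + 1 : ℕ) : ℝ) / u n)⁻¹) atTop (𝓝 (lam * k⁻¹)) :=
    hrt.mul (hN1.inv₀ hk0.ne')
  have e1 : lam * k⁻¹ = 1 - Real.exp (-lam) := by
    rw [← div_eq_mul_inv, div_eq_iff hk0.ne']
    linarith
  rw [e1] at hfin2
  refine hfin2.congr' ?_
  filter_upwards [ev5] with n h2
  have h3 : (0 : ℝ) < sj (N n + 1) (u n) := by exact_mod_cast sj_pos _ _ h2.1 (by omega)
  have h4 : (0 : ℝ) < (N n).factorial := by exact_mod_cast (N n).factorial_pos
  have h5 : (0 : ℝ) < u n := by exact_mod_cast h2.1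
  simp only [hr, sr5_p]
  rw [Nat.factorial_succ]
  push_cast
  field_simp
end AS
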