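import Pool.Agent.Helper513.AS.A1
import Pool.Agent.Helper513.AS.C3

set_option autoImplicit false

namespace AS
open Finset Filter Topology




/-- real version of `sj` along the family -/
noncomputable def ra (k t g n : ℕ) : ℝ := (sj (n * k - t) (n - g) : ℝ)

/-- real version of `cvr` along the family -/
noncomputable def rs (k t g n : ℕ) : ℝ := (cvr (n * k - t) (n - g) (n - g - 1) : ℝ)

theorem ra_pos (k t g : ℕ) (hk : 2 ≤ k) : ∀ᶠ n : ℕ in atTop, 0 < ra k t g n := by
  filter_upwards [eventually_ge_atTop (t + g + 2)] with n hn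
  unfold ra
  have h1 : n * 2 ≤ n * k := Nat.mul_le_mul_left n hk
  exact_mod_cast sj_pos _ _ (by omega) (by omega)

theorem rs_eq (k t g : ℕ) : ∀ᶠ n : ℕ in atTop, rs k t g n = ra k t g n + ra k t (g + 1) n := by
  filter_upwards [eventually_ge_atTop (g + 2)] with n hn
  unfold rs ra
  have e1 : n - g = (n - g - 1) + 1 := by omega
  have e2 : n - (g + 1) = n - g - 1 := by omega
  rw [e2]
  conv_lhs => rw [e1]
  rw [Nat.add_sub_cancel, cvr_top1, ← e1]
  push_cast
  rfl

theorem tt_sub (g : ℕ) : Tendsto (fun n : ℕ => n - g) atTop atTop := tendsto_sub_atTop_nat g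

theorem tt_const (c : ℝ) : Tendsto (fun n : ℕ => c / (n : ℝ)) atTop (𝓝 0) :=
  tendsto_const_div_atTop_nhds_zero_nat c

theorem tt_ratio (k t g : ℕ) (hk : 2 ≤ k) :
    Tendsto (fun n : ℕ => ((n * k - t : ℕ) : ℝ) / ((n - g : ℕ) : ℝ)) atTop (𝓝 (k : ℝ)) := by
  have h1 : Tendsto (fun n : ℕ => ((k : ℝ) - t / (n : ℝ)) / (1 - g / (n : ℝ))) atTop
      (𝓝 (((k : ℝ) - 0) / (1 - 0))) := by
    refine Tendsto.div (tendsto_const_nhds.sub (tt_const _)) (tendsto_const_nhds.sub (tt_const _)) ?_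
    norm_num
  rw [sub_zero, sub_zero, div_one] at h1
  refine h1.congr' ?_
  filter_upwards [eventually_ge_atTop (t + g + 1)] with n hn
  have hk1 : n * 2 ≤ n * k := Nat.mul_le_mul_left n hk
  have hn0 : (0 : ℝ) < n := by exact_mod_cast (by omega : 0 < n)
  have hng : (0 : ℝ) < (n : ℝ) - g := by
    have : (g : ℝ) < n := by exact_mod_cast (by omega : g < n)
    linarith
  rw [Nat.cast_sub (by omega), Nat.cast_sub (by omega)]
  push_cast
  have e : (1 - (g : ℝ) / n) = (n - g) / n := by field_simp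
  rw [e]
  field_simp

theorem tt_one (g : ℕ) : Tendsto (fun n : ℕ => (n : ℝ) / ((n - g : ℕ) : ℝ)) atTop (𝓝 1) := by
  have h1 : Tendsto (fun n : ℕ => (1 : ℝ) / (1 - g / (n : ℝ))) atTop (𝓝 (1 / (1 - 0))) := by
    refine Tendsto.div tendsto_const_nhds (tendsto_const_nhds.sub (tt_const _)) ?_
    norm_num
  rw [sub_zero, div_one] at h1
  refine h1.congr' ?_
  filter_upwards [eventually_ge_atTop (g + 1)] with n hn
  have hn0 : (0 : ℝ) < n := by exact_mod_cast (by omega : 0 < n)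
  have hng : (0 : ℝ) < (n : ℝ) - g := by
    have : (g : ℝ) < n := by exact_mod_cast (by omega : g < n)
    linarith
  rw [Nat.cast_sub (by omega)]
  have e : (1 - (g : ℝ) / n) = (n - g) / n := by field_simp
  rw [e]
  field_simp

theorem stepA (k : ℕ) (lam : ℝ) (hk : 2 ≤ k) (hlam : 0 < lam)
    (h : lam = k * (1 - Real.exp (-lam))) (t g : ℕ) :
    Tendsto (fun n : ℕ => (n : ℝ) * ra k (t + 1) g n / ra k t g n) atTop
      (𝓝 (1 - Real.exp (-lam))) := by
  have hk1 : (1 : ℝ) < k := by exact_mod_cast (by omega : 1 < k)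
  have h1 := sj_ratio (k : ℝ) lam hk1 hlam h (fun n => n * k - (t + 1)) (fun n => n - g)
    (tt_sub g) (tt_ratio k (t + 1) g hk)
  have h2 := (tt_one g).mul h1
  rw [one_mul] at h2
  refine h2.congr' ?_
  filter_upwards [eventually_ge_atTop (t + g + 2), ra_pos k t g hk] with n hn hpos
  have hk2 : n * 2 ≤ n * k := Nat.mul_le_mul_left n hk
  have e1 : n * k - (t + 1) + 1 = n * k - t := by omega
  have hng : (0 : ℝ) < ((n - g : ℕ) : ℝ) := by exact_mod_cast (by omega : 0 < n - g)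
  rw [e1]
  show (n : ℝ) / ((n - g : ℕ) : ℝ) * (((n - g : ℕ) : ℝ) * ra k (t + 1) g n / ra k t g n) = _
  field_simp

theorem stepB (k : ℕ) (lam : ℝ) (hk : 2 ≤ k) (hlam : 0 < lam)
    (h : lam = k * (1 - Real.exp (-lam))) (hL : 1 - Real.exp (-lam) ≠ 0) (t g : ℕ) :
    Tendsto (fun n : ℕ => ra k t (g + 1) n / ra k t g n) atTop
      (𝓝 ((1 - Real.exp (-lam))⁻¹ - 1)) := by
  have hk1 : (1 : ℝ) < k := by exact_mod_cast (by omega : 1 < k)
  have h1 := sj_ratio (k : ℝ) lam hk1 hlam h (fun n => n * k - t) (fun n => n - g)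
    (tt_sub g) (tt_ratio k t g hk)
  have h2 := (h1.inv₀ hL).sub_const 1
  refine h2.congr' ?_
  filter_upwards [eventually_ge_atTop (t + g + 2), ra_pos k t g hk, ra_pos k t (g + 1) hk]
    with n hn hpos hpos'
  have hng : (0 : ℝ) < ((n - g : ℕ) : ℝ) := by exact_mod_cast (by omega : 0 < n - g)
  have e1 : n - g = (n - g - 1) + 1 := by omega
  have e2 : n - (g + 1) = n - g - 1 := by omega
  have e3 : (sj (n * k - t + 1) (n - g) : ℝ) =
      ((n - g : ℕ) : ℝ) * (ra k t g n + ra k t (g + 1) n) := by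
    unfold ra
    rw [e2]
    have : sj (n * k - t + 1) ((n - g - 1) + 1) =
      ((n - g - 1) + 1) * (sj (n * k - t) ((n - g - 1) + 1) + sj (n * k - t) (n - g - 1)) := by
      rw [sj]
    rw [← e1] at this
    rw [this]
    push_cast
    rfl
  rw [e3]
  show (((n - g : ℕ) : ℝ) * ra k t g n /
    (((n - g : ℕ) : ℝ) * (ra k t g n + ra k t (g + 1) n)))⁻¹ - 1 = _
  field_simp
  ring

theorem stepQ (k : ℕ) (lam : ℝ) (hk : 2 ≤ k) (hlam : 0 < lam)
    (h : lam = k * (1 - Real.exp (-lam))) (hL : 1 - Real.exp (-lam) ≠ 0) (t g : ℕ) :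
    Tendsto (fun n : ℕ => rs k t g n / ra k t g n) atTop (𝓝 (1 - Real.exp (-lam))⁻¹) := by
  have h1 := (stepB k lam hk hlam h hL t g).const_add 1
  have e : 1 + ((1 - Real.exp (-lam))⁻¹ - 1) = (1 - Real.exp (-lam))⁻¹ := by ring
  rw [e] at h1
  refine h1.congr' ?_
  filter_upwards [rs_eq k t g, ra_pos k t g hk] with n hn hpos
  rw [hn, add_div, div_self hpos.ne']

theorem rs_pos (k t g : ℕ) (hk : 2 ≤ k) : ∀ᶠ n : ℕ in atTop, 0 < rs k t g n := by
  filter_upwards [rs_eq k t g, ra_pos k t g hk, ra_pos k t (g + 1) hk] with n hn h1 h2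
  rw [hn]; exact add_pos h1 h2

theorem stepT (k : ℕ) (lam : ℝ) (hk : 2 ≤ k) (hlam : 0 < lam)
    (h : lam = k * (1 - Real.exp (-lam))) (hL : 1 - Real.exp (-lam) ≠ 0) (t g : ℕ) :
    Tendsto (fun n : ℕ => (n : ℝ) * rs k (t + 1) g n / rs k t g n) atTop
      (𝓝 (1 - Real.exp (-lam))) := by
  have h1 := (stepA k lam hk hlam h t g).mul ((stepQ k lam hk hlam h hL (t + 1) g).div
    (stepQ k lam hk hlam h hL t g) (inv_ne_zero hL))
  rw [div_self (inv_ne_zero hL), mul_one] at h1
  refine h1.congr' ?_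
  filter_upwards [ra_pos k t g hk, ra_pos k (t + 1) g hk, rs_pos k t g hk] with n p1 p2 p3
  simp only [Pi.div_apply]
  field_simp

theorem stepG (k : ℕ) (lam : ℝ) (hk : 2 ≤ k) (hlam : 0 < lam)
    (h : lam = k * (1 - Real.exp (-lam))) (hL : 1 - Real.exp (-lam) ≠ 0) (t g : ℕ) :
    Tendsto (fun n : ℕ => rs k t (g + 1) n / rs k t g n) atTop
      (𝓝 ((1 - Real.exp (-lam))⁻¹ - 1)) := by
  have h1 := (stepB k lam hk hlam h hL t g).mul ((stepQ k lam hk hlam h hL t (g + 1)).div
    (stepQ k lam hk hlam h hL t g) (inv_ne_zero hL))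
  rw [div_self (inv_ne_zero hL), mul_one] at h1
  refine h1.congr' ?_
  filter_upwards [ra_pos k t g hk, ra_pos k t (g + 1) hk, rs_pos k t g hk] with n p1 p2 p3
  simp only [Pi.div_apply]
  field_simp

theorem rs_ratio (k : ℕ) (lam : ℝ) (hk : 2 ≤ k) (hlam : 0 < lam)
    (h : lam = k * (1 - Real.exp (-lam))) (hL : 1 - Real.exp (-lam) ≠ 0) (t g t' g' : ℕ) :
    Tendsto (fun n : ℕ => (n : ℝ) ^ t' * rs k (t + t') (g + g') n / rs k t g n) atTop
      (𝓝 ((1 - Real.exp (-lam)) ^ t' * ((1 - Real.exp (-lam))⁻¹ - 1) ^ g')) := by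
  induction t' with
  | zero =>
    simp only [pow_zero, one_mul, Nat.add_zero]
    induction g' with
    | zero =>
      simp only [pow_zero, Nat.add_zero]
      refine tendsto_const_nhds.congr' ?_
      filter_upwards [rs_pos k t g hk] with n hn
      rw [div_self hn.ne']
    | succ g' ih =>
      have h1 := ih.mul (stepG k lam hk hlam h hL t (g + g'))
      rw [← pow_succ] at h1
      refine h1.congr' ?_
      filter_upwards [rs_pos k t g hk, rs_pos k t (g + g') hk] with n p1 p2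
      rw [← Nat.add_assoc]
      field_simp
  | succ t' ih =>
    have h1 := ih.mul (stepT k lam hk hlam h hL (t + t') (g + g'))
    have e : (1 - Real.exp (-lam)) ^ t' * ((1 - Real.exp (-lam))⁻¹ - 1) ^ g' *
        (1 - Real.exp (-lam)) =
        (1 - Real.exp (-lam)) ^ (t' + 1) * ((1 - Real.exp (-lam))⁻¹ - 1) ^ g' := by ring
    rw [e] at h1
    refine h1.congr' ?_
    filter_upwards [rs_pos k t g hk, rs_pos k (t + t') (g + g') hk] with n p1 p2
    rw [← Nat.add_assoc, pow_succ]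
    field_simp

/-- `cvr (n k - t) (n - g) (n - g - 1)` counts the tables with `t` prescribed cells and `g` closed
states which cover all the other states except the initial one -/
theorem cvr_ratio (k : ℕ) (lam : ℝ) (hk : 2 ≤ k) (hlam : 0 < lam)
    (h : lam = k * (1 - Real.exp (-lam))) (t g t' g' : ℕ) :
    Tendsto (fun n : ℕ => (n : ℝ) ^ t' * cvr (n * k - (t + t')) (n - (g + g')) (n - (g + g') - 1)
        / cvr (n * k - t) (n - g) (n - g - 1)) atTop
      (𝓝 ((lam / k) ^ t' / (Real.exp lam - 1) ^ g')) := by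
  have hk0 : (0 : ℝ) < k := by exact_mod_cast (by omega : 0 < k)
  have hexp : Real.exp (-lam) < 1 := by
    rw [← Real.exp_zero]; exact Real.exp_lt_exp.2 (by linarith)
  have hL0 : 0 < 1 - Real.exp (-lam) := by linarith
  have h1 := rs_ratio k lam hk hlam h hL0.ne' t g t' g'
  have e1 : lam / k = 1 - Real.exp (-lam) := by
    rw [div_eq_iff hk0.ne', mul_comm]; exact h
  have hE : 1 < Real.exp lam := by
    rw [← Real.exp_zero]; exact Real.exp_lt_exp.2 hlam
  have e2 : (1 - Real.exp (-lam))⁻¹ - 1 = (Real.exp lam - 1)⁻¹ := by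
    rw [Real.exp_neg] at hL0 ⊢
    have hE0 : Real.exp lam - 1 ≠ 0 := by
      have : 0 < Real.exp lam - 1 := by linarith
      exact this.ne'
    have hE1 : Real.exp lam ≠ 0 := (Real.exp_pos lam).ne'
    have e3 : 1 - (Real.exp lam)⁻¹ = (Real.exp lam - 1) / Real.exp lam := by field_simp
    rw [e3, inv_div]
    field_simp
    ring
  rw [e1, div_eq_mul_inv, ← inv_pow, ← e2]
  exact h1
end AS
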