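import Pool.Agent.Helper513.AS.Defs

set_option autoImplicit false

namespace AS
open Finset

theorem hasSum_tuple {E : Type} (g : E → ℝ) (hg : ∀ e, 0 ≤ g e) (x : ℝ) (hx : HasSum g x) (j : ℕ) :
    HasSum (fun v : Fin j → E => ∏ i, g (v i)) (x ^ j) := by
  induction j with
  | zero =>
    simp only [pow_zero]
    have : (fun v : Fin 0 → E => ∏ i, g (v i)) = fun _ => (1 : ℝ) := by
      funext v; simp
    rw [this]
    have h := hasSum_unique (fun _ : Fin 0 → E => (1 : ℝ))
    simpa using h
  | succ j ih =>
    have h1 : Summable (fun p : E × (Fin j → E) => g p.1 * ∏ i, g (p.2 i)) :=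
      hx.summable.mul_of_nonneg ih.summable (fun e => hg e)
        (fun v => Finset.prod_nonneg fun i _ => hg _)
    have h2 : HasSum (fun p : E × (Fin j → E) => g p.1 * ∏ i, g (p.2 i)) (x * x ^ j) :=
      hx.mul ih h1
    have h3 := (Equiv.hasSum_iff (Fin.consEquiv (fun _ : Fin (j + 1) => E))
      (f := fun v : Fin (j + 1) → E => ∏ i, g (v i)) (a := x ^ (j + 1))).1
    apply h3
    rw [pow_succ']
    convert h2 using 1
    funext p
    simp only [Function.comp]
    rw [Fin.prod_univ_succ]
    rfl

theorem hasSum_list {E : Type} (g : E → ℝ) (hg : ∀ e, 0 ≤ g e) (x : ℝ) (hx : HasSum g x) :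
    HasSum (fun l : List E => if l.length = 0 then 0 else (l.map g).prod / (l.length.factorial : ℝ))
      (Real.exp x - 1) := by
  have h0 : HasSum (fun j : ℕ => x ^ j / (j.factorial : ℝ)) (Real.exp x) := by
    have := NormedSpace.expSeries_div_hasSum_exp (𝔸 := ℝ) x
    rwa [← Real.exp_eq_exp_ℝ] at this
  have h1 : HasSum (fun j : ℕ => if j = 0 then 0 else x ^ j / (j.factorial : ℝ)) (Real.exp x - 1) := by
    have := hasSum_ite_sub_hasSum h0 0
    simpa using this
  have hfib : ∀ j : ℕ, HasSum (fun v : Fin j → E =>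
      (if j = 0 then 0 else (∏ i, g (v i)) / (j.factorial : ℝ)))
      (if j = 0 then 0 else x ^ j / (j.factorial : ℝ)) := by
    intro j
    by_cases hj : j = 0
    · simp only [hj, if_true]
      exact hasSum_zero
    · simp only [hj, if_false]
      exact (hasSum_tuple g hg x hx j).div_const _
  have hs : Summable (fun p : Σ j : ℕ, Fin j → E =>
      (if p.1 = 0 then 0 else (∏ i, g (p.2 i)) / (p.1.factorial : ℝ))) := by
    rw [summable_sigma_of_nonneg]
    · refine ⟨fun j => (hfib j).summable, ?_⟩
      have : (fun j : ℕ => ∑' v : Fin j → E, (if j = 0 then 0 else (∏ i, g (v i)) / (j.factorial : ℝ))) =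
          fun j : ℕ => if j = 0 then 0 else x ^ j / (j.factorial : ℝ) := by
        funext j
        exact (hfib j).tsum_eq
      rw [this]
      exact h1.summable
    · intro p
      split_ifs
      · exact le_rfl
      · exact div_nonneg (Finset.prod_nonneg fun i _ => hg _) (by positivity)
  have h2 : HasSum (fun p : Σ j : ℕ, Fin j → E =>
      (if p.1 = 0 then 0 else (∏ i, g (p.2 i)) / (p.1.factorial : ℝ))) (Real.exp x - 1) :=
    HasSum.sigma_of_hasSum h1 hfib hs
  have h3 := (Equiv.hasSum_iff (List.equivSigmaTuple (α := E))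
    (f := fun p : Σ j : ℕ, Fin j → E =>
      (if p.1 = 0 then 0 else (∏ i, g (p.2 i)) / (p.1.factorial : ℝ))) (a := Real.exp x - 1)).2 h2
  convert h3 using 1
  funext l
  simp only [Function.comp]
  show _ = if l.length = 0 then 0 else (∏ i, g (l.get i)) / (l.length.factorial : ℝ)
  congr 2
  rw [← List.prod_ofFn]
  congr 1
  have : List.ofFn (fun i => g (l.get i)) = (List.ofFn l.get).map g := by
    rw [List.map_ofFn]; rfl
  rw [this, List.ofFn_get]

theorem wt_nonneg (k : ℕ) (lam : ℝ) (h0 : 0 < lam) (m : ℕ) (τ : Tr k m) : 0 ≤ wt k lam m τ := by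
  induction m with
  | zero => exact zero_le_one
  | succ m ih =>
    have hexp : 0 < Real.exp lam - 1 := by
      have := Real.add_one_le_exp lam
      linarith
    rw [wt]
    split_ifs
    · exact le_rfl
    · refine mul_nonneg (div_nonneg (pow_nonneg (div_nonneg h0.le (by positivity)) _)
        (mul_nonneg (by positivity) hexp.le)) ?_
      refine List.prod_nonneg ?_
      intro a ha
      rw [List.mem_map] at ha
      obtain ⟨c, _, rfl⟩ := ha
      exact ih c.2

theorem MF_nonneg {k : ℕ} (m : ℕ) : ∀ (h : List (Fin k) → ℝ) (_ : ∀ v, 0 ≤ h v) (τ : Tr k m),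
    0 ≤ MF m h τ := by
  induction m with
  | zero => intro h hh τ; exact hh []
  | succ m ih =>
    intro h hh τ
    rw [MF]
    refine List.prod_nonneg ?_
    intro a ha
    rw [List.mem_map] at ha
    obtain ⟨c, _, rfl⟩ := ha
    exact ih _ (fun v => hh _) c.2

theorem prod_split {E : Type} (r : ℝ) (a b : E → ℝ) (l : List E) :
    (l.map (fun c => r * a c * b c)).prod = r ^ l.length * (l.map a).prod * (l.map b).prod := by
  induction l with
  | nil => simp
  | cons c l ih =>
    simp only [List.map_cons, List.prod_cons, List.length_cons, ih]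
    ring

/-- generating functional -/
theorem hasSum_MF (k : ℕ) (hk : 1 ≤ k) (lam : ℝ) (h0 : 0 < lam) (m : ℕ) (h : List (Fin k) → ℝ)
    (hh : ∀ v, 0 ≤ h v ∧ h v ≤ 1) :
    HasSum (fun τ : Tr k m => wt k lam m τ * MF m h τ) (Phi k lam m h) ∧
      0 ≤ Phi k lam m h ∧ Phi k lam m h ≤ 1 := by
  induction m generalizing h with
  | zero =>
    refine ⟨?_, (hh []).1, (hh []).2⟩
    show HasSum (fun τ : Unit => (1 : ℝ) * h []) (h [])
    have := hasSum_unique (fun _ : Unit => (1 : ℝ) * h [])
    simpa using this
  | succ m ih =>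
    have hexp : 0 < Real.exp lam - 1 := by
      have := Real.add_one_le_exp lam
      linarith
    have hk0 : (0 : ℝ) < k := by exact_mod_cast hk
    have ih' : ∀ a : Fin k, HasSum (fun τ : Tr k m => wt k lam m τ * MF m (fun v => h (a :: v)) τ)
        (Phi k lam m (fun v => h (a :: v))) ∧ 0 ≤ Phi k lam m (fun v => h (a :: v)) ∧
        Phi k lam m (fun v => h (a :: v)) ≤ 1 := fun a => ih _ (fun v => hh _)
    set x : ℝ := lam / k * ∑ a : Fin k, Phi k lam m (fun v => h (a :: v)) with hx
    have hx0 : 0 ≤ x := mul_nonneg (div_nonneg h0.le hk0.le)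
      (Finset.sum_nonneg fun a _ => (ih' a).2.1)
    have hx1 : x ≤ lam := by
      have : ∑ a : Fin k, Phi k lam m (fun v => h (a :: v)) ≤ k := by
        calc _ ≤ ∑ a : Fin k, (1 : ℝ) := Finset.sum_le_sum fun a _ => (ih' a).2.2
          _ = k := by simp
      calc x ≤ lam / k * k := by
            rw [hx]; gcongr
        _ = lam := by field_simp
    have hPhi : Phi k lam (m + 1) h = (Real.exp x - 1) / (Real.exp lam - 1) := rfl
    refine ⟨?_, ?_, ?_⟩
    · rw [hPhi]
      set g : Fin k × Tr k m → ℝ := fun c =>
        (lam / k) * wt k lam m c.2 * MF m (fun v => h (c.1 :: v)) c.2 with hg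
      have hg0 : ∀ c, 0 ≤ g c := fun c =>
        mul_nonneg (mul_nonneg (div_nonneg h0.le hk0.le) (wt_nonneg k lam h0 m _))
          (MF_nonneg m _ (fun v => (hh _).1) _)
      have hfib : ∀ a : Fin k, HasSum (fun τ : Tr k m => g (a, τ))
          (lam / k * Phi k lam m (fun v => h (a :: v))) := by
        intro a
        have h1 := (ih' a).1.mul_left (lam / k)
        have e : (fun τ : Tr k m => g (a, τ)) = fun τ : Tr k m =>
            lam / k * (wt k lam m τ * MF m (fun v => h (a :: v)) τ) := by
          funext τ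
          simp only [hg]
          ring
        rw [e]
        exact h1
      have hgs : Summable g := by
        rw [summable_prod_of_nonneg (fun c => hg0 c)]
        exact ⟨fun a => (hfib a).summable, Summable.of_finite⟩
      have hgx : HasSum g x := by
        have h1 := hgs.hasSum.prod_fiberwise hfib
        have h2 := hasSum_fintype (fun a : Fin k => lam / k * Phi k lam m (fun v => h (a :: v)))
        have h3 := hgs.hasSum
        have h4 : ∑' b, g b = x := by
          rw [hx, Finset.mul_sum]
          exact h1.unique h2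
        rwa [h4] at h3
      have hl := (hasSum_list g hg0 x hgx).div_const (Real.exp lam - 1)
      show HasSum (fun τ : List (Fin k × Tr k m) => wt k lam (m + 1) τ * MF (m + 1) h τ) _
      have e : (fun τ : List (Fin k × Tr k m) => wt k lam (m + 1) τ * MF (m + 1) h τ) =
          fun l : List (Fin k × Tr k m) => (if l.length = 0 then 0 else
            (l.map g).prod / (l.length.factorial : ℝ)) / (Real.exp lam - 1) := by
       funext l
       show (if (l : List (Fin k × Tr k m)).length = 0 then 0 else
        (lam / k) ^ (l : List (Fin k × Tr k m)).length /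
        (((l : List (Fin k × Tr k m)).length.factorial : ℝ) * (Real.exp lam - 1)) *
        (List.map (fun c : Fin k × Tr k m => wt k lam m c.2) l).prod) *
        (List.map (fun c : Fin k × Tr k m => MF m (fun v => h (c.1 :: v)) c.2) l).prod = _
       split_ifs with hl0
       · simp
       · rw [hg, prod_split]
         have : ((l.length.factorial : ℕ) : ℝ) ≠ 0 := by positivity
         field_simp
      rw [e]
      exact hl
    · rw [hPhi]
      have := Real.add_one_le_exp x
      exact div_nonneg (by linarith) hexp.le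
    · rw [hPhi, div_le_one hexp]
      have := Real.exp_le_exp.2 hx1
      linarith

theorem MF_one {k : ℕ} (m : ℕ) (τ : Tr k m) : MF m (fun _ => (1 : ℝ)) τ = 1 := by
  induction m with
  | zero => rfl
  | succ m ih =>
    rw [MF]
    have : (fun c : Fin k × Tr k m => MF m (fun _ => (1 : ℝ)) c.2) = fun _ => (1 : ℝ) := by
      funext c; exact ih c.2
    rw [this]
    simp

theorem Phi_one (k : ℕ) (hk : 1 ≤ k) (lam : ℝ) (h0 : 0 < lam) (m : ℕ) :
    Phi k lam m (fun _ => (1 : ℝ)) = 1 := by
  induction m with
  | zero => rfl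
  | succ m ih =>
    have hexp : 0 < Real.exp lam - 1 := by
      have := Real.add_one_le_exp lam
      linarith
    have hk0 : (0 : ℝ) < k := by exact_mod_cast hk
    rw [Phi]
    simp only [ih]
    have : lam / k * ∑ _a : Fin k, (1 : ℝ) = lam := by
      simp
      field_simp
    rw [this]
    exact div_self hexp.ne'

theorem hasSum_wt (k : ℕ) (hk : 1 ≤ k) (lam : ℝ) (h0 : 0 < lam) (m : ℕ) :
    HasSum (fun τ : Tr k m => wt k lam m τ) 1 := by
  have h := (hasSum_MF k hk lam h0 m (fun _ => 1) (fun v => ⟨zero_le_one, le_rfl⟩)).1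
  rw [Phi_one k hk lam h0 m] at h
  convert h using 1
  funext τ
  rw [MF_one, mul_one]
end AS
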