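import Pool.Agent.Helper513.AS.D1

set_option autoImplicit false

namespace AS
open Finset


open Classical in
theorem hs_list {E F : Type} (tr : E → F) (g : E → ℝ) (hg : ∀ e, 0 ≤ g e) (G : F → ℝ)
    (H : ∀ f, HasSum (fun e : E => if tr e = f then g e else 0) (G f)) (l : List F) :
    HasSum (fun σ : List E => if σ.map tr = l then (σ.map g).prod else 0) ((l.map G).prod) := by
  induction l with
  | nil =>
    have h1 : HasSum (fun σ : List E => if σ.map tr = [] then (σ.map g).prod else 0)
        ((fun σ : List E => if σ.map tr = [] then (σ.map g).prod else 0) []) := by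
      apply hasSum_single
      intro σ hσ
      rw [if_neg]
      intro h
      exact hσ (List.map_eq_nil_iff.mp h)
    simpa using h1
  | cons f l ih =>
    have hprod_nonneg : ∀ σ : List E, 0 ≤ (σ.map g).prod := by
      intro σ
      apply List.prod_nonneg
      intro x hx
      obtain ⟨e, -, rfl⟩ := List.mem_map.mp hx
      exact hg e
    have hinj : Function.Injective (fun p : E × List E => p.1 :: p.2) := by
      rintro ⟨a, b⟩ ⟨c, d⟩ h
      simp only [List.cons.injEq] at h
      exact Prod.ext h.1 h.2
    have h1 : HasSum (fun p : E × List E => (if tr p.1 = f then g p.1 else 0) *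
        (if p.2.map tr = l then (p.2.map g).prod else 0)) (G f * (l.map G).prod) := by
      have hs : Summable (fun p : E × List E => (if tr p.1 = f then g p.1 else 0) *
          (if p.2.map tr = l then (p.2.map g).prod else 0)) := by
        apply Summable.mul_of_nonneg (H f).summable ih.summable
        · intro e
          show 0 ≤ (if tr e = f then g e else 0)
          split_ifs
          · exact hg e
          · exact le_rfl
        · intro σ
          show 0 ≤ (if σ.map tr = l then (σ.map g).prod else 0)
          split_ifs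
          · exact hprod_nonneg σ
          · exact le_rfl
      exact (H f).mul ih hs
    rw [List.map_cons, List.prod_cons]
    rw [← hinj.hasSum_iff]
    · convert h1 using 1
      funext p
      simp only [Function.comp_apply, List.map_cons, List.cons.injEq, List.prod_cons]
      by_cases hp1 : tr p.1 = f
      · by_cases hp2 : p.2.map tr = l
        · simp [hp1, hp2]
        · simp [hp1, hp2]
      · simp [hp1]
    · intro σ hσ
      cases σ with
      | nil => simp
      | cons e σ => exact absurd ⟨(e, σ), rfl⟩ hσ

open Classical in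
theorem hs_list' {E F : Type} (tr : E → F) (g : E → ℝ) (hg : ∀ e, 0 ≤ g e) (G : F → ℝ)
    (H : ∀ f, HasSum (fun e : E => if tr e = f then g e else 0) (G f)) (l : List F) :
    HasSum (fun σ : List E => @ite ℝ (σ.map tr = l) (Classical.propDecidable _)
      ((σ.map g).prod) 0) ((l.map G).prod) := by
  convert hs_list tr g hg G H l using 3

theorem wt_nonneg_g (k : ℕ) (lam : ℝ) (h0 : 0 < lam) (m : ℕ) (τ : Tr k m) : 0 ≤ wt k lam m τ :=
  wt_nonneg k lam h0 m τ

theorem MF_nonneg_D2 {k : ℕ} : ∀ (m : ℕ) (h : List (Fin k) → ℝ) (_ : ∀ v, 0 ≤ h v) (τ : Tr k m),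
    0 ≤ MF m h τ := by
  intro m
  induction m with
  | zero => intro h hh τ; exact hh []
  | succ m ih =>
    intro h hh τ
    show 0 ≤ (List.map (fun c : Fin k × Tr k m => MF m (fun v => h (c.1 :: v)) c.2) τ).prod
    apply List.prod_nonneg
    intro x hx
    obtain ⟨e, -, rfl⟩ := List.mem_map.mp hx
    exact ih _ (fun v => hh _) _

/-- the coefficient -/
noncomputable def cf (k : ℕ) (lam : ℝ) (j : ℕ) : ℝ :=
  if j = 0 then 0 else (lam / k) ^ j / ((j.factorial : ℝ) * (Real.exp lam - 1))

theorem wtMF_succ {k : ℕ} (lam : ℝ) (m : ℕ) (h : List (Fin k) → ℝ)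
    (l : List (Fin k × Tr k m)) :
    wt k lam (m + 1) l * MF (m + 1) h l = cf k lam l.length *
      (l.map fun c => wt k lam m c.2 * MF m (fun v => h (c.1 :: v)) c.2).prod := by
  have e : (l.map fun c => wt k lam m c.2 * MF m (fun v => h (c.1 :: v)) c.2).prod =
      (l.map fun c => wt k lam m c.2).prod * (l.map fun c => MF m (fun v => h (c.1 :: v)) c.2).prod := by
    induction l with
    | nil => simp
    | cons c l ih => simp only [List.map_cons, List.prod_cons, ih]; ring
  rw [e]
  show (if (l : List (Fin k × Tr k m)).length = 0 then 0 else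
      (lam / k) ^ (l : List (Fin k × Tr k m)).length /
        (((l : List (Fin k × Tr k m)).length.factorial : ℝ) * (Real.exp lam - 1)) *
        (List.map (fun c : Fin k × Tr k m => wt k lam m c.2) l).prod) *
    (List.map (fun c : Fin k × Tr k m => MF m (fun v => h (c.1 :: v)) c.2) l).prod = _
  unfold cf
  split_ifs with h0
  · ring
  · ring

open Classical in
/-- branching property: given the first `m` generations, the subtrees are independent -/
theorem hasSum_trunc (k : ℕ) (hk : 1 ≤ k) (lam : ℝ) (h0 : 0 < lam) (s m : ℕ)
    (h : List (Fin k) → ℝ) (hh : ∀ v, 0 ≤ h v ∧ h v ≤ 1) (τ : Tr k m) :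
    HasSum (fun σ : Tr k (s + m) =>
        if trunc m σ = τ then wt k lam (s + m) σ * MF (s + m) h σ else 0)
      (wt k lam m τ * MF m (fun v => Phi k lam s (fun w => h (v ++ w))) τ) := by
  induction m generalizing h with
  | zero =>
    have h1 := (hasSum_MF k hk lam h0 s h hh).1
    have e1 : wt k lam 0 τ * MF 0 (fun v => Phi k lam s (fun w => h (v ++ w))) τ = Phi k lam s h := by
      show 1 * Phi k lam s (fun w => h ([] ++ w)) = _
      rw [one_mul]
      rfl
    rw [e1]
    have h2 : (fun σ : Tr k (s + 0) => if trunc 0 σ = τ then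
        wt k lam (s + 0) σ * MF (s + 0) h σ else 0) =
        (fun σ : Tr k (s + 0) => wt k lam (s + 0) σ * MF (s + 0) h σ) := by
      funext σ
      rw [if_pos (show trunc 0 σ = τ from rfl)]
    rw [h2]
    exact h1
  | succ m ih =>
    have H : ∀ f : Fin k × Tr k m, HasSum (fun e : Fin k × Tr k (s + m) =>
        if (fun c : Fin k × Tr k (s + m) => (c.1, trunc m c.2)) e = f then
          (fun c : Fin k × Tr k (s + m) => wt k lam (s + m) c.2 * MF (s + m) (fun v => h (c.1 :: v)) c.2) e
        else 0)
        ((fun f : Fin k × Tr k m => wt k lam m f.2 *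
          MF m (fun v => Phi k lam s (fun w => h (f.1 :: (v ++ w)))) f.2) f) := by
      rintro ⟨a, t⟩
      have h1 := ih (fun v => h (a :: v)) (fun v => hh _) t
      have hinj : Function.Injective (fun σ : Tr k (s + m) => (a, σ)) := by
        intro x y hxy
        exact (Prod.ext_iff.mp hxy).2
      rw [← hinj.hasSum_iff]
      · convert h1 using 1
        funext σ
        simp only [Function.comp_apply, Prod.mk.injEq, true_and]
      · rintro ⟨b, σ⟩ hσ
        rw [if_neg]
        intro h2
        simp only [Prod.mk.injEq] at h2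
        exact hσ ⟨σ, by simp [h2.1]⟩
    have hL := hs_list' (fun c : Fin k × Tr k (s + m) => (c.1, trunc m c.2))
      (fun c : Fin k × Tr k (s + m) => wt k lam (s + m) c.2 * MF (s + m) (fun v => h (c.1 :: v)) c.2)
      (fun c => mul_nonneg (wt_nonneg k lam h0 _ _) (MF_nonneg_D2 _ _ (fun v => (hh _).1) _))
      (fun f : Fin k × Tr k m => wt k lam m f.2 *
          MF m (fun v => Phi k lam s (fun w => h (f.1 :: (v ++ w)))) f.2)
      (fun f => by convert H f) τ
    have hL2 := hL.mul_left (cf k lam (List.length (τ : List (Fin k × Tr k m))))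
    have e1 := wtMF_succ lam m (fun v => Phi k lam s (fun w => h (v ++ w))) (τ : List (Fin k × Tr k m))
    have e2 : (cf k lam (List.length (τ : List (Fin k × Tr k m))) *
        (List.map (fun f : Fin k × Tr k m => wt k lam m f.2 *
          MF m (fun v => Phi k lam s (fun w => h (f.1 :: (v ++ w)))) f.2) τ).prod) =
        wt k lam (m + 1) τ * MF (m + 1) (fun v => Phi k lam s (fun w => h (v ++ w))) τ := by
      rw [e1]
      rfl
    rw [e2] at hL2
    suffices hfun : (fun σ : Tr k (s + (m + 1)) =>
        if trunc (m + 1) σ = τ then wt k lam (s + (m + 1)) σ * MF (s + (m + 1)) h σ else 0) =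
      (fun i : Tr k (s + (m + 1)) => cf k lam (List.length (τ : List (Fin k × Tr k m))) *
        if List.map (fun c : Fin k × Tr k (s + m) => (c.1, trunc m c.2)) i = τ then
          (List.map (fun c : Fin k × Tr k (s + m) =>
            wt k lam (s + m) c.2 * MF (s + m) (fun v => h (c.1 :: v)) c.2) i).prod
        else 0) by
      rw [hfun]
      refine Eq.mp (congrArg (fun F => HasSum F _) (funext fun i => ?_)) hL2
      by_cases hi : List.map (fun c : Fin k × Tr k (s + m) => (c.1, trunc m c.2)) i = τ
      · rw [if_pos hi, if_pos hi]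
      · rw [if_neg hi, if_neg hi]
    funext σ
    have e3 := wtMF_succ lam (s + m) h (σ : List (Fin k × Tr k (s + m)))
    by_cases hc : List.map (fun c : Fin k × Tr k (s + m) => (c.1, trunc m c.2)) σ = τ
    · have hc' : trunc (m + 1) σ = τ := hc
      rw [if_pos hc', if_pos hc]
      show wt k lam (s + m + 1) σ * MF (s + m + 1) h σ = _
      rw [e3]
      have hlen : List.length (σ : List (Fin k × Tr k (s + m))) =
          List.length (τ : List (Fin k × Tr k m)) := by
        rw [← hc]
        exact (List.length_map _).symm
      rw [hlen]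
    · have hc' : ¬ trunc (m + 1) σ = τ := hc
      rw [if_neg hc', if_neg hc, mul_zero]
end AS
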