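import Pool.Agent.Helper513.AS.D2

set_option autoImplicit false

namespace AS
open Finset




theorem mem_wd (k m : ℕ) (v : List (Fin k)) : v ∈ wd k m ↔ v.length = m := by
  induction m generalizing v with
  | zero =>
    show v ∈ ({[]} : Finset (List (Fin k))) ↔ v.length = 0
    rw [Finset.mem_singleton, List.length_eq_zero_iff]
  | succ m ih =>
    show v ∈ (Finset.univ ×ˢ wd k m).image (fun p => p.1 :: p.2) ↔ v.length = m + 1
    rw [Finset.mem_image]
    constructor
    · rintro ⟨p, hp, rfl⟩
      rw [Finset.mem_product] at hp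
      rw [List.length_cons, (ih p.2).1 hp.2]
    · intro h
      cases v with
      | nil => simp at h
      | cons a v =>
        refine ⟨(a, v), ?_, rfl⟩
        rw [Finset.mem_product]
        refine ⟨Finset.mem_univ _, (ih v).2 ?_⟩
        simpa using h

theorem cnt_eq_zero {k : ℕ} (m : ℕ) (τ : Tr k m) (v : List (Fin k)) (h : v.length ≠ m) :
    cnt m τ v = 0 := by
  induction m generalizing v with
  | zero =>
    cases v with
    | nil => exact absurd rfl h
    | cons a v => rfl
  | succ m ih =>
    cases v with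
    | nil => rfl
    | cons a v =>
      show (List.map (fun c : Fin k × Tr k m => if c.1 = a then cnt m c.2 v else 0) τ).sum = 0
      refine List.sum_eq_zero ?_
      intro y hy
      obtain ⟨c, -, hc⟩ := List.mem_map.1 hy
      rw [← hc]
      split_ifs
      · exact ih c.2 v (by intro h'; exact h (by rw [List.length_cons, h']))
      · rfl

/-- contribution of one child to `cnt` -/
def h74_c1 {k : ℕ} (m : ℕ) (c : Fin k × Tr k m) : List (Fin k) → ℕ
  | [] => 0
  | a :: v => if c.1 = a then cnt m c.2 v else 0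

theorem MF_eq (k m : ℕ) (h : List (Fin k) → ℝ) (τ : Tr k m) :
    MF m h τ = ∏ v ∈ wd k m, h v ^ cnt m τ v := by
  induction m generalizing h with
  | zero =>
    show h [] = ∏ v ∈ ({[]} : Finset (List (Fin k))), h v ^ cnt 0 τ v
    rw [Finset.prod_singleton]
    show h [] = h [] ^ 1
    rw [pow_one]
  | succ m ih =>
    have key : ∀ l : List (Fin k × Tr k m),
        (List.map (fun c : Fin k × Tr k m => MF m (fun v => h (c.1 :: v)) c.2) l).prod =
        ∏ v ∈ wd k (m + 1), h v ^ cnt (m + 1) (l : Tr k (m + 1)) v := by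
      intro l
      induction l with
      | nil =>
        rw [List.map_nil, List.prod_nil]
        symm
        refine Finset.prod_eq_one ?_
        intro v hv
        have : cnt (m + 1) (([] : List (Fin k × Tr k m)) : Tr k (m + 1)) v = 0 := by
          cases v with
          | nil => rfl
          | cons a v => rfl
        rw [this, pow_zero]
      | cons c l ihl =>
        rw [List.map_cons, List.prod_cons, ihl]
        have e1 : ∀ v, cnt (m + 1) ((c :: l : List (Fin k × Tr k m)) : Tr k (m + 1)) v =
            h74_c1 m c v + cnt (m + 1) (l : Tr k (m + 1)) v := by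
          intro v
          cases v with
          | nil => rfl
          | cons a v => rfl
        have e2 : ∏ v ∈ wd k (m + 1), h v ^ cnt (m + 1) ((c :: l : List (Fin k × Tr k m)) :
            Tr k (m + 1)) v = (∏ v ∈ wd k (m + 1), h v ^ h74_c1 m c v) *
              ∏ v ∈ wd k (m + 1), h v ^ cnt (m + 1) (l : Tr k (m + 1)) v := by
          rw [← Finset.prod_mul_distrib]
          refine Finset.prod_congr rfl ?_
          intro v _
          rw [e1, pow_add]
        rw [e2]
        congr 1
        rw [ih (fun v => h (c.1 :: v)) c.2]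
        show _ = ∏ v ∈ (Finset.univ ×ˢ wd k m).image (fun p : Fin k × List (Fin k) => p.1 :: p.2),
          h v ^ h74_c1 m c v
        rw [Finset.prod_image, Finset.prod_product, Finset.prod_eq_single c.1]
        · refine Finset.prod_congr rfl ?_
          intro v _
          show _ = h (c.1 :: v) ^ (if c.1 = c.1 then cnt m c.2 v else 0)
          rw [if_pos rfl]
        · intro a _ ha
          refine Finset.prod_eq_one ?_
          intro v _
          show h (a :: v) ^ (if c.1 = a then cnt m c.2 v else 0) = 1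
          rw [if_neg (fun h' => ha h'.symm), pow_zero]
        · intro h'
          exact absurd (Finset.mem_univ _) h'
        · rintro ⟨a, v⟩ _ ⟨b, w⟩ _ hab
          simp only [List.cons.injEq] at hab
          exact Prod.ext hab.1 hab.2
    exact key τ

theorem summable_pair (k : ℕ) (hk : 1 ≤ k) (lam : ℝ) (h0 : 0 < lam) (m : ℕ)
    (f : Tr k m × Tr k m → ℝ) (hf : ∀ x, |f x| ≤ 1) :
    Summable (fun x : Tr k m × Tr k m => wt k lam m x.1 * wt k lam m x.2 * f x) := by
  have hw := (hasSum_wt k hk lam h0 m).summable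
  have h1 : Summable (fun x : Tr k m × Tr k m => wt k lam m x.1 * wt k lam m x.2) :=
    hw.mul_of_nonneg hw (fun τ => wt_nonneg k lam h0 m τ) (fun τ => wt_nonneg k lam h0 m τ)
  refine Summable.of_norm_bounded h1 ?_
  intro x
  have h2 := wt_nonneg k lam h0 m x.1
  have h3 := wt_nonneg k lam h0 m x.2
  have h4 : 0 ≤ wt k lam m x.1 * wt k lam m x.2 := mul_nonneg h2 h3
  rw [Real.norm_eq_abs, abs_mul, abs_of_nonneg h4]
  calc wt k lam m x.1 * wt k lam m x.2 * |f x| ≤ wt k lam m x.1 * wt k lam m x.2 * 1 :=
        mul_le_mul_of_nonneg_left (hf x) h4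
    _ = _ := mul_one _

open Classical in
theorem h74_sum (k : ℕ) (hk : 1 ≤ k) (lam : ℝ) (h0 : 0 < lam) (m : ℕ)
    (S : Set (Tr k m × Tr k m)) :
    Summable (fun x : Tr k m × Tr k m => if x ∈ S then wt k lam m x.1 * wt k lam m x.2 else 0) := by
  have h := summable_pair k hk lam h0 m (fun x => if x ∈ S then 1 else 0) (by
    intro x
    split_ifs
    · simp
    · simp)
  refine h.congr ?_
  intro x
  by_cases hx : x ∈ S
  · rw [if_pos hx, if_pos hx, mul_one]
  · rw [if_neg hx, if_neg hx, mul_zero]

theorem P2_mono (k : ℕ) (hk : 1 ≤ k) (lam : ℝ) (h0 : 0 < lam) (m : ℕ)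
    (S S' : Set (Tr k m × Tr k m)) (h : S ⊆ S') : P2 k lam m S ≤ P2 k lam m S' := by
  unfold P2
  refine Summable.tsum_le_tsum ?_ (h74_sum k hk lam h0 m S) (h74_sum k hk lam h0 m S')
  intro x
  have h4 : 0 ≤ wt k lam m x.1 * wt k lam m x.2 :=
    mul_nonneg (wt_nonneg k lam h0 m x.1) (wt_nonneg k lam h0 m x.2)
  by_cases hx : x ∈ S
  · rw [if_pos hx, if_pos (h hx)]
  · rw [if_neg hx]
    split_ifs
    · exact h4
    · exact le_refl _

theorem P2_union (k : ℕ) (hk : 1 ≤ k) (lam : ℝ) (h0 : 0 < lam) (m : ℕ)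
    (S S' : Set (Tr k m × Tr k m)) :
    P2 k lam m (S ∪ S') ≤ P2 k lam m S + P2 k lam m S' ∧
      (Disjoint S S' → P2 k lam m (S ∪ S') = P2 k lam m S + P2 k lam m S') := by
  classical
  have hS := h74_sum k hk lam h0 m S
  have hS' := h74_sum k hk lam h0 m S'
  have hU := h74_sum k hk lam h0 m (S ∪ S')
  constructor
  · unfold P2
    rw [← hS.tsum_add hS']
    refine hU.tsum_le_tsum ?_ (hS.add hS')
    intro x
    have h4 : 0 ≤ wt k lam m x.1 * wt k lam m x.2 :=
      mul_nonneg (wt_nonneg k lam h0 m x.1) (wt_nonneg k lam h0 m x.2)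
    by_cases hx : x ∈ S
    · by_cases hx' : x ∈ S'
      · rw [if_pos (Set.mem_union_left S' hx), if_pos hx, if_pos hx']
        linarith
      · rw [if_pos (Set.mem_union_left S' hx), if_pos hx, if_neg hx']
        linarith
    · by_cases hx' : x ∈ S'
      · rw [if_pos (Set.mem_union_right S hx'), if_neg hx, if_pos hx']
        linarith
      · rw [if_neg (fun h : x ∈ S ∪ S' => h.elim hx hx'), if_neg hx, if_neg hx']
        linarith
  · intro hd
    unfold P2
    rw [← hS.tsum_add hS']
    refine tsum_congr ?_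
    intro x
    by_cases hx : x ∈ S
    · have hx' : x ∉ S' := fun h => Set.disjoint_left.1 hd hx h
      rw [if_pos (Set.mem_union_left S' hx), if_pos hx, if_neg hx', add_zero]
    · by_cases hx' : x ∈ S'
      · rw [if_pos (Set.mem_union_right S hx'), if_neg hx, if_pos hx', zero_add]
      · rw [if_neg (fun h : x ∈ S ∪ S' => h.elim hx hx'), if_neg hx, if_neg hx', add_zero]

theorem P2_univ (k : ℕ) (hk : 1 ≤ k) (lam : ℝ) (h0 : 0 < lam) (m : ℕ) :
    P2 k lam m Set.univ = 1 ∧ ∀ S, 0 ≤ P2 k lam m S ∧ P2 k lam m S ≤ 1 := by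
  classical
  have hw := hasSum_wt k hk lam h0 m
  have h1 : Summable (fun x : Tr k m × Tr k m => wt k lam m x.1 * wt k lam m x.2) :=
    hw.summable.mul_of_nonneg hw.summable (fun τ => wt_nonneg k lam h0 m τ)
      (fun τ => wt_nonneg k lam h0 m τ)
  have h2 : P2 k lam m Set.univ = 1 := by
    unfold P2
    have h3 := (hw.mul hw h1).tsum_eq
    rw [mul_one] at h3
    rw [← h3]
    refine tsum_congr ?_
    intro x
    rw [if_pos (Set.mem_univ x)]
  refine ⟨h2, fun S => ⟨?_, ?_⟩⟩
  · unfold P2
    refine tsum_nonneg ?_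
    intro x
    split_ifs
    · exact mul_nonneg (wt_nonneg k lam h0 m x.1) (wt_nonneg k lam h0 m x.2)
    · exact le_refl _
  · rw [← h2]
    exact P2_mono k hk lam h0 m S Set.univ (Set.subset_univ _)

theorem P2_trunc (k : ℕ) (hk : 1 ≤ k) (lam : ℝ) (h0 : 0 < lam) (s m : ℕ)
    (S : Set (Tr k m × Tr k m)) :
    P2 k lam (s + m) {x | (trunc m x.1, trunc m x.2) ∈ S} = P2 k lam m S := by
  classical
  have hwn : ∀ (m : ℕ) (τ : Tr k m), 0 ≤ wt k lam m τ := fun m τ => wt_nonneg k lam h0 m τ
  -- fibre sums
  have hfib : ∀ τ : Tr k m, HasSum (fun σ : Tr k (s + m) =>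
      if trunc m σ = τ then wt k lam (s + m) σ else 0) (wt k lam m τ) := by
    intro τ
    have h1 := hasSum_trunc k hk lam h0 s m (fun _ => 1) (fun _ => ⟨zero_le_one, le_refl _⟩) τ
    have hMF : ∀ (j : ℕ) (σ : Tr k j), MF j (fun _ => (1 : ℝ)) σ = 1 := by
      intro j σ
      rw [MF_eq]
      exact Finset.prod_eq_one fun v _ => one_pow _
    have hPhi : Phi k lam s (fun _ => (1 : ℝ)) = 1 := by
      have h2 := (hasSum_MF k hk lam h0 s (fun _ => 1) (fun _ => ⟨zero_le_one, le_refl _⟩)).1
      have h3 : (fun τ : Tr k s => wt k lam s τ * MF s (fun _ => (1 : ℝ)) τ) =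
          fun τ => wt k lam s τ := by
        funext σ
        rw [hMF, mul_one]
      rw [h3] at h2
      exact h2.unique (hasSum_wt k hk lam h0 s)
    have h4 : MF m (fun v => Phi k lam s (fun w => (fun _ => (1 : ℝ)) (v ++ w))) τ = 1 := by
      show MF m (fun v => Phi k lam s (fun w => (1 : ℝ))) τ = 1
      rw [hPhi]
      exact hMF m τ
    rw [h4, mul_one] at h1
    have h5 : (fun σ : Tr k (s + m) => if trunc m σ = τ then
        wt k lam (s + m) σ * MF (s + m) (fun _ => (1 : ℝ)) σ else 0) =
        fun σ => if trunc m σ = τ then wt k lam (s + m) σ else 0 := by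
      funext σ
      rw [hMF, mul_one]
    rw [h5] at h1
    exact h1
  let T : Tr k (s + m) × Tr k (s + m) → Tr k m × Tr k m := fun x => (trunc m x.1, trunc m x.2)
  let f : Tr k (s + m) × Tr k (s + m) → ℝ := fun x =>
    if T x ∈ S then wt k lam (s + m) x.1 * wt k lam (s + m) x.2 else 0
  have hf0 : ∀ x, 0 ≤ f x := by
    intro x
    show 0 ≤ (if T x ∈ S then wt k lam (s + m) x.1 * wt k lam (s + m) x.2 else 0)
    split_ifs
    · exact mul_nonneg (hwn _ _) (hwn _ _)
    · exact le_refl _
  have hfs : Summable f := h74_sum k hk lam h0 (s + m) {x | T x ∈ S}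
  let F : (Tr k (s + m) × Tr k (s + m)) → (Tr k m × Tr k m) → ℝ := fun x t =>
    if t = T x then f x else 0
  have hF0 : ∀ x t, 0 ≤ F x t := by
    intro x t
    show 0 ≤ (if t = T x then f x else 0)
    split_ifs
    · exact hf0 x
    · exact le_refl _
  have hFx : ∀ x, HasSum (F x) (f x) := fun x => hasSum_ite_eq (T x) (f x)
  have hFs : Summable (Function.uncurry F) := by
    refine (summable_prod_of_nonneg (f := Function.uncurry F) (fun p => hF0 p.1 p.2)).2 ?_
    refine ⟨fun x => (hFx x).summable, ?_⟩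
    refine hfs.congr ?_
    intro x
    exact (hFx x).tsum_eq.symm
  have hFt : ∀ t : Tr k m × Tr k m, ∑' x, F x t =
      if t ∈ S then wt k lam m t.1 * wt k lam m t.2 else 0 := by
    intro t
    have g1 := hfib t.1
    have g2 := hfib t.2
    have n1 : ∀ (τ : Tr k m) (σ : Tr k (s + m)),
        0 ≤ (if trunc m σ = τ then wt k lam (s + m) σ else 0) := by
      intro τ σ
      split_ifs
      · exact hwn _ _
      · exact le_refl _
    have g3 := g1.mul g2 (g1.summable.mul_of_nonneg g2.summable (n1 t.1) (n1 t.2))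
    by_cases ht : t ∈ S
    · rw [if_pos ht, ← g3.tsum_eq]
      refine tsum_congr ?_
      intro x
      show (if t = T x then f x else 0) = _
      by_cases hx : t = T x
      · rw [if_pos hx]
        show (if T x ∈ S then wt k lam (s + m) x.1 * wt k lam (s + m) x.2 else 0) = _
        rw [if_pos (hx ▸ ht)]
        have e1 : trunc m x.1 = t.1 := by rw [hx]
        have e2 : trunc m x.2 = t.2 := by rw [hx]
        rw [if_pos e1, if_pos e2]
      · rw [if_neg hx]
        by_cases e1 : trunc m x.1 = t.1
        · by_cases e2 : trunc m x.2 = t.2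
          · exact absurd (Prod.ext e1.symm e2.symm) hx
          · rw [if_neg e2, mul_zero]
        · rw [if_neg e1, zero_mul]
    · rw [if_neg ht]
      have : ∀ x, F x t = 0 := by
        intro x
        show (if t = T x then f x else 0) = 0
        by_cases hx : t = T x
        · rw [if_pos hx]
          show (if T x ∈ S then wt k lam (s + m) x.1 * wt k lam (s + m) x.2 else 0) = 0
          rw [if_neg (hx ▸ ht)]
        · rw [if_neg hx]
      rw [tsum_congr this, tsum_zero]
  unfold P2
  calc (∑' x : Tr k (s + m) × Tr k (s + m),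
        if x ∈ {x | (trunc m x.1, trunc m x.2) ∈ S} then
          wt k lam (s + m) x.1 * wt k lam (s + m) x.2 else 0) = ∑' x, f x := rfl
    _ = ∑' x, ∑' t, F x t := tsum_congr fun x => (hFx x).tsum_eq.symm
    _ = ∑' t, ∑' x, F x t := (hFs.tsum_comm).symm
    _ = _ := tsum_congr hFt

theorem h74_sum_pos {α : Type} (l : List α) (f : α → ℕ) :
    0 < (l.map f).sum ↔ ∃ c ∈ l, 0 < f c := by
  induction l with
  | nil => simp
  | cons a l ih =>
    rw [List.map_cons, List.sum_cons]
    constructor
    · intro h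
      by_cases ha : 0 < f a
      · exact ⟨a, List.mem_cons_self, ha⟩
      · have : 0 < (l.map f).sum := by omega
        obtain ⟨c, hc, hc'⟩ := ih.1 this
        exact ⟨c, List.mem_cons_of_mem _ hc, hc'⟩
    · rintro ⟨c, hc, hc'⟩
      rcases List.mem_cons.1 hc with rfl | hc
      · omega
      · have := ih.2 ⟨c, hc, hc'⟩
        omega

theorem h74_cnt_trunc {k s : ℕ} (m : ℕ) (σ : Tr k (s + m)) (v : List (Fin k))
    (h : 0 < cnt (s + m) σ v) : 0 < cnt m (trunc m σ) (v.take m) := by
  induction m generalizing v with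
  | zero =>
    rw [List.take_zero]
    exact Nat.one_pos
  | succ m ih =>
    cases v with
    | nil => exact absurd h (lt_irrefl 0)
    | cons a v =>
      have h' : 0 < (List.map (fun c : Fin k × Tr k (s + m) =>
          if c.1 = a then cnt (s + m) c.2 v else 0) σ).sum := h
      obtain ⟨c, hc, hc'⟩ := (h74_sum_pos (α := Fin k × Tr k (s + m)) σ _).1 h'
      by_cases hca : c.1 = a
      · rw [if_pos hca] at hc'
        have h1 := ih c.2 v hc'
        rw [List.take_succ_cons]
        show 0 < (List.map (fun d : Fin k × Tr k m => if d.1 = a then cnt m d.2 (v.take m) else 0)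
          (List.map (fun c : Fin k × Tr k (s + m) => (c.1, trunc m c.2)) σ)).sum
        refine (h74_sum_pos (α := Fin k × Tr k m) _ _).2 ?_
        refine ⟨(c.1, trunc m c.2), List.mem_map.2 ⟨c, hc, rfl⟩, ?_⟩
        rw [if_pos hca]
        exact h1
      · rw [if_neg hca] at hc'
        exact absurd hc' (lt_irrefl 0)

theorem alive_trunc {k s : ℕ} (m : ℕ) (x : Tr k (s + m) × Tr k (s + m)) (h : alive (s + m) x) :
    alive m (trunc m x.1, trunc m x.2) := by
  obtain ⟨v, h1, h2⟩ := h
  exact ⟨v.take m, h74_cnt_trunc m x.1 v h1, h74_cnt_trunc m x.2 v h2⟩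
end AS
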