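import Pool.Agent.Helper513.AS.D3

set_option autoImplicit false

namespace AS
open Finset








theorem kill_cnt_trunc {k s : ℕ} : ∀ (m : ℕ) (σ : Tr k (s + m)) (w : List (Fin k)),
    0 < cnt (s + m) σ w → 0 < cnt m (trunc m σ) (w.take m) := by
  intro m
  induction m with
  | zero =>
    intro σ w _
    exact Nat.one_pos
  | succ m ih =>
    intro σ w hw
    cases w with
    | nil => exact absurd hw (lt_irrefl 0)
    | cons a v =>
      have hw' : 0 < (List.map (fun c : Fin k × Tr k (s + m) =>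
        if c.1 = a then cnt (s + m) c.2 v else 0) σ).sum := hw
      obtain ⟨x, hx, hx0⟩ := List.sum_pos_iff_exists_pos_nat.1 hw'
      obtain ⟨c, hc, rfl⟩ := List.mem_map.1 hx
      change 0 < (List.map (fun c : Fin k × Tr k m => if c.1 = a then cnt m c.2 (v.take m) else 0)
        (List.map (fun c : Fin k × Tr k (s + m) => (c.1, trunc m c.2)) σ)).sum
      refine List.sum_pos_iff_exists_pos_nat.2 ⟨_, List.mem_map.2
        ⟨(c.1, trunc m c.2), List.mem_map.2 ⟨c, hc, rfl⟩, rfl⟩, ?_⟩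
      beta_reduce at hx0
      by_cases hca : c.1 = a
      · rw [if_pos hca] at hx0
        rw [if_pos hca]
        exact ih c.2 v hx0
      · rw [if_neg hca] at hx0
        exact absurd hx0 (lt_irrefl 0)

theorem kill_MF_01 (k m : ℕ) (h : List (Fin k) → ℝ) (hh : ∀ v, 0 ≤ h v ∧ h v ≤ 1)
    (τ : Tr k m) : 0 ≤ MF m h τ ∧ MF m h τ ≤ 1 := by
  rw [MF_eq]
  exact ⟨Finset.prod_nonneg fun v _ => pow_nonneg (hh v).1 _,
    Finset.prod_le_one (fun v _ => pow_nonneg (hh v).1 _)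
      fun v _ => pow_le_one₀ (hh v).1 (hh v).2⟩

theorem kill_len (k m : ℕ) (τ : Tr k m) (w : List (Fin k))
    (hw : 0 < cnt m τ w) : w.length = m := by
  by_contra hne
  rw [cnt_eq_zero m τ w hne] at hw
  exact lt_irrefl 0 hw

theorem kill_MF_zero (k m : ℕ) (h : List (Fin k) → ℝ) (τ : Tr k m) (w : List (Fin k))
    (hw : 0 < cnt m τ w) (h0 : h w = 0) : MF m h τ = 0 := by
  rw [MF_eq]
  refine Finset.prod_eq_zero ((mem_wd k m w).2 (kill_len k m τ w hw)) ?_
  rw [h0, zero_pow hw.ne']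

open Classical in
/-- the test function -/
noncomputable def kh {k : ℕ} (m : ℕ) (C : Finset (List (Fin k))) (b : Fin k)
    (w : List (Fin k)) : ℝ :=
  if w.take m ∈ C ∧ w.drop m ≠ [b] then 0 else 1

theorem kh_01 {k : ℕ} (m : ℕ) (C : Finset (List (Fin k))) (b : Fin k)
    (w : List (Fin k)) : 0 ≤ kh m C b w ∧ kh m C b w ≤ 1 := by
  unfold kh
  split_ifs <;> norm_num

theorem kh_pos {k : ℕ} (m : ℕ) (C : Finset (List (Fin k))) (b : Fin k)
    (w : List (Fin k)) (h1 : w.take m ∈ C) (h2 : w.drop m ≠ [b]) : kh m C b w = 0 := by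
  unfold kh
  rw [if_pos ⟨h1, h2⟩]

theorem kh_neg {k : ℕ} (m : ℕ) (C : Finset (List (Fin k))) (b : Fin k)
    (w : List (Fin k)) (h1 : ¬ (w.take m ∈ C ∧ w.drop m ≠ [b])) : kh m C b w = 1 := by
  unfold kh
  rw [if_neg h1]

theorem kill_val (k : ℕ) (hk : 2 ≤ k) (lam : ℝ) (h0 : 0 < lam) (m : ℕ)
    (C : Finset (List (Fin k))) (hC : C ⊆ wd k m) (b : Fin k) (τ : Tr k m) :
    MF m (fun v => Phi k lam 1 (fun w => kh m C b (v ++ w))) τ =
      ((Real.exp (lam / k) - 1) / (Real.exp lam - 1)) ^ (∑ v ∈ C, cnt m τ v) := by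
  classical
  have hkR : (0 : ℝ) < k := by
    have : 0 < k := by omega
    exact_mod_cast this
  have hlam : 0 < Real.exp lam - 1 := by
    have := Real.add_one_lt_exp h0.ne'
    linarith
  have hPhi : ∀ v, Phi k lam 1 (fun w => kh m C b (v ++ w)) =
      (Real.exp (lam / k * ∑ a : Fin k, kh m C b (v ++ [a])) - 1) / (Real.exp lam - 1) :=
    fun v => rfl
  have htd : ∀ v ∈ wd k m, ∀ a : Fin k, (v ++ [a]).take m = v ∧ (v ++ [a]).drop m = [a] := by
    intro v hv a
    have hl := (mem_wd k m v).1 hv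
    constructor
    · rw [← hl, List.take_left]
    · rw [← hl, List.drop_left]
  have hin : ∀ v ∈ C, Phi k lam 1 (fun w => kh m C b (v ++ w)) =
      (Real.exp (lam / k) - 1) / (Real.exp lam - 1) := by
    intro v hv
    rw [hPhi]
    have hs : ∑ a : Fin k, kh m C b (v ++ [a]) = 1 := by
      have h1 : ∀ a : Fin k, kh m C b (v ++ [a]) = if a = b then 1 else 0 := by
        intro a
        obtain ⟨e1, e2⟩ := htd v (hC hv) a
        by_cases hab : a = b
        · rw [if_pos hab]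
          apply kh_neg
          rintro ⟨-, h⟩
          rw [e2, hab] at h
          exact h rfl
        · rw [if_neg hab]
          apply kh_pos
          · rw [e1]
            exact hv
          · rw [e2]
            intro h
            exact hab (List.cons.inj h).1
      rw [Finset.sum_congr rfl fun a _ => h1 a, Finset.sum_ite_eq' Finset.univ b,
        if_pos (Finset.mem_univ b)]
    rw [hs, mul_one]
  have hout : ∀ v ∈ wd k m, v ∉ C → Phi k lam 1 (fun w => kh m C b (v ++ w)) = 1 := by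
    intro v hv hvC
    rw [hPhi]
    have hs : ∑ a : Fin k, kh m C b (v ++ [a]) = k := by
      have h1 : ∀ a : Fin k, kh m C b (v ++ [a]) = 1 := by
        intro a
        obtain ⟨e1, e2⟩ := htd v hv a
        apply kh_neg
        rintro ⟨h, -⟩
        rw [e1] at h
        exact hvC h
      rw [Finset.sum_congr rfl fun a _ => h1 a, Finset.sum_const, Finset.card_univ,
        Fintype.card_fin, nsmul_eq_mul, mul_one]
    rw [hs, div_mul_cancel₀ _ hkR.ne', div_self hlam.ne']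
  rw [MF_eq, ← Finset.prod_pow_eq_pow_sum]
  symm
  refine (Finset.prod_congr rfl fun v hv => ?_).trans (Finset.prod_subset hC ?_)
  · rw [← hin v hv]
  · intro v hv hvC
    beta_reduce
    rw [hout v hv hvC, one_pow]

/-- common words -/
noncomputable def kC {k : ℕ} (m : ℕ) (t : Tr k m × Tr k m) : Finset (List (Fin k)) :=
  (wd k m).filter (fun v => 0 < cnt m t.1 v ∧ 0 < cnt m t.2 v)

open Classical in
/-- one factor -/
noncomputable def kF {k : ℕ} (lam : ℝ) (m : ℕ) (C : Finset (List (Fin k))) (b : Fin k)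
    (τ : Tr k m) (σ : Tr k (1 + m)) : ℝ :=
  if trunc m σ = τ then wt k lam (1 + m) σ * MF (1 + m) (kh m C b) σ else 0

theorem kF_nonneg {k : ℕ} (lam : ℝ) (h0 : 0 < lam) (m : ℕ) (C : Finset (List (Fin k)))
    (b : Fin k) (τ : Tr k m) (σ : Tr k (1 + m)) : 0 ≤ kF lam m C b τ σ := by
  unfold kF
  split_ifs
  · exact mul_nonneg (wt_nonneg k lam h0 _ _) (kill_MF_01 k _ _ (kh_01 m C b) σ).1
  · exact le_rfl

theorem kill_hasSum (k : ℕ) (hk : 2 ≤ k) (lam : ℝ) (h0 : 0 < lam) (m : ℕ) (b0 b1 : Fin k)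
    (t : Tr k m × Tr k m) :
    HasSum (fun σ : Tr k (1 + m) × Tr k (1 + m) =>
      kF lam m (kC m t) b0 t.1 σ.1 * kF lam m (kC m t) b1 t.2 σ.2)
      (wt k lam m t.1 * wt k lam m t.2 * ((Real.exp (lam / k) - 1) / (Real.exp lam - 1)) ^
        (∑ v ∈ kC m t, (cnt m t.1 v + cnt m t.2 v))) := by
  have hC : kC m t ⊆ wd k m := Finset.filter_subset _ _
  have h1 : HasSum (fun σ : Tr k (1 + m) => kF lam m (kC m t) b0 t.1 σ)
      (wt k lam m t.1 * ((Real.exp (lam / k) - 1) / (Real.exp lam - 1)) ^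
        (∑ v ∈ kC m t, cnt m t.1 v)) := by
    rw [← kill_val k hk lam h0 m (kC m t) hC b0 t.1]
    exact hasSum_trunc k (by omega) lam h0 1 m (kh m (kC m t) b0) (kh_01 m _ b0) t.1
  have h2 : HasSum (fun σ : Tr k (1 + m) => kF lam m (kC m t) b1 t.2 σ)
      (wt k lam m t.2 * ((Real.exp (lam / k) - 1) / (Real.exp lam - 1)) ^
        (∑ v ∈ kC m t, cnt m t.2 v)) := by
    rw [← kill_val k hk lam h0 m (kC m t) hC b1 t.2]
    exact hasSum_trunc k (by omega) lam h0 1 m (kh m (kC m t) b1) (kh_01 m _ b1) t.2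
  have h3 := h1.mul h2 (h1.summable.mul_of_nonneg h2.summable
    (fun σ => kF_nonneg lam h0 m _ _ _ _) (fun σ => kF_nonneg lam h0 m _ _ _ _))
  have e : wt k lam m t.1 * wt k lam m t.2 * ((Real.exp (lam / k) - 1) / (Real.exp lam - 1)) ^
        (∑ v ∈ kC m t, (cnt m t.1 v + cnt m t.2 v)) =
      wt k lam m t.1 * ((Real.exp (lam / k) - 1) / (Real.exp lam - 1)) ^
        (∑ v ∈ kC m t, cnt m t.1 v) *
      (wt k lam m t.2 * ((Real.exp (lam / k) - 1) / (Real.exp lam - 1)) ^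
        (∑ v ∈ kC m t, cnt m t.2 v)) := by
    rw [Finset.sum_add_distrib, pow_add]
    ring
  rw [e]
  exact h3

theorem kill_dead (k : ℕ) (lam : ℝ) (m : ℕ) (b0 b1 : Fin k) (hb : b0 ≠ b1)
    (t : Tr k m × Tr k m) (σ : Tr k (1 + m) × Tr k (1 + m)) (e1 : trunc m σ.1 = t.1)
    (e2 : trunc m σ.2 = t.2) (hal : alive (1 + m) σ) :
    MF (1 + m) (kh m (kC m t) b0) σ.1 * MF (1 + m) (kh m (kC m t) b1) σ.2 = 0 := by
  obtain ⟨w, hw1, hw2⟩ := hal
  have hwl := kill_len k (1 + m) σ.1 w hw1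
  have ht1 := kill_cnt_trunc (s := 1) m σ.1 w hw1
  have ht2 := kill_cnt_trunc (s := 1) m σ.2 w hw2
  rw [e1] at ht1
  rw [e2] at ht2
  have hC : w.take m ∈ kC m t := by
    refine Finset.mem_filter.2 ⟨(mem_wd k m _).2 ?_, ht1, ht2⟩
    rw [List.length_take, hwl]
    omega
  by_cases hd : w.drop m = [b0]
  · have h2 : w.drop m ≠ [b1] := by
      rw [hd]
      intro h
      exact hb (List.cons.inj h).1
    rw [kill_MF_zero k (1 + m) _ σ.2 w hw2 (kh_pos m _ b1 w hC h2), mul_zero]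
  · rw [kill_MF_zero k (1 + m) _ σ.1 w hw1 (kh_pos m _ b0 w hC hd), zero_mul]

open Classical in
theorem kill_point (k : ℕ) (lam : ℝ) (h0 : 0 < lam) (m : ℕ) (b0 b1 : Fin k) (hb : b0 ≠ b1)
    (S : Set (Tr k m × Tr k m)) (U : Set (Tr k (1 + m) × Tr k (1 + m)))
    (hU : U = {x | (trunc m x.1, trunc m x.2) ∈ S ∧ ¬ alive (1 + m) x})
    (t : Tr k m × Tr k m) (ht : t ∈ S) (σ : Tr k (1 + m) × Tr k (1 + m)) :
    kF lam m (kC m t) b0 t.1 σ.1 * kF lam m (kC m t) b1 t.2 σ.2 ≤
      if t = (trunc m σ.1, trunc m σ.2) then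
        (if σ ∈ U then wt k lam (1 + m) σ.1 * wt k lam (1 + m) σ.2 else 0) else 0 := by
  have hw1 := wt_nonneg k lam h0 (1 + m) σ.1
  have hw2 := wt_nonneg k lam h0 (1 + m) σ.2
  by_cases hteq : t = (trunc m σ.1, trunc m σ.2)
  · have e1 : trunc m σ.1 = t.1 := by rw [hteq]
    have e2 : trunc m σ.2 = t.2 := by rw [hteq]
    rw [if_pos hteq]
    unfold kF
    rw [if_pos e1, if_pos e2]
    by_cases hal : alive (1 + m) σ
    · have h := kill_dead k lam m b0 b1 hb t σ e1 e2 hal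
      have h' : wt k lam (1 + m) σ.1 * MF (1 + m) (kh m (kC m t) b0) σ.1 *
          (wt k lam (1 + m) σ.2 * MF (1 + m) (kh m (kC m t) b1) σ.2) =
          wt k lam (1 + m) σ.1 * wt k lam (1 + m) σ.2 *
          (MF (1 + m) (kh m (kC m t) b0) σ.1 * MF (1 + m) (kh m (kC m t) b1) σ.2) := by ring
      rw [h', h, mul_zero]
      split_ifs
      · exact mul_nonneg hw1 hw2
      · exact le_rfl
    · have hσU : σ ∈ U := by
        rw [hU]
        refine ⟨?_, hal⟩
        rw [← hteq]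
        exact ht
      rw [if_pos hσU]
      obtain ⟨a1, a2⟩ := kill_MF_01 k (1 + m) _ (kh_01 m (kC m t) b0) σ.1
      obtain ⟨c1, c2⟩ := kill_MF_01 k (1 + m) _ (kh_01 m (kC m t) b1) σ.2
      exact mul_le_mul (mul_le_of_le_one_right hw1 a2) (mul_le_of_le_one_right hw2 c2)
        (mul_nonneg hw2 c1) hw1
  · rw [if_neg hteq]
    have h : ¬ (trunc m σ.1 = t.1 ∧ trunc m σ.2 = t.2) := by
      rintro ⟨e1, e2⟩
      exact hteq (Prod.ext e1.symm e2.symm)
    unfold kF
    by_cases e1 : trunc m σ.1 = t.1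
    · have e2 : ¬ trunc m σ.2 = t.2 := fun e2 => h ⟨e1, e2⟩
      rw [if_neg e2, mul_zero]
    · rw [if_neg e1, zero_mul]

theorem kill (k : ℕ) (hk : 2 ≤ k) (lam : ℝ) (h0 : 0 < lam) (B : ℕ) :
    ∃ ε : ℝ, 0 < ε ∧ ∀ (m : ℕ) (S : Set (Tr k m × Tr k m)),
      (∀ x ∈ S, ∑ v ∈ (wd k m).filter (fun v => 0 < cnt m x.1 v ∧ 0 < cnt m x.2 v),
        (cnt m x.1 v + cnt m x.2 v) ≤ B) →
      ε * P2 k lam m S ≤
        P2 k lam (1 + m) {x | (trunc m x.1, trunc m x.2) ∈ S ∧ ¬ alive (1 + m) x} := by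
  classical
  have hkR : (0 : ℝ) < k := by
    have : 0 < k := by omega
    exact_mod_cast this
  have hk1R : (1 : ℝ) ≤ k := by
    have : 1 ≤ k := by omega
    exact_mod_cast this
  have hlam : 0 < Real.exp lam - 1 := by
    have := Real.add_one_lt_exp h0.ne'
    linarith
  have hlk : 0 < lam / k := div_pos h0 hkR
  have hlamk : 0 < Real.exp (lam / k) - 1 := by
    have := Real.add_one_lt_exp hlk.ne'
    linarith
  obtain ⟨κ, hκ⟩ : ∃ κ : ℝ, κ = (Real.exp (lam / k) - 1) / (Real.exp lam - 1) := ⟨_, rfl⟩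
  have hκ0 : 0 < κ := by
    rw [hκ]
    exact div_pos hlamk hlam
  have hκ1 : κ ≤ 1 := by
    rw [hκ, div_le_one hlam]
    have h1 : lam / k ≤ lam := div_le_self h0.le hk1R
    have h2 := Real.exp_le_exp.2 h1
    linarith
  refine ⟨κ ^ B, pow_pos hκ0 B, ?_⟩
  intro m S hS
  obtain ⟨U, hU⟩ : ∃ U : Set (Tr k (1 + m) × Tr k (1 + m)),
      U = {x | (trunc m x.1, trunc m x.2) ∈ S ∧ ¬ alive (1 + m) x} := ⟨_, rfl⟩
  rw [← hU]
  have hb : (⟨0, by omega⟩ : Fin k) ≠ ⟨1, by omega⟩ := by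
    intro h
    exact absurd (Fin.mk.inj h) (by norm_num)
  have hGs : Summable (fun σ : Tr k (1 + m) × Tr k (1 + m) =>
      if σ ∈ U then wt k lam (1 + m) σ.1 * wt k lam (1 + m) σ.2 else 0) := by
    have h := summable_pair k (by omega) lam h0 (1 + m) (fun σ => if σ ∈ U then 1 else 0) (by
      intro x
      split_ifs <;> norm_num)
    refine h.congr fun σ => ?_
    split_ifs <;> simp
  have hG : HasSum (fun σ : Tr k (1 + m) × Tr k (1 + m) =>
      if σ ∈ U then wt k lam (1 + m) σ.1 * wt k lam (1 + m) σ.2 else 0)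
      (P2 k lam (1 + m) U) := hGs.hasSum
  have hG0 : ∀ σ : Tr k (1 + m) × Tr k (1 + m),
      0 ≤ if σ ∈ U then wt k lam (1 + m) σ.1 * wt k lam (1 + m) σ.2 else 0 := by
    intro σ
    split_ifs
    · exact mul_nonneg (wt_nonneg k lam h0 _ _) (wt_nonneg k lam h0 _ _)
    · exact le_rfl
  have hL : κ ^ B * P2 k lam m S = ∑' t : Tr k m × Tr k m,
      κ ^ B * (if t ∈ S then wt k lam m t.1 * wt k lam m t.2 else 0) := by
    rw [tsum_mul_left]
    rfl
  rw [hL]
  refine Real.tsum_le_of_sum_le ?_ ?_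
  · intro t
    refine mul_nonneg (pow_nonneg hκ0.le B) ?_
    split_ifs
    · exact mul_nonneg (wt_nonneg k lam h0 _ _) (wt_nonneg k lam h0 _ _)
    · exact le_rfl
  · intro T
    -- the sums for a single t
    have hF : ∀ t ∈ T, HasSum (fun σ : Tr k (1 + m) × Tr k (1 + m) =>
        if t ∈ S then kF lam m (kC m t) ⟨0, by omega⟩ t.1 σ.1 *
          kF lam m (kC m t) ⟨1, by omega⟩ t.2 σ.2 else 0)
        (if t ∈ S then (wt k lam m t.1 * wt k lam m t.2 * κ ^
        (∑ v ∈ kC m t, (cnt m t.1 v + cnt m t.2 v))) else 0) := by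
      intro t _
      by_cases htS : t ∈ S
      · simp only [if_pos htS]
        rw [hκ]
        exact kill_hasSum k hk lam h0 m _ _ t
      · simp only [if_neg htS]
        exact hasSum_zero
    have hsum := hasSum_sum hF
    have hle := hasSum_le (fun σ => ?_) hsum hG
    · refine le_trans (Finset.sum_le_sum fun t _ => ?_) hle
      by_cases htS : t ∈ S
      · rw [if_pos htS, if_pos htS]
        have h1 : κ ^ B ≤ κ ^ (∑ v ∈ kC m t, (cnt m t.1 v + cnt m t.2 v)) :=
          pow_le_pow_of_le_one hκ0.le hκ1 (hS t htS)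
        rw [mul_comm]
        exact mul_le_mul_of_nonneg_left h1
          (mul_nonneg (wt_nonneg k lam h0 _ _) (wt_nonneg k lam h0 _ _))
      · rw [if_neg htS, if_neg htS, mul_zero]
    · have h1 : ∀ t ∈ T, (if t ∈ S then kF lam m (kC m t) ⟨0, by omega⟩ t.1 σ.1 *
          kF lam m (kC m t) ⟨1, by omega⟩ t.2 σ.2 else 0) ≤
          if t = (trunc m σ.1, trunc m σ.2) then
          (if σ ∈ U then wt k lam (1 + m) σ.1 * wt k lam (1 + m) σ.2 else 0) else 0 := by
        intro t _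
        by_cases htS : t ∈ S
        · rw [if_pos htS]
          exact kill_point k lam h0 m _ _ hb S U hU t htS σ
        · rw [if_neg htS]
          split_ifs
          · exact mul_nonneg (wt_nonneg k lam h0 _ _) (wt_nonneg k lam h0 _ _)
          · exact le_rfl
          · exact le_rfl
      refine (Finset.sum_le_sum h1).trans ?_
      rw [Finset.sum_ite_eq']
      by_cases hT : (trunc m σ.1, trunc m σ.2) ∈ T
      · rw [if_pos hT]
      · rw [if_neg hT]
        exact hG0 σ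
end AS
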