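import Pool.Agent.Helper513.AS.D3

set_option autoImplicit false

namespace AS
open Finset








theorem growth_f (lam : ℝ) (h0 : 0 < lam) : ∃ θ : ℝ, 0 ≤ θ ∧ θ < 1 ∧ ∀ y, 0 ≤ y → y ≤ 1 / 2 →
    (Real.exp (lam * y) - 1) / (Real.exp lam - 1) ≤ θ * y := by
  have hE : lam / 2 + 1 < Real.exp (lam / 2) := Real.add_one_lt_exp (by positivity)
  refine ⟨2 / (Real.exp (lam / 2) + 1), by positivity, ?_, ?_⟩
  · rw [div_lt_one (by positivity)]
    linarith
  · intro y hy0 hy1
    have hc := convexOn_exp.2 (Set.mem_univ (0:ℝ)) (Set.mem_univ (lam / 2))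
      (show 0 ≤ 1 - 2 * y by linarith) (show 0 ≤ 2 * y by linarith) (by ring)
    simp only [smul_eq_mul, mul_zero, zero_add, Real.exp_zero, mul_one] at hc
    have e1 : 2 * y * (lam / 2) = lam * y := by ring
    rw [e1] at hc
    have e2 : Real.exp lam - 1 = (Real.exp (lam / 2) - 1) * (Real.exp (lam / 2) + 1) := by
      have : Real.exp lam = Real.exp (lam / 2) * Real.exp (lam / 2) := by
        rw [← Real.exp_add]; congr 1; ring
      rw [this]; ring
    have e3 : 0 < Real.exp (lam / 2) - 1 := by linarith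
    rw [e2, div_le_iff₀ (by positivity)]
    have e4 : 2 / (Real.exp (lam / 2) + 1) * y *
        ((Real.exp (lam / 2) - 1) * (Real.exp (lam / 2) + 1)) =
        2 * y * (Real.exp (lam / 2) - 1) := by field_simp
    rw [e4]; linarith

theorem growth_Phi01 (k : ℕ) (hk : 1 ≤ k) (lam : ℝ) (h0 : 0 < lam) (m : ℕ)
    (h : List (Fin k) → ℝ) (hh : ∀ v, 0 ≤ h v ∧ h v ≤ 1) :
    0 ≤ Phi k lam m h ∧ Phi k lam m h ≤ 1 :=
  (hasSum_MF k hk lam h0 m h hh).2

theorem growth_y (k : ℕ) (hk : 1 ≤ k) (lam : ℝ) (h0 : 0 < lam) (δ : ℝ) (hδ : 0 < δ) :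
    ∃ s, Phi k lam s (fun _ => 1 / 2) ≤ δ := by
  obtain ⟨θ, hθ0, hθ1, hf⟩ := growth_f lam h0
  have hk' : (k : ℝ) ≠ 0 := by
    have : (1 : ℝ) ≤ k := by exact_mod_cast hk
    positivity
  have key : ∀ s, Phi k lam s (fun _ => 1 / 2) ≤ θ ^ s * (1 / 2) ∧
      Phi k lam s (fun _ => 1 / 2) ≤ 1 / 2 := by
    intro s
    induction s with
    | zero => simp [Phi]
    | succ s ih =>
      have hnn := (growth_Phi01 k hk lam h0 s (fun _ => 1 / 2) (fun _ => by norm_num)).1
      have h1 : Phi k lam (s + 1) (fun _ => 1 / 2) =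
          (Real.exp (lam * Phi k lam s (fun _ => 1 / 2)) - 1) / (Real.exp lam - 1) := by
        show (Real.exp (lam / k * ∑ a : Fin k, Phi k lam s (fun _ => 1 / 2)) - 1) /
          (Real.exp lam - 1) = _
        rw [Finset.sum_const, Finset.card_univ, Fintype.card_fin, nsmul_eq_mul]
        congr 3
        field_simp
      have h2 := hf _ hnn ih.2
      rw [h1]
      constructor
      · refine h2.trans ?_
        calc θ * Phi k lam s (fun _ => 1 / 2) ≤ θ * (θ ^ s * (1 / 2)) :=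
              mul_le_mul_of_nonneg_left ih.1 hθ0
          _ = θ ^ (s + 1) * (1 / 2) := by ring
      · refine h2.trans ?_
        calc θ * Phi k lam s (fun _ => 1 / 2) ≤ 1 * Phi k lam s (fun _ => 1 / 2) :=
              mul_le_mul_of_nonneg_right hθ1.le hnn
          _ ≤ 1 / 2 := by rw [one_mul]; exact ih.2
  obtain ⟨n, hn⟩ := exists_pow_lt_of_lt_one hδ hθ1
  refine ⟨n, (key n).1.trans ?_⟩
  have := pow_nonneg hθ0 n
  linarith

theorem growth_z (k : ℕ) (hk : 1 ≤ k) (lam : ℝ) (h0 : 0 < lam) (s : ℕ) :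
    ∃ z : ℝ, 0 ≤ z ∧ z < 1 ∧ ∀ u : List (Fin k), u.length = s →
      Phi k lam s (fun w => if w = u then 1 / 2 else 1) ≤ z := by
  have hk1 : (1 : ℝ) ≤ k := by exact_mod_cast hk
  have hk' : (0 : ℝ) < k := by linarith
  have hEl : 0 < Real.exp lam - 1 := by
    have := Real.add_one_lt_exp h0.ne'
    linarith
  induction s with
  | zero =>
    refine ⟨1 / 2, by norm_num, by norm_num, fun u hu => ?_⟩
    have : u = [] := List.length_eq_zero_iff.1 hu
    subst this
    simp [Phi]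
  | succ s ih =>
    obtain ⟨z, hz0, hz1, hz⟩ := ih
    refine ⟨(Real.exp (lam / k * (k - 1 + z)) - 1) / (Real.exp lam - 1), ?_, ?_, ?_⟩
    · apply div_nonneg _ hEl.le
      have : 0 ≤ lam / k * (k - 1 + z) := by
        apply mul_nonneg (by positivity)
        linarith
      have := Real.one_le_exp this
      linarith
    · rw [div_lt_one hEl]
      have : lam / k * (k - 1 + z) < lam := by
        calc lam / k * (k - 1 + z) < lam / k * k := by
              apply mul_lt_mul_of_pos_left _ (by positivity)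
              linarith
          _ = lam := by field_simp
      have := Real.exp_lt_exp.2 this
      linarith
    · intro u hu
      obtain ⟨a, u', rfl⟩ : ∃ a u', u = a :: u' := by
        cases u with
        | nil => simp at hu
        | cons a u' => exact ⟨a, u', rfl⟩
      have hu' : u'.length = s := by simpa using hu
      show (Real.exp (lam / k * ∑ b : Fin k, Phi k lam s
        (fun v => if b :: v = a :: u' then 1 / 2 else 1)) - 1) / (Real.exp lam - 1) ≤ _
      have hsum : ∑ b : Fin k, Phi k lam s (fun v => if b :: v = a :: u' then 1 / 2 else 1)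
          ≤ k - 1 + z := by
        calc _ ≤ ∑ b : Fin k, (1 + if b = a then z - 1 else 0) := by
              refine Finset.sum_le_sum fun b _ => ?_
              by_cases hb : b = a
              · subst hb
                rw [if_pos rfl]
                have : (fun v => if b :: v = b :: u' then (1 / 2 : ℝ) else 1) =
                    fun v => if v = u' then 1 / 2 else 1 := by
                  funext v; simp
                rw [this]
                have := hz u' hu'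
                linarith
              · rw [if_neg hb]
                have := (growth_Phi01 k hk lam h0 s
                  (fun v => if b :: v = a :: u' then (1 / 2 : ℝ) else 1)
                  (fun v => by split_ifs <;> norm_num)).2
                linarith
          _ = k - 1 + z := by
              rw [Finset.sum_add_distrib, Finset.sum_const, Finset.card_univ, Fintype.card_fin,
                Finset.sum_ite_eq' Finset.univ a, if_pos (Finset.mem_univ _), nsmul_eq_mul]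
              ring
      apply div_le_div_of_nonneg_right _ hEl.le
      have : lam / k * ∑ b : Fin k, Phi k lam s (fun v => if b :: v = a :: u' then 1 / 2 else 1)
          ≤ lam / k * (k - 1 + z) := mul_le_mul_of_nonneg_left hsum (by positivity)
      have := Real.exp_le_exp.2 this
      linarith

theorem growth_MF_nonneg (k m : ℕ) (h : List (Fin k) → ℝ) (hh : ∀ v, 0 ≤ h v) (τ : Tr k m) :
    0 ≤ MF m h τ := by
  rw [MF_eq]
  exact Finset.prod_nonneg fun v _ => pow_nonneg (hh v) _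

theorem growth_MF_one (k m : ℕ) (τ : Tr k m) : MF m (fun _ : List (Fin k) => (1 : ℝ)) τ = 1 := by
  rw [MF_eq]; simp

theorem growth_MF_le (k m : ℕ) (p : List (Fin k) → ℝ) (hp : ∀ v, 0 ≤ p v ∧ p v ≤ 1)
    (τ : Tr k m) (v : List (Fin k)) (hv : v.length = m) (A : ℕ) (hA : A ≤ cnt m τ v) (z : ℝ)
    (hz : p v ≤ z) (hz1 : z ≤ 1) :
    MF m p τ ≤ z ^ A := by
  rw [MF_eq, ← Finset.mul_prod_erase (wd k m) (fun w => p w ^ cnt m τ w) ((mem_wd k m v).2 hv)]
  have h1 : ∏ w ∈ (wd k m).erase v, p w ^ cnt m τ w ≤ 1 :=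
    Finset.prod_le_one (fun w _ => pow_nonneg (hp w).1 _) (fun w _ => pow_le_one₀ (hp w).1 (hp w).2)
  have h0 : 0 ≤ ∏ w ∈ (wd k m).erase v, p w ^ cnt m τ w :=
    Finset.prod_nonneg fun w _ => pow_nonneg (hp w).1 _
  calc p v ^ cnt m τ v * ∏ w ∈ (wd k m).erase v, p w ^ cnt m τ w ≤ p v ^ cnt m τ v * 1 :=
        mul_le_mul_of_nonneg_left h1 (pow_nonneg (hp v).1 _)
    _ = p v ^ cnt m τ v := mul_one _
    _ ≤ p v ^ A := pow_le_pow_of_le_one (hp v).1 (hp v).2 hA
    _ ≤ z ^ A := pow_le_pow_left₀ (hp v).1 hz A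

theorem growth_MF_hu (k n : ℕ) (σ : Tr k n) (w0 : List (Fin k)) (h : w0.length = n) :
    MF n (fun w => if w = w0 then (1 / 2 : ℝ) else 1) σ = (1 / 2) ^ cnt n σ w0 := by
  rw [MF_eq, Finset.prod_eq_single w0]
  · rw [if_pos rfl]
  · intro b _ hb
    rw [if_neg hb, one_pow]
  · intro hn
    exact absurd ((mem_wd k n w0).2 h) hn

open Classical in
theorem growth_MF_hp (k s m : ℕ) (σ : Tr k (s + m)) (v : List (Fin k)) (h : v.length = m) :
    MF (s + m) (fun w => if v <+: w then (1 / 2 : ℝ) else 1) σ =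
      (1 / 2) ^ (∑ u ∈ wd k s, cnt (s + m) σ (v ++ u)) := by
  rw [MF_eq]
  have hinj : Set.InjOn (fun u => v ++ u) (wd k s : Set (List (Fin k))) := by
    intro a _ b _ hab
    exact List.append_cancel_left hab
  have himg : (wd k s).image (fun u => v ++ u) ⊆ wd k (s + m) := by
    intro w hw
    obtain ⟨u, hu, rfl⟩ := Finset.mem_image.1 hw
    rw [mem_wd] at hu ⊢
    rw [List.length_append, h, hu, Nat.add_comm]
  rw [← Finset.prod_subset himg, Finset.prod_image hinj, ← Finset.prod_pow_eq_pow_sum]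
  · refine Finset.prod_congr rfl fun u _ => ?_
    rw [if_pos (List.prefix_append v u)]
  · intro w hw hnw
    rw [if_neg, one_pow]
    rintro ⟨u, rfl⟩
    apply hnw
    refine Finset.mem_image.2 ⟨u, ?_, rfl⟩
    rw [mem_wd] at hw ⊢
    rw [List.length_append, h] at hw
    omega

theorem growth_pt (k s m M : ℕ) (x : Tr k (s + m) × Tr k (s + m)) (v : List (Fin k))
    (hv : v.length = m) (hx : cm (s + m) x < M) :
    (1 : ℝ) ≤ ∑ u ∈ wd k s, 2 ^ M * (1 / 2 : ℝ) ^ (cnt (s + m) x.1 (v ++ u)) +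
      2 ^ M * (1 / 2) ^ (∑ u ∈ wd k s, cnt (s + m) x.2 (v ++ u)) := by
  have hinj : Set.InjOn (fun u => v ++ u) (wd k s : Set (List (Fin k))) := by
    intro a _ b _ hab
    exact List.append_cancel_left hab
  have himg : (wd k s).image (fun u => v ++ u) ⊆ wd k (s + m) := by
    intro w hw
    obtain ⟨u, hu, rfl⟩ := Finset.mem_image.1 hw
    rw [mem_wd] at hu ⊢
    rw [List.length_append, hv, hu, Nat.add_comm]
  have hpow : ∀ a : ℕ, a < M → (1 : ℝ) ≤ 2 ^ M * (1 / 2) ^ a := by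
    intro a ha
    obtain ⟨c, rfl⟩ := Nat.exists_eq_add_of_le ha.le
    have : (2 : ℝ) ^ (a + c) * (1 / 2) ^ a = 2 ^ c := by
      rw [pow_add, mul_right_comm, ← mul_pow]; norm_num
    rw [this]
    exact one_le_pow₀ (by norm_num)
  by_cases hc : ∃ u ∈ wd k s, cnt (s + m) x.1 (v ++ u) < M
  · obtain ⟨u, hu, hlt⟩ := hc
    have h1 := Finset.single_le_sum
      (f := fun u => (2 : ℝ) ^ M * (1 / 2 : ℝ) ^ (cnt (s + m) x.1 (v ++ u)))
      (fun _ _ => by positivity) hu
    have h2 := hpow _ hlt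
    have h3 : (0 : ℝ) ≤ 2 ^ M * (1 / 2) ^ (∑ u ∈ wd k s, cnt (s + m) x.2 (v ++ u)) := by positivity
    linarith
  · push Not at hc
    have hB : ∑ u ∈ wd k s, cnt (s + m) x.2 (v ++ u) < M := by
      by_contra hcon
      push Not at hcon
      have h1 : ∑ u ∈ wd k s, min (cnt (s + m) x.1 (v ++ u)) (cnt (s + m) x.2 (v ++ u)) ≤
          cm (s + m) x := by
        unfold cm
        have h4 := Finset.sum_image (f := fun w => min (cnt (s + m) x.1 w) (cnt (s + m) x.2 w))
          (g := fun u => v ++ u) (s := wd k s) hinj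
        rw [← h4]
        exact Finset.sum_le_sum_of_subset himg
      have h2 : M ≤ ∑ u ∈ wd k s, min (cnt (s + m) x.1 (v ++ u)) (cnt (s + m) x.2 (v ++ u)) := by
        by_cases hb : ∃ u ∈ wd k s, M ≤ cnt (s + m) x.2 (v ++ u)
        · obtain ⟨u, hu, hub⟩ := hb
          have h5 := Finset.single_le_sum
            (f := fun u => min (cnt (s + m) x.1 (v ++ u)) (cnt (s + m) x.2 (v ++ u)))
            (fun _ _ => Nat.zero_le _) hu
          exact (le_min (hc u hu) hub).trans h5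
        · push Not at hb
          have h5 : ∑ u ∈ wd k s, min (cnt (s + m) x.1 (v ++ u)) (cnt (s + m) x.2 (v ++ u)) =
              ∑ u ∈ wd k s, cnt (s + m) x.2 (v ++ u) :=
            Finset.sum_congr rfl fun u hu => min_eq_right ((hb u hu).le.trans (hc u hu))
          rw [h5]; exact hcon
      omega
    have h2 := hpow _ hB
    have h3 : (0 : ℝ) ≤ ∑ u ∈ wd k s, 2 ^ M * (1 / 2 : ℝ) ^ (cnt (s + m) x.1 (v ++ u)) :=
      Finset.sum_nonneg fun _ _ => by positivity
    linarith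

open Classical in
/-- fibre weight -/
noncomputable def growth_F (k : ℕ) (lam : ℝ) (s m : ℕ) (h : List (Fin k) → ℝ) (τ : Tr k m)
    (σ : Tr k (s + m)) : ℝ :=
  if trunc m σ = τ then wt k lam (s + m) σ * MF (s + m) h σ else 0

/-- fibre total -/
noncomputable def growth_G (k : ℕ) (lam : ℝ) (s m : ℕ) (h : List (Fin k) → ℝ) (τ : Tr k m) : ℝ :=
  MF m (fun v => Phi k lam s (fun w => h (v ++ w))) τ

theorem growth_HF (k : ℕ) (hk : 1 ≤ k) (lam : ℝ) (h0 : 0 < lam) (s m : ℕ)
    (h : List (Fin k) → ℝ) (hh : ∀ v, 0 ≤ h v ∧ h v ≤ 1) (τ : Tr k m) :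
    HasSum (growth_F k lam s m h τ) (wt k lam m τ * growth_G k lam s m h τ) :=
  hasSum_trunc k hk lam h0 s m h hh τ

theorem growth_F_nonneg (k : ℕ) (lam : ℝ) (h0 : 0 < lam) (s m : ℕ)
    (h : List (Fin k) → ℝ) (hh : ∀ v, 0 ≤ h v ∧ h v ≤ 1) (τ : Tr k m) (σ : Tr k (s + m)) :
    0 ≤ growth_F k lam s m h τ σ := by
  unfold growth_F
  split_ifs
  · exact mul_nonneg (wt_nonneg k lam h0 _ σ) (growth_MF_nonneg k _ h (fun v => (hh v).1) σ)
  · exact le_rfl

theorem growth_G_nonneg (k : ℕ) (hk : 1 ≤ k) (lam : ℝ) (h0 : 0 < lam) (s m : ℕ)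
    (h : List (Fin k) → ℝ) (hh : ∀ v, 0 ≤ h v ∧ h v ≤ 1) (τ : Tr k m) :
    0 ≤ growth_G k lam s m h τ :=
  growth_MF_nonneg k m _ (fun v' => (growth_Phi01 k hk lam h0 s _ (fun w => hh _)).1) τ

theorem growth_G_le (k : ℕ) (hk : 1 ≤ k) (lam : ℝ) (h0 : 0 < lam) (s m : ℕ)
    (h : List (Fin k) → ℝ) (hh : ∀ v, 0 ≤ h v ∧ h v ≤ 1) (τ : Tr k m) (v : List (Fin k))
    (hv : v.length = m) (A : ℕ) (hA : A ≤ cnt m τ v) (z : ℝ)
    (hz : Phi k lam s (fun w => h (v ++ w)) ≤ z) (hz1 : z ≤ 1) :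
    growth_G k lam s m h τ ≤ z ^ A :=
  growth_MF_le k m _ (fun v' => growth_Phi01 k hk lam h0 s _ (fun w => hh _)) τ v hv A hA z hz hz1

theorem growth_FF (k : ℕ) (hk : 1 ≤ k) (lam : ℝ) (h0 : 0 < lam) (s m : ℕ) (c : ℝ)
    (h h' : List (Fin k) → ℝ) (hh : ∀ v, 0 ≤ h v ∧ h v ≤ 1) (hh' : ∀ v, 0 ≤ h' v ∧ h' v ≤ 1)
    (τ τ' : Tr k m) :
    HasSum (fun x : Tr k (s + m) × Tr k (s + m) =>
      c * (growth_F k lam s m h τ x.1 * growth_F k lam s m h' τ' x.2))
      (c * ((wt k lam m τ * growth_G k lam s m h τ) *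
        (wt k lam m τ' * growth_G k lam s m h' τ'))) := by
  have H := growth_HF k hk lam h0 s m h hh τ
  have H' := growth_HF k hk lam h0 s m h' hh' τ'
  exact (H.mul H' (H.summable.mul_of_nonneg H'.summable
    (fun σ => growth_F_nonneg k lam h0 s m h hh τ σ)
    (fun σ => growth_F_nonneg k lam h0 s m h' hh' τ' σ))).mul_left c

open Classical in
/-- test functions -/
noncomputable def growth_hp {k : ℕ} (v : List (Fin k)) : List (Fin k) → ℝ :=
  fun w => if v <+: w then (1 / 2 : ℝ) else 1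

/-- test functions -/
noncomputable def growth_hu {k : ℕ} (v u : List (Fin k)) : List (Fin k) → ℝ :=
  fun w => if w = v ++ u then (1 / 2 : ℝ) else 1

/-- test functions -/
noncomputable def growth_h1 {k : ℕ} : List (Fin k) → ℝ := fun _ => (1 : ℝ)

theorem growth_pt2 (k : ℕ) (lam : ℝ) (h0 : 0 < lam) (s m M : ℕ) (τ τ' : Tr k m)
    (v : List (Fin k)) (hv : v.length = m) (x : Tr k (s + m) × Tr k (s + m))
    (hx1 : trunc m x.1 = τ) (hx2 : trunc m x.2 = τ') (hx3 : cm (s + m) x < M) :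
    wt k lam (s + m) x.1 * wt k lam (s + m) x.2 ≤
      ∑ u ∈ wd k s, 2 ^ M * (growth_F k lam s m (growth_hu v u) τ x.1 *
        growth_F k lam s m growth_h1 τ' x.2) +
      2 ^ M * (growth_F k lam s m growth_h1 τ x.1 *
        growth_F k lam s m (growth_hp v) τ' x.2) := by
  have hpt := growth_pt k s m M x v hv hx3
  have hwx : 0 ≤ wt k lam (s + m) x.1 * wt k lam (s + m) x.2 :=
    mul_nonneg (wt_nonneg k lam h0 _ _) (wt_nonneg k lam h0 _ _)
  have hmul := mul_le_mul_of_nonneg_left hpt hwx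
  rw [mul_one] at hmul
  refine hmul.trans (le_of_eq ?_)
  have e1 : ∀ (τ : Tr k m) (σ : Tr k (s + m)), trunc m σ = τ →
      growth_F k lam s m growth_h1 τ σ = wt k lam (s + m) σ := by
    intro τ σ h
    unfold growth_F growth_h1
    rw [if_pos h, growth_MF_one, mul_one]
  rw [mul_add, Finset.mul_sum, e1 τ x.1 hx1, e1 τ' x.2 hx2]
  congr 1
  · refine Finset.sum_congr rfl fun u hu => ?_
    have hlen : (v ++ u).length = s + m := by
      rw [List.length_append, hv, (mem_wd k s u).1 hu, Nat.add_comm]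
    have e2 : growth_F k lam s m (growth_hu v u) τ x.1 =
        wt k lam (s + m) x.1 * (1 / 2) ^ cnt (s + m) x.1 (v ++ u) := by
      unfold growth_F growth_hu
      rw [if_pos hx1, growth_MF_hu k (s + m) x.1 (v ++ u) hlen]
    rw [e2]
    ring
  · have e3 : growth_F k lam s m (growth_hp v) τ' x.2 =
        wt k lam (s + m) x.2 * (1 / 2) ^ (∑ u ∈ wd k s, cnt (s + m) x.2 (v ++ u)) := by
      unfold growth_F growth_hp
      rw [if_pos hx2, growth_MF_hp k s m x.2 v hv]
    rw [e3]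
    ring

open Classical in
theorem growth_P2_le (k : ℕ) (lam : ℝ) (h0 : 0 < lam) (n : ℕ) (S : Set (Tr k n × Tr k n))
    (g : Tr k n × Tr k n → ℝ) (T : ℝ) (hg0 : ∀ x, 0 ≤ g x)
    (hle : ∀ x ∈ S, wt k lam n x.1 * wt k lam n x.2 ≤ g x) (HR : HasSum g T) :
    P2 k lam n S ≤ T := by
  unfold P2
  have hL0 : ∀ x : Tr k n × Tr k n, 0 ≤
      (if x ∈ S then wt k lam n x.1 * wt k lam n x.2 else 0) := by
    intro x
    split_ifs
    · exact mul_nonneg (wt_nonneg k lam h0 _ _) (wt_nonneg k lam h0 _ _)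
    · exact le_rfl
  have hle' : ∀ x : Tr k n × Tr k n,
      (if x ∈ S then wt k lam n x.1 * wt k lam n x.2 else 0) ≤ g x := by
    intro x
    by_cases hx : x ∈ S
    · rw [if_pos hx]; exact hle x hx
    · rw [if_neg hx]; exact hg0 x
  have hLs := Summable.of_nonneg_of_le hL0 hle' HR.summable
  exact hasSum_le hle' hLs.hasSum HR

theorem growth_half (k : ℕ) (hk : 1 ≤ k) (lam : ℝ) (h0 : 0 < lam) (M s A0 : ℕ) (y z : ℝ)
    (hy : Phi k lam s (fun _ => 1 / 2) ≤ y) (hy1 : y ≤ 1) (hz0 : 0 ≤ z) (hz1 : z ≤ 1)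
    (hz : ∀ u : List (Fin k), u.length = s → Phi k lam s (fun w => if w = u then 1 / 2 else 1) ≤ z)
    (hA0 : 1 ≤ A0) (m : ℕ) (τ τ' : Tr k m) (v : List (Fin k)) (h1 : A0 ≤ cnt m τ v)
    (h2 : 1 ≤ cnt m τ' v) :
    P2 k lam (s + m) {x | trunc m x.1 = τ ∧ trunc m x.2 = τ' ∧ cm (s + m) x < M}
      ≤ (((wd k s).card : ℝ) * 2 ^ M * z ^ A0 + 2 ^ M * y) *
        (wt k lam m τ * wt k lam m τ') := by
  have hv : v.length = m := by
    by_contra hcon
    have := cnt_eq_zero m τ v hcon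
    omega
  have hw0 : 0 ≤ wt k lam m τ := wt_nonneg k lam h0 m τ
  have hw0' : 0 ≤ wt k lam m τ' := wt_nonneg k lam h0 m τ'
  have hu01 : ∀ u w : List (Fin k), (0 : ℝ) ≤ growth_hu v u w ∧ growth_hu v u w ≤ 1 := by
    intro u w; unfold growth_hu; split_ifs <;> norm_num
  have hp01 : ∀ w : List (Fin k), (0 : ℝ) ≤ growth_hp v w ∧ growth_hp v w ≤ 1 := by
    intro w; unfold growth_hp; split_ifs <;> norm_num
  have h101 : ∀ w : List (Fin k), (0 : ℝ) ≤ growth_h1 w ∧ growth_h1 w ≤ 1 := by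
    intro w; unfold growth_h1; norm_num
  -- bounds
  have bU : ∀ u ∈ wd k s, growth_G k lam s m (growth_hu v u) τ ≤ z ^ A0 := by
    intro u hu
    refine growth_G_le k hk lam h0 s m _ (hu01 u) τ v hv A0 h1 z ?_ hz1
    have : (fun w => growth_hu v u (v ++ w)) = fun w => if w = u then (1 / 2 : ℝ) else 1 := by
      funext w; simp [growth_hu]
    rw [this]
    exact hz u ((mem_wd k s u).1 hu)
  have bP : growth_G k lam s m (growth_hp v) τ' ≤ y := by
    have := growth_G_le k hk lam h0 s m _ hp01 τ' v hv 1 h2 y ?_ hy1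
    · rwa [pow_one] at this
    · have : (fun w => growth_hp v (v ++ w)) = fun _ => (1 / 2 : ℝ) := by
        funext w; unfold growth_hp; rw [if_pos (List.prefix_append v w)]
      rw [this]
      exact hy
  have b1 : ∀ τ : Tr k m, growth_G k lam s m growth_h1 τ ≤ 1 := by
    intro τ
    have := growth_G_le k hk lam h0 s m _ h101 τ v hv 0 (Nat.zero_le _) 1
      (growth_Phi01 k hk lam h0 s _ (fun w => h101 _)).2 le_rfl
    rwa [pow_zero] at this
  have n1 : ∀ τ : Tr k m, 0 ≤ growth_G k lam s m growth_h1 τ := fun τ =>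
    growth_G_nonneg k hk lam h0 s m _ h101 τ
  have nP : 0 ≤ growth_G k lam s m (growth_hp v) τ' := growth_G_nonneg k hk lam h0 s m _ hp01 τ'
  -- products
  have HR := (hasSum_sum (s := wd k s) fun u _ =>
    growth_FF k hk lam h0 s m (2 ^ M) (growth_hu v u) growth_h1 (hu01 u) h101 τ τ').add
    (growth_FF k hk lam h0 s m (2 ^ M) growth_h1 (growth_hp v) h101 hp01 τ τ')
  have hWW : 0 ≤ wt k lam m τ * wt k lam m τ' := mul_nonneg hw0 hw0'
  have t1 : ∀ u ∈ wd k s, 2 ^ M * ((wt k lam m τ * growth_G k lam s m (growth_hu v u) τ) *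
        (wt k lam m τ' * growth_G k lam s m growth_h1 τ')) ≤
        2 ^ M * z ^ A0 * (wt k lam m τ * wt k lam m τ') := by
    intro u hu
    have h3 : growth_G k lam s m (growth_hu v u) τ * growth_G k lam s m growth_h1 τ' ≤
        z ^ A0 * 1 := mul_le_mul (bU u hu) (b1 τ') (n1 τ') (by positivity)
    have h4 := mul_le_mul_of_nonneg_left h3 (mul_nonneg (by positivity : (0:ℝ) ≤ 2 ^ M) hWW)
    calc _ = 2 ^ M * (wt k lam m τ * wt k lam m τ') * (growth_G k lam s m (growth_hu v u) τ *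
          growth_G k lam s m growth_h1 τ') := by ring
      _ ≤ _ := h4
      _ = _ := by ring
  have t2 : 2 ^ M * ((wt k lam m τ * growth_G k lam s m growth_h1 τ) *
        (wt k lam m τ' * growth_G k lam s m (growth_hp v) τ')) ≤
        2 ^ M * y * (wt k lam m τ * wt k lam m τ') := by
    have h3 : growth_G k lam s m growth_h1 τ * growth_G k lam s m (growth_hp v) τ' ≤ 1 * y :=
      mul_le_mul (b1 τ) bP nP (by positivity)
    have h4 := mul_le_mul_of_nonneg_left h3 (mul_nonneg (by positivity : (0:ℝ) ≤ 2 ^ M) hWW)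
    calc _ = 2 ^ M * (wt k lam m τ * wt k lam m τ') *
        (growth_G k lam s m growth_h1 τ * growth_G k lam s m (growth_hp v) τ') := by ring
      _ ≤ _ := h4
      _ = _ := by ring
  have t3 := Finset.sum_le_sum t1
  rw [Finset.sum_const, nsmul_eq_mul] at t3
  have hfin := growth_P2_le k lam h0 (s + m)
    {x | trunc m x.1 = τ ∧ trunc m x.2 = τ' ∧ cm (s + m) x < M} _ _ (fun x => ?_)
    (fun x hx => growth_pt2 k lam h0 s m M τ τ' v hv x hx.1 hx.2.1 hx.2.2) HR
  swap
  · refine add_nonneg (Finset.sum_nonneg fun u _ => ?_) ?_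
    · exact mul_nonneg (by positivity) (mul_nonneg (growth_F_nonneg k lam h0 s m _ (hu01 u) τ x.1)
        (growth_F_nonneg k lam h0 s m _ h101 τ' x.2))
    · exact mul_nonneg (by positivity) (mul_nonneg (growth_F_nonneg k lam h0 s m _ h101 τ x.1)
        (growth_F_nonneg k lam h0 s m _ hp01 τ' x.2))
  refine hfin.trans ?_
  calc _ ≤ ((wd k s).card : ℝ) * (2 ^ M * z ^ A0 * (wt k lam m τ * wt k lam m τ')) +
        2 ^ M * y * (wt k lam m τ * wt k lam m τ') := add_le_add t3 t2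
    _ = _ := by ring

theorem growth_cm_swap {k : ℕ} (n : ℕ) (x : Tr k n × Tr k n) : cm n x.swap = cm n x := by
  unfold cm
  refine Finset.sum_congr rfl fun w _ => ?_
  exact min_comm _ _

open Classical in
theorem growth_swap0 (k : ℕ) (lam : ℝ) (n : ℕ) (S S' : Set (Tr k n × Tr k n))
    (h : ∀ x, x.swap ∈ S ↔ x ∈ S') : P2 k lam n S = P2 k lam n S' := by
  unfold P2
  rw [← (Equiv.prodComm (Tr k n) (Tr k n)).tsum_eq]
  refine tsum_congr fun x => ?_
  rw [show (Equiv.prodComm (Tr k n) (Tr k n)) x = x.swap from rfl]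
  by_cases hx : x ∈ S'
  · rw [if_pos hx, if_pos ((h x).2 hx)]
    exact mul_comm _ _
  · rw [if_neg hx, if_neg (fun h' => hx ((h x).1 h'))]

theorem growth_swap (k : ℕ) (lam : ℝ) (M s m : ℕ) (τ τ' : Tr k m) :
    P2 k lam (s + m) {x | trunc m x.1 = τ ∧ trunc m x.2 = τ' ∧ cm (s + m) x < M} =
    P2 k lam (s + m) {x | trunc m x.1 = τ' ∧ trunc m x.2 = τ ∧ cm (s + m) x < M} := by
  refine growth_swap0 k lam (s + m) _ _ fun x => ?_
  have h2 := growth_cm_swap (s + m) x
  constructor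
  · rintro ⟨ha, hb, hc⟩
    refine ⟨hb, ha, ?_⟩
    rw [← h2]; exact hc
  · rintro ⟨ha, hb, hc⟩
    refine ⟨hb, ha, ?_⟩
    rw [← h2] at hc; exact hc

theorem growth (k : ℕ) (hk : 2 ≤ k) (lam : ℝ) (h0 : 0 < lam) (M : ℕ) (η : ℝ) (hη : 0 < η) :
    ∃ s A0 : ℕ, 1 ≤ A0 ∧ ∀ (m : ℕ) (τ τ' : Tr k m),
      (∃ v, (A0 ≤ cnt m τ v ∧ 1 ≤ cnt m τ' v) ∨ (A0 ≤ cnt m τ' v ∧ 1 ≤ cnt m τ v)) →
      P2 k lam (s + m) {x | trunc m x.1 = τ ∧ trunc m x.2 = τ' ∧ cm (s + m) x < M}
        ≤ η * (wt k lam m τ * wt k lam m τ') := by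
  have hk1 : 1 ≤ k := by omega
  obtain ⟨s, hs⟩ := growth_y k hk1 lam h0 (min 1 (η / 2 / 2 ^ M)) (by positivity)
  obtain ⟨z, hz0, hz1, hz⟩ := growth_z k hk1 lam h0 s
  obtain ⟨n, hn⟩ := exists_pow_lt_of_lt_one
    (show 0 < η / 2 / (((wd k s).card : ℝ) * 2 ^ M + 1) by positivity) hz1
  have hy1 : min 1 (η / 2 / 2 ^ M) ≤ 1 := min_le_left _ _
  have hy2 : 2 ^ M * min 1 (η / 2 / 2 ^ M) ≤ η / 2 := by
    calc 2 ^ M * min 1 (η / 2 / 2 ^ M) ≤ 2 ^ M * (η / 2 / 2 ^ M) :=
          mul_le_mul_of_nonneg_left (min_le_right _ _) (by positivity)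
      _ = η / 2 := by field_simp
  have hA : ((wd k s).card : ℝ) * 2 ^ M * z ^ (n + 1) ≤ η / 2 := by
    have h1 : z ^ (n + 1) ≤ z ^ n := pow_le_pow_of_le_one hz0 hz1.le (Nat.le_succ n)
    have h2 : ((wd k s).card : ℝ) * 2 ^ M * z ^ (n + 1) ≤
        (((wd k s).card : ℝ) * 2 ^ M + 1) * z ^ n := by
      apply mul_le_mul (by linarith) h1 (by positivity) (by positivity)
    refine h2.trans ?_
    rw [lt_div_iff₀ (by positivity)] at hn
    linarith
  refine ⟨s, n + 1, by omega, ?_⟩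
  intro m τ τ' hv
  obtain ⟨v, hv⟩ := hv
  have hfin : ∀ τ τ' : Tr k m, n + 1 ≤ cnt m τ v → 1 ≤ cnt m τ' v →
      P2 k lam (s + m) {x | trunc m x.1 = τ ∧ trunc m x.2 = τ' ∧ cm (s + m) x < M}
        ≤ η * (wt k lam m τ * wt k lam m τ') := by
    intro τ τ' h1 h2
    have h3 := growth_half k hk1 lam h0 M s (n + 1) _ z hs hy1 hz0 hz1.le hz
      (by omega) m τ τ' v h1 h2
    refine h3.trans ?_
    apply mul_le_mul_of_nonneg_right _
      (mul_nonneg (wt_nonneg k lam h0 _ _) (wt_nonneg k lam h0 _ _))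
    linarith
  rcases hv with ⟨h1, h2⟩ | ⟨h1, h2⟩
  · exact hfin τ τ' h1 h2
  · rw [growth_swap, mul_comm (wt k lam m τ)]
    exact hfin τ' τ h1 h2
end AS
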