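import Pool.Agent.Helper513.AS.D4a
import Pool.Agent.Helper513.AS.D4b

set_option autoImplicit false

namespace AS
open Finset












theorem j17148_sum_le {k : ℕ} (m M A0 : ℕ) (x : Tr k m × Tr k m) (hcm : cm m x < M)
    (hno : ¬ ∃ v, (A0 ≤ cnt m x.1 v ∧ 1 ≤ cnt m x.2 v) ∨ (A0 ≤ cnt m x.2 v ∧ 1 ≤ cnt m x.1 v)) :
    ∑ v ∈ (wd k m).filter (fun v => 0 < cnt m x.1 v ∧ 0 < cnt m x.2 v),
        (cnt m x.1 v + cnt m x.2 v) ≤ 2 * M * A0 := by
  have hcard : ((wd k m).filter (fun v => 0 < cnt m x.1 v ∧ 0 < cnt m x.2 v)).card ≤ M := by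
    have h1 : ((wd k m).filter (fun v => 0 < cnt m x.1 v ∧ 0 < cnt m x.2 v)).card ≤ cm m x := by
      unfold cm
      rw [Finset.card_eq_sum_ones]
      refine le_trans (Finset.sum_le_sum (f := fun _ => 1)
        (g := fun v => min (cnt m x.1 v) (cnt m x.2 v)) ?_) ?_
      · intro v hv
        rw [Finset.mem_filter] at hv
        change 1 ≤ min (cnt m x.1 v) (cnt m x.2 v)
        exact le_min hv.2.1 hv.2.2
      · exact Finset.sum_le_sum_of_subset (Finset.filter_subset _ _)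
    omega
  have h2 : ∀ v ∈ (wd k m).filter (fun v => 0 < cnt m x.1 v ∧ 0 < cnt m x.2 v),
      cnt m x.1 v + cnt m x.2 v ≤ 2 * A0 := by
    intro v hv
    rw [Finset.mem_filter] at hv
    have h3 : cnt m x.1 v < A0 := by
      by_contra h
      exact hno ⟨v, Or.inl ⟨not_lt.mp h, hv.2.2⟩⟩
    have h4 : cnt m x.2 v < A0 := by
      by_contra h
      exact hno ⟨v, Or.inr ⟨not_lt.mp h, hv.2.1⟩⟩
    omega
  calc ∑ v ∈ (wd k m).filter (fun v => 0 < cnt m x.1 v ∧ 0 < cnt m x.2 v),
        (cnt m x.1 v + cnt m x.2 v)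
      ≤ ((wd k m).filter (fun v => 0 < cnt m x.1 v ∧ 0 < cnt m x.2 v)).card • (2 * A0) :=
        Finset.sum_le_card_nsmul _ _ _ h2
    _ ≤ M * (2 * A0) := by
        rw [smul_eq_mul]
        exact Nat.mul_le_mul_right _ hcard
    _ = 2 * M * A0 := by ring

theorem j17148_step (k : ℕ) (hk : 2 ≤ k) (lam : ℝ) (h0 : 0 < lam) (m : ℕ) (ε : ℝ)
    (S : Set (Tr k m × Tr k m)) (hS : S ⊆ {x | alive m x})
    (hkill : ε * P2 k lam m S ≤
        P2 k lam (1 + m) {x | (trunc m x.1, trunc m x.2) ∈ S ∧ ¬ alive (1 + m) x}) :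
    ε * P2 k lam m S ≤ P2 k lam m {x | alive m x} - P2 k lam (1 + m) {x | alive (1 + m) x} := by
  have hk1 : 1 ≤ k := by omega
  have hD := P2_mono k hk1 lam h0 (1 + m)
    {x | (trunc m x.1, trunc m x.2) ∈ S ∧ ¬ alive (1 + m) x}
    {x | (trunc m x.1, trunc m x.2) ∈ {y : Tr k m × Tr k m | alive m y} ∧ ¬ alive (1 + m) x}
    (fun x hx => ⟨hS hx.1, hx.2⟩)
  have hU := (P2_union k hk1 lam h0 (1 + m) {x | alive (1 + m) x}
    {x | (trunc m x.1, trunc m x.2) ∈ {y : Tr k m × Tr k m | alive m y} ∧ ¬ alive (1 + m) x}).2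
    (by
      rw [Set.disjoint_left]
      intro x hx hx'
      exact hx'.2 hx)
  have hE : ({x : Tr k (1 + m) × Tr k (1 + m) | alive (1 + m) x} ∪
      {x | (trunc m x.1, trunc m x.2) ∈ {y : Tr k m × Tr k m | alive m y} ∧ ¬ alive (1 + m) x}) =
      {x | (trunc m x.1, trunc m x.2) ∈ {y : Tr k m × Tr k m | alive m y}} := by
    ext x
    constructor
    · rintro (hx | hx)
      · exact alive_trunc m x hx
      · exact hx.1
    · intro hx
      by_cases hx' : alive (1 + m) x
      · exact Or.inl hx'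
      · exact Or.inr ⟨hx, hx'⟩
  rw [hE, P2_trunc k hk1 lam h0 1 m] at hU
  linarith

theorem j17148_fib (k : ℕ) (hk : 2 ≤ k) (lam : ℝ) (h0 : 0 < lam) (s m M : ℕ) (η : ℝ)
    (hη : 0 ≤ η) (G : Set (Tr k m × Tr k m))
    (hG : ∀ c ∈ G, P2 k lam (s + m) {x | trunc m x.1 = c.1 ∧ trunc m x.2 = c.2 ∧
      cm (s + m) x < M} ≤ η * (wt k lam m c.1 * wt k lam m c.2)) :
    P2 k lam (s + m) {x | (trunc m x.1, trunc m x.2) ∈ G ∧ cm (s + m) x < M} ≤ η := by
  classical
  have hk1 : 1 ≤ k := by omega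
  set S2 : Set (Tr k (s + m) × Tr k (s + m)) :=
    {x | (trunc m x.1, trunc m x.2) ∈ G ∧ cm (s + m) x < M} with hS2
  have hsum : Summable (fun x : Tr k (s + m) × Tr k (s + m) =>
      if x ∈ S2 then wt k lam (s + m) x.1 * wt k lam (s + m) x.2 else 0) := by
    have := summable_pair k hk1 lam h0 (s + m) (fun x => if x ∈ S2 then 1 else 0) (by
      intro x; split_ifs <;> simp)
    refine this.congr fun x => ?_
    split_ifs <;> simp
  have h1 := hsum.hasSum.tsum_fiberwise
    (fun x : Tr k (s + m) × Tr k (s + m) => (trunc m x.1, trunc m x.2))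
  have hsum1 : Summable (fun x : Tr k m × Tr k m => wt k lam m x.1 * wt k lam m x.2) := by
    have := summable_pair k hk1 lam h0 m (fun _ => 1) (by intro x; simp)
    refine this.congr fun x => ?_
    simp
  have h2 : ∑' x : Tr k m × Tr k m, wt k lam m x.1 * wt k lam m x.2 = 1 := by
    have := (P2_univ k hk1 lam h0 m).1
    unfold P2 at this
    simpa using this
  have h3 : HasSum (fun x : Tr k m × Tr k m => η * (wt k lam m x.1 * wt k lam m x.2)) (η * 1) := by
    have := hsum1.hasSum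
    rw [h2] at this
    exact this.mul_left η
  have h4 := hasSum_le ?_ h1 h3
  · rw [mul_one] at h4
    have h5 : P2 k lam (s + m) S2 = ∑' x : Tr k (s + m) × Tr k (s + m),
        if x ∈ S2 then wt k lam (s + m) x.1 * wt k lam (s + m) x.2 else 0 := by
      unfold P2
      refine tsum_congr fun x => ?_
      congr
    rw [h5]
    exact h4
  · intro c
    change (∑' b : (fun x : Tr k (s + m) × Tr k (s + m) => (trunc m x.1, trunc m x.2)) ⁻¹' {c},
      (if (b : Tr k (s + m) × Tr k (s + m)) ∈ S2 then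
        wt k lam (s + m) (b : Tr k (s + m) × Tr k (s + m)).1 *
          wt k lam (s + m) (b : Tr k (s + m) × Tr k (s + m)).2 else 0)) ≤ _
    rw [tsum_subtype ((fun x : Tr k (s + m) × Tr k (s + m) => (trunc m x.1, trunc m x.2)) ⁻¹' {c})
      (fun x => if x ∈ S2 then wt k lam (s + m) x.1 * wt k lam (s + m) x.2 else 0)]
    by_cases hc : c ∈ G
    · refine le_trans (le_of_eq ?_) (hG c hc)
      unfold P2
      refine tsum_congr fun x => ?_
      rw [Set.indicator_apply]
      by_cases hx : (trunc m x.1, trunc m x.2) = c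
      · have hx' : x ∈ (fun x : Tr k (s + m) × Tr k (s + m) =>
            (trunc m x.1, trunc m x.2)) ⁻¹' {c} := hx
        rw [if_pos hx']
        by_cases hM : cm (s + m) x < M
        · have e1 : x ∈ S2 := ⟨by rw [hx]; exact hc, hM⟩
          have e2 : x ∈ {x : Tr k (s + m) × Tr k (s + m) |
              trunc m x.1 = c.1 ∧ trunc m x.2 = c.2 ∧ cm (s + m) x < M} := by
            refine ⟨?_, ?_, hM⟩
            · rw [← hx]
            · rw [← hx]
          rw [if_pos e1, if_pos e2]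
        · have e1 : x ∉ S2 := fun h => hM h.2
          have e2 : x ∉ {x : Tr k (s + m) × Tr k (s + m) |
              trunc m x.1 = c.1 ∧ trunc m x.2 = c.2 ∧ cm (s + m) x < M} := fun h => hM h.2.2
          rw [if_neg e1, if_neg e2]
      · have hx' : x ∉ (fun x : Tr k (s + m) × Tr k (s + m) =>
            (trunc m x.1, trunc m x.2)) ⁻¹' {c} := hx
        rw [if_neg hx']
        have e2 : x ∉ {x : Tr k (s + m) × Tr k (s + m) |
              trunc m x.1 = c.1 ∧ trunc m x.2 = c.2 ∧ cm (s + m) x < M} :=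
          fun h => hx (Prod.ext h.1 h.2.1)
        rw [if_neg e2]
    · have hz : ∀ x : Tr k (s + m) × Tr k (s + m),
          Set.indicator ((fun x : Tr k (s + m) × Tr k (s + m) =>
            (trunc m x.1, trunc m x.2)) ⁻¹' {c})
          (fun x => if x ∈ S2 then wt k lam (s + m) x.1 * wt k lam (s + m) x.2 else 0) x = 0 := by
        intro x
        rw [Set.indicator_apply]
        by_cases hx : x ∈ (fun x : Tr k (s + m) × Tr k (s + m) =>
            (trunc m x.1, trunc m x.2)) ⁻¹' {c}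
        · rw [if_pos hx]
          have hx2 : (trunc m x.1, trunc m x.2) = c := hx
          have e1 : x ∉ S2 := fun h => hc (by rw [← hx2]; exact h.1)
          rw [if_neg e1]
        · rw [if_neg hx]
      rw [tsum_congr hz, tsum_zero]
      exact mul_nonneg hη (mul_nonneg (wt_nonneg k lam h0 m _) (wt_nonneg k lam h0 m _))

theorem few_matched (k : ℕ) (hk : 2 ≤ k) (lam : ℝ) (h0 : 0 < lam) (M : ℕ) (η : ℝ) (hη : 0 < η) :
    ∃ s m : ℕ, P2 k lam (s + m) {x | alive (s + m) x ∧ cm m (trunc m x.1, trunc m x.2) < M ∧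
      cm (s + m) x < M} ≤ η := by
  have hk1 : 1 ≤ k := by omega
  obtain ⟨s, A0, hA0, hg⟩ := growth k hk lam h0 M (η / 2) (by positivity)
  obtain ⟨ε, hε, hkill⟩ := kill k hk lam h0 (2 * M * A0)
  let G : (m : ℕ) → Set (Tr k m × Tr k m) := fun m => {x | ∃ v,
    (A0 ≤ cnt m x.1 v ∧ 1 ≤ cnt m x.2 v) ∨ (A0 ≤ cnt m x.2 v ∧ 1 ≤ cnt m x.1 v)}
  let NG : (m : ℕ) → Set (Tr k m × Tr k m) := fun m => {x | alive m x ∧ cm m x < M ∧ x ∉ G m}
  have hNG : ∀ m, ε * P2 k lam m (NG m) ≤
      P2 k lam m {x | alive m x} - P2 k lam (m + 1) {x | alive (m + 1) x} := by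
    intro m
    have h1 := j17148_step k hk lam h0 m ε (NG m) (fun x hx => hx.1)
      (hkill m (NG m) (fun x hx => j17148_sum_le m M A0 x hx.2.1 hx.2.2))
    have h2 : P2 k lam (1 + m) {x | alive (1 + m) x} = P2 k lam (m + 1) {x | alive (m + 1) x} :=
      congrArg (fun n => P2 k lam n {x | alive n x}) (Nat.add_comm 1 m)
    rw [h2] at h1
    exact h1
  obtain ⟨m, hm⟩ : ∃ m, P2 k lam m (NG m) ≤ η / 2 := by
    by_contra hcon
    push Not at hcon
    have h1 : ∀ J : ℕ, (J : ℝ) * (ε * (η / 2)) ≤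
        P2 k lam 0 {x | alive 0 x} - P2 k lam J {x | alive J x} := by
      intro J
      induction J with
      | zero => simp
      | succ J ih =>
        have h2 := hNG J
        have h3 : ε * (η / 2) ≤ ε * P2 k lam J (NG J) :=
          mul_le_mul_of_nonneg_left (hcon J).le hε.le
        push_cast
        linarith
    obtain ⟨J, hJ⟩ := exists_nat_gt (1 / (ε * (η / 2)))
    have h4 : 0 < ε * (η / 2) := by positivity
    have h5 : 1 < (J : ℝ) * (ε * (η / 2)) := by
      rw [div_lt_iff₀ h4] at hJ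
      exact hJ
    have h6 := h1 J
    have h7 := ((P2_univ k hk1 lam h0 0).2 {x | alive 0 x}).2
    have h8 := ((P2_univ k hk1 lam h0 J).2 {x | alive J x}).1
    linarith
  refine ⟨s, m, ?_⟩
  have hsub : {x : Tr k (s + m) × Tr k (s + m) | alive (s + m) x ∧
      cm m (trunc m x.1, trunc m x.2) < M ∧ cm (s + m) x < M} ⊆
      {x | (trunc m x.1, trunc m x.2) ∈ NG m} ∪
        {x | (trunc m x.1, trunc m x.2) ∈ G m ∧ cm (s + m) x < M} := by
    rintro x ⟨hx1, hx2, hx3⟩
    by_cases hG : (trunc m x.1, trunc m x.2) ∈ G m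
    · exact Or.inr ⟨hG, hx3⟩
    · exact Or.inl ⟨alive_trunc m x hx1, hx2, hG⟩
  have h1 := P2_mono k hk1 lam h0 (s + m) _ _ hsub
  have h2 := (P2_union k hk1 lam h0 (s + m) {x | (trunc m x.1, trunc m x.2) ∈ NG m}
    {x | (trunc m x.1, trunc m x.2) ∈ G m ∧ cm (s + m) x < M}).1
  have h3 := P2_trunc k hk1 lam h0 s m (NG m)
  have h4 := j17148_fib k hk lam h0 s m M (η / 2) (by positivity) (G m)
    (fun c hc => hg m c.1 c.2 hc)
  linarith

/-- probability that there is a common word of length `m` -/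
noncomputable def al (k : ℕ) (lam : ℝ) (m : ℕ) : ℝ := P2 k lam m {x | alive m x}

theorem al_antitone (k : ℕ) (hk : 2 ≤ k) (lam : ℝ) (h0 : 0 < lam) : Antitone (al k lam) := by
  have hk1 : 1 ≤ k := by omega
  refine antitone_nat_of_succ_le fun m => ?_
  rw [Nat.add_comm m 1]
  unfold al
  rw [← P2_trunc k hk1 lam h0 1 m {x | alive m x}]
  exact P2_mono k hk1 lam h0 (1 + m) _ _ (fun x hx => alive_trunc m x hx)
end AS
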