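import Pool.Agent.Helper513.AS.D3

set_option autoImplicit false

namespace AS
open Finset






/-- the set of words of the vertices of depth `m` -/
def Wset {k : ℕ} (m : ℕ) (τ : Tr k m) : Finset (List (Fin k)) :=
  (wd k m).filter (fun v => 0 < cnt m τ v)

/-- indicator of a set of words -/
def ind {k : ℕ} (U : Finset (List (Fin k))) : List (Fin k) → ℝ := fun v => if v ∈ U then 1 else 0

/-- probability that the set of words of depth `m` is `S` -/
noncomputable def nu (k : ℕ) (lam : ℝ) (m : ℕ) (S : Finset (List (Fin k))) : ℝ :=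
  ∑ U ∈ S.powerset, (-1 : ℝ) ^ (S \ U).card * Phi k lam m (ind U)

theorem ind01_352 {k : ℕ} (U : Finset (List (Fin k))) : ∀ v, 0 ≤ ind U v ∧ ind U v ≤ 1 := by
  intro v
  unfold ind
  split_ifs <;> norm_num

theorem MF_ind352 {k : ℕ} (m : ℕ) (U : Finset (List (Fin k))) (τ : Tr k m) :
    MF m (ind U) τ = if Wset m τ ⊆ U then 1 else 0 := by
  rw [MF_eq]
  split_ifs with h
  · apply Finset.prod_eq_one
    intro v hv
    rcases Nat.eq_zero_or_pos (cnt m τ v) with h0 | h0
    · rw [h0, pow_zero]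
    · have : v ∈ U := h (Finset.mem_filter.2 ⟨hv, h0⟩)
      unfold ind
      rw [if_pos this, one_pow]
  · rw [Finset.not_subset] at h
    obtain ⟨v, hv, hvU⟩ := h
    unfold Wset at hv
    rw [Finset.mem_filter] at hv
    apply Finset.prod_eq_zero hv.1
    unfold ind
    rw [if_neg hvU, zero_pow (by omega)]

theorem moeb352 {β : Type} [DecidableEq β] (S W : Finset β) (hW : W ⊆ S) :
    (∑ U ∈ S.powerset.filter (fun U => W ⊆ U), (-1 : ℝ) ^ (S \ U).card) =
      if W = S then 1 else 0 := by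
  have h1 : (∑ U ∈ S.powerset.filter (fun U => W ⊆ U), (-1 : ℝ) ^ (S \ U).card) =
      ∑ V ∈ (S \ W).powerset, (-1 : ℝ) ^ V.card := by
    apply Finset.sum_bij' (fun U _ => S \ U) (fun V _ => S \ V)
    · intro U hU
      rw [Finset.mem_filter, Finset.mem_powerset] at hU
      rw [Finset.mem_powerset]
      exact Finset.sdiff_subset_sdiff (le_refl _) hU.2
    · intro V hV
      rw [Finset.mem_powerset] at hV
      rw [Finset.mem_filter, Finset.mem_powerset]
      refine ⟨Finset.sdiff_subset, ?_⟩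
      intro a ha
      rw [Finset.mem_sdiff]
      refine ⟨hW ha, fun haV => ?_⟩
      have := hV haV
      rw [Finset.mem_sdiff] at this
      exact this.2 ha
    · intro U hU
      rw [Finset.mem_filter, Finset.mem_powerset] at hU
      exact Finset.sdiff_sdiff_eq_self hU.1
    · intro V hV
      rw [Finset.mem_powerset] at hV
      exact Finset.sdiff_sdiff_eq_self (hV.trans Finset.sdiff_subset)
    · intro U hU
      rfl
  rw [h1]
  have h2 : (∑ V ∈ (S \ W).powerset, (-1 : ℝ) ^ V.card) =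
      ((∑ V ∈ (S \ W).powerset, (-1 : ℤ) ^ V.card : ℤ) : ℝ) := by
    push_cast
    rfl
  rw [h2, Finset.sum_powerset_neg_one_pow_card]
  by_cases h : W = S
  · rw [if_pos h, h, Finset.sdiff_self, if_pos rfl]
    norm_num
  · rw [if_neg h, if_neg]
    · norm_num
    · intro h0
      rw [Finset.sdiff_eq_empty_iff_subset] at h0
      exact h (Finset.Subset.antisymm hW h0)

theorem moeb352' {β : Type} [DecidableEq β] (S W : Finset β) :
    (∑ U ∈ S.powerset, (-1 : ℝ) ^ (S \ U).card * (if W ⊆ U then 1 else 0)) =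
      if W = S then 1 else 0 := by
  by_cases hW : W ⊆ S
  · rw [← moeb352 S W hW, Finset.sum_filter]
    apply Finset.sum_congr rfl
    intro U _
    split_ifs <;> simp
  · rw [if_neg (fun h => hW (by rw [h]))]
    apply Finset.sum_eq_zero
    intro U hU
    rw [Finset.mem_powerset] at hU
    rw [if_neg (fun h => hW (h.trans hU)), mul_zero]

theorem hasSum_Wset (k : ℕ) (hk : 1 ≤ k) (lam : ℝ) (h0 : 0 < lam) (m : ℕ)
    (S : Finset (List (Fin k))) (hS : S ⊆ wd k m) :
    HasSum (fun τ : Tr k m => if Wset m τ = S then wt k lam m τ else 0) (nu k lam m S) := by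
  have h1 : ∀ U ∈ S.powerset, HasSum (fun τ : Tr k m =>
      (-1 : ℝ) ^ (S \ U).card * (wt k lam m τ * MF m (ind U) τ))
      ((-1 : ℝ) ^ (S \ U).card * Phi k lam m (ind U)) := by
    intro U _
    exact (hasSum_MF k hk lam h0 m (ind U) (ind01_352 U)).1.mul_left _
  have h2 := hasSum_sum h1
  unfold nu
  convert h2 using 2 with τ
  have h3 : (∑ U ∈ S.powerset, (-1 : ℝ) ^ (S \ U).card * (wt k lam m τ * MF m (ind U) τ)) =
      wt k lam m τ *
        ∑ U ∈ S.powerset, (-1 : ℝ) ^ (S \ U).card * (if Wset m τ ⊆ U then 1 else 0) := by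
    rw [Finset.mul_sum]
    apply Finset.sum_congr rfl
    intro U _
    rw [MF_ind352]
    ring
  rw [h3, moeb352']
  split_ifs <;> simp

theorem alive_iff {k : ℕ} (m : ℕ) (x : Tr k m × Tr k m) :
    alive m x ↔ ¬ Disjoint (Wset m x.1) (Wset m x.2) := by
  rw [Finset.not_disjoint_iff]
  unfold alive Wset
  constructor
  · rintro ⟨v, h1, h2⟩
    have hv : v ∈ wd k m := by
      rw [mem_wd]
      by_contra h
      rw [cnt_eq_zero m x.1 v h] at h1
      exact lt_irrefl _ h1
    exact ⟨v, Finset.mem_filter.2 ⟨hv, h1⟩, Finset.mem_filter.2 ⟨hv, h2⟩⟩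
  · rintro ⟨v, h1, h2⟩
    exact ⟨v, (Finset.mem_filter.1 h1).2, (Finset.mem_filter.1 h2).2⟩

theorem Wset_sub352 {k : ℕ} (m : ℕ) (τ : Tr k m) : Wset m τ ⊆ wd k m :=
  Finset.filter_subset _ _

theorem ite_nonneg352 {k : ℕ} (lam : ℝ) (h0 : 0 < lam) (m : ℕ)
    (S : Finset (List (Fin k))) :
    0 ≤ (fun τ : Tr k m => if Wset m τ = S then wt k lam m τ else 0) := by
  intro τ
  show (0 : ℝ) ≤ if Wset m τ = S then wt k lam m τ else 0
  split_ifs
  · exact wt_nonneg k lam h0 m τ
  · exact le_refl _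

theorem prodSum352 {A B : Type} {f : A → ℝ} {g : B → ℝ} {s t : ℝ} (hf : HasSum f s)
    (hg : HasSum g t) (hf0 : 0 ≤ f) (hg0 : 0 ≤ g) :
    HasSum (fun x : A × B => f x.1 * g x.2) (s * t) :=
  hf.mul hg (hf.summable.mul_of_nonneg hg.summable hf0 hg0)

theorem pairSum352 (k : ℕ) (hk : 1 ≤ k) (lam : ℝ) (h0 : 0 < lam) (m : ℕ)
    (S S' : Finset (List (Fin k))) (hS : S ⊆ wd k m) (hS' : S' ⊆ wd k m) :
    HasSum (fun x : Tr k m × Tr k m => (if Wset m x.1 = S then wt k lam m x.1 else 0) *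
          (if Wset m x.2 = S' then wt k lam m x.2 else 0)) (nu k lam m S * nu k lam m S') := by
  obtain ⟨F, hF⟩ : ∃ F : Tr k m → ℝ,
      F = fun τ : Tr k m => if Wset m τ = S then wt k lam m τ else 0 := ⟨_, rfl⟩
  obtain ⟨G, hG⟩ : ∃ G : Tr k m → ℝ,
      G = fun τ : Tr k m => if Wset m τ = S' then wt k lam m τ else 0 := ⟨_, rfl⟩
  have hf := hasSum_Wset k hk lam h0 m S hS
  have hg := hasSum_Wset k hk lam h0 m S' hS'
  have hf0 := ite_nonneg352 (k := k) lam h0 m S
  have hg0 := ite_nonneg352 (k := k) lam h0 m S'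
  rw [← hF] at hf hf0
  rw [← hG] at hg hg0
  have h := prodSum352 hf hg hf0 hg0
  rw [hF, hG] at h
  exact h

theorem pairSum352' (k : ℕ) (hk : 1 ≤ k) (lam : ℝ) (h0 : 0 < lam) (m : ℕ)
    (S : Finset (List (Fin k))) (hS : S ⊆ wd k m) :
    HasSum (fun x : Tr k m × Tr k m =>
        (if Wset m x.1 = S then wt k lam m x.1 else 0) *
          (wt k lam m x.2 * MF m (ind (wd k m \ S)) x.2))
        (nu k lam m S * Phi k lam m (ind (wd k m \ S))) := by
  obtain ⟨F, hF⟩ : ∃ F : Tr k m → ℝ,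
      F = fun τ : Tr k m => if Wset m τ = S then wt k lam m τ else 0 := ⟨_, rfl⟩
  obtain ⟨G, hG⟩ : ∃ G : Tr k m → ℝ,
      G = fun τ : Tr k m => wt k lam m τ * MF m (ind (wd k m \ S)) τ := ⟨_, rfl⟩
  have hf := hasSum_Wset k hk lam h0 m S hS
  have hg := (hasSum_MF k hk lam h0 m (ind (wd k m \ S)) (ind01_352 _)).1
  have hf0 := ite_nonneg352 (k := k) lam h0 m S
  have hg0 : 0 ≤ (fun τ : Tr k m => wt k lam m τ * MF m (ind (wd k m \ S)) τ) := by
    intro τ
    show 0 ≤ wt k lam m τ * MF m (ind (wd k m \ S)) τ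
    rw [MF_ind352]
    have := wt_nonneg k lam h0 m τ
    split_ifs <;> simp [this]
  rw [← hF] at hf hf0
  rw [← hG] at hg hg0
  have h := prodSum352 hf hg hf0 hg0
  rw [hF, hG] at h
  exact h

theorem al_eq_sum (k : ℕ) (hk : 1 ≤ k) (lam : ℝ) (h0 : 0 < lam) (m : ℕ) :
    P2 k lam m {x | alive m x} =
      ∑ S ∈ (wd k m).powerset, ∑ S' ∈ (wd k m).powerset,
        if Disjoint S S' then 0 else nu k lam m S * nu k lam m S' := by
  have h1 : ∀ S ∈ (wd k m).powerset, ∀ S' ∈ (wd k m).powerset,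
      HasSum (fun x : Tr k m × Tr k m => if Disjoint S S' then (0 : ℝ) else
        (if Wset m x.1 = S then wt k lam m x.1 else 0) *
          (if Wset m x.2 = S' then wt k lam m x.2 else 0))
        (if Disjoint S S' then 0 else nu k lam m S * nu k lam m S') := by
    intro S hS S' hS'
    rw [Finset.mem_powerset] at hS hS'
    by_cases h : Disjoint S S'
    · simp only [if_pos h]
      exact hasSum_zero
    · simp only [if_neg h]
      exact pairSum352 k hk lam h0 m S S' hS hS'
  have h2 := hasSum_sum fun S hS => hasSum_sum (h1 S hS)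
  unfold P2
  rw [← h2.tsum_eq]
  congr 1
  funext x
  have hx1 : Wset m x.1 ∈ (wd k m).powerset := Finset.mem_powerset.2 (Wset_sub352 m x.1)
  have hx2 : Wset m x.2 ∈ (wd k m).powerset := Finset.mem_powerset.2 (Wset_sub352 m x.2)
  rw [Finset.sum_eq_single_of_mem _ hx1, Finset.sum_eq_single_of_mem _ hx2]
  · by_cases h : Disjoint (Wset m x.1) (Wset m x.2)
    · rw [if_pos h, if_neg]
      intro hal
      exact (alive_iff m x).1 hal h
    · rw [if_neg h, if_pos rfl, if_pos rfl, if_pos]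
      exact (alive_iff m x).2 h
  · intro S' _ hne
    rw [if_neg (show ¬ Wset m x.2 = S' from fun h => hne h.symm), mul_zero]
    split_ifs <;> rfl
  · intro S _ hne
    apply Finset.sum_eq_zero
    intro S' _
    rw [if_neg (show ¬ Wset m x.1 = S from fun h => hne h.symm), zero_mul]
    split_ifs <;> rfl

theorem al_eq (k : ℕ) (hk : 1 ≤ k) (lam : ℝ) (h0 : 0 < lam) (m : ℕ) :
    P2 k lam m {x | alive m x} =
      1 - ∑ S ∈ (wd k m).powerset, nu k lam m S * Phi k lam m (ind (wd k m \ S)) := by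
  have hw := hasSum_wt k hk lam h0 m
  have hA : HasSum (fun x : Tr k m × Tr k m => wt k lam m x.1 * wt k lam m x.2) (1 * 1) :=
    prodSum352 hw hw (fun τ => wt_nonneg k lam h0 m τ) (fun τ => wt_nonneg k lam h0 m τ)
  have h1 : ∀ S ∈ (wd k m).powerset,
      HasSum (fun x : Tr k m × Tr k m =>
        (if Wset m x.1 = S then wt k lam m x.1 else 0) *
          (wt k lam m x.2 * MF m (ind (wd k m \ S)) x.2))
        (nu k lam m S * Phi k lam m (ind (wd k m \ S))) := by
    intro S hS
    rw [Finset.mem_powerset] at hS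
    exact pairSum352' k hk lam h0 m S hS
  have h2 := hA.sub (hasSum_sum h1)
  rw [one_mul] at h2
  unfold P2
  rw [← h2.tsum_eq]
  congr 1
  funext x
  have hx1 : Wset m x.1 ∈ (wd k m).powerset := Finset.mem_powerset.2 (Wset_sub352 m x.1)
  rw [Finset.sum_eq_single_of_mem _ hx1]
  · rw [if_pos rfl, MF_ind352]
    by_cases h : Disjoint (Wset m x.1) (Wset m x.2)
    · have hsub : Wset m x.2 ⊆ wd k m \ Wset m x.1 := by
        intro v hv
        rw [Finset.mem_sdiff]
        exact ⟨Wset_sub352 m x.2 hv, fun hv1 => (Finset.disjoint_left.1 h hv1) hv⟩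
      rw [if_pos hsub, if_neg]
      · ring
      · intro hal
        exact (alive_iff m x).1 hal h
    · have hsub : ¬ Wset m x.2 ⊆ wd k m \ Wset m x.1 := by
        intro hs
        apply h
        rw [Finset.disjoint_left]
        intro v hv hv2
        exact (Finset.mem_sdiff.1 (hs hv2)).2 hv
      rw [if_neg hsub, if_pos]
      · ring
      · exact (alive_iff m x).2 h
  · intro S _ hne
    rw [if_neg (show ¬ Wset m x.1 = S from fun h => hne h.symm), zero_mul]
end AS
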