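import Pool.Agent.Helper513.SI.Defs

set_option autoImplicit false

namespace AS
open Finset

/-- number of surjections from an `N`-set onto a `u`-set -/
def sj : ℕ → ℕ → ℕ
  | 0, 0 => 1
  | 0, _ + 1 => 0
  | _ + 1, 0 => 0
  | N + 1, u + 1 => (u + 1) * (sj N (u + 1) + sj N u)

/-- number of maps from an `N`-set to an `x`-set which cover `u` given elements -/
def cvr : ℕ → ℕ → ℕ → ℕ
  | N, x, 0 => x ^ N
  | 0, _, _ + 1 => 0
  | N + 1, x, u + 1 => (x - (u + 1)) * cvr N x (u + 1) + (u + 1) * cvr N x u

open Classical in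
/-- transition tables which agree with `T0` on the cells in `X`, and which off `X` avoid `K` and
cover `R`. -/
noncomputable def Om {V : Type} [Fintype V] {k : ℕ} (T0 : V → Fin k → V)
    (X : Finset (V × Fin k)) (K R : Finset V) : Finset (V → Fin k → V) :=
  Finset.univ.filter (fun T => (∀ c ∈ X, T c.1 c.2 = T0 c.1 c.2) ∧ (∀ c, c ∉ X → T c.1 c.2 ∉ K) ∧
    ∀ r ∈ R, ∃ c, c ∉ X ∧ T c.1 c.2 = r)

end AS

namespace AS
open Finset
open Classical in
/-- generic version: maps `f : C → W` which agree with `f0` on `X`, and which off `X` avoid `K` and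
cover `R`. -/
noncomputable def OmG {C W : Type} [Fintype C] [Fintype W] (f0 : C → W)
    (X : Finset C) (K R : Finset W) : Finset (C → W) :=
  Finset.univ.filter (fun f => (∀ c ∈ X, f c = f0 c) ∧ (∀ c, c ∉ X → f c ∉ K) ∧
    ∀ r ∈ R, ∃ c, c ∉ X ∧ f c = r)
end AS
namespace AS
open Finset SI
/-- the walk from `o` along `W` arrives at `x` at time `L`, is self-avoiding before and avoids `B`
before -/
def Nice {V : Type} {k : ℕ} (T : V → Fin k → V) (B : Finset V) (o x : V) (W : ℕ → Fin k)
    (L : ℕ) : Prop :=
  traj T o W L = x ∧ (∀ i, i < L → traj T o W i ∉ B) ∧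
    ∀ i j, i < j → j < L → traj T o W i ≠ traj T o W j
end AS

namespace AS
open Finset SI
/-- the forward ball of radius `ρ` of `p` is a tree: different words of length at most `ρ` lead
from `p` to different states -/
def TL {V : Type} {k : ℕ} (T : V → Fin k → V) (p : V) (ρ : ℕ) : Prop :=
  ∀ (v v' : ℕ → Fin k) (j j' : ℕ), j ≤ ρ → j' ≤ ρ → traj T p v j = traj T p v' j' →
    j = j' ∧ ∀ i, i < j → v i = v' i

/-- `p` and `p'` are merged by two words of length `ρ` with different first letters -/
def Mg {V : Type} {k : ℕ} (T : V → Fin k → V) (p p' : V) (ρ : ℕ) : Prop :=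
  ∃ v v' : ℕ → Fin k, v 0 ≠ v' 0 ∧ traj T p v ρ = traj T p' v ρ ∧ traj T p v' ρ = traj T p' v' ρ
end AS

namespace AS
open Finset

/-- rooted trees of depth `m` (ordered children) with letters on the edges -/
def Tr (k : ℕ) : ℕ → Type
  | 0 => Unit
  | m + 1 => List (Fin k × Tr k m)

/-- law of the first `m` generations of the Galton-Watson tree whose offspring law is the
zero-truncated Poisson law of parameter `lam`, with uniform letters on the edges -/
noncomputable def wt (k : ℕ) (lam : ℝ) : (m : ℕ) → Tr k m → ℝ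
  | 0, _ => 1
  | m + 1, l => if (l : List (Fin k × Tr k m)).length = 0 then 0 else
      (lam / k) ^ (l : List (Fin k × Tr k m)).length /
        (((l : List (Fin k × Tr k m)).length.factorial : ℝ) * (Real.exp lam - 1)) *
        (List.map (fun c : Fin k × Tr k m => wt k lam m c.2) l).prod

/-- number of vertices of depth `m` whose path from the root reads `v` -/
def cnt {k : ℕ} : (m : ℕ) → Tr k m → List (Fin k) → ℕ
  | 0, _, [] => 1
  | 0, _, _ :: _ => 0
  | _ + 1, _, [] => 0
  | m + 1, l, a :: v => (List.map (fun c : Fin k × Tr k m => if c.1 = a then cnt m c.2 v else 0) l).sum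

/-- multiplicative functional: product of `h (word of x)` over the vertices `x` of depth `m` -/
def MF {k : ℕ} : (m : ℕ) → (List (Fin k) → ℝ) → Tr k m → ℝ
  | 0, h, _ => h []
  | m + 1, h, l => (List.map (fun c : Fin k × Tr k m => MF m (fun v => h (c.1 :: v)) c.2) l).prod

/-- mean of `MF m h` -/
noncomputable def Phi (k : ℕ) (lam : ℝ) : (m : ℕ) → (List (Fin k) → ℝ) → ℝ
  | 0, h => h []
  | m + 1, h => (Real.exp (lam / k * ∑ a : Fin k, Phi k lam m (fun v => h (a :: v))) - 1) /
      (Real.exp lam - 1)

/-- the first `m` generations -/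
def trunc {k s : ℕ} : (m : ℕ) → Tr k (s + m) → Tr k m
  | 0, _ => ()
  | m + 1, l => List.map (fun c : Fin k × Tr k (s + m) => (c.1, trunc m c.2)) l

/-- words of length `m` -/
def wd (k : ℕ) : ℕ → Finset (List (Fin k))
  | 0 => {[]}
  | m + 1 => (Finset.univ ×ˢ wd k m).image (fun p => p.1 :: p.2)

open Classical in
/-- probability of a set of pairs of independent trees -/
noncomputable def P2 (k : ℕ) (lam : ℝ) (m : ℕ) (S : Set (Tr k m × Tr k m)) : ℝ :=
  ∑' x : Tr k m × Tr k m, if x ∈ S then wt k lam m x.1 * wt k lam m x.2 else 0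

/-- the two trees have a common word of length `m` -/
def alive {k : ℕ} (m : ℕ) (x : Tr k m × Tr k m) : Prop := ∃ v, 0 < cnt m x.1 v ∧ 0 < cnt m x.2 v

/-- size of the largest matching between vertices of depth `m` with the same word -/
def cm {k : ℕ} (m : ℕ) (x : Tr k m × Tr k m) : ℕ :=
  ∑ v ∈ wd k m, min (cnt m x.1 v) (cnt m x.2 v)
end AS

namespace AS
open Finset

/-- number of vertices -/
def nn {k : ℕ} : (m : ℕ) → Tr k m → ℕ
  | 0, _ => 1
  | m + 1, l => 1 + (List.map (fun c : Fin k × Tr k m => nn m c.2) l).sum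

/-- the cells pointing to `s`, in increasing order -/
def inl {n k : ℕ} (T : Fin n → Fin k → Fin n) (s : Fin n) : List (Fin n × Fin k) :=
  (List.product (List.finRange n) (List.finRange k)).filter (fun c => decide (T c.1 c.2 = s))

/-- the backward ball of radius `m` of the state `s`, as a tree -/
def ball {n k : ℕ} (T : Fin n → Fin k → Fin n) : (m : ℕ) → Fin n → Tr k m
  | 0, _ => ()
  | m + 1, s => List.map (fun c : Fin n × Fin k => (c.2, ball T m c.1)) (inl T s)

/-- the set of states of the backward ball of radius `m` of `s` -/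
def bst {n k : ℕ} (T : Fin n → Fin k → Fin n) : (m : ℕ) → Fin n → Finset (Fin n)
  | 0, s => {s}
  | m + 1, s => insert s ((inl T s).toFinset.biUnion (fun c => bst T m c.1))

/-- the backward balls of the roots in the list `R` are the given trees, they are genuine trees,
disjoint from each other and from `Av` -/
def GoodB {n k : ℕ} (T : Fin n → Fin k → Fin n) (Av : Finset (Fin n))
    (R : List ((Σ m, Tr k m) × Fin n)) : Prop :=
  (∀ r ∈ R, ball T r.1.1 r.2 = r.1.2 ∧ Disjoint (bst T r.1.1 r.2) Av ∧
    (bst T r.1.1 r.2).card = nn r.1.1 r.1.2) ∧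
  R.Pairwise (fun r r' => Disjoint (bst T r.1.1 r.2) (bst T r'.1.1 r'.2))
end AS

namespace AS
open Finset
/-- closed states of the backward ball: those at depth less than `m` -/
def bK {n k : ℕ} (T : Fin n → Fin k → Fin n) : (m : ℕ) → Fin n → Finset (Fin n)
  | 0, _ => ∅
  | m + 1, s => insert s ((inl T s).toFinset.biUnion (fun c => bK T m c.1))

/-- cells pointing to the closed states of the backward ball -/
def bX {n k : ℕ} (T : Fin n → Fin k → Fin n) : (m : ℕ) → Fin n → Finset (Fin n × Fin k)
  | 0, _ => ∅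
  | m + 1, s => (inl T s).toFinset ∪ ((inl T s).toFinset.biUnion (fun c => bX T m c.1))
end AS
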