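import Pool.Agent.Helper513.AS.Defs

set_option autoImplicit false

namespace AS
open Finset SI
variable {V : Type} [Fintype V] [DecidableEq V] {k : ℕ}

/-- retarget the cell `c` to `v` -/
def upd (T : V → Fin k → V) (c : V × Fin k) (v : V) : V → Fin k → V :=
  fun p a => if (p, a) = c then v else T p a

omit [Fintype V] in
theorem upd_same (T : V → Fin k → V) (c : V × Fin k) (v : V) : upd T c v c.1 c.2 = v := by
  unfold upd
  rw [if_pos rfl]

omit [Fintype V] in
theorem upd_ne (T : V → Fin k → V) (c : V × Fin k) (v : V) (d : V × Fin k) (h : d ≠ c) :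
    upd T c v d.1 d.2 = T d.1 d.2 := by
  unfold upd
  rw [if_neg h]

omit [DecidableEq V] in
theorem mem_Om' {T0 : V → Fin k → V} {X : Finset (V × Fin k)} {K R : Finset V}
    {T : V → Fin k → V} : T ∈ Om T0 X K R ↔ ((∀ c ∈ X, T c.1 c.2 = T0 c.1 c.2) ∧
      (∀ c, c ∉ X → T c.1 c.2 ∉ K) ∧ ∀ r ∈ R, ∃ c, c ∉ X ∧ T c.1 c.2 = r) := by
  classical
  unfold Om
  constructor
  · intro h
    exact (Finset.mem_filter.1 h).2
  · intro h
    exact Finset.mem_filter.2 ⟨Finset.mem_univ _, h⟩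

theorem upd_mem {T0 : V → Fin k → V} {X : Finset (V × Fin k)} {K : Finset V} {T : V → Fin k → V}
    (hT : T ∈ Om T0 X K ∅) {c : V × Fin k} (hc : c ∉ X) {v : V} (hv : v ∉ K) :
    upd T c v ∈ Om T0 X K ∅ := by
  rw [mem_Om'] at hT ⊢
  obtain ⟨h1, h2, _⟩ := hT
  refine ⟨fun d hd => ?_, fun d hd => ?_, fun r hr => ?_⟩
  · have hdc : d ≠ c := fun h => hc (h ▸ hd)
    rw [upd_ne T c v d hdc]
    exact h1 d hd
  · by_cases hdc : d = c
    · subst hdc
      rw [upd_same]
      exact hv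
    · rw [upd_ne T c v d hdc]
      exact h2 d hd
  · exact absurd hr (Finset.notMem_empty _)

omit [Fintype V] [DecidableEq V] in
theorem traj_congr (T T' : V → Fin k → V) (o : V) (W : ℕ → Fin k) (n : ℕ)
    (h : ∀ i < n, T' (traj T o W i) (W i) = T (traj T o W i) (W i)) :
    ∀ i ≤ n, traj T' o W i = traj T o W i := by
  intro i
  induction i with
  | zero => intro _; rfl
  | succ i ih =>
    intro hi
    have h1 := ih (by omega)
    show T' (traj T' o W i) (W i) = T (traj T o W i) (W i)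
    rw [h1]
    exact h i (by omega)

omit [Fintype V] in
theorem traj_upd (T : V → Fin k → V) (c : V × Fin k) (v : V) (o : V) (W : ℕ → Fin k) (n : ℕ)
    (h : ∀ i < n, cell T o W i ≠ c) :
    ∀ i ≤ n, traj (upd T c v) o W i = traj T o W i :=
  traj_congr T _ o W n fun i hi => upd_ne T c v (cell T o W i) (h i hi)

omit [Fintype V] in
theorem traj_upd2 (T : V → Fin k → V) (c c' : V × Fin k) (v v' : V) (o : V) (W : ℕ → Fin k)
    (n : ℕ) (h : ∀ i < n, cell T o W i ≠ c) (h' : ∀ i < n, cell T o W i ≠ c') :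
    ∀ i ≤ n, traj (upd (upd T c v) c' v') o W i = traj T o W i :=
  traj_congr T _ o W n fun i hi => by
    have h1 := upd_ne (upd T c v) c' v' (cell T o W i) (h' i hi)
    rw [upd_ne T c v (cell T o W i) (h i hi)] at h1
    exact h1

theorem count_inj {α β γ : Type*} [Finite α] [DecidableEq γ] (A : Set α) (F : Finset β)
    (G : Finset γ) (Φ : α → β → γ) (h1 : ∀ a ∈ A, ∀ b ∈ F, Φ a b ∈ G)
    (h2 : ∀ a ∈ A, ∀ b ∈ F, ∀ a' ∈ A, ∀ b' ∈ F, Φ a b = Φ a' b' → a = a' ∧ b = b') :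
    A.ncard * F.card ≤ G.card := by
  classical
  have hA : A.Finite := Set.toFinite A
  rw [Set.ncard_eq_toFinset_card A hA, ← Finset.card_product]
  refine Finset.card_le_card_of_injOn (fun p => Φ p.1 p.2) ?_ ?_
  · intro p hp
    rw [Finset.mem_coe, Finset.mem_product, Set.Finite.mem_toFinset] at hp
    exact h1 p.1 hp.1 p.2 hp.2
  · intro p hp q hq hpq
    rw [Finset.mem_coe, Finset.mem_product, Set.Finite.mem_toFinset] at hp hq
    obtain ⟨h3, h4⟩ := h2 p.1 hp.1 p.2 hp.2 q.1 hq.1 q.2 hq.2 hpq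
    exact Prod.ext h3 h4

omit [Fintype V] in
/-- injectivity of the double retargeting -/
theorem upd2_inj (T1 T2 : V → Fin k → V) (c c' : V × Fin k) (v1 v1' v2 v2' : V) (hne : c ≠ c')
    (hc : T1 c.1 c.2 = T2 c.1 c.2) (hc' : T1 c'.1 c'.2 = T2 c'.1 c'.2)
    (h : upd (upd T1 c v1) c' v1' = upd (upd T2 c v2) c' v2') :
    T1 = T2 ∧ v1 = v2 ∧ v1' = v2' := by
  have hd : ∀ d : V × Fin k, upd (upd T1 c v1) c' v1' d.1 d.2 = upd (upd T2 c v2) c' v2' d.1 d.2 :=
    fun d => by rw [h]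
  refine ⟨?_, ?_, ?_⟩
  · funext p a
    by_cases h1 : (p, a) = c
    · have := hc
      rw [← h1] at this
      exact this
    · by_cases h2 : (p, a) = c'
      · have := hc'
        rw [← h2] at this
        exact this
      · have h3 := hd (p, a)
        rw [upd_ne _ _ _ _ h2, upd_ne _ _ _ _ h1, upd_ne _ _ _ _ h2, upd_ne _ _ _ _ h1] at h3
        exact h3
  · have h3 := hd c
    rw [upd_ne _ _ _ _ hne, upd_same, upd_ne _ _ _ _ hne, upd_same] at h3
    exact h3
  · have h3 := hd c'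
    rw [upd_same, upd_same] at h3
    exact h3

/-- count with two retargeted cells -/
theorem count_two (T0 : V → Fin k → V) (X : Finset (V × Fin k)) (K : Finset V)
    (S : Set (V → Fin k → V)) (hS : ∀ T ∈ S, T ∈ Om T0 X K ∅)
    (c c' : (V → Fin k → V) → V × Fin k) (hc : ∀ T ∈ S, c T ∉ X) (hc' : ∀ T ∈ S, c' T ∉ X)
    (hne : ∀ T ∈ S, c T ≠ c' T)
    (hinj : ∀ T1 ∈ S, ∀ T2 ∈ S, ∀ v1 v1' v2 v2' : V,
      upd (upd T1 (c T1) v1) (c' T1) v1' = upd (upd T2 (c T2) v2) (c' T2) v2' →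
      c T1 = c T2 ∧ c' T1 = c' T2 ∧ T1 (c T1).1 (c T1).2 = T2 (c T2).1 (c T2).2 ∧
        T1 (c' T1).1 (c' T1).2 = T2 (c' T2).1 (c' T2).2) :
    S.ncard * (Fintype.card V - K.card) ^ 2 ≤ (Om T0 X K ∅).card := by
  classical
  have hF : (Kᶜ ×ˢ Kᶜ : Finset (V × V)).card = (Fintype.card V - K.card) ^ 2 := by
    rw [Finset.card_product, Finset.card_compl, sq]
  rw [← hF]
  refine count_inj S _ _ (fun T w => upd (upd T (c T) w.1) (c' T) w.2) ?_ ?_
  · intro T hT w hw
    rw [Finset.mem_product, Finset.mem_compl, Finset.mem_compl] at hw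
    exact upd_mem (upd_mem (hS T hT) (hc T hT) hw.1) (hc' T hT) hw.2
  · intro T1 hT1 w1 _ T2 hT2 w2 _ h
    obtain ⟨h1, h2, h3, h4⟩ := hinj T1 hT1 T2 hT2 w1.1 w1.2 w2.1 w2.2 h
    rw [← h1, ← h2] at h
    rw [← h1] at h3
    rw [← h2] at h4
    obtain ⟨h5, h6, h7⟩ := upd2_inj T1 T2 (c T1) (c' T1) w1.1 w1.2 w2.1 w2.2 (hne T1 hT1) h3 h4 h
    exact ⟨h5, Prod.ext h6 h7⟩

omit [Fintype V] [DecidableEq V] in
/-- the walk does not use a cell with target in `B` before the last step -/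
theorem nice_not_use {T : V → Fin k → V} {B : Finset V} {o x : V} {W : ℕ → Fin k} {n : ℕ}
    (h : Nice T B o x W (n + 1)) {d : V × Fin k} (hd : T d.1 d.2 ∈ B) :
    ∀ i < n, cell T o W i ≠ d := by
  intro i hi hid
  apply h.2.1 (i + 1) (by omega)
  show T (cell T o W i).1 (cell T o W i).2 ∈ B
  rw [hid]
  exact hd

omit [Fintype V] [DecidableEq V] in
theorem nice_notX {T : V → Fin k → V} {B : Finset V} {o x : V} {W : ℕ → Fin k} {L : ℕ}
    (h : Nice T B o x W L) {X : Finset (V × Fin k)} (hXB : ∀ c ∈ X, c.1 ∈ B) {i : ℕ}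
    (hi : i < L) : cell T o W i ∉ X := fun hc => h.2.1 i hi (hXB _ hc)

/-- two different last cells -/
theorem nice_last (T0 : V → Fin k → V) (X : Finset (V × Fin k)) (K B : Finset V) (o : V)
    (hXB : ∀ c ∈ X, c.1 ∈ B) (x x' : V) (hxB : x ∈ B) (hxB' : x' ∈ B)
    (W W' : ℕ → Fin k) (n : ℕ) (S : Set (V → Fin k → V))
    (hS : ∀ T ∈ S, T ∈ Om T0 X K ∅ ∧ Nice T B o x W (n + 1) ∧ Nice T B o x' W' (n + 1) ∧
      cell T o W n ≠ cell T o W' n) :
    S.ncard * (Fintype.card V - K.card) ^ 2 ≤ (Om T0 X K ∅).card := by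
  refine count_two T0 X K S (fun T hT => (hS T hT).1) (fun T => cell T o W n)
    (fun T => cell T o W' n) (fun T hT => nice_notX (hS T hT).2.1 hXB (Nat.lt_succ_self n))
    (fun T hT => nice_notX (hS T hT).2.2.1 hXB (Nat.lt_succ_self n))
    (fun T hT => (hS T hT).2.2.2) ?_
  have key : ∀ T ∈ S, ∀ v v' : V,
      traj (upd (upd T (cell T o W n) v) (cell T o W' n) v') o W n = traj T o W n ∧
      traj (upd (upd T (cell T o W n) v) (cell T o W' n) v') o W' n = traj T o W' n := by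
    intro T hT v v'
    obtain ⟨_, h1, h2, _⟩ := hS T hT
    have ha : T (cell T o W n).1 (cell T o W n).2 ∈ B := by
      have : T (cell T o W n).1 (cell T o W n).2 = x := h1.1
      rw [this]; exact hxB
    have hb : T (cell T o W' n).1 (cell T o W' n).2 ∈ B := by
      have : T (cell T o W' n).1 (cell T o W' n).2 = x' := h2.1
      rw [this]; exact hxB'
    exact ⟨traj_upd2 T _ _ v v' o W n (nice_not_use h1 ha) (nice_not_use h1 hb) n (le_refl n),
      traj_upd2 T _ _ v v' o W' n (nice_not_use h2 ha) (nice_not_use h2 hb) n (le_refl n)⟩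
  intro T1 hT1 T2 hT2 v1 v1' v2 v2' h
  have h1 := key T1 hT1 v1 v1'
  have h2 := key T2 hT2 v2 v2'
  rw [h] at h1
  have hc : cell T1 o W n = cell T2 o W n := by
    unfold cell
    rw [← h1.1, ← h2.1]
  have hc' : cell T1 o W' n = cell T2 o W' n := by
    unfold cell
    rw [← h1.2, ← h2.2]
  refine ⟨hc, hc', ?_, ?_⟩
  · have e1 : T1 (cell T1 o W n).1 (cell T1 o W n).2 = x := (hS T1 hT1).2.1.1
    have e2 : T2 (cell T2 o W n).1 (cell T2 o W n).2 = x := (hS T2 hT2).2.1.1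
    rw [e1, e2]
  · have e1 : T1 (cell T1 o W' n).1 (cell T1 o W' n).2 = x' := (hS T1 hT1).2.2.1.1
    have e2 : T2 (cell T2 o W' n).1 (cell T2 o W' n).2 = x' := (hS T2 hT2).2.2.1.1
    rw [e1, e2]

/-- the last difference of the cells at time `t'` before the last step -/
theorem nice_mid (T0 : V → Fin k → V) (X : Finset (V × Fin k)) (K B : Finset V) (o : V)
    (hXB : ∀ c ∈ X, c.1 ∈ B) (x : V) (hxB : x ∈ B)
    (W W' : ℕ → Fin k) (n t' : ℕ) (ht' : t' < n) (S : Set (V → Fin k → V))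
    (hS : ∀ T ∈ S, T ∈ Om T0 X K ∅ ∧ Nice T B o x W (n + 1) ∧ Nice T B o x W' (n + 1) ∧
      cell T o W t' ≠ cell T o W' t' ∧ cell T o W (t' + 1) = cell T o W' (t' + 1)) :
    S.ncard * (Fintype.card V - K.card) ^ 2 ≤ (Om T0 X K ∅).card := by
  have hd : ∀ T ∈ S, T (cell T o W' t').1 (cell T o W' t').2 = traj T o W (t' + 1) := by
    intro T hT
    have h1 := (hS T hT).2.2.2.2
    have h2 : traj T o W (t' + 1) = traj T o W' (t' + 1) := congrArg Prod.fst h1
    rw [h2]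
    rfl
  have hdB : ∀ T ∈ S, T (cell T o W' t').1 (cell T o W' t').2 ∉ B := by
    intro T hT
    rw [hd T hT]
    exact (hS T hT).2.1.2.1 (t' + 1) (by omega)
  have he : ∀ T ∈ S, T (cell T o W n).1 (cell T o W n).2 = x := fun T hT => (hS T hT).2.1.1
  have heB : ∀ T ∈ S, T (cell T o W n).1 (cell T o W n).2 ∈ B := fun T hT => by
    rw [he T hT]; exact hxB
  have hne : ∀ T ∈ S, cell T o W' t' ≠ cell T o W n := by
    intro T hT h
    apply hdB T hT
    rw [h]
    exact heB T hT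
  refine count_two T0 X K S (fun T hT => (hS T hT).1) (fun T => cell T o W' t')
    (fun T => cell T o W n) (fun T hT => nice_notX (hS T hT).2.2.1 hXB (by omega))
    (fun T hT => nice_notX (hS T hT).2.1 hXB (Nat.lt_succ_self n)) hne ?_
  have key : ∀ T ∈ S, ∀ v v' : V,
      (∀ i ≤ n, traj (upd (upd T (cell T o W' t') v) (cell T o W n) v') o W i = traj T o W i) ∧
      (∀ i ≤ t', traj (upd (upd T (cell T o W' t') v) (cell T o W n) v') o W' i =
        traj T o W' i) := by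
    intro T hT v v'
    obtain ⟨_, h1, h2, h3, h4⟩ := hS T hT
    refine ⟨traj_upd2 T _ _ v v' o W n ?_ (nice_not_use h1 (heB T hT)),
      traj_upd2 T _ _ v v' o W' t' ?_
        (fun i hi => nice_not_use h2 (heB T hT) i (by omega))⟩
    · intro s hs hsd
      have e1 : traj T o W (s + 1) = traj T o W (t' + 1) := by
        rw [← hd T hT, ← hsd]
        rfl
      rcases lt_trichotomy s t' with h5 | h5 | h5
      · exact h1.2.2 (s + 1) (t' + 1) (by omega) (by omega) e1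
      · subst h5
        exact h3 hsd
      · exact h1.2.2 (t' + 1) (s + 1) (by omega) (by omega) e1.symm
    · intro s hs hsd
      exact h2.2.2 s t' hs (by omega) (congrArg Prod.fst hsd)
  intro T1 hT1 T2 hT2 v1 v1' v2 v2' h
  have h1 := key T1 hT1 v1 v1'
  have h2 := key T2 hT2 v2 v2'
  rw [h] at h1
  have hc : cell T1 o W' t' = cell T2 o W' t' := by
    unfold cell
    rw [← h1.2 t' (le_refl _), ← h2.2 t' (le_refl _)]
  have hc' : cell T1 o W n = cell T2 o W n := by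
    unfold cell
    rw [← h1.1 n (le_refl _), ← h2.1 n (le_refl _)]
  refine ⟨hc, hc', ?_, ?_⟩
  · rw [hd T1 hT1, hd T2 hT2, ← h1.1 (t' + 1) (by omega), ← h2.1 (t' + 1) (by omega)]
  · rw [he T1 hT1, he T2 hT2]

theorem nice_one (T0 : V → Fin k → V) (X : Finset (V × Fin k)) (K B : Finset V) (o : V)
    (hKB : K ⊆ B) (hXB : ∀ c ∈ X, c.1 ∈ B) (x : V) (hxB : x ∈ B) (hxK : x ∉ K)
    (W : ℕ → Fin k) (L : ℕ) (hL : 1 ≤ L) :
    Set.ncard {T | T ∈ Om T0 X K ∅ ∧ Nice T B o x W L} * (Fintype.card V - K.card)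
      ≤ (Om T0 X K ∅).card := by
  classical
  obtain ⟨n, rfl⟩ : ∃ n, L = n + 1 := ⟨L - 1, by omega⟩
  rw [← Finset.card_compl]
  refine count_inj _ _ _ (fun T w => upd T (cell T o W n) w) ?_ ?_
  · intro T hT w hw
    rw [Finset.mem_compl] at hw
    exact upd_mem hT.1 (nice_notX hT.2 hXB (Nat.lt_succ_self n)) hw
  · intro T1 hT1 w1 _ T2 hT2 w2 _ h
    have key : ∀ T : V → Fin k → V, Nice T B o x W (n + 1) → ∀ v : V,
        traj (upd T (cell T o W n) v) o W n = traj T o W n := by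
      intro T hT v
      have ha : T (cell T o W n).1 (cell T o W n).2 ∈ B := by
        have : T (cell T o W n).1 (cell T o W n).2 = x := hT.1
        rw [this]; exact hxB
      exact traj_upd T _ v o W n (nice_not_use hT ha) n (le_refl n)
    have h1 := key T1 hT1.2 w1
    have h2 := key T2 hT2.2 w2
    rw [h] at h1
    have hc : cell T1 o W n = cell T2 o W n := by
      unfold cell
      rw [← h1, ← h2]
    have e1 : T1 (cell T1 o W n).1 (cell T1 o W n).2 = x := hT1.2.1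
    have e2 : T2 (cell T2 o W n).1 (cell T2 o W n).2 = x := hT2.2.1
    rw [← hc] at h e2
    have hd : ∀ d : V × Fin k, upd T1 (cell T1 o W n) w1 d.1 d.2 =
        upd T2 (cell T1 o W n) w2 d.1 d.2 := fun d => by rw [h]
    refine ⟨?_, ?_⟩
    · funext p a
      by_cases h3 : (p, a) = cell T1 o W n
      · rw [← h3] at e1 e2
        exact e1.trans e2.symm
      · have h4 := hd (p, a)
        rw [upd_ne _ _ _ _ h3, upd_ne _ _ _ _ h3] at h4
        exact h4
    · have h4 := hd (cell T1 o W n)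
      rw [upd_same, upd_same] at h4
      exact h4

theorem nice_two_ne (T0 : V → Fin k → V) (X : Finset (V × Fin k)) (K B : Finset V) (o : V)
    (hKB : K ⊆ B) (hXB : ∀ c ∈ X, c.1 ∈ B) (x x' : V) (hxB : x ∈ B) (hxK : x ∉ K)
    (hxB' : x' ∈ B) (hxK' : x' ∉ K) (hne : x ≠ x')
    (W W' : ℕ → Fin k) (L : ℕ) (hL : 1 ≤ L) :
    Set.ncard {T | T ∈ Om T0 X K ∅ ∧ Nice T B o x W L ∧ Nice T B o x' W' L} *
        (Fintype.card V - K.card) ^ 2 ≤ (Om T0 X K ∅).card := by
  obtain ⟨n, rfl⟩ : ∃ n, L = n + 1 := ⟨L - 1, by omega⟩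
  refine nice_last T0 X K B o hXB x x' hxB hxB' W W' n _ ?_
  intro T hT
  refine ⟨hT.1, hT.2.1, hT.2.2, fun h => hne ?_⟩
  have e1 : T (cell T o W n).1 (cell T o W n).2 = x := hT.2.1.1
  have e2 : T (cell T o W' n).1 (cell T o W' n).2 = x' := hT.2.2.1
  rw [← e1, ← e2, h]

theorem nice_two_eq (T0 : V → Fin k → V) (X : Finset (V × Fin k)) (K B : Finset V) (o : V)
    (hKB : K ⊆ B) (hXB : ∀ c ∈ X, c.1 ∈ B) (x : V) (hxB : x ∈ B) (hxK : x ∉ K)
    (W W' : ℕ → Fin k) (L t : ℕ) (ht : t < L) (hW : W t ≠ W' t)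
    (hW' : ∀ j, t < j → j < L → W j = W' j) :
    Set.ncard {T | T ∈ Om T0 X K ∅ ∧ Nice T B o x W L ∧ Nice T B o x W' L} *
        (Fintype.card V - K.card) ^ 2 ≤ (L - t) * (Om T0 X K ∅).card := by
  classical
  obtain ⟨n, rfl⟩ : ∃ n, L = n + 1 := ⟨L - 1, by omega⟩
  set S : Set (V → Fin k → V) :=
    {T | T ∈ Om T0 X K ∅ ∧ Nice T B o x W (n + 1) ∧ Nice T B o x W' (n + 1)} with hS
  let E : ℕ → Set (V → Fin k → V) := fun t' => {T | T ∈ S ∧ cell T o W t' ≠ cell T o W' t' ∧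
    ∀ j, t' < j → j < n + 1 → cell T o W j = cell T o W' j}
  have hE : ∀ t' < n + 1, (E t').ncard * (Fintype.card V - K.card) ^ 2 ≤ (Om T0 X K ∅).card := by
    intro t' ht'
    rcases Nat.lt_or_ge t' n with h1 | h1
    · refine nice_mid T0 X K B o hXB x hxB W W' n t' h1 (E t') ?_
      intro T hT
      exact ⟨hT.1.1, hT.1.2.1, hT.1.2.2, hT.2.1, hT.2.2 (t' + 1) (by omega) (by omega)⟩
    · have h2 : t' = n := by omega
      subst h2
      refine nice_last T0 X K B o hXB x x hxB hxB W W' t' (E t') ?_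
      intro T hT
      exact ⟨hT.1.1, hT.1.2.1, hT.1.2.2, hT.2.1⟩
  have hsub : S ⊆ ⋃ t' ∈ Finset.Ico t (n + 1), E t' := by
    intro T hT
    have hex : ∃ j, j < n + 1 ∧ cell T o W j ≠ cell T o W' j :=
      ⟨t, ht, fun h => hW (congrArg Prod.snd h)⟩
    -- the largest such index
    let F := (Finset.range (n + 1)).filter (fun j => cell T o W j ≠ cell T o W' j)
    have hF : F.Nonempty := by
      obtain ⟨j, hj, hj2⟩ := hex
      exact ⟨j, Finset.mem_filter.2 ⟨Finset.mem_range.2 hj, hj2⟩⟩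
    have htF : t ∈ F :=
      Finset.mem_filter.2 ⟨Finset.mem_range.2 ht, fun h => hW (congrArg Prod.snd h)⟩
    have hmem := Finset.mem_filter.1 (Finset.max'_mem F hF)
    rw [Set.mem_iUnion₂]
    refine ⟨F.max' hF, Finset.mem_Ico.2 ⟨Finset.le_max' F t htF, Finset.mem_range.1 hmem.1⟩,
      hT, hmem.2, ?_⟩
    intro j hj hj2
    by_contra hcon
    have h3 : j ∈ F := Finset.mem_filter.2 ⟨Finset.mem_range.2 hj2, hcon⟩
    have h4 := Finset.le_max' F j h3
    omega
  have hcard : S.ncard ≤ ∑ t' ∈ Finset.Ico t (n + 1), (E t').ncard := by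
    refine (Set.ncard_le_ncard hsub (Set.toFinite _)).trans ?_
    induction Finset.Ico t (n + 1) using Finset.induction_on with
    | empty => simp
    | insert a s ha ih =>
      rw [Finset.set_biUnion_insert, Finset.sum_insert ha]
      exact (Set.ncard_union_le _ _).trans (by omega)
  calc S.ncard * (Fintype.card V - K.card) ^ 2
      ≤ (∑ t' ∈ Finset.Ico t (n + 1), (E t').ncard) * (Fintype.card V - K.card) ^ 2 :=
        Nat.mul_le_mul_right _ hcard
    _ = ∑ t' ∈ Finset.Ico t (n + 1), (E t').ncard * (Fintype.card V - K.card) ^ 2 := by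
        rw [Finset.sum_mul]
    _ ≤ ∑ t' ∈ Finset.Ico t (n + 1), (Om T0 X K ∅).card :=
        Finset.sum_le_sum fun t' ht' => hE t' (Finset.mem_Ico.1 ht').2
    _ = (n + 1 - t) * (Om T0 X K ∅).card := by
        rw [Finset.sum_const, Nat.card_Ico, smul_eq_mul]
end AS
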