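import Pool.Agent.Helper513.AS.F1
import Pool.Agent.Helper513.AS.B3

set_option autoImplicit false

namespace AS
open Finset SI
variable {V : Type} [Fintype V] [DecidableEq V] {k : ℕ}



/-! auxiliary -/
theorem f3_traj_congr (T : V → Fin k → V) (p : V) (v v' : ℕ → Fin k) (j : ℕ)
    (h : ∀ i, i < j → v i = v' i) : traj T p v j = traj T p v' j := by
  induction j with
  | zero => rfl
  | succ j ih =>
    show T (traj T p v j) (v j) = T (traj T p v' j) (v' j)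
    rw [ih (fun i hi => h i (by omega)), h j (by omega)]

open Classical in
/-- cells used by walks of length `ρ` from the points of `F` -/
noncomputable def f3Z (F : Finset V) (ρ : ℕ) (T : V → Fin k → V) : Finset (V × Fin k) :=
  Finset.univ.filter (fun c => ∃ q ∈ F, ∃ (v : ℕ → Fin k) (j : ℕ), j < ρ ∧ c = (traj T q v j, v j))

theorem f3_mem (F : Finset V) (ρ : ℕ) (T : V → Fin k → V) (c : V × Fin k) :
    c ∈ f3Z F ρ T ↔ ∃ q ∈ F, ∃ (v : ℕ → Fin k) (j : ℕ), j < ρ ∧ c = (traj T q v j, v j) := by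
  unfold f3Z
  simp only [Finset.mem_filter, Finset.mem_univ, true_and]

theorem f3_agree (F : Finset V) (ρ : ℕ) (T T' : V → Fin k → V)
    (h : ∀ c ∈ f3Z F ρ T, T' c.1 c.2 = T c.1 c.2) (q : V) (hq : q ∈ F) (v : ℕ → Fin k) (j : ℕ)
    (hj : j ≤ ρ) : traj T' q v j = traj T q v j := by
  induction j with
  | zero => rfl
  | succ j ih =>
    show T' (traj T' q v j) (v j) = T (traj T q v j) (v j)
    rw [ih (by omega)]
    refine h (traj T q v j, v j) ?_
    rw [f3_mem]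
    exact ⟨q, hq, v, j, by omega, rfl⟩

theorem f3_Z_eq (F : Finset V) (ρ : ℕ) (T T' : V → Fin k → V)
    (h : ∀ c ∈ f3Z F ρ T, T' c.1 c.2 = T c.1 c.2) : f3Z F ρ T' = f3Z F ρ T := by
  ext c
  rw [f3_mem, f3_mem]
  constructor
  · rintro ⟨q, hq, v, j, hj, hc⟩
    exact ⟨q, hq, v, j, hj, by rw [hc, f3_agree F ρ T T' h q hq v j hj.le]⟩
  · rintro ⟨q, hq, v, j, hj, hc⟩
    exact ⟨q, hq, v, j, hj, by rw [hc, f3_agree F ρ T T' h q hq v j hj.le]⟩

theorem f3_geom (hk : 2 ≤ k) (ρ : ℕ) : ∑ j ∈ Finset.range ρ, k ^ (j + 1) ≤ k ^ (ρ + 1) := by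
  induction ρ with
  | zero => simp
  | succ ρ ih =>
    rw [Finset.sum_range_succ, pow_succ k (ρ + 1)]
    nlinarith [Nat.zero_le (k ^ (ρ + 1))]

theorem f3_card (hk : 2 ≤ k) (F : Finset V) (ρ : ℕ) (T : V → Fin k → V) :
    (f3Z F ρ T).card ≤ F.card * k ^ (ρ + 1) := by
  classical
  let ex : (j : ℕ) → (Fin (j + 1) → Fin k) → ℕ → Fin k := fun j w i => w ⟨min i j, by omega⟩
  have hsub : f3Z F ρ T ⊆ F.biUnion (fun q => (Finset.range ρ).biUnion (fun j =>
      (Finset.univ : Finset (Fin (j + 1) → Fin k)).image (fun w => (traj T q (ex j w) j, ex j w j)))) := by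
    intro c hc
    rw [f3_mem] at hc
    obtain ⟨q, hq, v, j, hj, rfl⟩ := hc
    rw [Finset.mem_biUnion]
    refine ⟨q, hq, ?_⟩
    rw [Finset.mem_biUnion]
    refine ⟨j, Finset.mem_range.2 hj, ?_⟩
    rw [Finset.mem_image]
    refine ⟨fun i => v i, Finset.mem_univ _, ?_⟩
    have e1 : ∀ i, i ≤ j → ex j (fun i => v i) i = v i := by
      intro i hi
      show v (min i j) = v i
      rw [min_eq_left hi]
    rw [e1 j le_rfl, f3_traj_congr T q _ v j (fun i hi => e1 i hi.le)]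
  refine (Finset.card_le_card hsub).trans ?_
  refine Finset.card_biUnion_le.trans ?_
  rw [Finset.card_eq_sum_ones, Finset.sum_mul]
  apply Finset.sum_le_sum
  intro q _
  rw [one_mul]
  refine Finset.card_biUnion_le.trans (le_trans ?_ (f3_geom hk ρ))
  apply Finset.sum_le_sum
  intro j _
  refine Finset.card_image_le.trans ?_
  rw [Finset.card_univ, Fintype.card_fun, Fintype.card_fin, Fintype.card_fin]

theorem f3_main (hk : 2 ≤ k) (T0 : V → Fin k → V) (o : V) (F : Finset V) (hF : F.card ≤ 2) (ρ : ℕ)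
    (hr : 2 * k ^ (ρ + 1) + 1 < Fintype.card V) (E : Set (V → Fin k → V))
    (hE : ∀ T ∈ E, ∀ T', (∀ q ∈ F, ∀ (v : ℕ → Fin k) (j : ℕ), j ≤ ρ → traj T' q v j = traj T q v j) → T' ∈ E)
    (s C : ℕ) (hC : Set.ncard E * Fintype.card V ^ s ≤ C * Fintype.card (V → Fin k → V)) :
    (Set.ncard {T | T ∈ Om T0 ∅ ∅ (Finset.univ.erase o) ∧ T ∈ E} : ℝ) * (Fintype.card V : ℝ) ^ s
      ≤ ((Fintype.card V : ℝ) / (Fintype.card V - 1 - 2 * (k:ℝ) ^ (ρ + 1))) ^ (2 * k ^ (ρ + 1)) *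
        (C : ℝ) * (Om T0 ∅ ∅ (Finset.univ.erase o)).card := by
  have hRc : (Finset.univ.erase o).card = Fintype.card V - 1 := by
    rw [Finset.card_erase_of_mem (Finset.mem_univ o), Finset.card_univ]
  have key := cert T0 ∅ ∅ (Finset.univ.erase o) (Finset.disjoint_empty_right _) (2 * k ^ (ρ + 1))
    (by rw [hRc]; omega) E (f3Z F ρ)
    (by
      intro T _ _
      refine ⟨(f3_card hk F ρ T).trans ?_, Finset.disjoint_empty_right _⟩
      exact Nat.mul_le_mul_right _ hF)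
    (by
      intro T _ hT T' _ hc
      exact ⟨hE T hT T' (fun q hq v j hj => f3_agree F ρ T T' hc q hq v j hj), f3_Z_eq F ρ T T' hc⟩)
  have hOm : Om T0 (∅ : Finset (V × Fin k)) ∅ ∅ = Finset.univ := by
    ext T
    unfold Om
    simp
  have hOmc : (Om T0 (∅ : Finset (V × Fin k)) ∅ ∅).card = Fintype.card (V → Fin k → V) := by
    rw [hOm, Finset.card_univ]
  have hset : {T | T ∈ Om T0 (∅ : Finset (V × Fin k)) ∅ ∅ ∧ T ∈ E} = E := by
    ext T
    rw [hOm]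
    simp
  rw [hset, hOmc, hRc] at key
  have hW : 0 < Fintype.card (V → Fin k → V) := by
    haveI : Nonempty V := ⟨o⟩
    exact Fintype.card_pos
  set W : ℝ := (Fintype.card (V → Fin k → V) : ℝ) with hWd
  have hW' : 0 < W := by rw [hWd]; exact_mod_cast hW
  have hN1 : 1 ≤ Fintype.card V := by omega
  have hcast : (((Fintype.card V - 1 : ℕ) : ℝ)) - ((2 * k ^ (ρ + 1) : ℕ) : ℝ) =
      (Fintype.card V : ℝ) - 1 - 2 * (k:ℝ) ^ (ρ + 1) := by
    push_cast [Nat.cast_sub hN1]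
    ring
  rw [hcast] at key
  set D : ℝ := (Fintype.card V : ℝ) - 1 - 2 * (k:ℝ) ^ (ρ + 1) with hD
  have hDpos : 0 < D := by
    have : ((2 * k ^ (ρ + 1) + 1 : ℕ) : ℝ) < (Fintype.card V : ℝ) := by exact_mod_cast hr
    push_cast at this
    rw [hD]
    linarith
  set a : ℝ := (Set.ncard {T | T ∈ Om T0 ∅ ∅ (Finset.univ.erase o) ∧ T ∈ E} : ℝ) with ha
  set b : ℝ := ((Om T0 ∅ ∅ (Finset.univ.erase o)).card : ℝ) with hb
  have hCR : (Set.ncard E : ℝ) * (Fintype.card V : ℝ) ^ s ≤ (C : ℝ) * W := by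
    rw [hWd]; exact_mod_cast hC
  set r := 2 * k ^ (ρ + 1) with hrd
  have hDr : 0 < D ^ r := pow_pos hDpos r
  have hNr : 0 ≤ (Fintype.card V : ℝ) ^ r := by positivity
  have hNs : 0 ≤ (Fintype.card V : ℝ) ^ s := by positivity
  have hb0 : 0 ≤ b := by rw [hb]; positivity
  have e0 : (Fintype.card V : ℝ) - ((∅ : Finset V).card : ℝ) = Fintype.card V := by simp
  rw [e0] at key
  have h1 : (a * (Fintype.card V : ℝ) ^ s) * (W * D ^ r) ≤
      (b * C * (Fintype.card V : ℝ) ^ r) * W := by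
    calc (a * (Fintype.card V : ℝ) ^ s) * (W * D ^ r)
        = (a * W * D ^ r) * (Fintype.card V : ℝ) ^ s := by ring
      _ ≤ (b * (Set.ncard E : ℝ) * (Fintype.card V : ℝ) ^ r) * (Fintype.card V : ℝ) ^ s :=
          mul_le_mul_of_nonneg_right key hNs
      _ = (b * (Fintype.card V : ℝ) ^ r) * ((Set.ncard E : ℝ) * (Fintype.card V : ℝ) ^ s) := by ring
      _ ≤ (b * (Fintype.card V : ℝ) ^ r) * ((C : ℝ) * W) :=
          mul_le_mul_of_nonneg_left hCR (mul_nonneg hb0 hNr)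
      _ = _ := by ring
  have h2 : (a * (Fintype.card V : ℝ) ^ s) * D ^ r ≤ b * C * (Fintype.card V : ℝ) ^ r := by
    have : ((a * (Fintype.card V : ℝ) ^ s) * D ^ r) * W ≤ (b * C * (Fintype.card V : ℝ) ^ r) * W := by
      calc _ = (a * (Fintype.card V : ℝ) ^ s) * (W * D ^ r) := by ring
        _ ≤ _ := h1
    exact le_of_mul_le_mul_right this hW'
  rw [div_pow]
  calc a * (Fintype.card V : ℝ) ^ s ≤ b * C * (Fintype.card V : ℝ) ^ r / D ^ r := by
        rw [le_div_iff₀ hDr]; exact h2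
    _ = _ := by ring

theorem notTL_S (hk : 2 ≤ k) (T0 : V → Fin k → V) (o p : V) (ρ : ℕ)
    (hr : 2 * k ^ (ρ + 1) + 1 < Fintype.card V) :
    (Set.ncard {T | T ∈ Om T0 ∅ ∅ (Finset.univ.erase o) ∧ ¬ TL T p ρ} : ℝ) * Fintype.card V
      ≤ ((Fintype.card V : ℝ) / (Fintype.card V - 1 - 2 * (k:ℝ) ^ (ρ + 1))) ^ (2 * k ^ (ρ + 1)) *
        ((k:ℝ) ^ (ρ + 1)) ^ 4 * (Om T0 ∅ ∅ (Finset.univ.erase o)).card := by
  have h := f3_main hk T0 o {p} (by simp) ρ hr {T | ¬ TL T p ρ} (by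
    intro T hT T' hag hTL
    apply hT
    intro v v' j j' hj hj' he
    apply hTL v v' j j' hj hj'
    rw [hag p (Finset.mem_singleton_self p) v j hj, hag p (Finset.mem_singleton_self p) v' j' hj']
    exact he) 1 ((k ^ (ρ + 1)) ^ 4) (by rw [pow_one]; exact notTL_count hk p ρ)
  rw [pow_one] at h
  push_cast at h
  exact h

theorem merge_S (hk : 2 ≤ k) (T0 : V → Fin k → V) (o p p' : V) (hp : p ≠ p') (ρ : ℕ) (hρ : 1 ≤ ρ)
    (hr : 2 * k ^ (ρ + 1) + 1 < Fintype.card V) :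
    (Set.ncard {T | T ∈ Om T0 ∅ ∅ (Finset.univ.erase o) ∧ TL T p ρ ∧ Mg T p p' ρ} : ℝ) *
        (Fintype.card V : ℝ) ^ 2
      ≤ ((Fintype.card V : ℝ) / (Fintype.card V - 1 - 2 * (k:ℝ) ^ (ρ + 1))) ^ (2 * k ^ (ρ + 1)) *
        ((k:ℝ) ^ (ρ + 1)) ^ 12 * (Om T0 ∅ ∅ (Finset.univ.erase o)).card := by
  have h := f3_main hk T0 o {p, p'} (Finset.card_le_two) ρ hr {T | TL T p ρ ∧ Mg T p p' ρ} (by
    rintro T ⟨hTL, v0, v0', hne, m1, m2⟩ T' hag
    have hp1 : p ∈ ({p, p'} : Finset V) := by simp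
    have hp2 : p' ∈ ({p, p'} : Finset V) := by simp
    refine ⟨?_, v0, v0', hne, ?_, ?_⟩
    · intro v v' j j' hj hj' he
      apply hTL v v' j j' hj hj'
      rw [hag p hp1 v j hj, hag p hp1 v' j' hj'] at he
      exact he
    · rw [hag p hp1 v0 ρ le_rfl, hag p' hp2 v0 ρ le_rfl]; exact m1
    · rw [hag p hp1 v0' ρ le_rfl, hag p' hp2 v0' ρ le_rfl]; exact m2)
    2 ((k ^ (ρ + 1)) ^ 12) (merge_count2 hk p p' hp ρ hρ)
  push_cast at h
  exact h
end AS
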