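import Pool.Agent.Helper513.AS.Defs

set_option autoImplicit false

namespace AS
open Finset
theorem twin_two {V W : Type} [Fintype V] [DecidableEq V] [Fintype W] [DecidableEq W]
    (x y : W → V) (hx : Function.Injective x) (hy : Function.Injective y) (a b : V)
    (S : Finset W) : (S.filter (fun v => x v = a ∨ y v = b)).card ≤ 2 := by
  rw [Finset.filter_or]
  refine (Finset.card_union_le _ _).trans ?_
  have h1 : (S.filter (fun v => x v = a)).card ≤ 1 := by
    rw [Finset.card_le_one]
    intro u hu w hw
    rw [Finset.mem_filter] at hu hw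
    exact hx (hu.2.trans hw.2.symm)
  have h2 : (S.filter (fun v => y v = b)).card ≤ 1 := by
    rw [Finset.card_le_one]
    intro u hu w hw
    rw [Finset.mem_filter] at hu hw
    exact hy (hu.2.trans hw.2.symm)
  omega

theorem twin_deg {V W : Type} [Fintype V] [DecidableEq V] [Fintype W] [DecidableEq W]
    (x y : W → V) (x' y' : W → V) (hx : Function.Injective x) (hy : Function.Injective y)
    (S : Finset W) (hS : S.Nonempty) :
    ∃ v ∈ S, (S.filter (fun j => x v = x' j ∨ y v = y' j)).card ≤ 2 := by
  by_contra hno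
  push Not at hno
  have h1 : S.card * 3 ≤ ∑ v ∈ S, (S.filter (fun j => x v = x' j ∨ y v = y' j)).card := by
    rw [← smul_eq_mul]
    exact Finset.card_nsmul_le_sum _ _ _ fun v hv => hno v hv
  have h2 : ∑ v ∈ S, (S.filter (fun j => x v = x' j ∨ y v = y' j)).card =
      ∑ j ∈ S, (S.filter (fun v => x v = x' j ∨ y v = y' j)).card := by
    simp_rw [Finset.card_filter]
    rw [Finset.sum_comm]
  have h3 : ∑ j ∈ S, (S.filter (fun v => x v = x' j ∨ y v = y' j)).card ≤ S.card * 2 := by
    rw [← smul_eq_mul]
    exact Finset.sum_le_card_nsmul _ _ _ fun j _ => twin_two x y hx hy _ _ S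
  have h4 := hS.card_pos
  omega

theorem twin_indep {V W : Type} [Fintype V] [DecidableEq V] [Fintype W] [DecidableEq W]
    (x y : W → V) (x' y' : W → V) (hx : Function.Injective x) (hy : Function.Injective y)
    (S : Finset W) :
    ∃ I ⊆ S, (∀ i ∈ I, ∀ j ∈ I, i ≠ j → x i ≠ x' j ∧ y i ≠ y' j) ∧ S.card ≤ 5 * I.card := by
  induction S using Finset.strongInduction with
  | _ S ih =>
    rcases S.eq_empty_or_nonempty with rfl | hS
    · exact ⟨∅, le_rfl, by simp, by simp⟩
    obtain ⟨v, hv, hdeg⟩ := twin_deg x y x' y' hx hy S hS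
    have hin := twin_two x y hx hy (x' v) (y' v) S
    set S' := S.filter (fun j => j ≠ v ∧ ¬ (x v = x' j ∨ y v = y' j) ∧
      ¬ (x j = x' v ∨ y j = y' v)) with hS'
    have hvS' : v ∉ S' := by simp [hS']
    have hsub : S' ⊆ S := Finset.filter_subset _ _
    obtain ⟨I, hI, hind, hcard⟩ := ih S' (Finset.ssubset_iff_subset_ne.2 ⟨hsub, fun h => by
      rw [h] at hvS'; exact hvS' hv⟩)
    have hvI : v ∉ I := fun h => hvS' (hI h)
    refine ⟨insert v I, ?_, ?_, ?_⟩
    · intro j hj
      rw [Finset.mem_insert] at hj
      rcases hj with rfl | hj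
      · exact hv
      · exact hsub (hI hj)
    · intro i hi j hj hij
      rw [Finset.mem_insert] at hi hj
      rcases hi with rfl | hi
      · rcases hj with rfl | hj
        · exact absurd rfl hij
        · have := hI hj
          rw [hS', Finset.mem_filter] at this
          obtain ⟨_, _, h1, _⟩ := this
          push Not at h1
          exact h1
      · rcases hj with rfl | hj
        · have := hI hi
          rw [hS', Finset.mem_filter] at this
          obtain ⟨_, _, _, h1⟩ := this
          push Not at h1
          exact h1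
        · exact hind i hi j hj hij
    · rw [Finset.card_insert_of_notMem hvI]
      have hcov : S ⊆ S' ∪ ({v} ∪ (S.filter (fun j => x v = x' j ∨ y v = y' j) ∪
          S.filter (fun j => x j = x' v ∨ y j = y' v))) := by
        intro j hj
        by_cases h1 : j = v
        · simp [h1]
        by_cases h2 : x v = x' j ∨ y v = y' j
        · refine Finset.mem_union_right _ (Finset.mem_union_right _ (Finset.mem_union_left _ ?_))
          rw [Finset.mem_filter]; exact ⟨hj, h2⟩
        by_cases h3 : x j = x' v ∨ y j = y' v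
        · refine Finset.mem_union_right _ (Finset.mem_union_right _ (Finset.mem_union_right _ ?_))
          rw [Finset.mem_filter]; exact ⟨hj, h3⟩
        · refine Finset.mem_union_left _ ?_
          rw [hS', Finset.mem_filter]; exact ⟨hj, h1, h2, h3⟩
      have h1 := Finset.card_le_card hcov
      have h2 := Finset.card_union_le S' ({v} ∪ (S.filter (fun j => x v = x' j ∨ y v = y' j) ∪
          S.filter (fun j => x j = x' v ∨ y j = y' v)))
      have h3 := Finset.card_union_le {v} (S.filter (fun j => x v = x' j ∨ y v = y' j) ∪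
          S.filter (fun j => x j = x' v ∨ y j = y' v))
      have h4 := Finset.card_union_le (S.filter (fun j => x v = x' j ∨ y v = y' j))
        (S.filter (fun j => x j = x' v ∨ y j = y' v))
      rw [Finset.card_singleton] at h3
      omega

/-- the test at `i` -/
def twinT {V W : Type} (x y x' y' : W → V) (i : W) (FF : (V → Bool) × (V → Bool)) : Prop :=
  (FF.1 (x i) && FF.2 (y i)) = (FF.1 (x' i) && FF.2 (y' i))

theorem twin_fail {V W : Type} [DecidableEq V]
    (x y : W → V) (x' y' : W → V) (i : W) (hi : (x i, y i) ≠ (x' i, y' i))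
    (FF : (V → Bool) × (V → Bool)) :
    ∃ a b : Bool, ¬ twinT x y x' y' i
      (Function.update FF.1 (x i) a, Function.update FF.2 (y i) b) := by
  unfold twinT
  simp only [Function.update_self]
  by_cases h1 : x' i = x i
  · have h2 : y' i ≠ y i := fun h2 => hi (by rw [h1, h2])
    refine ⟨true, !(FF.2 (y' i)), ?_⟩
    rw [h1, Function.update_self, Function.update_of_ne h2]
    cases FF.2 (y' i) <;> simp
  · by_cases h2 : y' i = y i
    · refine ⟨!(FF.1 (x' i)), true, ?_⟩
      rw [h2, Function.update_self, Function.update_of_ne h1]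
      cases FF.1 (x' i) <;> simp
    · refine ⟨true, !(FF.1 (x' i) && FF.2 (y' i)), ?_⟩
      rw [Function.update_of_ne h1, Function.update_of_ne h2]
      cases FF.1 (x' i) <;> cases FF.2 (y' i) <;> simp

open Classical in
theorem twin_step {V W : Type} [Fintype V] [DecidableEq V] [Fintype W] [DecidableEq W]
    (x y : W → V) (x' y' : W → V) (i : W) (I : Finset W) (hi : (x i, y i) ≠ (x' i, y' i))
    (hI : ∀ j ∈ I, x j ≠ x i ∧ y j ≠ y i ∧ x' j ≠ x i ∧ y' j ≠ y i) :
    4 * (Finset.univ.filter (fun FF : (V → Bool) × (V → Bool) =>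
      ∀ j ∈ insert i I, twinT x y x' y' j FF)).card ≤
    3 * (Finset.univ.filter (fun FF : (V → Bool) × (V → Bool) =>
      ∀ j ∈ I, twinT x y x' y' j FF)).card := by
  set P := Finset.univ.filter (fun FF : (V → Bool) × (V → Bool) =>
      ∀ j ∈ I, twinT x y x' y' j FF) with hP
  have hinv : ∀ (FF : (V → Bool) × (V → Bool)) (a b : Bool), ∀ j ∈ I,
      (twinT x y x' y' j (Function.update FF.1 (x i) a, Function.update FF.2 (y i) b) ↔
        twinT x y x' y' j FF) := by
    intro FF a b j hj
    obtain ⟨h1, h2, h3, h4⟩ := hI j hj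
    unfold twinT
    simp only [Function.update_of_ne h1, Function.update_of_ne h2, Function.update_of_ne h3,
      Function.update_of_ne h4]
  have e1 : (Finset.univ.filter (fun FF : (V → Bool) × (V → Bool) =>
      ∀ j ∈ insert i I, twinT x y x' y' j FF)) = P.filter (fun FF => twinT x y x' y' i FF) := by
    ext FF
    simp only [hP, Finset.mem_filter, Finset.mem_univ, true_and, Finset.mem_insert,
      forall_eq_or_imp]
    tauto
  rw [e1]
  have h2 := Finset.card_filter_add_card_filter_not (s := P) (fun FF => twinT x y x' y' i FF)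
  have h3 : P.card ≤ 4 * (P.filter (fun FF => ¬ twinT x y x' y' i FF)).card := by
    have hsub : P ⊆ ((P.filter (fun FF => ¬ twinT x y x' y' i FF)) ×ˢ
        (Finset.univ : Finset (Bool × Bool))).image
        (fun q => (Function.update q.1.1 (x i) q.2.1, Function.update q.1.2 (y i) q.2.2)) := by
      intro FF hFF
      obtain ⟨a, b, hab⟩ := twin_fail x y x' y' i hi FF
      rw [Finset.mem_image]
      refine ⟨((Function.update FF.1 (x i) a, Function.update FF.2 (y i) b),
        (FF.1 (x i), FF.2 (y i))), ?_, ?_⟩
      · rw [Finset.mem_product, Finset.mem_filter]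
        refine ⟨⟨?_, hab⟩, Finset.mem_univ _⟩
        rw [hP, Finset.mem_filter] at hFF ⊢
        exact ⟨Finset.mem_univ _, fun j hj => (hinv FF a b j hj).2 (hFF.2 j hj)⟩
      · simp
    calc P.card ≤ _ := Finset.card_le_card hsub
      _ ≤ _ := Finset.card_image_le
      _ = _ := by
        rw [Finset.card_product]
        simp [mul_comm]
  omega

open Classical in
theorem twin_prod {V W : Type} [Fintype V] [DecidableEq V] [Fintype W] [DecidableEq W]
    (x y : W → V) (x' y' : W → V) (hx : Function.Injective x) (hy : Function.Injective y)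
    (I : Finset W) (hi : ∀ i ∈ I, (x i, y i) ≠ (x' i, y' i))
    (hI : ∀ i ∈ I, ∀ j ∈ I, i ≠ j → x i ≠ x' j ∧ y i ≠ y' j) :
    (Finset.univ.filter (fun FF : (V → Bool) × (V → Bool) =>
      ∀ j ∈ I, twinT x y x' y' j FF)).card * 4 ^ I.card ≤ 3 ^ I.card * 4 ^ Fintype.card V := by
  induction I using Finset.induction_on with
  | empty =>
    simp only [Finset.notMem_empty, false_imp_iff, imp_true_iff, Finset.filter_true,
      Finset.card_univ, Finset.card_empty, pow_zero, mul_one, one_mul, Fintype.card_prod,
      Fintype.card_fun, Fintype.card_bool]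
    rw [← mul_pow]
    exact le_rfl
  | insert i I hiI ih =>
    have h1 := ih (fun j hj => hi j (Finset.mem_insert_of_mem hj))
      (fun j hj l hl => hI j (Finset.mem_insert_of_mem hj) l (Finset.mem_insert_of_mem hl))
    have h2 := twin_step x y x' y' i I (hi i (Finset.mem_insert_self i I)) (fun j hj => by
      have hji : j ≠ i := fun h => hiI (h ▸ hj)
      have h3 := hI i (Finset.mem_insert_self i I) j (Finset.mem_insert_of_mem hj) hji.symm
      exact ⟨fun h => hji (hx h), fun h => hji (hy h), h3.1.symm, h3.2.symm⟩)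
    rw [Finset.card_insert_of_notMem hiI, pow_succ, pow_succ]
    calc _ = (4 * (Finset.univ.filter (fun FF : (V → Bool) × (V → Bool) =>
          ∀ j ∈ insert i I, twinT x y x' y' j FF)).card) * 4 ^ I.card := by ring
      _ ≤ (3 * (Finset.univ.filter (fun FF : (V → Bool) × (V → Bool) =>
          ∀ j ∈ I, twinT x y x' y' j FF)).card) * 4 ^ I.card := Nat.mul_le_mul_right _ h2
      _ = 3 * ((Finset.univ.filter (fun FF : (V → Bool) × (V → Bool) =>
          ∀ j ∈ I, twinT x y x' y' j FF)).card * 4 ^ I.card) := by ring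
      _ ≤ 3 * (3 ^ I.card * 4 ^ Fintype.card V) := Nat.mul_le_mul_left _ h1
      _ = _ := by ring

/-- random sets of final states distinguish: `x v`, `y v` are injective, tests over all `v`. -/
theorem twin_count {V W : Type} [Fintype V] [DecidableEq V] [Fintype W] [DecidableEq W]
    (x y : W → V) (x' y' : W → V) (hx : Function.Injective x) (hy : Function.Injective y)
    (γ : ℕ) (hγ : γ ≤ (Finset.univ.filter (fun v => (x v, y v) ≠ (x' v, y' v))).card) :
    Set.ncard {FF : (V → Bool) × (V → Bool) |
        ∀ v, (FF.1 (x v) && FF.2 (y v)) = (FF.1 (x' v) && FF.2 (y' v))} * 4 ^ (γ / 5)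
      ≤ 3 ^ (γ / 5) * 4 ^ Fintype.card V := by
  classical
  obtain ⟨I0, hI0, hind, hcard⟩ := twin_indep x y x' y' hx hy
    (Finset.univ.filter (fun v => (x v, y v) ≠ (x' v, y' v)))
  obtain ⟨I, hI, hIc⟩ := Finset.exists_subset_card_eq (s := I0) (n := γ / 5) (by omega)
  have h1 := twin_prod x y x' y' hx hy I (fun i hi => by
    have := hI0 (hI hi)
    rw [Finset.mem_filter] at this
    exact this.2) (fun i hi j hj => hind i (hI hi) j (hI hj))
  rw [hIc] at h1
  refine le_trans (Nat.mul_le_mul_right _ ?_) h1
  rw [← Set.ncard_coe_finset]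
  refine Set.ncard_le_ncard ?_ (Finset.finite_toSet _)
  intro FF hFF
  rw [Finset.mem_coe, Finset.mem_filter]
  exact ⟨Finset.mem_univ _, fun j _ => hFF j⟩
end AS
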