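import Pool.Agent.Helper513.AS.F3
import Pool.Agent.Helper513.AS.F4

set_option autoImplicit false

namespace AS
open Finset SI RA
section
variable {V : Type} [Fintype V] [DecidableEq V] {k : ℕ}

end


/-- some other pair of states has the same residual language of the intersection -/
def Tw {m k : ℕ} (x y : (Fin (m+1) → Fin k → Fin (m+1)) × (Fin (m+1) → Bool))
    (p q : Fin (m+1)) : Prop :=
  ∃ p2 q2, (p2, q2) ≠ (p, q) ∧ ∀ w : List (Fin k),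
    (x.2 (run x.1 p w) && y.2 (run y.1 q w)) = (x.2 (run x.1 p2 w) && y.2 (run y.1 q2 w))

/-! auxiliary lemmas -/

theorem tw_run_traj {V : Type} {k : ℕ} (T : V → Fin k → V) (p : V) (W : ℕ → Fin k) (t : ℕ) :
    run T p (List.ofFn (fun i : Fin t => W i)) = traj T p W t := by
  induction t with
  | zero => simp [run, traj]
  | succ t ih =>
    rw [List.ofFn_succ_last]
    unfold run at ih ⊢
    rw [List.foldl_append]
    simp only [List.foldl_cons, List.foldl_nil, traj]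
    have : (fun i : Fin t => W ((Fin.castSucc i : Fin (t + 1)) : ℕ)) = fun i : Fin t => W i := by
      funext i; simp
    rw [this, ih]
    simp

theorem tw_x {V : Type} {k ρ : ℕ} [NeZero k] (T : V → Fin k → V) (p : V) (v : Fin ρ → Fin k) :
    run T p (List.ofFn v) = traj T p (SI.ext v) ρ := by
  rw [← tw_run_traj]
  congr 2
  funext i
  simp [SI.ext]

theorem tw_inj {V : Type} {k ρ : ℕ} [NeZero k] (T : V → Fin k → V) (p : V) (h : TL T p ρ) :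
    Function.Injective (fun v : Fin ρ → Fin k => run T p (List.ofFn v)) := by
  intro v v' hv
  simp only [tw_x] at hv
  have h1 := (h _ _ ρ ρ le_rfl le_rfl hv).2
  funext i
  have h2 := h1 i.val i.isLt
  simpa [SI.ext] using h2

/-- bad pairs -/
def tBad {V : Type} {k : ℕ} (T : V → Fin k → V) (p : V) (ρ : ℕ) : Prop :=
  ¬ TL T p ρ ∨ ∃ p', p ≠ p' ∧ TL T p ρ ∧ Mg T p p' ρ

theorem tw_two {k r : ℕ} (D : Finset (Fin (r + 1) → Fin k)) (hD : D.card < k ^ r) (a : Fin k) :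
    ∃ v : Fin (r + 1) → Fin k, v 0 = a ∧ v ∉ D := by
  classical
  by_contra hcon
  push Not at hcon
  have h1 : (Finset.univ.image (fun u : Fin r → Fin k => (Fin.cons a u : Fin (r + 1) → Fin k)))
      ⊆ D := by
    intro v hv
    rw [Finset.mem_image] at hv
    obtain ⟨u, -, rfl⟩ := hv
    exact hcon _ (by simp)
  have h2 := Finset.card_le_card h1
  rw [Finset.card_image_of_injective _ (Fin.cons_right_injective (α := fun _ => Fin k) a),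
    Finset.card_univ, Fintype.card_fun, Fintype.card_fin,
    Fintype.card_fin] at h2
  omega

theorem tw_claim {m k r : ℕ} (hk : 2 ≤ k) (T T' : Fin (m+1) → Fin k → Fin (m+1))
    (p q p2 q2 : Fin (m+1)) (hp : ¬ tBad T p (r + 1)) (hq : ¬ tBad T' q (r + 1))
    (hne : (p2, q2) ≠ (p, q)) :
    k ^ r ≤ (Finset.univ.filter (fun v : Fin (r + 1) → Fin k =>
      (run T p (List.ofFn v), run T' q (List.ofFn v)) ≠
        (run T p2 (List.ofFn v), run T' q2 (List.ofFn v)))).card := by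
  have : NeZero k := ⟨by omega⟩
  by_contra hcon
  push Not at hcon
  unfold tBad at hp hq
  push Not at hp hq
  have h01 : (⟨0, by omega⟩ : Fin k) ≠ ⟨1, by omega⟩ := by
    intro h
    have := congrArg Fin.val h
    simp at this
  obtain ⟨v1, hv1, hv1D⟩ := tw_two _ hcon ⟨0, by omega⟩
  obtain ⟨v2, hv2, hv2D⟩ := tw_two _ hcon ⟨1, by omega⟩
  simp only [Finset.mem_filter, Finset.mem_univ, true_and, not_not, Prod.mk.injEq] at hv1D hv2D
  have hfirst : SI.ext v1 0 ≠ SI.ext v2 0 := by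
    have e1 : SI.ext v1 0 = v1 0 := by simp [SI.ext]
    have e2 : SI.ext v2 0 = v2 0 := by simp [SI.ext]
    rw [e1, e2, hv1, hv2]
    exact h01
  rw [tw_x, tw_x, tw_x, tw_x] at hv1D hv2D
  apply hne
  have hpp : p2 = p := by
    by_contra h
    exact hp.2 p2 (fun h' => h h'.symm) hp.1 ⟨SI.ext v1, SI.ext v2, hfirst, hv1D.1, hv2D.1⟩
  have hqq : q2 = q := by
    by_contra h
    exact hq.2 q2 (fun h' => h h'.symm) hq.1 ⟨SI.ext v1, SI.ext v2, hfirst, hv1D.2, hv2D.2⟩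
  rw [hpp, hqq]

/-! counting -/

theorem cn_mono {α : Type} [Finite α] {P Q : α → Prop} (h : ∀ x, P x → Q x) :
    Set.ncard {x | P x} ≤ Set.ncard {x | Q x} :=
  Set.ncard_le_ncard (fun x hx => h x hx) (Set.toFinite _)

theorem cn_or {α : Type} [Finite α] (P Q : α → Prop) :
    Set.ncard {x | P x ∨ Q x} ≤ Set.ncard {x | P x} + Set.ncard {x | Q x} :=
  Set.ncard_union_le {x | P x} {x | Q x}

theorem cn_filter {α : Type} [Fintype α] (P : α → Prop) [DecidablePred P] :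
    Set.ncard {x | P x} = (Finset.univ.filter P).card := by
  rw [← Set.ncard_coe_finset]
  congr 1
  ext x
  simp

theorem cn_ex {α ι : Type} [Fintype α] (s : Finset ι) (P : ι → α → Prop) :
    Set.ncard {x | ∃ i ∈ s, P i x} ≤ ∑ i ∈ s, Set.ncard {x | P i x} := by
  classical
  rw [cn_filter]
  simp only [cn_filter]
  refine le_trans (Finset.card_le_card ?_) Finset.card_biUnion_le
  intro x hx
  rw [Finset.mem_filter] at hx
  obtain ⟨-, i, hi, hx⟩ := hx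
  rw [Finset.mem_biUnion]
  exact ⟨i, hi, by rw [Finset.mem_filter]; exact ⟨Finset.mem_univ x, hx⟩⟩

theorem cn_fib {α β : Type} [Fintype α] [Fintype β] (R : α → β → Prop) :
    Set.ncard {x : α × β | R x.1 x.2} = ∑ a, Set.ncard {b | R a b} := by
  classical
  rw [cn_filter]
  simp only [cn_filter, Finset.card_filter]
  rw [Fintype.sum_prod_type]

theorem cn_inj {α β : Type} [Finite α] [Finite β] (f : α → β) (hf : Function.Injective f)
    {P : α → Prop} {Q : β → Prop} (h : ∀ x, P x → Q (f x)) :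
    Set.ncard {x | P x} ≤ Set.ncard {y | Q y} :=
  Set.ncard_le_ncard_of_injOn f (fun x hx => h x hx) hf.injOn (Set.toFinite _)


theorem tw_BS {m k ρ : ℕ} (hk : 2 ≤ k) (hρ : 1 ≤ ρ) (T0 : Fin (m+1) → Fin k → Fin (m+1))
    (hr : 2 * k ^ (ρ + 1) + 1 < m + 1) (A : ℝ)
    (hA : ((((m+1 : ℕ) : ℝ)) / (((m+1 : ℕ) : ℝ) - 1 - 2 * (k:ℝ) ^ (ρ + 1)))
      ^ (2 * k ^ (ρ + 1)) ≤ A) :
    (Set.ncard {Q : (Fin (m+1) → Fin k → Fin (m+1)) × Fin (m+1) |
      Q.1 ∈ Om T0 ∅ ∅ (Finset.univ.erase 0) ∧ tBad Q.1 Q.2 ρ} : ℝ) ≤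
      A * ((k:ℝ) ^ (ρ + 1)) ^ 4 * (Om T0 ∅ ∅ (Finset.univ.erase 0)).card +
      A * ((k:ℝ) ^ (ρ + 1)) ^ 12 * (Om T0 ∅ ∅ (Finset.univ.erase 0)).card := by
  classical
  set S := Om T0 ∅ ∅ (Finset.univ.erase 0) with hS
  set N : ℝ := (S.card : ℝ) with hN
  set n : ℝ := ((m+1 : ℕ) : ℝ) with hn
  set K : ℝ := (k:ℝ) ^ (ρ + 1) with hK
  have hn0 : 0 < n := by rw [hn]; positivity
  have hN0 : 0 ≤ N := by positivity
  have hK0 : 0 ≤ K := by positivity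
  have h1 : ∀ p : Fin (m+1), (Set.ncard {T | T ∈ S ∧ ¬ TL T p ρ} : ℝ) ≤ A * K ^ 4 * N / n := by
    intro p
    have h := notTL_S hk T0 0 p ρ (by rw [Fintype.card_fin]; exact hr)
    rw [Fintype.card_fin] at h
    rw [le_div_iff₀ hn0]
    refine h.trans ?_
    have : (((m+1 : ℕ) : ℝ) / (((m+1 : ℕ) : ℝ) - 1 - 2 * (k:ℝ) ^ (ρ + 1))) ^ (2 * k ^ (ρ + 1))
        * K ^ 4 * N ≤ A * K ^ 4 * N := by
      apply mul_le_mul_of_nonneg_right _ hN0
      exact mul_le_mul_of_nonneg_right hA (by positivity)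
    exact this
  have h2 : ∀ p p' : Fin (m+1), p ≠ p' →
      (Set.ncard {T | T ∈ S ∧ TL T p ρ ∧ Mg T p p' ρ} : ℝ) ≤ A * K ^ 12 * N / n ^ 2 := by
    intro p p' hp
    have h := merge_S hk T0 0 p p' hp ρ hρ (by rw [Fintype.card_fin]; exact hr)
    rw [Fintype.card_fin] at h
    rw [le_div_iff₀ (by positivity)]
    refine h.trans ?_
    have : (((m+1 : ℕ) : ℝ) / (((m+1 : ℕ) : ℝ) - 1 - 2 * (k:ℝ) ^ (ρ + 1))) ^ (2 * k ^ (ρ + 1))
        * K ^ 12 * N ≤ A * K ^ 12 * N := by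
      apply mul_le_mul_of_nonneg_right _ hN0
      exact mul_le_mul_of_nonneg_right hA (by positivity)
    exact this
  have hA0 : 0 ≤ A := by
    have h := h1 0
    have hpos : (0:ℝ) ≤ (((m+1 : ℕ) : ℝ) / (((m+1 : ℕ) : ℝ) - 1 - 2 * (k:ℝ) ^ (ρ + 1)))
        ^ (2 * k ^ (ρ + 1)) := by
      apply pow_nonneg
      apply div_nonneg (by positivity)
      have : ((2 * k ^ (ρ + 1) + 1 : ℕ) : ℝ) < ((m+1 : ℕ) : ℝ) := by exact_mod_cast hr
      push_cast at this ⊢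
      linarith
    exact hpos.trans hA
  have h3 : ∀ p : Fin (m+1), (Set.ncard {T | T ∈ S ∧ tBad T p ρ} : ℝ) ≤
      A * K ^ 4 * N / n + n * (A * K ^ 12 * N / n ^ 2) := by
    intro p
    have e1 : Set.ncard {T | T ∈ S ∧ tBad T p ρ} ≤
        Set.ncard {T | T ∈ S ∧ ¬ TL T p ρ} +
        ∑ p' ∈ Finset.univ.erase p, Set.ncard {T | T ∈ S ∧ TL T p ρ ∧ Mg T p p' ρ} := by
      refine le_trans (cn_mono (Q := fun T => (T ∈ S ∧ ¬ TL T p ρ) ∨
        ∃ p' ∈ Finset.univ.erase p, (T ∈ S ∧ TL T p ρ ∧ Mg T p p' ρ)) ?_) ?_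
      · rintro T ⟨hT, hb | ⟨p', hp', hb⟩⟩
        · exact Or.inl ⟨hT, hb⟩
        · exact Or.inr ⟨p', Finset.mem_erase.mpr ⟨hp'.symm, Finset.mem_univ _⟩, hT, hb⟩
      · refine le_trans (cn_or _ _) ?_
        exact Nat.add_le_add_left (cn_ex _ _) _
    have e2 : (∑ p' ∈ Finset.univ.erase p,
        (Set.ncard {T | T ∈ S ∧ TL T p ρ ∧ Mg T p p' ρ} : ℝ)) ≤
        n * (A * K ^ 12 * N / n ^ 2) := by
      refine (Finset.sum_le_sum (g := fun _ => A * K ^ 12 * N / n ^ 2) ?_).trans ?_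
      · intro p' hp'
        exact h2 p p' (Finset.ne_of_mem_erase hp').symm
      · rw [Finset.sum_const, nsmul_eq_mul]
        apply mul_le_mul_of_nonneg_right _ (by positivity)
        rw [hn]
        have : (Finset.univ.erase p).card ≤ m + 1 := by
          refine (Finset.card_le_univ _).trans ?_
          rw [Fintype.card_fin]
        exact_mod_cast this
    have e3 : (Set.ncard {T | T ∈ S ∧ tBad T p ρ} : ℝ) ≤
        (Set.ncard {T | T ∈ S ∧ ¬ TL T p ρ} : ℝ) +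
        ∑ p' ∈ Finset.univ.erase p, (Set.ncard {T | T ∈ S ∧ TL T p ρ ∧ Mg T p p' ρ} : ℝ) := by
      exact_mod_cast e1
    exact e3.trans (add_le_add (h1 p) e2)
  have h4 : Set.ncard {Q : (Fin (m+1) → Fin k → Fin (m+1)) × Fin (m+1) |
      Q.1 ∈ S ∧ tBad Q.1 Q.2 ρ} ≤ ∑ p : Fin (m+1), Set.ncard {T | T ∈ S ∧ tBad T p ρ} := by
    rw [← cn_fib (fun (p : Fin (m+1)) (T : Fin (m+1) → Fin k → Fin (m+1)) =>
      T ∈ S ∧ tBad T p ρ)]
    exact cn_inj Prod.swap Prod.swap_injective (fun x hx => hx)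
  have h5 : (Set.ncard {Q : (Fin (m+1) → Fin k → Fin (m+1)) × Fin (m+1) |
      Q.1 ∈ S ∧ tBad Q.1 Q.2 ρ} : ℝ) ≤
      ∑ p : Fin (m+1), (Set.ncard {T | T ∈ S ∧ tBad T p ρ} : ℝ) := by exact_mod_cast h4
  refine h5.trans ((Finset.sum_le_sum (fun p _ => h3 p)).trans (le_of_eq ?_))
  rw [Finset.sum_const, Finset.card_univ, Fintype.card_fin, nsmul_eq_mul, ← hn]
  field_simp

theorem tw_E1 {m k : ℕ} (S : Finset (Fin (m+1) → Fin k → Fin (m+1)))
    (B : (Fin (m+1) → Fin k → Fin (m+1)) → Fin (m+1) → Prop) :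
    Set.ncard {P : (((Fin (m+1) → Fin k → Fin (m+1)) × (Fin (m+1) → Bool)) ×
          ((Fin (m+1) → Fin k → Fin (m+1)) × (Fin (m+1) → Bool))) × (Fin (m+1) × Fin (m+1)) |
        P.1.1.1 ∈ S ∧ P.1.2.1 ∈ S ∧ B P.1.1.1 P.2.1} ≤
      Set.ncard {Q : (Fin (m+1) → Fin k → Fin (m+1)) × Fin (m+1) | Q.1 ∈ S ∧ B Q.1 Q.2}
        * (2 ^ (m+1) * (S.card * (2 ^ (m+1) * (m+1)))) := by
  have h1 : Set.ncard ({Q : (Fin (m+1) → Fin k → Fin (m+1)) × Fin (m+1) | Q.1 ∈ S ∧ B Q.1 Q.2} ×ˢ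
      ((Set.univ : Set (Fin (m+1) → Bool)) ×ˢ ((S : Set (Fin (m+1) → Fin k → Fin (m+1))) ×ˢ
        ((Set.univ : Set (Fin (m+1) → Bool)) ×ˢ (Set.univ : Set (Fin (m+1))))))) =
      Set.ncard {Q : (Fin (m+1) → Fin k → Fin (m+1)) × Fin (m+1) | Q.1 ∈ S ∧ B Q.1 Q.2}
        * (2 ^ (m+1) * (S.card * (2 ^ (m+1) * (m+1)))) := by
    rw [Set.ncard_prod, Set.ncard_prod, Set.ncard_prod, Set.ncard_prod, Set.ncard_univ,
      Set.ncard_univ, Set.ncard_coe_finset]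
    simp
  rw [← h1]
  exact Set.ncard_le_ncard_of_injOn
    (fun P => ((P.1.1.1, P.2.1), (P.1.1.2, (P.1.2.1, (P.1.2.2, P.2.2)))))
    (fun P hP => ⟨⟨hP.1, hP.2.2⟩, Set.mem_univ _, hP.2.1, Set.mem_univ _, Set.mem_univ _⟩)
    (fun P _ P' _ h => by
      simp only [Prod.mk.injEq] at h
      obtain ⟨⟨a1, a2⟩, a3, a4, a5, a6⟩ := h
      ext1
      · ext1
        · exact Prod.ext a1 a3
        · exact Prod.ext a4 a5
      · exact Prod.ext a2 a6) (Set.toFinite _)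

theorem tw_E2 {m k : ℕ} (S : Finset (Fin (m+1) → Fin k → Fin (m+1)))
    (B : (Fin (m+1) → Fin k → Fin (m+1)) → Fin (m+1) → Prop) :
    Set.ncard {P : (((Fin (m+1) → Fin k → Fin (m+1)) × (Fin (m+1) → Bool)) ×
          ((Fin (m+1) → Fin k → Fin (m+1)) × (Fin (m+1) → Bool))) × (Fin (m+1) × Fin (m+1)) |
        P.1.1.1 ∈ S ∧ P.1.2.1 ∈ S ∧ B P.1.2.1 P.2.2} ≤
      Set.ncard {Q : (Fin (m+1) → Fin k → Fin (m+1)) × Fin (m+1) | Q.1 ∈ S ∧ B Q.1 Q.2}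
        * (2 ^ (m+1) * (S.card * (2 ^ (m+1) * (m+1)))) := by
  refine le_trans ?_ (tw_E1 S B)
  refine cn_inj (fun P => ((P.1.2, P.1.1), (P.2.2, P.2.1))) ?_ (fun P hP => ⟨hP.2.1, hP.1, hP.2.2⟩)
  intro P P' h
  simp only [Prod.mk.injEq] at h
  obtain ⟨⟨a1, a2⟩, a3, a4⟩ := h
  exact Prod.ext (Prod.ext a2 a1) (Prod.ext a4 a3)

theorem tw_E3 {m k r : ℕ} (hk : 2 ≤ k) (S : Finset (Fin (m+1) → Fin k → Fin (m+1))) :
    (Set.ncard {P : (((Fin (m+1) → Fin k → Fin (m+1)) × (Fin (m+1) → Bool)) ×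
          ((Fin (m+1) → Fin k → Fin (m+1)) × (Fin (m+1) → Bool))) × (Fin (m+1) × Fin (m+1)) |
        P.1.1.1 ∈ S ∧ P.1.2.1 ∈ S ∧ (¬ tBad P.1.1.1 P.2.1 (r+1) ∧ ¬ tBad P.1.2.1 P.2.2 (r+1)) ∧
        Tw P.1.1 P.1.2 P.2.1 P.2.2} : ℝ) ≤
      ((S.card : ℝ) * S.card * (((m+1 : ℕ) : ℝ) * ((m+1 : ℕ) : ℝ))) *
        ((((m+1 : ℕ) : ℝ) * ((m+1 : ℕ) : ℝ)) * ((3/4 : ℝ) ^ (k ^ r / 5) * 4 ^ (m+1))) := by
  classical
  set c3 : ℝ := (((m+1 : ℕ) : ℝ) * ((m+1 : ℕ) : ℝ)) * ((3/4 : ℝ) ^ (k ^ r / 5) * 4 ^ (m+1))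
    with hc3
  let R : (((Fin (m+1) → Fin k → Fin (m+1)) × (Fin (m+1) → Fin k → Fin (m+1))) ×
      (Fin (m+1) × Fin (m+1))) → ((Fin (m+1) → Bool) × (Fin (m+1) → Bool)) → Prop :=
    fun a b => a.1.1 ∈ S ∧ a.1.2 ∈ S ∧ (¬ tBad a.1.1 a.2.1 (r+1) ∧ ¬ tBad a.1.2 a.2.2 (r+1)) ∧
      Tw (a.1.1, b.1) (a.1.2, b.2) a.2.1 a.2.2
  have h1 : Set.ncard {P : (((Fin (m+1) → Fin k → Fin (m+1)) × (Fin (m+1) → Bool)) ×
          ((Fin (m+1) → Fin k → Fin (m+1)) × (Fin (m+1) → Bool))) × (Fin (m+1) × Fin (m+1)) |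
        P.1.1.1 ∈ S ∧ P.1.2.1 ∈ S ∧ (¬ tBad P.1.1.1 P.2.1 (r+1) ∧ ¬ tBad P.1.2.1 P.2.2 (r+1)) ∧
        Tw P.1.1 P.1.2 P.2.1 P.2.2} ≤ ∑ a, Set.ncard {b | R a b} := by
    rw [← cn_fib R]
    refine cn_inj (fun P => (((P.1.1.1, P.1.2.1), (P.2.1, P.2.2)), (P.1.1.2, P.1.2.2))) ?_
      (fun P hP => hP)
    intro P P' h
    simp only [Prod.mk.injEq] at h
    obtain ⟨⟨⟨a1, a2⟩, a3, a4⟩, a5, a6⟩ := h
    exact Prod.ext (Prod.ext (Prod.ext a1 a5) (Prod.ext a2 a6)) (Prod.ext a3 a4)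
  have h2 : ∀ a, (Set.ncard {b | R a b} : ℝ) ≤ c3 := by
    intro a
    by_cases hgood : ¬ tBad a.1.1 a.2.1 (r+1) ∧ ¬ tBad a.1.2 a.2.2 (r+1)
    · have e1 : Set.ncard {b | R a b} ≤
          ∑ i ∈ (Finset.univ : Finset (Fin (m+1) × Fin (m+1))).filter (fun i => i ≠ a.2),
            Set.ncard {FF : (Fin (m+1) → Bool) × (Fin (m+1) → Bool) |
              ∀ v : Fin (r+1) → Fin k,
                (FF.1 (run a.1.1 a.2.1 (List.ofFn v)) && FF.2 (run a.1.2 a.2.2 (List.ofFn v))) =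
                (FF.1 (run a.1.1 i.1 (List.ofFn v)) && FF.2 (run a.1.2 i.2 (List.ofFn v)))} := by
        refine le_trans (cn_mono ?_) (cn_ex _ _)
        rintro b ⟨-, -, -, p2, q2, hne, hw⟩
        refine ⟨(p2, q2), ?_, fun v => hw (List.ofFn v)⟩
        rw [Finset.mem_filter]
        exact ⟨Finset.mem_univ _, hne⟩
      have e2 : ∀ i ∈ (Finset.univ : Finset (Fin (m+1) × Fin (m+1))).filter (fun i => i ≠ a.2),
          (Set.ncard {FF : (Fin (m+1) → Bool) × (Fin (m+1) → Bool) |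
              ∀ v : Fin (r+1) → Fin k,
                (FF.1 (run a.1.1 a.2.1 (List.ofFn v)) && FF.2 (run a.1.2 a.2.2 (List.ofFn v))) =
                (FF.1 (run a.1.1 i.1 (List.ofFn v)) && FF.2 (run a.1.2 i.2 (List.ofFn v)))} : ℝ)
            ≤ (3/4 : ℝ) ^ (k ^ r / 5) * 4 ^ (m+1) := by
        intro i hi
        rw [Finset.mem_filter] at hi
        have : NeZero k := ⟨by omega⟩
        have t1 : TL a.1.1 a.2.1 (r+1) := by
          by_contra h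
          exact hgood.1 (Or.inl h)
        have t2 : TL a.1.2 a.2.2 (r+1) := by
          by_contra h
          exact hgood.2 (Or.inl h)
        have h := twin_count (fun v : Fin (r+1) → Fin k => run a.1.1 a.2.1 (List.ofFn v))
          (fun v => run a.1.2 a.2.2 (List.ofFn v)) (fun v => run a.1.1 i.1 (List.ofFn v))
          (fun v => run a.1.2 i.2 (List.ofFn v)) (tw_inj _ _ t1) (tw_inj _ _ t2) (k ^ r)
          (by
            have := tw_claim (r := r) hk a.1.1 a.1.2 a.2.1 a.2.2 i.1 i.2 hgood.1 hgood.2 hi.2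
            convert this)
        rw [Fintype.card_fin] at h
        have h' : (Set.ncard {FF : (Fin (m+1) → Bool) × (Fin (m+1) → Bool) |
              ∀ v : Fin (r+1) → Fin k,
                (FF.1 (run a.1.1 a.2.1 (List.ofFn v)) && FF.2 (run a.1.2 a.2.2 (List.ofFn v))) =
                (FF.1 (run a.1.1 i.1 (List.ofFn v)) && FF.2 (run a.1.2 i.2 (List.ofFn v)))} : ℝ)
            * 4 ^ (k ^ r / 5) ≤ 3 ^ (k ^ r / 5) * 4 ^ (m+1) := by exact_mod_cast h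
        rw [div_pow, div_mul_eq_mul_div, le_div_iff₀ (by positivity)]
        exact h'
      have e3 : (Set.ncard {b | R a b} : ℝ) ≤
          ∑ i ∈ (Finset.univ : Finset (Fin (m+1) × Fin (m+1))).filter (fun i => i ≠ a.2),
            (Set.ncard {FF : (Fin (m+1) → Bool) × (Fin (m+1) → Bool) |
              ∀ v : Fin (r+1) → Fin k,
                (FF.1 (run a.1.1 a.2.1 (List.ofFn v)) && FF.2 (run a.1.2 a.2.2 (List.ofFn v))) =
                (FF.1 (run a.1.1 i.1 (List.ofFn v)) && FF.2 (run a.1.2 i.2 (List.ofFn v)))} : ℝ)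
          := by exact_mod_cast e1
      refine e3.trans ((Finset.sum_le_sum e2).trans ?_)
      rw [Finset.sum_const, nsmul_eq_mul, hc3]
      apply mul_le_mul_of_nonneg_right _ (by positivity)
      have : ((Finset.univ : Finset (Fin (m+1) × Fin (m+1))).filter (fun i => i ≠ a.2)).card
          ≤ (m+1) * (m+1) := by
        refine (Finset.card_le_univ _).trans ?_
        rw [Fintype.card_prod, Fintype.card_fin]
      exact_mod_cast this
    · have : {b | R a b} = ∅ := by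
        rw [Set.eq_empty_iff_forall_notMem]
        intro b hb
        exact hgood hb.2.2.1
      rw [this, Set.ncard_empty]
      push_cast
      positivity
  have h3 : ∑ a, Set.ncard {b | R a b} =
      ∑ a ∈ (S ×ˢ S) ×ˢ (Finset.univ : Finset (Fin (m+1) × Fin (m+1))), Set.ncard {b | R a b} := by
    symm
    apply Finset.sum_subset (Finset.subset_univ _)
    intro a _ ha
    have : {b | R a b} = ∅ := by
      rw [Set.eq_empty_iff_forall_notMem]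
      intro b hb
      apply ha
      rw [Finset.mem_product, Finset.mem_product]
      exact ⟨⟨hb.1, hb.2.1⟩, Finset.mem_univ _⟩
    rw [this, Set.ncard_empty]
  have h4 : (Set.ncard {P : (((Fin (m+1) → Fin k → Fin (m+1)) × (Fin (m+1) → Bool)) ×
          ((Fin (m+1) → Fin k → Fin (m+1)) × (Fin (m+1) → Bool))) × (Fin (m+1) × Fin (m+1)) |
        P.1.1.1 ∈ S ∧ P.1.2.1 ∈ S ∧ (¬ tBad P.1.1.1 P.2.1 (r+1) ∧ ¬ tBad P.1.2.1 P.2.2 (r+1)) ∧
        Tw P.1.1 P.1.2 P.2.1 P.2.2} : ℝ) ≤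
      ∑ a ∈ (S ×ˢ S) ×ˢ (Finset.univ : Finset (Fin (m+1) × Fin (m+1))),
        (Set.ncard {b | R a b} : ℝ) := by
    rw [h3] at h1
    exact_mod_cast h1
  refine h4.trans ((Finset.sum_le_sum (fun a _ => h2 a)).trans (le_of_eq ?_))
  rw [Finset.sum_const, nsmul_eq_mul, Finset.card_product, Finset.card_product, Finset.card_univ,
    Fintype.card_prod, Fintype.card_fin]
  push_cast
  ring


theorem tw_asym (k : ℕ) (hk : 2 ≤ k) (ε : ℝ) (hε : 0 < ε) : ∃ m0 : ℕ, ∀ m, m0 ≤ m → ∃ r : ℕ,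
    16 * ((k:ℝ) ^ (r + 2)) ^ 12 ≤ ε * ((m+1 : ℕ) : ℝ) ∧
    16 * ((k:ℝ) ^ (r + 2)) ^ 12 ≤ ((m+1 : ℕ) : ℝ) ∧
    ((m+1 : ℕ) : ℝ) * ((m+1 : ℕ) : ℝ) * (3/4 : ℝ) ^ (k ^ r / 5) ≤ ε / 2 := by
  have hk0 : (0:ℝ) < k := by
    have : (2:ℝ) ≤ k := by exact_mod_cast hk
    linarith
  set C : ℝ := 40 * (k:ℝ) ^ 3 with hC
  have hC0 : 0 < C := by positivity
  set e1 : ℝ := min ε 1 with he1
  have he10 : 0 < e1 := lt_min hε one_pos
  have hlim := tendsto_pow_const_div_const_pow_of_one_lt 12 (r := (2:ℝ)) (by norm_num)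
  have hδ : 0 < e1 / (32 * C ^ 12) := by positivity
  obtain ⟨L0, hL0⟩ := Filter.eventually_atTop.mp (hlim.eventually (gt_mem_nhds hδ))
  obtain ⟨M1, hM1⟩ := exists_nat_ge (2 / ε)
  refine ⟨max (2 ^ L0) (max M1 1), fun m hm => ?_⟩
  have hm1 : 2 ^ L0 ≤ m := le_trans (le_max_left _ _) hm
  have hm2 : M1 ≤ m := le_trans (le_trans (le_max_left _ _) (le_max_right _ _)) hm
  set n : ℕ := m + 1 with hn
  set L : ℕ := Nat.log 2 n + 1 with hL
  have hnL : n < 2 ^ L := Nat.lt_pow_succ_log_self (by norm_num) n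
  have hLn : 2 ^ (L - 1) ≤ n := by
    rw [hL, Nat.add_sub_cancel]
    exact Nat.pow_log_le_self 2 (by omega)
  have hLL0 : L0 ≤ L := by
    have : L0 ≤ Nat.log 2 n := (Nat.le_log_iff_pow_le (by norm_num) (by omega)).mpr (by omega)
    omega
  set X : ℕ := 40 * L with hX
  have hX1 : 1 < X := by omega
  refine ⟨Nat.clog k X, ?_⟩
  set r := Nat.clog k X with hr
  have hr1 : X ≤ k ^ r := Nat.le_pow_clog (by omega) X
  have hrpos : 0 < r := Nat.clog_pos (by omega) hX1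
  have hr2 : k ^ r ≤ k * X := by
    have h1 : k ^ (r - 1) < X := Nat.pow_pred_clog_lt_self (by omega) hX1
    have h2 : k ^ r = k * k ^ (r - 1) := by
      rw [← pow_succ']
      congr 1
      omega
    rw [h2]
    exact Nat.mul_le_mul_left k h1.le
  have hK : (k:ℝ) ^ (r + 2) ≤ C * L := by
    have h1 : (k:ℝ) ^ r ≤ k * X := by exact_mod_cast hr2
    have h2 : (X : ℝ) = 40 * L := by rw [hX]; push_cast; ring
    calc (k:ℝ) ^ (r + 2) = (k:ℝ) ^ 2 * (k:ℝ) ^ r := by ring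
      _ ≤ (k:ℝ) ^ 2 * (k * X) := mul_le_mul_of_nonneg_left h1 (by positivity)
      _ = C * L := by rw [h2, hC]; ring
  have hL12 : 16 * (C * (L:ℝ)) ^ 12 ≤ e1 * (n:ℝ) := by
    have h1 := (hL0 L hLL0).le
    rw [div_le_div_iff₀ (by positivity) (by positivity)] at h1
    have h2 : ((2:ℝ)) ^ L ≤ 2 * n := by
      have : 2 ^ L ≤ 2 * n := by
        have h3 : 2 ^ L = 2 * 2 ^ (L - 1) := by
          rw [← pow_succ']
          congr 1
        rw [h3]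
        exact Nat.mul_le_mul_left 2 hLn
      exact_mod_cast this
    have h4 : (L:ℝ) ^ 12 * (32 * C ^ 12) ≤ e1 * (2 * n) :=
      h1.trans (mul_le_mul_of_nonneg_left h2 he10.le)
    have h5 : 16 * (C * (L:ℝ)) ^ 12 = ((L:ℝ) ^ 12 * (32 * C ^ 12)) / 2 := by ring
    rw [h5]
    linarith
  have hK12 : 16 * ((k:ℝ) ^ (r + 2)) ^ 12 ≤ e1 * (n:ℝ) := by
    refine le_trans ?_ hL12
    apply mul_le_mul_of_nonneg_left _ (by norm_num)
    exact pow_le_pow_left₀ (by positivity) hK 12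
  have hn0 : (0:ℝ) < n := by rw [hn]; positivity
  refine ⟨?_, ?_, ?_⟩
  · exact hK12.trans (mul_le_mul_of_nonneg_right (min_le_left _ _) hn0.le)
  · refine hK12.trans ?_
    calc e1 * (n:ℝ) ≤ 1 * n := mul_le_mul_of_nonneg_right (min_le_right _ _) hn0.le
      _ = n := one_mul _
  · have h1 : 8 * L ≤ k ^ r / 5 := by
      rw [Nat.le_div_iff_mul_le (by norm_num)]
      omega
    have h2 : (3/4 : ℝ) ^ (k ^ r / 5) ≤ (3/4 : ℝ) ^ (8 * L) :=
      pow_le_pow_of_le_one (by norm_num) (by norm_num) h1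
    have h3 : (3/4 : ℝ) ^ (8 * L) ≤ (1/8 : ℝ) ^ L := by
      rw [pow_mul]
      exact pow_le_pow_left₀ (by norm_num) (by norm_num) L
    have h4 : (1/8 : ℝ) ^ L = 1 / ((2:ℝ) ^ L) ^ 3 := by
      rw [one_div_pow, ← pow_mul, mul_comm, pow_mul]
      norm_num
    have h5 : (n:ℝ) ≤ (2:ℝ) ^ L := by exact_mod_cast hnL.le
    have h6 : 1 / ((2:ℝ) ^ L) ^ 3 ≤ 1 / (n:ℝ) ^ 3 :=
      one_div_le_one_div_of_le (by positivity) (pow_le_pow_left₀ hn0.le h5 3)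
    have h7 : (n:ℝ) * n * (3/4 : ℝ) ^ (k ^ r / 5) ≤ n * n * (1 / (n:ℝ) ^ 3) := by
      apply mul_le_mul_of_nonneg_left _ (by positivity)
      rw [← h4] at h6
      exact h2.trans (h3.trans h6)
    have h8 : (n:ℝ) * n * (1 / (n:ℝ) ^ 3) = 1 / n := by field_simp
    rw [h8] at h7
    refine h7.trans ?_
    rw [div_le_div_iff₀ hn0 (by norm_num)]
    have h9 : (M1 : ℝ) ≤ n := by
      have : M1 ≤ n := by omega
      exact_mod_cast this
    rw [div_le_iff₀ hε] at hM1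
    nlinarith

theorem twinned_S (k : ℕ) (hk : 2 ≤ k) (ε : ℝ) (hε : 0 < ε) : ∃ m0 : ℕ, ∀ m, m0 ≤ m →
    ∀ T0 : Fin (m+1) → Fin k → Fin (m+1),
    (Set.ncard {P : (((Fin (m+1) → Fin k → Fin (m+1)) × (Fin (m+1) → Bool)) ×
          ((Fin (m+1) → Fin k → Fin (m+1)) × (Fin (m+1) → Bool))) × (Fin (m+1) × Fin (m+1)) |
        P.1.1.1 ∈ Om T0 ∅ ∅ (Finset.univ.erase 0) ∧ P.1.2.1 ∈ Om T0 ∅ ∅ (Finset.univ.erase 0) ∧
        Tw P.1.1 P.1.2 P.2.1 P.2.2} : ℝ)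
      ≤ ε * ((m:ℝ) + 1) ^ 2 * (((Om T0 ∅ ∅ (Finset.univ.erase 0)).card : ℝ) * 2 ^ (m + 1)) ^ 2 := by
  have hkr : (2:ℝ) ≤ k := by exact_mod_cast hk
  obtain ⟨m0, hm0⟩ := tw_asym k hk ε hε
  refine ⟨m0, fun m hm T0 => ?_⟩
  obtain ⟨r, ha, hb, hc⟩ := hm0 m hm
  set S := Om T0 ∅ ∅ (Finset.univ.erase 0) with hS
  set N : ℝ := (S.card : ℝ) with hN
  set n : ℝ := ((m+1 : ℕ) : ℝ) with hn
  have hn' : (m:ℝ) + 1 = n := by rw [hn]; push_cast; ring
  set K : ℝ := (k:ℝ) ^ (r + 2) with hK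
  have hn0 : 0 < n := by rw [hn]; positivity
  have hN0 : 0 ≤ N := by positivity
  have hK1 : 1 ≤ K := by
    rw [hK]
    exact one_le_pow₀ (by linarith)
  have hK2 : 16 * K ^ 2 ≤ n := by
    have : K ^ 2 ≤ K ^ 12 := pow_le_pow_right₀ hK1 (by norm_num)
    linarith
  -- the size condition
  have hr : 2 * k ^ (r + 1 + 1) + 1 < m + 1 := by
    have h1 : (2:ℝ) * K + 1 < n := by nlinarith
    have h2 : ((2 * k ^ (r + 1 + 1) + 1 : ℕ) : ℝ) < ((m+1 : ℕ) : ℝ) := by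
      push_cast
      rw [← hn'] at h1
      exact h1
    exact_mod_cast h2
  -- the factor A is at most 2
  have hA : (n / (n - 1 - 2 * (k:ℝ) ^ (r + 1 + 1))) ^ (2 * k ^ (r + 1 + 1)) ≤ 2 := by
    have hd : 0 < n - 1 - 2 * K := by nlinarith
    have e1 : n / (n - 1 - 2 * (k:ℝ) ^ (r + 1 + 1)) = 1 + (1 + 2 * K) / (n - 1 - 2 * K) := by
      show n / (n - 1 - 2 * K) = _
      field_simp
      ring
    rw [e1]
    have e2 : 1 + (1 + 2 * K) / (n - 1 - 2 * K) ≤ Real.exp ((1 + 2 * K) / (n - 1 - 2 * K)) := by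
      have := Real.add_one_le_exp ((1 + 2 * K) / (n - 1 - 2 * K))
      linarith
    have e3 : 0 ≤ 1 + (1 + 2 * K) / (n - 1 - 2 * K) := by positivity
    refine (pow_le_pow_left₀ e3 e2 _).trans ?_
    rw [← Real.exp_nat_mul]
    have e4 : ((2 * k ^ (r + 1 + 1) : ℕ) : ℝ) * ((1 + 2 * K) / (n - 1 - 2 * K)) ≤ 1 / 2 := by
      have : ((2 * k ^ (r + 1 + 1) : ℕ) : ℝ) = 2 * K := by
        push_cast
        rfl
      rw [this, ← mul_div_assoc, div_le_div_iff₀ hd (by norm_num)]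
      nlinarith
    calc Real.exp (((2 * k ^ (r + 1 + 1) : ℕ) : ℝ) * ((1 + 2 * K) / (n - 1 - 2 * K)))
        ≤ Real.exp (Real.log 2) := by
          apply Real.exp_le_exp.mpr
          have := Real.log_two_gt_d9
          linarith
      _ = 2 := Real.exp_log (by norm_num)
  have hBS := tw_BS (ρ := r + 1) hk (by omega) T0 hr 2 hA
  rw [← hS, ← hN] at hBS
  have hBS2 : (Set.ncard {Q : (Fin (m+1) → Fin k → Fin (m+1)) × Fin (m+1) |
      Q.1 ∈ S ∧ tBad Q.1 Q.2 (r + 1)} : ℝ) ≤ 4 * K ^ 12 * N := by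
    refine hBS.trans ?_
    have h1 : K ^ 4 ≤ K ^ 12 := pow_le_pow_right₀ hK1 (by norm_num)
    have h2 : 2 * K ^ 4 * N ≤ 2 * K ^ 12 * N := by
      apply mul_le_mul_of_nonneg_right _ hN0
      linarith
    show 2 * K ^ 4 * N + 2 * K ^ 12 * N ≤ 4 * K ^ 12 * N
    linarith
  have hE1 := tw_E1 S (fun T p => tBad T p (r + 1))
  have hE2 := tw_E2 S (fun T p => tBad T p (r + 1))
  have hE3 := tw_E3 (r := r) hk S
  set bs := Set.ncard {Q : (Fin (m+1) → Fin k → Fin (m+1)) × Fin (m+1) |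
      Q.1 ∈ S ∧ tBad Q.1 Q.2 (r + 1)} with hbs
  -- union bound
  have hcov : Set.ncard {P : (((Fin (m+1) → Fin k → Fin (m+1)) × (Fin (m+1) → Bool)) ×
          ((Fin (m+1) → Fin k → Fin (m+1)) × (Fin (m+1) → Bool))) × (Fin (m+1) × Fin (m+1)) |
        P.1.1.1 ∈ S ∧ P.1.2.1 ∈ S ∧ Tw P.1.1 P.1.2 P.2.1 P.2.2} ≤
      bs * (2 ^ (m+1) * (S.card * (2 ^ (m+1) * (m+1)))) +
      (bs * (2 ^ (m+1) * (S.card * (2 ^ (m+1) * (m+1)))) +
      Set.ncard {P : (((Fin (m+1) → Fin k → Fin (m+1)) × (Fin (m+1) → Bool)) ×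
          ((Fin (m+1) → Fin k → Fin (m+1)) × (Fin (m+1) → Bool))) × (Fin (m+1) × Fin (m+1)) |
        P.1.1.1 ∈ S ∧ P.1.2.1 ∈ S ∧ (¬ tBad P.1.1.1 P.2.1 (r+1) ∧ ¬ tBad P.1.2.1 P.2.2 (r+1)) ∧
        Tw P.1.1 P.1.2 P.2.1 P.2.2}) := by
    refine le_trans (cn_mono (Q := fun P => (P.1.1.1 ∈ S ∧ P.1.2.1 ∈ S ∧
        tBad P.1.1.1 P.2.1 (r + 1)) ∨ ((P.1.1.1 ∈ S ∧ P.1.2.1 ∈ S ∧
        tBad P.1.2.1 P.2.2 (r + 1)) ∨ (P.1.1.1 ∈ S ∧ P.1.2.1 ∈ S ∧
        (¬ tBad P.1.1.1 P.2.1 (r+1) ∧ ¬ tBad P.1.2.1 P.2.2 (r+1)) ∧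
        Tw P.1.1 P.1.2 P.2.1 P.2.2))) ?_) ?_
    · rintro P ⟨h1, h2, h3⟩
      by_cases hb1 : tBad P.1.1.1 P.2.1 (r + 1)
      · exact Or.inl ⟨h1, h2, hb1⟩
      · by_cases hb2 : tBad P.1.2.1 P.2.2 (r + 1)
        · exact Or.inr (Or.inl ⟨h1, h2, hb2⟩)
        · exact Or.inr (Or.inr ⟨h1, h2, ⟨hb1, hb2⟩, h3⟩)
    · refine (cn_or _ _).trans (Nat.add_le_add hE1 ?_)
      exact (cn_or _ _).trans (Nat.add_le_add_right hE2 _)
  have hcovR : (Set.ncard {P : (((Fin (m+1) → Fin k → Fin (m+1)) × (Fin (m+1) → Bool)) ×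
          ((Fin (m+1) → Fin k → Fin (m+1)) × (Fin (m+1) → Bool))) × (Fin (m+1) × Fin (m+1)) |
        P.1.1.1 ∈ S ∧ P.1.2.1 ∈ S ∧ Tw P.1.1 P.1.2 P.2.1 P.2.2} : ℝ) ≤
      (bs:ℝ) * (2 ^ (m+1) * (N * (2 ^ (m+1) * n))) +
      ((bs:ℝ) * (2 ^ (m+1) * (N * (2 ^ (m+1) * n))) +
      (Set.ncard {P : (((Fin (m+1) → Fin k → Fin (m+1)) × (Fin (m+1) → Bool)) ×
          ((Fin (m+1) → Fin k → Fin (m+1)) × (Fin (m+1) → Bool))) × (Fin (m+1) × Fin (m+1)) |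
        P.1.1.1 ∈ S ∧ P.1.2.1 ∈ S ∧ (¬ tBad P.1.1.1 P.2.1 (r+1) ∧ ¬ tBad P.1.2.1 P.2.2 (r+1)) ∧
        Tw P.1.1 P.1.2 P.2.1 P.2.2} : ℝ)) := by
    rw [hn, hN]
    exact_mod_cast hcov
  refine hcovR.trans ?_
  rw [hn']
  have h4 : (4:ℝ) ^ (m+1) = 2 ^ (m+1) * 2 ^ (m+1) := by
    rw [← mul_pow]; norm_num
  set P2 : ℝ := (2:ℝ) ^ (m+1) with hP2
  have hP20 : 0 < P2 := by positivity
  -- first two terms
  have hb1 : (bs:ℝ) * (P2 * (N * (P2 * n))) ≤ ε / 4 * n ^ 2 * (N * P2) ^ 2 := by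
    have h1 : (bs:ℝ) * (P2 * (N * (P2 * n))) ≤ (4 * K ^ 12 * N) * (P2 * (N * (P2 * n))) :=
      mul_le_mul_of_nonneg_right hBS2 (by positivity)
    have h2 : (4 * K ^ 12 * N) * (P2 * (N * (P2 * n))) = (4 * K ^ 12) * (n * (N * P2) ^ 2) := by
      ring
    have h3 : (4 * K ^ 12) * (n * (N * P2) ^ 2) ≤ (ε / 4 * n) * (n * (N * P2) ^ 2) := by
      apply mul_le_mul_of_nonneg_right _ (by positivity)
      linarith
    calc _ ≤ _ := h1
      _ = _ := h2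
      _ ≤ _ := h3
      _ = _ := by ring
  have hb3 : (N * N * (n * n)) * ((n * n) * ((3/4 : ℝ) ^ (k ^ r / 5) * 4 ^ (m+1))) ≤
      ε / 2 * n ^ 2 * (N * P2) ^ 2 := by
    rw [h4]
    have h1 : (N * N * (n * n)) * ((n * n) * ((3/4 : ℝ) ^ (k ^ r / 5) * (P2 * P2))) =
        (n * n * (3/4 : ℝ) ^ (k ^ r / 5)) * (n ^ 2 * (N * P2) ^ 2) := by ring
    rw [h1]
    have h2 : (n * n * (3/4 : ℝ) ^ (k ^ r / 5)) * (n ^ 2 * (N * P2) ^ 2) ≤
        (ε / 2) * (n ^ 2 * (N * P2) ^ 2) := mul_le_mul_of_nonneg_right hc (by positivity)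
    refine h2.trans (le_of_eq ?_)
    ring
  have hfin : ε / 4 * n ^ 2 * (N * P2) ^ 2 + (ε / 4 * n ^ 2 * (N * P2) ^ 2 +
      ε / 2 * n ^ 2 * (N * P2) ^ 2) = ε * n ^ 2 * (N * P2) ^ 2 := by ring
  rw [← hfin]
  exact add_le_add hb1 (add_le_add hb1 (hE3.trans hb3))

end AS
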