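import Pool.Agent.Helper513.AS.B1
import Pool.Agent.Helper513.AS.A1
import Pool.Agent.Helper513.AS.A5
import Pool.Agent.Helper513.AS.F5

set_option autoImplicit false

namespace AS
open Finset RA





theorem mem_Om'_F6 {V : Type} [Fintype V] {k : ℕ} (T0 : V → Fin k → V)
    (X : Finset (V × Fin k)) (K R : Finset V) (T : V → Fin k → V) :
    T ∈ Om T0 X K R ↔ (∀ c ∈ X, T c.1 c.2 = T0 c.1 c.2) ∧ (∀ c, c ∉ X → T c.1 c.2 ∉ K) ∧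
    ∀ r ∈ R, ∃ c, c ∉ X ∧ T c.1 c.2 = r := by
  unfold Om
  classical
  simp only [Finset.mem_filter, Finset.mem_univ, true_and]

theorem acc_sub_Om (k m : ℕ) (T0 : Fin (m+1) → Fin k → Fin (m+1)) :
    {T : Fin (m+1) → Fin k → Fin (m+1) | Acc T 0} ⊆
      ((Om T0 ∅ ∅ (Finset.univ.erase 0) : Finset _) : Set (Fin (m+1) → Fin k → Fin (m+1))) := by
  intro T hT
  have hT' : Acc T 0 := hT
  rw [Finset.mem_coe, mem_Om'_F6]
  refine ⟨?_, ?_, ?_⟩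
  · intro c hc
    exact absurd hc (Finset.notMem_empty c)
  · intro c _
    exact Finset.notMem_empty _
  · intro r hr
    have hr0 : r ≠ 0 := (Finset.mem_erase.1 hr).1
    obtain ⟨w, hw⟩ := hT' r
    rcases List.eq_nil_or_concat w with h | ⟨w', a, h⟩
    · exfalso
      apply hr0
      rw [← hw, h]
      rfl
    · refine ⟨(run T 0 w', a), Finset.notMem_empty _, ?_⟩
      rw [← hw, h]
      simp [run]

theorem Om_le_acc (k : ℕ) (hk : 2 ≤ k) : ∃ C m0 : ℕ, ∀ m, m0 ≤ m →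
    ∀ T0 : Fin (m+1) → Fin k → Fin (m+1), (Om T0 ∅ ∅ (Finset.univ.erase 0)).card
      ≤ C * Set.ncard {T : Fin (m+1) → Fin k → Fin (m+1) | Acc T 0} := by
  obtain ⟨C, m0, hC⟩ := acc_fraction k hk
  refine ⟨2 * C, max m0 1, ?_⟩
  intro m hm T0
  have hm0 : m0 ≤ m := le_trans (le_max_left _ _) hm
  have hm1 : 1 ≤ m := le_trans (le_max_right _ _) hm
  have h1 := card_Om T0 ∅ ∅ (Finset.univ.erase 0) (Finset.disjoint_empty_right _)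
  rw [h1]
  have h2 : (Finset.univ.erase (0 : Fin (m+1))).card = m := by
    rw [Finset.card_erase_of_mem (Finset.mem_univ _)]
    simp
  rw [h2]
  simp only [Fintype.card_fin, Finset.card_empty, Nat.sub_zero]
  rw [cvr_top1]
  have h3 := sj_split ((m + 1) * k) m
  have h4 : m ≤ (m + 1) * k - m := by
    have : (m + 1) * 2 ≤ (m + 1) * k := Nat.mul_le_mul_left _ hk
    omega
  have h5 : m * sj ((m + 1) * k) m ≤ m * sj ((m + 1) * k) (m + 1) :=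
    (Nat.mul_le_mul_right _ h4).trans h3
  have h6 : sj ((m + 1) * k) m ≤ sj ((m + 1) * k) (m + 1) :=
    Nat.le_of_mul_le_mul_left h5 (by omega)
  have h7 := hC m hm0
  rw [mul_comm k (m + 1)] at h7
  calc sj ((m + 1) * k) (m + 1) + sj ((m + 1) * k) m
      ≤ 2 * sj ((m + 1) * k) (m + 1) := by omega
    _ ≤ 2 * (C * Set.ncard {T : Fin (m+1) → Fin k → Fin (m+1) | Acc T 0}) :=
        Nat.mul_le_mul_left _ h7
    _ = _ := by ring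

theorem twinned_acc (k : ℕ) (hk : 2 ≤ k) (ε : ℝ) (hε : 0 < ε) : ∃ m0 : ℕ, ∀ m, m0 ≤ m →
    (Set.ncard {P : (((Fin (m+1) → Fin k → Fin (m+1)) × (Fin (m+1) → Bool)) ×
          ((Fin (m+1) → Fin k → Fin (m+1)) × (Fin (m+1) → Bool))) × (Fin (m+1) × Fin (m+1)) |
        Acc P.1.1.1 0 ∧ Acc P.1.2.1 0 ∧ Tw P.1.1 P.1.2 P.2.1 P.2.2} : ℝ)
      ≤ ε * ((m:ℝ) + 1) ^ 2 * ((Set.ncard {T : Fin (m+1) → Fin k → Fin (m+1) | Acc T 0} : ℝ)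
          * 2 ^ (m + 1)) ^ 2 := by
  obtain ⟨C, m0, hC⟩ := Om_le_acc k hk
  have hC1 : (0 : ℝ) < (C : ℝ) ^ 2 + 1 := by positivity
  obtain ⟨m1, hS⟩ := twinned_S k hk (ε / ((C : ℝ) ^ 2 + 1)) (by positivity)
  refine ⟨max m0 m1, ?_⟩
  intro m hm
  have hm0 : m0 ≤ m := le_trans (le_max_left _ _) hm
  have hm1 : m1 ≤ m := le_trans (le_max_right _ _) hm
  let T0 : Fin (m+1) → Fin k → Fin (m+1) := fun _ _ => 0
  have h1 := hS m hm1 T0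
  have h2 := hC m hm0 T0
  have h3 : (Set.ncard {P : (((Fin (m+1) → Fin k → Fin (m+1)) × (Fin (m+1) → Bool)) ×
          ((Fin (m+1) → Fin k → Fin (m+1)) × (Fin (m+1) → Bool))) × (Fin (m+1) × Fin (m+1)) |
        Acc P.1.1.1 0 ∧ Acc P.1.2.1 0 ∧ Tw P.1.1 P.1.2 P.2.1 P.2.2} : ℝ) ≤
      (Set.ncard {P : (((Fin (m+1) → Fin k → Fin (m+1)) × (Fin (m+1) → Bool)) ×
          ((Fin (m+1) → Fin k → Fin (m+1)) × (Fin (m+1) → Bool))) × (Fin (m+1) × Fin (m+1)) |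
        P.1.1.1 ∈ Om T0 ∅ ∅ (Finset.univ.erase 0) ∧ P.1.2.1 ∈ Om T0 ∅ ∅ (Finset.univ.erase 0) ∧
        Tw P.1.1 P.1.2 P.2.1 P.2.2} : ℝ) := by
    have h4 : Set.ncard {P : (((Fin (m+1) → Fin k → Fin (m+1)) × (Fin (m+1) → Bool)) ×
          ((Fin (m+1) → Fin k → Fin (m+1)) × (Fin (m+1) → Bool))) × (Fin (m+1) × Fin (m+1)) |
        Acc P.1.1.1 0 ∧ Acc P.1.2.1 0 ∧ Tw P.1.1 P.1.2 P.2.1 P.2.2} ≤
      Set.ncard {P : (((Fin (m+1) → Fin k → Fin (m+1)) × (Fin (m+1) → Bool)) ×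
          ((Fin (m+1) → Fin k → Fin (m+1)) × (Fin (m+1) → Bool))) × (Fin (m+1) × Fin (m+1)) |
        P.1.1.1 ∈ Om T0 ∅ ∅ (Finset.univ.erase 0) ∧ P.1.2.1 ∈ Om T0 ∅ ∅ (Finset.univ.erase 0) ∧
        Tw P.1.1 P.1.2 P.2.1 P.2.2} := by
      apply Set.ncard_le_ncard _ (Set.toFinite _)
      rintro P ⟨hP1, hP2, hP3⟩
      exact ⟨acc_sub_Om k m T0 hP1, acc_sub_Om k m T0 hP2, hP3⟩
    exact_mod_cast h4
  have h5 : ((Om T0 ∅ ∅ (Finset.univ.erase 0)).card : ℝ) ≤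
      C * (Set.ncard {T : Fin (m+1) → Fin k → Fin (m+1) | Acc T 0} : ℝ) := by exact_mod_cast h2
  refine h3.trans (h1.trans ?_)
  have h6 : (((Om T0 ∅ ∅ (Finset.univ.erase 0)).card : ℝ) * 2 ^ (m + 1)) ^ 2 ≤
      (C : ℝ) ^ 2 * ((Set.ncard {T : Fin (m+1) → Fin k → Fin (m+1) | Acc T 0} : ℝ) * 2 ^ (m + 1)) ^ 2 := by
    calc (((Om T0 ∅ ∅ (Finset.univ.erase 0)).card : ℝ) * 2 ^ (m + 1)) ^ 2
        ≤ ((C * (Set.ncard {T : Fin (m+1) → Fin k → Fin (m+1) | Acc T 0} : ℝ)) * 2 ^ (m + 1)) ^ 2 := by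
          apply pow_le_pow_left₀ (by positivity)
          exact mul_le_mul_of_nonneg_right h5 (by positivity)
      _ = _ := by ring
  have h7 : ε / ((C : ℝ) ^ 2 + 1) * (C : ℝ) ^ 2 ≤ ε := by
    rw [div_mul_eq_mul_div, div_le_iff₀ hC1]
    nlinarith
  calc ε / ((C : ℝ) ^ 2 + 1) * ((m:ℝ) + 1) ^ 2 *
        (((Om T0 ∅ ∅ (Finset.univ.erase 0)).card : ℝ) * 2 ^ (m + 1)) ^ 2
      ≤ ε / ((C : ℝ) ^ 2 + 1) * ((m:ℝ) + 1) ^ 2 * ((C : ℝ) ^ 2 *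
        ((Set.ncard {T : Fin (m+1) → Fin k → Fin (m+1) | Acc T 0} : ℝ) * 2 ^ (m + 1)) ^ 2) :=
        mul_le_mul_of_nonneg_left h6 (by positivity)
    _ = (ε / ((C : ℝ) ^ 2 + 1) * (C : ℝ) ^ 2) * (((m:ℝ) + 1) ^ 2 *
        ((Set.ncard {T : Fin (m+1) → Fin k → Fin (m+1) | Acc T 0} : ℝ) * 2 ^ (m + 1)) ^ 2) := by ring
    _ ≤ ε * (((m:ℝ) + 1) ^ 2 *
        ((Set.ncard {T : Fin (m+1) → Fin k → Fin (m+1) | Acc T 0} : ℝ) * 2 ^ (m + 1)) ^ 2) :=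
        mul_le_mul_of_nonneg_right h7 (by positivity)
    _ = _ := by ring
end AS
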