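import Pool.Agent.Helper513.AS.F6
import Pool.Agent.Helper513.SI.Jc
import Pool.Agent.Helper513.SI.Jb
import Pool.Agent.Helper513.SI.Ja
import Pool.Agent.Helper513.SI.I

set_option autoImplicit false

namespace SI
open RA




end SI

namespace AS
open Finset RA SI Filter Topology

/-- pairs of states reachable from `(0,0)` -/
def Reach {m k : ℕ} (T T' : Fin (m+1) → Fin k → Fin (m+1)) : Set (Fin (m+1) × Fin (m+1)) :=
  {z | ∃ w : List (Fin k), run T 0 w = z.1 ∧ run T' 0 w = z.2}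



/-- residual language -/
def Res {m k : ℕ} (x y : (Fin (m+1) → Fin k → Fin (m+1)) × (Fin (m+1) → Bool))
    (z : Fin (m+1) × Fin (m+1)) : Language (Fin k) :=
  {u | (x.2 (run x.1 z.1 u) && y.2 (run y.1 z.2 u)) = true}

theorem range_lq {m k : ℕ} (x y : (Fin (m+1) → Fin k → Fin (m+1)) × (Fin (m+1) → Bool)) :
    Set.range (lang x ⊓ lang y).leftQuotient = Res x y '' Reach x.1 y.1 := by
  have key : ∀ w, (lang x ⊓ lang y).leftQuotient w = Res x y (run x.1 0 w, run y.1 0 w) := by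
    intro w
    ext u
    show (x.2 ((w ++ u).foldl x.1 0) = true ∧ y.2 ((w ++ u).foldl y.1 0) = true) ↔
      (x.2 (run x.1 (run x.1 0 w) u) && y.2 (run y.1 (run y.1 0 w) u)) = true
    rw [List.foldl_append, List.foldl_append, Bool.and_eq_true]
    rfl
  ext L
  constructor
  · rintro ⟨w, rfl⟩
    exact ⟨(run x.1 0 w, run y.1 0 w), ⟨w, rfl, rfl⟩, (key w).symm⟩
  · rintro ⟨⟨p, q⟩, ⟨w, h1, h2⟩, rfl⟩
    refine ⟨w, ?_⟩
    rw [key w]
    simp only at h1 h2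
    rw [h1, h2]

theorem sc_eq_img {m k : ℕ} (x y : (Fin (m+1) → Fin k → Fin (m+1)) × (Fin (m+1) → Bool)) :
    sc (lang x ⊓ lang y) = (Res x y '' Reach x.1 y.1).ncard := by
  rw [(sc_eq_ncard (lang x ⊓ lang y) ((lang_regular x).inf (lang_regular y))).2, range_lq]

theorem sc_le_reach {m k : ℕ} (x y : (Fin (m+1) → Fin k → Fin (m+1)) × (Fin (m+1) → Bool)) :
    sc (lang x ⊓ lang y) ≤ (Reach x.1 y.1).ncard := by
  rw [sc_eq_img]
  exact Set.ncard_image_le (Set.toFinite _)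

theorem reach_le_sc {m k : ℕ} (x y : (Fin (m+1) → Fin k → Fin (m+1)) × (Fin (m+1) → Bool)) :
    (Reach x.1 y.1).ncard ≤ sc (lang x ⊓ lang y) + Set.ncard {z : Fin (m+1) × Fin (m+1) |
      Tw x y z.1 z.2} := by
  have h1 : (Reach x.1 y.1).ncard ≤ (Reach x.1 y.1 \ {z : Fin (m+1) × Fin (m+1) |
      Tw x y z.1 z.2}).ncard + Set.ncard {z : Fin (m+1) × Fin (m+1) | Tw x y z.1 z.2} :=
    Set.ncard_le_ncard_sdiff_add_ncard _ _ (Set.toFinite _)
  refine h1.trans (Nat.add_le_add_right ?_ _)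
  rw [sc_eq_img]
  have hinj : Set.InjOn (Res x y) (Reach x.1 y.1 \ {z : Fin (m+1) × Fin (m+1) |
      Tw x y z.1 z.2}) := by
    intro z hz z' hz' he
    by_contra hne
    apply hz.2
    refine ⟨z'.1, z'.2, fun h => hne ?_, fun w => ?_⟩
    · exact h.symm
    · have h2 : w ∈ Res x y z ↔ w ∈ Res x y z' := by rw [he]
      have h3 : ((x.2 (run x.1 z.1 w) && y.2 (run y.1 z.2 w)) = true) ↔
          ((x.2 (run x.1 z'.1 w) && y.2 (run y.1 z'.2 w)) = true) := h2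
      exact Bool.eq_iff_iff.2 h3
  rw [← Set.ncard_image_of_injOn hinj]
  exact Set.ncard_le_ncard (Set.image_mono Set.sdiff_subset) (Set.toFinite _)

theorem acc_pos (k m : ℕ) (hk : 2 ≤ k) :
    0 < Set.ncard {T : Fin (m+1) → Fin k → Fin (m+1) | RA.Acc T 0} := by
  rw [Set.ncard_pos (Set.toFinite _)]
  refine ⟨fun v _ => v + 1, ?_⟩
  intro q
  let a : Fin k := ⟨0, by omega⟩
  have h : ∀ j : ℕ, run (fun (v : Fin (m+1)) (_ : Fin k) => v + 1) 0 (List.replicate j a) =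
      (Fin.ofNat (m+1) j) := by
    intro j
    induction j with
    | zero => rfl
    | succ j ih =>
      rw [List.replicate_succ', run, List.foldl_append]
      show run (fun (v : Fin (m+1)) (_ : Fin k) => v + 1) 0 (List.replicate j a) + 1 = _
      rw [ih]
      apply Fin.ext
      rw [Fin.val_add]
      simp [Fin.ofNat]
  refine ⟨List.replicate q.val a, ?_⟩
  rw [h]
  apply Fin.ext
  simp [Fin.ofNat, Nat.mod_eq_of_lt q.isLt]

open Classical in
/-- the final step: concentration of the number of reachable pairs gives the asymptotics of `E` -/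
theorem final_of_reach (k : ℕ) (hk : 2 ≤ k) (c : ℝ)
    (hreach : ∀ ε : ℝ, 0 < ε → ∃ m0 : ℕ, ∀ m, m0 ≤ m →
      ∑ T ∈ Finset.univ.filter (fun T : Fin (m+1) → Fin k → Fin (m+1) => RA.Acc T 0),
        ∑ T' ∈ Finset.univ.filter (fun T : Fin (m+1) → Fin k → Fin (m+1) => RA.Acc T 0),
          |((Reach T T').ncard : ℝ) - c * ((m:ℝ) + 1) ^ 2|
      ≤ ε * ((m:ℝ) + 1) ^ 2 *
        (Set.ncard {T : Fin (m+1) → Fin k → Fin (m+1) | RA.Acc T 0} : ℝ) ^ 2) :
    Tendsto (fun m : ℕ => E (Fin k) (m + 1) / ((m:ℝ) + 1) ^ 2) atTop (𝓝 c) := by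
  rw [Metric.tendsto_atTop]
  intro δ hδ
  set ε : ℝ := δ / 36 with hε
  have hε0 : 0 < ε := by positivity
  obtain ⟨m1, hm1⟩ := hreach ε hε0
  obtain ⟨m2, hm2⟩ := min_fraction k hk
  obtain ⟨m3, hm3⟩ := twinned_acc k hk ε hε0
  refine ⟨max m1 (max m2 m3), fun m hm => ?_⟩
  have hr := hm1 m (le_trans (le_max_left _ _) hm)
  have hf := hm2 m (le_trans ((le_max_left _ _).trans (le_max_right _ _)) hm)
  have ht := hm3 m (le_trans ((le_max_right _ _).trans (le_max_right _ _)) hm)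
  set a : ℕ := Set.ncard {T : Fin (m+1) → Fin k → Fin (m+1) | RA.Acc T 0} with ha
  have ha0 : 0 < a := acc_pos k m hk
  set b : ℕ := (MinAut (Fin k) m).ncard with hb
  have hf' : a * 2 ^ (m + 1) ≤ 3 * b := hf
  have hb0 : 0 < b := by
    by_contra h
    have h0 : b = 0 := by omega
    rw [h0] at hf'
    have : 0 < a * 2 ^ (m + 1) := by positivity
    omega
  letI : Fintype ↥(MinAut (Fin k) m) := Fintype.ofFinite _
  have hE := E_mul (Fin k) m
  rw [← hb] at hE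
  set N : ℝ := (m : ℝ) + 1 with hN
  have hN0 : 0 < N := by positivity
  set M := (MinAut (Fin k) m).toFinset with hM
  have hMcard : (M.card : ℝ) = b := by
    rw [hM, hb, Set.ncard_eq_toFinset_card']
  set S : Finset ((Fin (m+1) → Fin k → Fin (m+1)) × (Fin (m+1) → Bool)) :=
    Finset.univ.filter (fun x => RA.Acc x.1 0) with hS
  have hMS : M ⊆ S := by
    intro x hx
    rw [hM, Set.mem_toFinset] at hx
    rw [hS, Finset.mem_filter]
    exact ⟨Finset.mem_univ _, hx.1⟩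
  -- pointwise bound
  have hpt : ∀ x y : (Fin (m+1) → Fin k → Fin (m+1)) × (Fin (m+1) → Bool),
      |(sc (lang x ⊓ lang y) : ℝ) - c * N ^ 2| ≤ |((Reach x.1 y.1).ncard : ℝ) - c * N ^ 2| +
        (Set.ncard {z : Fin (m+1) × Fin (m+1) | Tw x y z.1 z.2} : ℝ) := by
    intro x y
    have h1 : (sc (lang x ⊓ lang y) : ℝ) ≤ (Reach x.1 y.1).ncard := by
      exact_mod_cast sc_le_reach x y
    have h2 : ((Reach x.1 y.1).ncard : ℝ) ≤ sc (lang x ⊓ lang y) +
        (Set.ncard {z : Fin (m+1) × Fin (m+1) | Tw x y z.1 z.2} : ℝ) := by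
      exact_mod_cast reach_le_sc x y
    have h3 : (sc (lang x ⊓ lang y) : ℝ) - c * N ^ 2 = (((Reach x.1 y.1).ncard : ℝ) - c * N ^ 2) +
        ((sc (lang x ⊓ lang y) : ℝ) - (Reach x.1 y.1).ncard) := by ring
    rw [h3]
    refine (abs_add_le _ _).trans ?_
    gcongr
    rw [abs_le]
    constructor <;> linarith
  -- first sum
  have hSprod : S = (Finset.univ.filter (fun T : Fin (m+1) → Fin k → Fin (m+1) => RA.Acc T 0)) ×ˢ
      (Finset.univ : Finset (Fin (m+1) → Bool)) := by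
    ext x
    rw [hS, Finset.mem_filter, Finset.mem_product, Finset.mem_filter]
    simp
  have hsum1 : ∀ g : (Fin (m+1) → Fin k → Fin (m+1)) → ℝ, ∑ x ∈ S, g x.1 =
      2 ^ (m + 1) * ∑ T ∈ Finset.univ.filter (fun T : Fin (m+1) → Fin k → Fin (m+1) => RA.Acc T 0),
        g T := by
    intro g
    rw [hSprod, Finset.sum_product, Finset.mul_sum]
    refine Finset.sum_congr rfl fun T _ => ?_
    simp
  have hA : ∑ x ∈ S, ∑ y ∈ S, |((Reach x.1 y.1).ncard : ℝ) - c * N ^ 2| ≤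
      ε * N ^ 2 * ((a : ℝ) * 2 ^ (m + 1)) ^ 2 := by
    have h1 : ∀ x ∈ S, ∑ y ∈ S, |((Reach x.1 y.1).ncard : ℝ) - c * N ^ 2| =
        2 ^ (m + 1) * ∑ T' ∈ Finset.univ.filter
          (fun T : Fin (m+1) → Fin k → Fin (m+1) => RA.Acc T 0),
          |((Reach x.1 T').ncard : ℝ) - c * N ^ 2| := fun x _ =>
      hsum1 (fun T' => |((Reach x.1 T').ncard : ℝ) - c * N ^ 2|)
    rw [Finset.sum_congr rfl h1]
    rw [hsum1 (fun T => 2 ^ (m + 1) * ∑ T' ∈ Finset.univ.filter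
          (fun T : Fin (m+1) → Fin k → Fin (m+1) => RA.Acc T 0),
          |((Reach T T').ncard : ℝ) - c * N ^ 2|)]
    rw [← Finset.mul_sum]
    calc (2 : ℝ) ^ (m + 1) * (2 ^ (m + 1) * _) ≤ 2 ^ (m + 1) * (2 ^ (m + 1) * (ε * N ^ 2 * (a : ℝ) ^ 2)) := by
          gcongr
      _ = _ := by ring
  have hB : ∑ x ∈ S, ∑ y ∈ S, (Set.ncard {z : Fin (m+1) × Fin (m+1) | Tw x y z.1 z.2} : ℝ) ≤
      ε * N ^ 2 * ((a : ℝ) * 2 ^ (m + 1)) ^ 2 := by
    refine le_trans (le_of_eq ?_) ht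
    have e1 : ∀ x y : (Fin (m+1) → Fin k → Fin (m+1)) × (Fin (m+1) → Bool),
        (Set.ncard {z : Fin (m+1) × Fin (m+1) | Tw x y z.1 z.2} : ℝ) =
        ∑ z : Fin (m+1) × Fin (m+1), if Tw x y z.1 z.2 then (1 : ℝ) else 0 := by
      intro x y
      rw [Set.ncard_eq_toFinset_card', Finset.sum_boole]
      congr 2
      ext z; simp
    have e2 : (Set.ncard {P : (((Fin (m+1) → Fin k → Fin (m+1)) × (Fin (m+1) → Bool)) ×
          ((Fin (m+1) → Fin k → Fin (m+1)) × (Fin (m+1) → Bool))) × (Fin (m+1) × Fin (m+1)) |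
        RA.Acc P.1.1.1 0 ∧ RA.Acc P.1.2.1 0 ∧ Tw P.1.1 P.1.2 P.2.1 P.2.2} : ℝ) =
        ∑ P : (((Fin (m+1) → Fin k → Fin (m+1)) × (Fin (m+1) → Bool)) ×
          ((Fin (m+1) → Fin k → Fin (m+1)) × (Fin (m+1) → Bool))) × (Fin (m+1) × Fin (m+1)),
          if (RA.Acc P.1.1.1 0 ∧ RA.Acc P.1.2.1 0 ∧ Tw P.1.1 P.1.2 P.2.1 P.2.2) then (1 : ℝ) else 0 := by
      rw [Set.ncard_eq_toFinset_card', Finset.sum_boole]
      congr 2
      ext z; simp
    rw [e2, Fintype.sum_prod_type, Fintype.sum_prod_type, hS, Finset.sum_filter]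
    refine Finset.sum_congr rfl fun x _ => ?_
    split_ifs with hx
    · rw [Finset.sum_filter]
      refine Finset.sum_congr rfl fun y _ => ?_
      split_ifs with hy
      · rw [e1]
        refine Finset.sum_congr rfl fun z _ => ?_
        simp [hx, hy]
      · simp [hy]
    · simp [hx]
  have htot : |E (Fin k) (m + 1) * (b : ℝ) ^ 2 - c * N ^ 2 * (b : ℝ) ^ 2| ≤
      2 * (ε * N ^ 2 * ((a : ℝ) * 2 ^ (m + 1)) ^ 2) := by
    have h1 : E (Fin k) (m + 1) * (b : ℝ) ^ 2 - c * N ^ 2 * (b : ℝ) ^ 2 =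
        ∑ x ∈ M, ∑ y ∈ M, ((sc (lang x ⊓ lang y) : ℝ) - c * N ^ 2) := by
      rw [hE]
      simp only [Finset.sum_sub_distrib, Finset.sum_const, nsmul_eq_mul]
      rw [hMcard]
      ring
    rw [h1]
    have h0 : ∀ x y : (Fin (m+1) → Fin k → Fin (m+1)) × (Fin (m+1) → Bool),
      0 ≤ |((Reach x.1 y.1).ncard : ℝ) - c * N ^ 2| +
        (Set.ncard {z : Fin (m+1) × Fin (m+1) | Tw x y z.1 z.2} : ℝ) := fun x y => by positivity
    calc |∑ x ∈ M, ∑ y ∈ M, ((sc (lang x ⊓ lang y) : ℝ) - c * N ^ 2)|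
        ≤ ∑ x ∈ M, ∑ y ∈ M, |(sc (lang x ⊓ lang y) : ℝ) - c * N ^ 2| := by
          refine (Finset.abs_sum_le_sum_abs _ _).trans ?_
          exact Finset.sum_le_sum fun x _ => Finset.abs_sum_le_sum_abs _ _
      _ ≤ ∑ x ∈ M, ∑ y ∈ M, (|((Reach x.1 y.1).ncard : ℝ) - c * N ^ 2| +
        (Set.ncard {z : Fin (m+1) × Fin (m+1) | Tw x y z.1 z.2} : ℝ)) :=
          Finset.sum_le_sum fun x _ => Finset.sum_le_sum fun y _ => hpt x y
      _ ≤ ∑ x ∈ M, ∑ y ∈ S, (|((Reach x.1 y.1).ncard : ℝ) - c * N ^ 2| +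
        (Set.ncard {z : Fin (m+1) × Fin (m+1) | Tw x y z.1 z.2} : ℝ)) :=
          Finset.sum_le_sum fun x _ => Finset.sum_le_sum_of_subset_of_nonneg hMS
            fun y _ _ => h0 x y
      _ ≤ ∑ x ∈ S, ∑ y ∈ S, (|((Reach x.1 y.1).ncard : ℝ) - c * N ^ 2| +
        (Set.ncard {z : Fin (m+1) × Fin (m+1) | Tw x y z.1 z.2} : ℝ)) :=
          Finset.sum_le_sum_of_subset_of_nonneg hMS
            fun x _ _ => Finset.sum_nonneg fun y _ => h0 x y
      _ = ∑ x ∈ S, ∑ y ∈ S, |((Reach x.1 y.1).ncard : ℝ) - c * N ^ 2| +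
          ∑ x ∈ S, ∑ y ∈ S, (Set.ncard {z : Fin (m+1) × Fin (m+1) | Tw x y z.1 z.2} : ℝ) := by
          rw [← Finset.sum_add_distrib]
          refine Finset.sum_congr rfl fun x _ => ?_
          rw [← Finset.sum_add_distrib]
      _ ≤ _ := by linarith
  have hfin : ((a : ℝ) * 2 ^ (m + 1)) ^ 2 ≤ 9 * (b : ℝ) ^ 2 := by
    have h1 : (a : ℝ) * 2 ^ (m + 1) ≤ 3 * b := by exact_mod_cast hf'
    have h2 : 0 ≤ (a : ℝ) * 2 ^ (m + 1) := by positivity
    nlinarith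
  have hb0' : (0 : ℝ) < b := by exact_mod_cast hb0
  have hmain : |E (Fin k) (m + 1) - c * N ^ 2| * (b : ℝ) ^ 2 ≤ 18 * ε * N ^ 2 * (b : ℝ) ^ 2 := by
    have h1 : |E (Fin k) (m + 1) - c * N ^ 2| * (b : ℝ) ^ 2 =
        |E (Fin k) (m + 1) * (b : ℝ) ^ 2 - c * N ^ 2 * (b : ℝ) ^ 2| := by
      rw [← sub_mul, abs_mul, abs_of_nonneg (by positivity : (0 : ℝ) ≤ (b : ℝ) ^ 2)]
    rw [h1]
    refine htot.trans ?_
    have : ε * N ^ 2 * ((a : ℝ) * 2 ^ (m + 1)) ^ 2 ≤ ε * N ^ 2 * (9 * (b : ℝ) ^ 2) := by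
      gcongr
    linarith
  have hmain2 : |E (Fin k) (m + 1) - c * N ^ 2| ≤ 18 * ε * N ^ 2 :=
    le_of_mul_le_mul_right hmain (by positivity)
  rw [Real.dist_eq]
  have h2 : E (Fin k) (m + 1) / N ^ 2 - c = (E (Fin k) (m + 1) - c * N ^ 2) / N ^ 2 := by
    field_simp
  rw [h2, abs_div, abs_of_pos (by positivity : (0 : ℝ) < N ^ 2)]
  rw [div_lt_iff₀ (by positivity)]
  refine lt_of_le_of_lt hmain2 ?_
  have : 18 * ε < δ := by rw [hε]; linarith
  have hN2 : 0 < N ^ 2 := by positivity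
  nlinarith
end AS
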