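import Pool.Agent.Helper513.AS.Defs

set_option autoImplicit false

namespace AS
open Finset RA
theorem mem_inl {n k : ℕ} (T : Fin n → Fin k → Fin n) (s : Fin n) (c : Fin n × Fin k) :
    c ∈ inl T s ↔ T c.1 c.2 = s := by
  unfold inl
  rw [List.mem_filter]
  constructor
  · rintro ⟨-, h⟩
    simpa using h
  · intro h
    refine ⟨?_, by simpa using h⟩
    exact List.mem_product.2 ⟨List.mem_finRange _, List.mem_finRange _⟩

theorem cnt_ball_pos {n k : ℕ} (T : Fin n → Fin k → Fin n) (m : ℕ) (p : Fin n)
    (v : List (Fin k)) :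
    0 < cnt m (ball T m p) v ↔ v.length = m ∧ ∃ x, run T x v.reverse = p := by
  induction m generalizing p v with
  | zero =>
    cases v with
    | nil => simp [cnt, run]
    | cons a v => simp [cnt]
  | succ m ih =>
    cases v with
    | nil => simp [cnt]
    | cons a v =>
      have h1 : cnt (m + 1) (ball T (m + 1) p) (a :: v) =
          (List.map (fun c : Fin n × Fin k => if c.2 = a then cnt m (ball T m c.1) v else 0)
            (inl T p)).sum := by
        show (List.map (fun c : Fin k × Tr k m => if c.1 = a then cnt m c.2 v else 0)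
          (List.map (fun c : Fin n × Fin k => (c.2, ball T m c.1)) (inl T p))).sum = _
        rw [List.map_map]
        rfl
      rw [h1, Nat.pos_iff_ne_zero]
      have h2 : (List.map (fun c : Fin n × Fin k => if c.2 = a then cnt m (ball T m c.1) v else 0)
            (inl T p)).sum ≠ 0 ↔ ∃ c ∈ inl T p, c.2 = a ∧ 0 < cnt m (ball T m c.1) v := by
        rw [Ne, List.sum_eq_zero_iff]
        constructor
        · intro h
          by_contra hcon
          apply h
          intro x hx
          obtain ⟨c, hc, rfl⟩ := List.mem_map.1 hx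
          by_cases hca : c.2 = a
          · have h3 : ¬ 0 < cnt m (ball T m c.1) v := fun h4 => hcon ⟨c, hc, hca, h4⟩
            rw [if_pos hca]
            omega
          · rw [if_neg hca]
        · rintro ⟨c, hc, hca, hpos⟩ h
          have h3 := h _ (List.mem_map.2 ⟨c, hc, rfl⟩)
          rw [if_pos hca] at h3
          omega
      rw [h2]
      constructor
      · rintro ⟨c, hc, hca, hpos⟩
        obtain ⟨h3, x, hx⟩ := (ih c.1 v).1 hpos
        refine ⟨by simp [h3], x, ?_⟩
        rw [List.reverse_cons, run, List.foldl_append]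
        unfold run at hx
        rw [hx, ← hca]
        exact (mem_inl T p c).1 hc
      · rintro ⟨h3, x, hx⟩
        rw [List.reverse_cons, run, List.foldl_append] at hx
        refine ⟨(run T x v.reverse, a), ?_, rfl, ?_⟩
        · rw [mem_inl]
          exact hx
        · refine (ih _ v).2 ⟨by simpa using h3, x, rfl⟩

theorem trunc_ball {n k : ℕ} (T : Fin n → Fin k → Fin n) (s m : ℕ) (p : Fin n) :
    trunc m (ball T (s + m) p) = ball T m p := by
  induction m generalizing p with
  | zero => rfl
  | succ m ih =>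
    show List.map (fun c : Fin k × Tr k (s + m) => (c.1, trunc m c.2))
      (List.map (fun c : Fin n × Fin k => (c.2, ball T (s + m) c.1)) (inl T p)) =
      List.map (fun c : Fin n × Fin k => (c.2, ball T m c.1)) (inl T p)
    rw [List.map_map]
    refine List.map_congr_left (fun c _ => ?_)
    simp [ih]

theorem self_mem_bst {n k : ℕ} (T : Fin n → Fin k → Fin n) (m : ℕ) (p : Fin n) :
    p ∈ bst T m p := by
  cases m with
  | zero => simp [bst]
  | succ m => simp [bst]

theorem inl_nodup {n k : ℕ} (T : Fin n → Fin k → Fin n) (s : Fin n) : (inl T s).Nodup := by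
  unfold inl
  exact ((List.nodup_finRange n).product (List.nodup_finRange k)).filter _

theorem ball_props {n k : ℕ} (T : Fin n → Fin k → Fin n) (m : ℕ) (p : Fin n) :
    bK T m p ⊆ bst T m p ∧ (∀ c ∈ bX T m p, c.1 ∈ bst T m p) ∧
      (∀ c ∈ bX T m p, T c.1 c.2 ∈ bK T m p) ∧ (∀ c, T c.1 c.2 ∈ bK T m p → c ∈ bX T m p) ∧
      (bst T m p).card ≤ nn m (ball T m p) := by
  induction m generalizing p with
  | zero =>
    refine ⟨by simp [bK], by simp [bX], by simp [bX], by simp [bK], ?_⟩
    simp [bst, nn]
  | succ m ih =>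
    refine ⟨?_, ?_, ?_, ?_, ?_⟩
    · intro x hx
      simp only [bK, bst, mem_insert, mem_biUnion] at hx ⊢
      rcases hx with hx | ⟨c, hc, hx⟩
      · exact Or.inl hx
      · exact Or.inr ⟨c, hc, (ih c.1).1 hx⟩
    · intro c hc
      simp only [bX, bst, mem_union, mem_insert, mem_biUnion] at hc ⊢
      rcases hc with hc | ⟨c', hc', hc⟩
      · exact Or.inr ⟨c, hc, self_mem_bst T m c.1⟩
      · exact Or.inr ⟨c', hc', (ih c'.1).2.1 c hc⟩
    · intro c hc
      simp only [bX, bK, mem_union, mem_insert, mem_biUnion] at hc ⊢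
      rcases hc with hc | ⟨c', hc', hc⟩
      · exact Or.inl ((mem_inl T p c).1 (List.mem_toFinset.1 hc))
      · exact Or.inr ⟨c', hc', (ih c'.1).2.2.1 c hc⟩
    · intro c hc
      simp only [bX, bK, mem_union, mem_insert, mem_biUnion] at hc ⊢
      rcases hc with hc | ⟨c', hc', hc⟩
      · exact Or.inl (List.mem_toFinset.2 ((mem_inl T p c).2 hc))
      · exact Or.inr ⟨c', hc', (ih c'.1).2.2.2.1 c hc⟩
    · have h1 : nn (m + 1) (ball T (m + 1) p) =
          1 + (List.map (fun c : Fin n × Fin k => nn m (ball T m c.1)) (inl T p)).sum := by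
        show 1 + (List.map (fun c : Fin k × Tr k m => nn m c.2)
          (List.map (fun c : Fin n × Fin k => (c.2, ball T m c.1)) (inl T p))).sum = _
        rw [List.map_map]
        rfl
      rw [h1, ← List.sum_toFinset _ (inl_nodup T p)]
      show (insert p ((inl T p).toFinset.biUnion (fun c => bst T m c.1))).card ≤ _
      refine (card_insert_le _ _).trans ?_
      rw [add_comm]
      refine Nat.add_le_add_left ?_ 1
      refine card_biUnion_le.trans (sum_le_sum (fun c _ => (ih c.1).2.2.2.2))

theorem mem_Om_iff {V : Type} [Fintype V] {k : ℕ} (T0 : V → Fin k → V)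
    (X : Finset (V × Fin k)) (K R : Finset V) (T : V → Fin k → V) :
    T ∈ Om T0 X K R ↔ (∀ c ∈ X, T c.1 c.2 = T0 c.1 c.2) ∧ (∀ c, c ∉ X → T c.1 c.2 ∉ K) ∧
      ∀ r ∈ R, ∃ c, c ∉ X ∧ T c.1 c.2 = r := by
  unfold Om
  simp only [Finset.mem_filter, Finset.mem_univ, true_and]

theorem ball_class {n k : ℕ} (T0 T : Fin n → Fin k → Fin n) (o p : Fin n) (m : ℕ)
    (hT : T ∈ Om T0 ∅ ∅ (Finset.univ.erase o)) (ho : o ∉ bst T m p) :
    T ∈ Om T (bX T m p) (bK T m p) ((Finset.univ \ bK T m p).erase o) ∧
    ∀ T' ∈ Om T (bX T m p) (bK T m p) ((Finset.univ \ bK T m p).erase o),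
      T' ∈ Om T0 ∅ ∅ (Finset.univ.erase o) ∧ ball T' m p = ball T m p ∧
      bst T' m p = bst T m p ∧ bX T' m p = bX T m p ∧ bK T' m p = bK T m p := by
  obtain ⟨-, -, hp3, hp4, -⟩ := ball_props T m p
  have hcov : ∀ r, r ≠ o → ∃ c : Fin n × Fin k, T c.1 c.2 = r := by
    intro r hr
    have h1 := ((mem_Om_iff _ _ _ _ _).1 hT).2.2 r (mem_erase.2 ⟨hr, mem_univ _⟩)
    obtain ⟨c, -, hc⟩ := h1
    exact ⟨c, hc⟩
  constructor
  · refine (mem_Om_iff _ _ _ _ _).2 ⟨fun c _ => rfl, fun c hc h => hc (hp4 c h), ?_⟩
    intro r hr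
    obtain ⟨hro, hr2⟩ := mem_erase.1 hr
    obtain ⟨-, hrK⟩ := mem_sdiff.1 hr2
    obtain ⟨c, hc⟩ := hcov r hro
    refine ⟨c, fun hcX => hrK ?_, hc⟩
    rw [← hc]
    exact hp3 c hcX
  · intro T' hT'
    obtain ⟨ha, hb, hc⟩ := (mem_Om_iff _ _ _ _ _).1 hT'
    have hinl : ∀ s ∈ bK T m p, inl T' s = inl T s := by
      intro s hs
      unfold inl
      refine List.filter_congr (fun c _ => ?_)
      by_cases hcX : c ∈ bX T m p
      · rw [ha c hcX]
      · have h1 : T' c.1 c.2 ≠ s := by
          rintro rfl
          exact hb c hcX hs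
        have h2 : T c.1 c.2 ≠ s := by
          rintro rfl
          exact hcX (hp4 c hs)
        simp [h1, h2]
    have key : ∀ (j : ℕ) (s : Fin n), bK T j s ⊆ bK T m p →
        ball T' j s = ball T j s ∧ bst T' j s = bst T j s ∧ bX T' j s = bX T j s ∧
          bK T' j s = bK T j s := by
      intro j
      induction j with
      | zero =>
        intro s _
        exact ⟨rfl, rfl, rfl, rfl⟩
      | succ j ih =>
        intro s hs
        have hsK : s ∈ bK T m p := hs (by simp [bK])
        have hin := hinl s hsK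
        have hsub : ∀ c ∈ inl T s, bK T j c.1 ⊆ bK T m p := by
          intro c hcs x hx
          apply hs
          simp only [bK, mem_insert, mem_biUnion]
          exact Or.inr ⟨c, List.mem_toFinset.2 hcs, hx⟩
        refine ⟨?_, ?_, ?_, ?_⟩
        · show List.map (fun c : Fin n × Fin k => (c.2, ball T' j c.1)) (inl T' s) =
            List.map (fun c : Fin n × Fin k => (c.2, ball T j c.1)) (inl T s)
          rw [hin]
          refine List.map_congr_left (fun c hcs => ?_)
          rw [(ih c.1 (hsub c hcs)).1]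
        · show insert s ((inl T' s).toFinset.biUnion (fun c => bst T' j c.1)) =
            insert s ((inl T s).toFinset.biUnion (fun c => bst T j c.1))
          rw [hin]
          congr 1
          refine biUnion_congr rfl (fun c hcs => ?_)
          exact (ih c.1 (hsub c (List.mem_toFinset.1 hcs))).2.1
        · show (inl T' s).toFinset ∪ ((inl T' s).toFinset.biUnion (fun c => bX T' j c.1)) =
            (inl T s).toFinset ∪ ((inl T s).toFinset.biUnion (fun c => bX T j c.1))
          rw [hin]
          congr 1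
          refine biUnion_congr rfl (fun c hcs => ?_)
          exact (ih c.1 (hsub c (List.mem_toFinset.1 hcs))).2.2.1
        · show insert s ((inl T' s).toFinset.biUnion (fun c => bK T' j c.1)) =
            insert s ((inl T s).toFinset.biUnion (fun c => bK T j c.1))
          rw [hin]
          congr 1
          refine biUnion_congr rfl (fun c hcs => ?_)
          exact (ih c.1 (hsub c (List.mem_toFinset.1 hcs))).2.2.2
    refine ⟨?_, key m p (Finset.Subset.refl _)⟩
    refine (mem_Om_iff _ _ _ _ _).2 ⟨fun c hc => absurd hc (notMem_empty _),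
      fun c _ => notMem_empty _, ?_⟩
    intro r hr
    obtain ⟨hro, -⟩ := mem_erase.1 hr
    by_cases hrK : r ∈ bK T m p
    · obtain ⟨c, hcr⟩ := hcov r hro
      refine ⟨c, notMem_empty _, ?_⟩
      rw [ha c (hp4 c (by rw [hcr]; exact hrK)), hcr]
    · obtain ⟨c, -, hcr⟩ := hc r (mem_erase.2 ⟨hro, mem_sdiff.2 ⟨mem_univ _, hrK⟩⟩)
      exact ⟨c, notMem_empty _, hcr⟩
end AS
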