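import Pool.Agent.Helper513.AS.HA

set_option autoImplicit false

namespace AS
open Finset RA


theorem inl_nodup' {n k : ℕ} (T : Fin n → Fin k → Fin n) (s : Fin n) : (inl T s).Nodup :=
  List.Nodup.filter _ (List.Nodup.product (List.nodup_finRange n) (List.nodup_finRange k))

theorem nn_ball' {n k : ℕ} (T : Fin n → Fin k → Fin n) (m : ℕ) (p : Fin n) :
    nn (m + 1) (ball T (m + 1) p) =
      1 + ∑ c ∈ (inl T p).toFinset, nn m (ball T m c.1) := by
  rw [List.sum_toFinset _ (inl_nodup' T p)]
  show 1 + (List.map (fun c : Fin k × Tr k m => nn m c.2)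
    (List.map (fun c : Fin n × Fin k => (c.2, ball T m c.1)) (inl T p))).sum = _
  rw [List.map_map]
  rfl

theorem cnt_ball' {n k : ℕ} (T : Fin n → Fin k → Fin n) (m : ℕ) (p : Fin n) (a : Fin k)
    (v : List (Fin k)) :
    cnt (m + 1) (ball T (m + 1) p) (a :: v) =
      ∑ c ∈ (inl T p).toFinset, if c.2 = a then cnt m (ball T m c.1) v else 0 := by
  rw [List.sum_toFinset _ (inl_nodup' T p)]
  show (List.map (fun c : Fin k × Tr k m => if c.1 = a then cnt m c.2 v else 0)
    (List.map (fun c : Fin n × Fin k => (c.2, ball T m c.1)) (inl T p))).sum = _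
  rw [List.map_map]
  rfl

theorem tight' {α β : Type} [DecidableEq α] [DecidableEq β] (C : Finset β) (B : β → Finset α)
    (g : β → ℕ) (p : α) (hg : ∀ c ∈ C, (B c).card ≤ g c)
    (h : (insert p (C.biUnion B)).card = 1 + ∑ c ∈ C, g c) :
    p ∉ C.biUnion B ∧ (∀ c ∈ C, (B c).card = g c) ∧
      ∀ c ∈ C, ∀ c' ∈ C, c ≠ c' → Disjoint (B c) (B c') := by
  have h1 : (insert p (C.biUnion B)).card ≤ (C.biUnion B).card + 1 := Finset.card_insert_le _ _
  have h2 : (C.biUnion B).card ≤ ∑ c ∈ C, (B c).card := Finset.card_biUnion_le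
  have h3 : ∑ c ∈ C, (B c).card ≤ ∑ c ∈ C, g c := Finset.sum_le_sum hg
  have e3 : ∑ c ∈ C, (B c).card = ∑ c ∈ C, g c := by omega
  have e2 : (C.biUnion B).card = ∑ c ∈ C, (B c).card := by omega
  refine ⟨?_, ?_, ?_⟩
  · intro hp
    rw [Finset.insert_eq_of_mem hp] at h
    omega
  · exact (Finset.sum_eq_sum_iff_of_le hg).1 e3
  · intro c hc c' hc' hne
    rw [Finset.disjoint_left]
    intro x hx hx'
    have hsub : C.biUnion B ⊆ (C.erase c).biUnion B ∪ (B c).erase x := by
      intro y hy
      obtain ⟨d, hd, hyd⟩ := Finset.mem_biUnion.1 hy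
      rw [Finset.mem_union]
      by_cases hdc : d = c
      · subst hdc
        by_cases hyx : y = x
        · subst hyx
          left
          exact Finset.mem_biUnion.2 ⟨c', Finset.mem_erase.2 ⟨hne.symm, hc'⟩, hx'⟩
        · right
          exact Finset.mem_erase.2 ⟨hyx, hyd⟩
      · left
        exact Finset.mem_biUnion.2 ⟨d, Finset.mem_erase.2 ⟨hdc, hd⟩, hyd⟩
    have k1 := Finset.card_le_card hsub
    have k2 := Finset.card_union_le ((C.erase c).biUnion B) ((B c).erase x)
    have k3 : ((C.erase c).biUnion B).card ≤ ∑ d ∈ C.erase c, (B d).card :=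
      Finset.card_biUnion_le
    have k4 := Finset.card_erase_of_mem hx
    have k5 : 0 < (B c).card := Finset.card_pos.2 ⟨x, hx⟩
    have k6 : (B c).card + ∑ d ∈ C.erase c, (B d).card = ∑ d ∈ C, (B d).card :=
      Finset.add_sum_erase C (fun d => (B d).card) hc
    omega

theorem mem_wd' {k : ℕ} : ∀ (m : ℕ) (v : List (Fin k)), v ∈ wd k m → v.length = m
  | 0, v, h => by
    simp only [wd, Finset.mem_singleton] at h
    rw [h]
    rfl
  | m + 1, v, h => by
    simp only [wd, Finset.mem_image, Finset.mem_product] at h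
    obtain ⟨q, ⟨_, hq⟩, rfl⟩ := h
    rw [List.length_cons, mem_wd' m q.2 hq]

theorem enum' {n : ℕ} {ι : Type} (Lf : ι → Finset (Fin n)) (g : ι → ℕ)
    (hg : ∀ v, g v ≤ (Lf v).card) :
    ∃ e : (v : ι) → Fin (g v) → Fin n, (∀ v, Function.Injective (e v)) ∧
      ∀ v i, e v i ∈ Lf v := by
  refine ⟨fun v i => ((Lf v).equivFin.symm (Fin.castLE (hg v) i) : Fin n), ?_, ?_⟩
  · intro v i j hij
    have h1 : (Lf v).equivFin.symm (Fin.castLE (hg v) i) =
        (Lf v).equivFin.symm (Fin.castLE (hg v) j) := Subtype.ext hij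
    exact Fin.castLE_injective (hg v) ((Lf v).equivFin.symm.injective h1)
  · intro v i
    exact ((Lf v).equivFin.symm (Fin.castLE (hg v) i)).2

/-- in a genuine tree the vertices of depth `m` with word `v` are different open states -/
theorem leaves {n k : ℕ} (T : Fin n → Fin k → Fin n) (m : ℕ) (p : Fin n)
    (h : (bst T m p).card = nn m (ball T m p)) :
    ∃ Lf : List (Fin k) → Finset (Fin n),
      (∀ v, (Lf v).card = cnt m (ball T m p) v) ∧
      (∀ v v', v ≠ v' → Disjoint (Lf v) (Lf v')) ∧
      (∀ v, ∀ x ∈ Lf v, x ∈ bst T m p ∧ x ∉ bK T m p ∧ run T x v.reverse = p) := by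
  classical
  induction m generalizing p with
  | zero =>
    refine ⟨fun v => if v = [] then {p} else ∅, ?_, ?_, ?_⟩
    · intro v
      cases v with
      | nil => simp [cnt]
      | cons a v => simp [cnt]
    · intro v v' hne
      by_cases h1 : v = []
      · have h2 : v' ≠ [] := fun h2 => hne (h1.trans h2.symm)
        simp [h2]
      · simp [h1]
    · intro v x hx
      by_cases h1 : v = []
      · simp only [h1, if_true, Finset.mem_singleton] at hx
        subst hx
        subst h1
        simp [bst, bK, run]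
      · simp [h1] at hx
  | succ m ih =>
    rw [nn_ball'] at h
    obtain ⟨hp, hcard, hdis⟩ := tight' (inl T p).toFinset (fun c => bst T m c.1)
      (fun c => nn m (ball T m c.1)) p (fun c _ => (ball_props T m c.1).2.2.2.2) h
    have IH : ∀ c : Fin n × Fin k, ∃ Lf : List (Fin k) → Finset (Fin n),
        c ∈ (inl T p).toFinset → (∀ v, (Lf v).card = cnt m (ball T m c.1) v) ∧
        (∀ v v', v ≠ v' → Disjoint (Lf v) (Lf v')) ∧
        (∀ v, ∀ x ∈ Lf v, x ∈ bst T m c.1 ∧ x ∉ bK T m c.1 ∧ run T x v.reverse = c.1) := by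
      intro c
      by_cases hc : c ∈ (inl T p).toFinset
      · obtain ⟨Lf, hLf⟩ := ih c.1 (hcard c hc)
        exact ⟨Lf, fun _ => hLf⟩
      · exact ⟨fun _ => ∅, fun h0 => absurd h0 hc⟩
    choose G hG using IH
    set C := (inl T p).toFinset with hC
    let Lf : List (Fin k) → Finset (Fin n) := fun w => match w with
      | [] => ∅
      | a :: v => (C.filter (fun c => c.2 = a)).biUnion (fun c => G c v)
    have Lf_cons : ∀ a v, Lf (a :: v) = (C.filter (fun c => c.2 = a)).biUnion (fun c => G c v) :=
      fun a v => rfl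
    have mem_Lf : ∀ a v x, x ∈ Lf (a :: v) → ∃ c ∈ C, c.2 = a ∧ x ∈ G c v := by
      intro a v x hx
      rw [Lf_cons] at hx
      obtain ⟨c, hc, hxc⟩ := Finset.mem_biUnion.1 hx
      rw [Finset.mem_filter] at hc
      exact ⟨c, hc.1, hc.2, hxc⟩
    have Gsub : ∀ c ∈ C, ∀ v, ∀ x ∈ G c v, x ∈ bst T m c.1 := fun c hc v x hx =>
      ((hG c hc).2.2 v x hx).1
    refine ⟨Lf, ?_, ?_, ?_⟩
    · intro v
      cases v with
      | nil => rfl
      | cons a v =>
        rw [Lf_cons, cnt_ball', Finset.card_biUnion, Finset.sum_filter]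
        · apply Finset.sum_congr rfl
          intro c hc
          by_cases hca : c.2 = a
          · rw [if_pos hca, if_pos hca, (hG c hc).1 v]
          · rw [if_neg hca, if_neg hca]
        · intro c hc c' hc' hne
          rw [Finset.mem_coe, Finset.mem_filter] at hc hc'
          have hd := hdis c hc.1 c' hc'.1 hne
          show Disjoint (G c v) (G c' v)
          rw [Finset.disjoint_left] at hd ⊢
          intro x hx hx'
          exact hd (Gsub c hc.1 v x hx) (Gsub c' hc'.1 v x hx')
    · intro v v' hne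
      cases v with
      | nil => exact Finset.disjoint_empty_left _
      | cons a v =>
        cases v' with
        | nil => exact Finset.disjoint_empty_right _
        | cons a' v' =>
          rw [Finset.disjoint_left]
          intro x hx hx'
          obtain ⟨c, hc, hca, hxc⟩ := mem_Lf a v x hx
          obtain ⟨c', hc', hca', hxc'⟩ := mem_Lf a' v' x hx'
          by_cases hcc : c = c'
          · subst hcc
            have hvv : v ≠ v' := by
              rintro rfl
              exact hne (by rw [← hca, ← hca'])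
            exact Finset.disjoint_left.1 ((hG c hc).2.1 v v' hvv) hxc hxc'
          · exact Finset.disjoint_left.1 (hdis c hc c' hc' hcc) (Gsub c hc v x hxc)
              (Gsub c' hc' v' x hxc')
    · intro v x hx
      cases v with
      | nil => exact absurd hx (Finset.notMem_empty x)
      | cons a v =>
        obtain ⟨c, hc, hca, hxc⟩ := mem_Lf a v x hx
        obtain ⟨h1, h2, h3⟩ := (hG c hc).2.2 v x hxc
        refine ⟨?_, ?_, ?_⟩
        · show x ∈ insert p (C.biUnion (fun c => bst T m c.1))
          exact Finset.mem_insert_of_mem (Finset.mem_biUnion.2 ⟨c, hc, h1⟩)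
        · show x ∉ insert p (C.biUnion (fun c => bK T m c.1))
          rw [Finset.mem_insert]
          rintro (rfl | hx2)
          · exact hp (Finset.mem_biUnion.2 ⟨c, hc, h1⟩)
          · obtain ⟨c', hc', hxc'⟩ := Finset.mem_biUnion.1 hx2
            by_cases hcc : c = c'
            · subst hcc
              exact h2 hxc'
            · exact Finset.disjoint_left.1 (hdis c hc c' hc' hcc) h1
                ((ball_props T m c'.1).1 hxc')
        · have h4 : T c.1 c.2 = p := (mem_inl T p c).1 (List.mem_toFinset.1 hc)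
          rw [List.reverse_cons]
          unfold run at h3 ⊢
          rw [List.foldl_append, h3]
          show T c.1 a = p
          rw [← hca, h4]

theorem matched {n k : ℕ} (T T' : Fin n → Fin k → Fin n) (m M : ℕ) (p q : Fin n)
    (h : (bst T m p).card = nn m (ball T m p)) (h' : (bst T' m q).card = nn m (ball T' m q))
    (hM : M ≤ cm m (ball T m p, ball T' m q)) :
    ∃ (x y : Fin M → Fin n) (u : Fin M → List (Fin k)), Function.Injective x ∧
      Function.Injective y ∧ (∀ i, (u i).length = m) ∧
      (∀ i, x i ∈ bst T m p ∧ x i ∉ bK T m p ∧ run T (x i) (u i) = p) ∧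
      (∀ i, y i ∈ bst T' m q ∧ y i ∉ bK T' m q ∧ run T' (y i) (u i) = q) := by
  obtain ⟨Lf, a1, a2, a3⟩ := leaves T m p h
  obtain ⟨Lf', b1, b2, b3⟩ := leaves T' m q h'
  set g : List (Fin k) → ℕ := fun v => min (cnt m (ball T m p) v) (cnt m (ball T' m q) v) with hg
  obtain ⟨e, e1, e2⟩ := enum' Lf g (fun v => by rw [a1]; exact min_le_left _ _)
  obtain ⟨e', e1', e2'⟩ := enum' Lf' g (fun v => by rw [b1]; exact min_le_right _ _)
  have hcardS : Fintype.card (Σ v : {v // v ∈ wd k m}, Fin (g v.1)) =
      cm m (ball T m p, ball T' m q) := by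
    rw [Fintype.card_sigma]
    simp only [Fintype.card_fin]
    rw [Finset.sum_coe_sort (wd k m) g]
    rfl
  have hle : Fintype.card (Fin M) ≤ Fintype.card (Σ v : {v // v ∈ wd k m}, Fin (g v.1)) := by
    rw [Fintype.card_fin, hcardS]
    exact hM
  obtain ⟨φ⟩ := Function.Embedding.nonempty_of_card_le hle
  have inj : ∀ (ee : (v : List (Fin k)) → Fin (g v) → Fin n) (LL : List (Fin k) → Finset (Fin n)),
      (∀ v, Function.Injective (ee v)) → (∀ v i, ee v i ∈ LL v) →
      (∀ v v', v ≠ v' → Disjoint (LL v) (LL v')) →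
      Function.Injective (fun i : Fin M => ee (φ i).1.1 (φ i).2) := by
    intro ee LL h1 h2 h3 i j hij
    apply φ.injective
    simp only at hij
    generalize φ i = s at hij
    generalize φ j = t at hij
    obtain ⟨⟨v, hv⟩, s⟩ := s
    obtain ⟨⟨v', hv'⟩, t⟩ := t
    simp only at hij
    by_cases hvv : v = v'
    · subst hvv
      have := h1 v hij
      rw [this]
    · exact absurd (hij ▸ h2 v s) (Finset.disjoint_right.1 (h3 v v' hvv) (h2 v' t))
  refine ⟨fun i => e (φ i).1.1 (φ i).2, fun i => e' (φ i).1.1 (φ i).2,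
    fun i => (φ i).1.1.reverse, inj e Lf e1 e2 a2, inj e' Lf' e1' e2' b2, ?_, ?_, ?_⟩
  · intro i
    rw [List.length_reverse]
    exact mem_wd' m _ (φ i).1.2
  · intro i
    exact a3 _ _ (e2 _ _)
  · intro i
    exact b3 _ _ (e2' _ _)
end AS
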