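import Pool.Agent.Helper513.AS.L2
import Pool.Agent.Helper513.AS.D1

set_option autoImplicit false

namespace AS
open Finset Filter Topology



open Classical in
/-- probability of a set of trees -/
noncomputable def P1 (k : ℕ) (lam : ℝ) (m : ℕ) (S : Set (Tr k m)) : ℝ :=
  ∑' τ : Tr k m, if τ ∈ S then wt k lam m τ else 0

open Classical in
theorem tvA {α β : Type} (Ω : Finset α) (X : α → β) (w : β → ℝ) (hw : ∀ b, 0 ≤ w b)
    (hs : HasSum w 1) (δ : ℝ) (hδ : 0 < δ) (F : Finset β) (hF : 1 - δ ≤ ∑ b ∈ F, w b)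
    (G : β → Finset α) (hGs : ∀ b ∈ F, G b ⊆ Ω) (hGX : ∀ b ∈ F, ∀ T ∈ G b, X T = b)
    (hGc : ∀ b ∈ F, (w b - δ / (F.card + 1)) * (Ω.card : ℝ) ≤ ((G b).card : ℝ)) :
    (∀ S : Set β, ((Ω.filter (fun T => X T ∈ S)).card : ℝ) ≤
      ((∑' b, if b ∈ S then w b else 0) + 2 * δ) * (Ω.card : ℝ)) ∧
    (∀ Y : Finset α, Y ⊆ Ω → (∀ T ∈ Y, ¬ ∃ b ∈ F, T ∈ G b) →
      (Y.card : ℝ) ≤ 2 * δ * (Ω.card : ℝ)) := by
  have hη : 0 < δ / (F.card + 1 : ℝ) := by positivity
  have hηF : ∀ F' ⊆ F, (F'.card : ℝ) * (δ / (F.card + 1 : ℝ)) ≤ δ := by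
    intro F' hF'
    have h1 : (F'.card : ℝ) ≤ (F.card : ℝ) + 1 := by
      have := card_le_card hF'
      have h2 : (F'.card : ℝ) ≤ (F.card : ℝ) := by exact_mod_cast this
      linarith
    calc (F'.card : ℝ) * (δ / (F.card + 1 : ℝ)) ≤ ((F.card : ℝ) + 1) * (δ / (F.card + 1 : ℝ)) :=
          mul_le_mul_of_nonneg_right h1 hη.le
      _ = δ := by field_simp
  have hU : ∀ F' ⊆ F, ((∑ b ∈ F', w b) - δ) * (Ω.card : ℝ) ≤ ((F'.biUnion G).card : ℝ) := by
    intro F' hF'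
    have hcard : (F'.biUnion G).card = ∑ b ∈ F', (G b).card := by
      apply card_biUnion
      intro x hx y hy hxy
      rw [Function.onFun, Finset.disjoint_left]
      intro T h1 h2
      exact hxy ((hGX x (hF' hx) T h1).symm.trans (hGX y (hF' hy) T h2))
    rw [hcard]
    push_cast
    calc ((∑ b ∈ F', w b) - δ) * (Ω.card : ℝ)
        ≤ ((∑ b ∈ F', w b) - (F'.card : ℝ) * (δ / (F.card + 1 : ℝ))) * (Ω.card : ℝ) := by
          apply mul_le_mul_of_nonneg_right _ (Nat.cast_nonneg _)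
          linarith [hηF F' hF']
      _ = ∑ b ∈ F', (w b - δ / (F.card + 1)) * (Ω.card : ℝ) := by
          rw [← Finset.sum_mul, Finset.sum_sub_distrib, Finset.sum_const, nsmul_eq_mul]
      _ ≤ ∑ b ∈ F', ((G b).card : ℝ) := sum_le_sum (fun b hb => hGc b (hF' hb))
  have hUsub : ∀ F' ⊆ F, F'.biUnion G ⊆ Ω := by
    intro F' hF' T hT
    obtain ⟨b, hb, hT⟩ := mem_biUnion.1 hT
    exact hGs b (hF' hb) hT
  constructor
  · intro S
    set F' := F.filter (fun b => b ∉ S) with hF'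
    have hsub : F' ⊆ F := filter_subset _ _
    have hdisj : Disjoint (Ω.filter (fun T => X T ∈ S)) (F'.biUnion G) := by
      rw [Finset.disjoint_left]
      intro T h1 h2
      obtain ⟨b, hb, hT⟩ := mem_biUnion.1 h2
      have h3 := (mem_filter.1 hb).2
      rw [← hGX b (hsub hb) T hT] at h3
      exact h3 (mem_filter.1 h1).2
    have hle : (Ω.filter (fun T => X T ∈ S)).card + (F'.biUnion G).card ≤ Ω.card := by
      rw [← card_union_of_disjoint hdisj]
      exact card_le_card (union_subset (filter_subset _ _) (hUsub F' hsub))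
    have hle' : ((Ω.filter (fun T => X T ∈ S)).card : ℝ) + ((F'.biUnion G).card : ℝ) ≤
        (Ω.card : ℝ) := by exact_mod_cast hle
    have hsplit : ∑ b ∈ F, w b = (∑ b ∈ F, if b ∈ S then w b else 0) + ∑ b ∈ F', w b := by
      rw [hF', sum_filter, ← sum_add_distrib]
      refine sum_congr rfl (fun b _ => ?_)
      by_cases hb : b ∈ S <;> simp [hb]
    have hsumm : Summable (fun b => if b ∈ S then w b else 0) :=
      Summable.of_nonneg_of_le (fun b => by split_ifs <;> simp [hw b])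
        (fun b => by split_ifs <;> simp [hw b]) hs.summable
    have hP : (∑ b ∈ F, if b ∈ S then w b else 0) ≤ ∑' b, if b ∈ S then w b else 0 :=
      hsumm.sum_le_tsum F (fun b _ => by split_ifs <;> simp [hw b])
    have h4 := hU F' hsub
    have h5 : (1 - δ - (∑' b, if b ∈ S then w b else 0) - δ) * (Ω.card : ℝ) ≤
        ((∑ b ∈ F', w b) - δ) * (Ω.card : ℝ) := by
      apply mul_le_mul_of_nonneg_right _ (Nat.cast_nonneg _)
      linarith
    linarith
  · intro Y hY1 hY2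
    have hdisj : Disjoint Y (F.biUnion G) := by
      rw [Finset.disjoint_left]
      intro T h1 h2
      obtain ⟨b, hb, hT⟩ := mem_biUnion.1 h2
      exact hY2 T h1 ⟨b, hb, hT⟩
    have hle : Y.card + (F.biUnion G).card ≤ Ω.card := by
      rw [← card_union_of_disjoint hdisj]
      exact card_le_card (union_subset hY1 (hUsub F (Finset.Subset.refl _)))
    have hle' : (Y.card : ℝ) + ((F.biUnion G).card : ℝ) ≤
        (Ω.card : ℝ) := by exact_mod_cast hle
    have h4 := hU F (Finset.Subset.refl _)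
    have h5 : (1 - δ - δ) * (Ω.card : ℝ) ≤ ((∑ b ∈ F, w b) - δ) * (Ω.card : ℝ) := by
      apply mul_le_mul_of_nonneg_right _ (Nat.cast_nonneg _)
      linarith
    linarith

theorem cardpos {β : Type} (F : Finset β) : (0 : ℝ) < (F.card : ℝ) + 1 := by
  have : (0 : ℝ) ≤ (F.card : ℝ) := Nat.cast_nonneg _
  linarith

open Classical in
theorem LL1 (k : ℕ) (lam : ℝ) (hk : 2 ≤ k) (hlam : 0 < lam)
    (h : lam = k * (1 - Real.exp (-lam))) (m : ℕ) (τ : Tr k m) (η : ℝ) (hη : 0 < η) :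
    ∃ n0 : ℕ, ∀ n, n0 ≤ n → ∀ (o p : Fin n) (T0 : Fin n → Fin k → Fin n), p ≠ o →
      (wt k lam m τ - η) * ((Om T0 ∅ ∅ (Finset.univ.erase o)).card : ℝ) ≤
        (((Om T0 ∅ ∅ (Finset.univ.erase o)).filter
          (fun T => GoodB T {o} [(⟨m, τ⟩, p)])).card : ℝ) := by
  obtain ⟨n0, hn0⟩ := local_limit k lam hk hlam h [⟨m, τ⟩] 0 0 1 η hη
  refine ⟨n0, fun n hn o p T0 hpo => ?_⟩
  have h1 := hn0 n hn o T0 ∅ ∅ {o} [(⟨m, τ⟩, p)] rfl rfl rfl (by simp) (by simp) (by simp)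
    (by simp) (by simp) (by simp) (by simp) (by simp [hpo])
  have h2 : ({T | T ∈ Om T0 ∅ ∅ ((Finset.univ \ ∅).erase o) ∧
      GoodB T {o} [((⟨m, τ⟩ : Σ m, Tr k m), p)]} : Set (Fin n → Fin k → Fin n)) =
      (((Om T0 ∅ ∅ (Finset.univ.erase o)).filter
          (fun T => GoodB T {o} [((⟨m, τ⟩ : Σ m, Tr k m), p)]) :
            Finset (Fin n → Fin k → Fin n)) : Set (Fin n → Fin k → Fin n)) := by
    ext T
    simp
  rw [h2, Set.ncard_coe_finset] at h1
  simpa using h1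

open Classical in
theorem LL2 (k : ℕ) (lam : ℝ) (hk : 2 ≤ k) (hlam : 0 < lam)
    (h : lam = k * (1 - Real.exp (-lam))) (m : ℕ) (τ τ' : Tr k m) (η : ℝ) (hη : 0 < η) :
    ∃ n0 : ℕ, ∀ n, n0 ≤ n → ∀ (o p q : Fin n) (T0 : Fin n → Fin k → Fin n), p ≠ o → q ≠ o →
      p ≠ q →
      (wt k lam m τ * wt k lam m τ' - η) * ((Om T0 ∅ ∅ (Finset.univ.erase o)).card : ℝ) ≤
        (((Om T0 ∅ ∅ (Finset.univ.erase o)).filter
          (fun T => GoodB T {o} [(⟨m, τ⟩, p), (⟨m, τ'⟩, q)])).card : ℝ) := by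
  obtain ⟨n0, hn0⟩ := local_limit k lam hk hlam h [⟨m, τ⟩, ⟨m, τ'⟩] 0 0 1 η hη
  refine ⟨n0, fun n hn o p q T0 hpo hqo hpq => ?_⟩
  have h1 := hn0 n hn o T0 ∅ ∅ {o} [(⟨m, τ⟩, p), (⟨m, τ'⟩, q)] rfl rfl rfl (by simp) (by simp)
    (by simp) (by simp) (by simp) (by simp) (by simp [hpq]) (by simp [hpo, hqo])
  have h2 : ({T | T ∈ Om T0 ∅ ∅ ((Finset.univ \ ∅).erase o) ∧
      GoodB T {o} [((⟨m, τ⟩ : Σ m, Tr k m), p), ((⟨m, τ'⟩ : Σ m, Tr k m), q)]} :
        Set (Fin n → Fin k → Fin n)) =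
      (((Om T0 ∅ ∅ (Finset.univ.erase o)).filter
          (fun T => GoodB T {o} [((⟨m, τ⟩ : Σ m, Tr k m), p), ((⟨m, τ'⟩ : Σ m, Tr k m), q)]) :
            Finset (Fin n → Fin k → Fin n)) : Set (Fin n → Fin k → Fin n)) := by
    ext T
    simp
  rw [h2, Set.ncard_coe_finset] at h1
  simpa using h1

theorem wt_le_one (k : ℕ) (hk : 1 ≤ k) (lam : ℝ) (h0 : 0 < lam) (m : ℕ) (τ : Tr k m) :
    wt k lam m τ ≤ 1 := by
  have hs := hasSum_wt k hk lam h0 m
  have := hs.summable.le_tsum τ (fun j _ => wt_nonneg k lam h0 m j)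
  rwa [hs.tsum_eq] at this

theorem hasSum_wt2 (k : ℕ) (hk : 1 ≤ k) (lam : ℝ) (h0 : 0 < lam) (m : ℕ) :
    HasSum (fun x : Tr k m × Tr k m => wt k lam m x.1 * wt k lam m x.2) 1 := by
  have hs := hasSum_wt k hk lam h0 m
  have h1 := hs.mul hs (hs.summable.mul_of_nonneg hs.summable (fun τ => wt_nonneg k lam h0 m τ)
    (fun τ => wt_nonneg k lam h0 m τ))
  simpa using h1

theorem exists_F {β : Type} (w : β → ℝ) (hs : HasSum w 1) (δ : ℝ) (hδ : 0 < δ) :
    ∃ F : Finset β, 1 - δ ≤ ∑ b ∈ F, w b := by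
  obtain ⟨F, hF⟩ := (Metric.tendsto_nhds.1 hs δ hδ).exists
  refine ⟨F, ?_⟩
  rw [Real.dist_eq] at hF
  have := (abs_lt.1 hF).1
  linarith

theorem tv1 (k : ℕ) (lam : ℝ) (hk : 2 ≤ k) (hlam : 0 < lam)
    (h : lam = k * (1 - Real.exp (-lam))) (m : ℕ) (ε : ℝ) (hε : 0 < ε) :
    ∃ b n0 : ℕ, ∀ n, n0 ≤ n → ∀ (o p : Fin n) (T0 : Fin n → Fin k → Fin n), p ≠ o →
      (∀ S : Set (Tr k m),
        (Set.ncard {T | T ∈ Om T0 ∅ ∅ (Finset.univ.erase o) ∧ ball T m p ∈ S} : ℝ)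
          ≤ (P1 k lam m S + ε) * (Om T0 ∅ ∅ (Finset.univ.erase o)).card) ∧
      (Set.ncard {T | T ∈ Om T0 ∅ ∅ (Finset.univ.erase o) ∧ ¬ (o ∉ bst T m p ∧
          (bst T m p).card = nn m (ball T m p) ∧ (bst T m p).card ≤ b)} : ℝ)
          ≤ ε * (Om T0 ∅ ∅ (Finset.univ.erase o)).card := by
  classical
  have hs := hasSum_wt k (by omega) lam hlam m
  obtain ⟨F, hF⟩ := exists_F _ hs (ε / 2) (by positivity)
  have hLL := fun τ : Tr k m => LL1 k lam hk hlam h m τ (ε / 2 / (F.card + 1))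
    (div_pos (half_pos hε) (cardpos F))
  choose N0 hN0 using hLL
  refine ⟨F.sup (nn m), F.sup N0, fun n hn o p T0 hpo => ?_⟩
  have hA := tvA (Om T0 ∅ ∅ (Finset.univ.erase o)) (fun T => ball T m p) (fun τ => wt k lam m τ)
    (fun τ => wt_nonneg k lam hlam m τ) hs (ε / 2) (by positivity) F hF
    (fun τ => (Om T0 ∅ ∅ (Finset.univ.erase o)).filter
          (fun T => GoodB T {o} [(⟨m, τ⟩, p)])) (fun τ _ => filter_subset _ _)
    (fun τ _ T hT => ((mem_filter.1 hT).2.1 (⟨m, τ⟩, p) (by simp)).1)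
    (fun τ hτ => hN0 τ n ((Finset.le_sup hτ).trans hn) o p T0 hpo)
  obtain ⟨hA1, hA2⟩ := hA
  have e2 : 2 * (ε / 2) = ε := by ring
  rw [e2] at hA2
  refine ⟨fun S => ?_, ?_⟩
  · have h1 := hA1 S
    rw [e2] at h1
    have h2 : ({T | T ∈ Om T0 ∅ ∅ (Finset.univ.erase o) ∧ ball T m p ∈ S} :
        Set (Fin n → Fin k → Fin n)) = (((Om T0 ∅ ∅ (Finset.univ.erase o)).filter
          (fun T => ball T m p ∈ S) : Finset (Fin n → Fin k → Fin n)) :
          Set (Fin n → Fin k → Fin n)) := by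
      ext T
      simp
    rw [h2, Set.ncard_coe_finset]
    exact h1
  · have h2 : ({T | T ∈ Om T0 ∅ ∅ (Finset.univ.erase o) ∧ ¬ (o ∉ bst T m p ∧
          (bst T m p).card = nn m (ball T m p) ∧ (bst T m p).card ≤ F.sup (nn m))} :
        Set (Fin n → Fin k → Fin n)) = (((Om T0 ∅ ∅ (Finset.univ.erase o)).filter
          (fun T => ¬ (o ∉ bst T m p ∧
          (bst T m p).card = nn m (ball T m p) ∧ (bst T m p).card ≤ F.sup (nn m))) :
          Finset (Fin n → Fin k → Fin n)) :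
          Set (Fin n → Fin k → Fin n)) := by
      ext T
      simp
    rw [h2, Set.ncard_coe_finset]
    refine hA2 _ (filter_subset _ _) ?_
    intro T hT
    obtain ⟨hT1, hT2⟩ := mem_filter.1 hT
    rintro ⟨τ, hτ, hT3⟩
    apply hT2
    obtain ⟨g1, g2, g3⟩ := (mem_filter.1 hT3).2.1 (⟨m, τ⟩, p) (by simp)
    dsimp only at g1 g2 g3
    refine ⟨?_, ?_, ?_⟩
    · rw [Finset.disjoint_singleton_right] at g2
      exact g2
    · rw [g3, g1]
    · rw [g3]
      exact Finset.le_sup (f := nn m) hτ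

theorem tv2 (k : ℕ) (lam : ℝ) (hk : 2 ≤ k) (hlam : 0 < lam)
    (h : lam = k * (1 - Real.exp (-lam))) (m : ℕ) (ε : ℝ) (hε : 0 < ε) :
    ∃ n0 : ℕ, ∀ n, n0 ≤ n → ∀ (o p q : Fin n) (T0 : Fin n → Fin k → Fin n), p ≠ o → q ≠ o →
      p ≠ q → ∀ S S' : Set (Tr k m),
        (Set.ncard {T | T ∈ Om T0 ∅ ∅ (Finset.univ.erase o) ∧ ball T m p ∈ S ∧
            ball T m q ∈ S'} : ℝ)
          ≤ (P1 k lam m S * P1 k lam m S' + ε) * (Om T0 ∅ ∅ (Finset.univ.erase o)).card := by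
  classical
  have hs1 := hasSum_wt k (by omega) lam hlam m
  have hs := hasSum_wt2 k (by omega) lam hlam m
  obtain ⟨F, hF⟩ := exists_F _ hs (ε / 2) (by positivity)
  have hLL := fun x : Tr k m × Tr k m => LL2 k lam hk hlam h m x.1 x.2
    (ε / 2 / (F.card + 1)) (div_pos (half_pos hε) (cardpos F))
  choose N0 hN0 using hLL
  refine ⟨F.sup N0, fun n hn o p q T0 hpo hqo hpq S S' => ?_⟩
  have hA := tvA (Om T0 ∅ ∅ (Finset.univ.erase o)) (fun T => (ball T m p, ball T m q))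
    (fun x : Tr k m × Tr k m => wt k lam m x.1 * wt k lam m x.2)
    (fun x => mul_nonneg (wt_nonneg k lam hlam m x.1) (wt_nonneg k lam hlam m x.2)) hs (ε / 2)
    (by positivity) F hF
    (fun x => (Om T0 ∅ ∅ (Finset.univ.erase o)).filter
          (fun T => GoodB T {o} [(⟨m, x.1⟩, p), (⟨m, x.2⟩, q)])) (fun x _ => filter_subset _ _)
    (fun x _ T hT => Prod.ext ((mem_filter.1 hT).2.1 (⟨m, x.1⟩, p) (by simp)).1
      ((mem_filter.1 hT).2.1 (⟨m, x.2⟩, q) (by simp)).1)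
    (fun x hx => hN0 x n ((Finset.le_sup hx).trans hn) o p q T0 hpo hqo hpq)
  have h1 := hA.1 (S ×ˢ S')
  have e2 : 2 * (ε / 2) = ε := by ring
  rw [e2] at h1
  have hsumm : ∀ S : Set (Tr k m), Summable (fun b : Tr k m => if b ∈ S then wt k lam m b else 0) :=
    fun S => Summable.of_nonneg_of_le
      (fun b => by split_ifs <;> simp [wt_nonneg k lam hlam m b])
      (fun b => by split_ifs <;> simp [wt_nonneg k lam hlam m b]) hs1.summable
  have hnn : ∀ (S : Set (Tr k m)), 0 ≤ (fun b : Tr k m => if b ∈ S then wt k lam m b else 0) := by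
    intro S b
    dsimp only
    split_ifs <;> simp [wt_nonneg k lam hlam m b]
  have h2 : ({T | T ∈ Om T0 ∅ ∅ (Finset.univ.erase o) ∧ ball T m p ∈ S ∧ ball T m q ∈ S'} :
        Set (Fin n → Fin k → Fin n)) = (((Om T0 ∅ ∅ (Finset.univ.erase o)).filter
          (fun T => (ball T m p, ball T m q) ∈ S ×ˢ S') : Finset (Fin n → Fin k → Fin n)) :
          Set (Fin n → Fin k → Fin n)) := by
    ext T
    simp
  rw [h2, Set.ncard_coe_finset]
  refine le_trans (le_of_eq ?_) (h1.trans (le_of_eq ?_))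
  · congr
  · congr 2
    have h3 := ((hsumm S).hasSum.mul (hsumm S').hasSum
      ((hsumm S).mul_of_nonneg (hsumm S') (hnn S) (hnn S'))).tsum_eq
    unfold P1
    refine Eq.trans ?_ (h3.trans ?_)
    · refine tsum_congr (fun x => ?_)
      by_cases h4 : x.1 ∈ S <;> by_cases h5 : x.2 ∈ S' <;> simp [Set.mem_prod, h4, h5]
    · congr

theorem tvP2 (k : ℕ) (lam : ℝ) (hk : 2 ≤ k) (hlam : 0 < lam)
    (h : lam = k * (1 - Real.exp (-lam))) (m : ℕ) (ε : ℝ) (hε : 0 < ε) :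
    ∃ n0 : ℕ, ∀ n, n0 ≤ n → ∀ (o p q : Fin n) (T0 : Fin n → Fin k → Fin n), p ≠ o → q ≠ o →
      ∀ S : Set (Tr k m × Tr k m),
        (Set.ncard {P : (Fin n → Fin k → Fin n) × (Fin n → Fin k → Fin n) |
            P.1 ∈ Om T0 ∅ ∅ (Finset.univ.erase o) ∧ P.2 ∈ Om T0 ∅ ∅ (Finset.univ.erase o) ∧
            (ball P.1 m p, ball P.2 m q) ∈ S} : ℝ)
          ≤ (P2 k lam m S + ε) * ((Om T0 ∅ ∅ (Finset.univ.erase o)).card : ℝ) ^ 2 := by
  classical
  have hs := hasSum_wt2 k (by omega) lam hlam m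
  obtain ⟨F, hF⟩ := exists_F _ hs (ε / 2) (by positivity)
  set η : ℝ := ε / 2 / (F.card + 1) / 2 with hη
  have hη0 : 0 < η := half_pos (div_pos (half_pos hε) (cardpos F))
  have hη2 : ε / 2 / (F.card + 1) = 2 * η := by rw [hη]; ring
  have hLL := fun τ : Tr k m => LL1 k lam hk hlam h m τ η hη0
  choose N0 hN0 using hLL
  refine ⟨F.sup (fun x => max (N0 x.1) (N0 x.2)), fun n hn o p q T0 hpo hqo S => ?_⟩
  set Ω := Om T0 ∅ ∅ (Finset.univ.erase o) with hΩ
  have hc : ∀ τ : Tr k m, ∀ r : Fin n, r ≠ o → N0 τ ≤ n →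
      (wt k lam m τ - η) * (Ω.card : ℝ) ≤ ((Ω.filter (fun T => ball T m r = τ)).card : ℝ) := by
    intro τ r hr hnτ
    refine (hN0 τ n hnτ o r T0 hr).trans ?_
    have h3 : (Ω.filter (fun T => GoodB T {o} [(⟨m, τ⟩, r)])) ⊆
        Ω.filter (fun T => ball T m r = τ) := by
      intro T hT
      obtain ⟨hT1, hT2⟩ := mem_filter.1 hT
      exact mem_filter.2 ⟨hT1, (hT2.1 (⟨m, τ⟩, r) (by simp)).1⟩
    exact_mod_cast card_le_card h3
  have hA := tvA (Ω ×ˢ Ω) (fun P => (ball P.1 m p, ball P.2 m q))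
    (fun x : Tr k m × Tr k m => wt k lam m x.1 * wt k lam m x.2)
    (fun x => mul_nonneg (wt_nonneg k lam hlam m x.1) (wt_nonneg k lam hlam m x.2)) hs (ε / 2)
    (by positivity) F hF
    (fun x => (Ω.filter (fun T => ball T m p = x.1)) ×ˢ (Ω.filter (fun T => ball T m q = x.2)))
    (fun x _ => product_subset_product (filter_subset _ _) (filter_subset _ _))
    (fun x _ P hP => by
      obtain ⟨h1, h2⟩ := mem_product.1 hP
      exact Prod.ext (mem_filter.1 h1).2 (mem_filter.1 h2).2)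
    (fun x hx => by
      have hn' : max (N0 x.1) (N0 x.2) ≤ n :=
        (Finset.le_sup (f := fun x : Tr k m × Tr k m => max (N0 x.1) (N0 x.2)) hx).trans hn
      have c1 := hc x.1 p hpo ((le_max_left _ _).trans hn')
      have c2 := hc x.2 q hqo ((le_max_right _ _).trans hn')
      have w1 := wt_nonneg k lam hlam m x.1
      have w2 := wt_nonneg k lam hlam m x.2
      have w3 := wt_le_one k (by omega) lam hlam m x.1
      have w4 := wt_le_one k (by omega) lam hlam m x.2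
      rw [card_product, card_product]
      push_cast
      rw [hη2]
      set A : ℝ := ((Ω.filter (fun T => ball T m p = x.1)).card : ℝ) with hA
      set B : ℝ := ((Ω.filter (fun T => ball T m q = x.2)).card : ℝ) with hB
      set N : ℝ := (Ω.card : ℝ) with hN
      have hA0 : 0 ≤ A := Nat.cast_nonneg _
      have hB0 : 0 ≤ B := Nat.cast_nonneg _
      have hN0' : 0 ≤ N := Nat.cast_nonneg _
      set a := wt k lam m x.1
      set b := wt k lam m x.2
      by_cases ha : a ≤ η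
      · have h5 : a * b - 2 * η ≤ 0 := by nlinarith
        have h6 : (a * b - 2 * η) * (N * N) ≤ 0 :=
          mul_nonpos_of_nonpos_of_nonneg h5 (mul_nonneg hN0' hN0')
        have h7 : 0 ≤ A * B := mul_nonneg hA0 hB0
        linarith
      · by_cases hb : b ≤ η
        · have h5 : a * b - 2 * η ≤ 0 := by nlinarith
          have h6 : (a * b - 2 * η) * (N * N) ≤ 0 :=
            mul_nonpos_of_nonpos_of_nonneg h5 (mul_nonneg hN0' hN0')
          have h7 : 0 ≤ A * B := mul_nonneg hA0 hB0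
          linarith
        · push Not at ha hb
          have h8 : ((a - η) * N) * ((b - η) * N) ≤ A * B :=
            mul_le_mul c1 c2 (mul_nonneg (by linarith) hN0') hA0
          have h9 : (a * b - 2 * η) ≤ (a - η) * (b - η) := by nlinarith
          have h10 : (a * b - 2 * η) * (N * N) ≤ ((a - η) * (b - η)) * (N * N) :=
            mul_le_mul_of_nonneg_right h9 (mul_nonneg hN0' hN0')
          calc (a * b - 2 * η) * (N * N) ≤ ((a - η) * (b - η)) * (N * N) := h10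
            _ = ((a - η) * N) * ((b - η) * N) := by ring
            _ ≤ A * B := h8)
  have h1 := hA.1 S
  have e2 : 2 * (ε / 2) = ε := by ring
  rw [e2, card_product] at h1
  have h2 : ({P : (Fin n → Fin k → Fin n) × (Fin n → Fin k → Fin n) |
            P.1 ∈ Ω ∧ P.2 ∈ Ω ∧ (ball P.1 m p, ball P.2 m q) ∈ S}) =
        (((Ω ×ˢ Ω).filter (fun P : (Fin n → Fin k → Fin n) × (Fin n → Fin k → Fin n) =>
          (ball P.1 m p, ball P.2 m q) ∈ S) :
          Finset ((Fin n → Fin k → Fin n) × (Fin n → Fin k → Fin n))) :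
          Set ((Fin n → Fin k → Fin n) × (Fin n → Fin k → Fin n))) := by
    ext P
    simp [and_assoc]
  rw [h2, Set.ncard_coe_finset]
  unfold P2
  push_cast at h1
  rw [sq]
  exact h1
end AS
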