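import Pool.Agent.Helper513.AS.HC
import Pool.Agent.Helper513.AS.D5

set_option autoImplicit false

namespace AS
open Finset Filter Topology







/-- number of states whose backward words of length `m` form the set `U` -/
noncomputable def NW {n k : ℕ} (T : Fin n → Fin k → Fin n) (m : ℕ)
    (U : Finset (List (Fin k))) : ℕ := Set.ncard {p : Fin n | Wset m (ball T m p) = U}

theorem hd_ncard_filter {α : Type} (s : Finset α) (P : α → Prop) [DecidablePred P] :
    Set.ncard {x | x ∈ s ∧ P x} = (s.filter P).card := by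
  rw [← Set.ncard_coe_finset]
  congr 1
  ext x
  simp

open Classical in
theorem hd_NW_eq {n k : ℕ} (T : Fin n → Fin k → Fin n) (m : ℕ) (U : Finset (List (Fin k))) :
    (NW T m U : ℝ) = ∑ p : Fin n, if Wset m (ball T m p) = U then (1 : ℝ) else 0 := by
  rw [Finset.sum_boole]
  unfold NW
  have h := hd_ncard_filter (Finset.univ : Finset (Fin n)) (fun p => Wset m (ball T m p) = U)
  simp only [Finset.mem_univ, true_and] at h
  rw [h]

theorem hd_NW_le {n k : ℕ} (T : Fin n → Fin k → Fin n) (m : ℕ) (U : Finset (List (Fin k))) :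
    (NW T m U : ℝ) ≤ n := by
  classical
  rw [hd_NW_eq]
  calc ∑ p : Fin n, (if Wset m (ball T m p) = U then (1 : ℝ) else 0) ≤ ∑ _p : Fin n, (1 : ℝ) := by
        refine Finset.sum_le_sum fun p _ => ?_
        split_ifs <;> norm_num
    _ = n := by simp

theorem hd_P1_eq (k : ℕ) (lam : ℝ) (hk : 1 ≤ k) (h0 : 0 < lam) (m : ℕ)
    (U : Finset (List (Fin k))) (hU : U ⊆ wd k m) :
    P1 k lam m {τ | Wset m τ = U} = nu k lam m U := by
  unfold P1
  rw [← (hasSum_Wset k hk lam h0 m U hU).tsum_eq]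
  refine tsum_congr fun τ => ?_
  by_cases hτ : Wset m τ = U
  · rw [if_pos hτ, if_pos (show τ ∈ {τ | Wset m τ = U} from hτ)]
  · rw [if_neg hτ, if_neg (show τ ∉ {τ | Wset m τ = U} from hτ)]

theorem hd_P1_compl (k : ℕ) (lam : ℝ) (hk : 1 ≤ k) (h0 : 0 < lam) (m : ℕ)
    (U : Finset (List (Fin k))) (hU : U ⊆ wd k m) :
    P1 k lam m {τ | Wset m τ ≠ U} = 1 - nu k lam m U := by
  unfold P1
  rw [← ((hasSum_wt k hk lam h0 m).sub (hasSum_Wset k hk lam h0 m U hU)).tsum_eq]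
  refine tsum_congr fun τ => ?_
  by_cases hτ : Wset m τ = U
  · rw [if_pos hτ, if_neg (show τ ∉ {τ | Wset m τ ≠ U} from fun h => h hτ)]
    ring
  · rw [if_neg hτ, if_pos (show τ ∈ {τ | Wset m τ ≠ U} from hτ)]
    ring

theorem hd_nu_mem (k : ℕ) (lam : ℝ) (hk : 1 ≤ k) (h0 : 0 < lam) (m : ℕ)
    (U : Finset (List (Fin k))) (hU : U ⊆ wd k m) :
    0 ≤ nu k lam m U ∧ nu k lam m U ≤ 1 := by
  constructor
  · refine (hasSum_Wset k hk lam h0 m U hU).nonneg fun τ => ?_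
    split_ifs
    · exact wt_nonneg k lam h0 m τ
    · exact le_rfl
  · refine hasSum_le (fun τ => ?_) (hasSum_Wset k hk lam h0 m U hU) (hasSum_wt k hk lam h0 m)
    split_ifs
    · exact le_rfl
    · exact wt_nonneg k lam h0 m τ

open Classical in
/-- first moment -/
theorem hd_first (k : ℕ) (lam : ℝ) (hk : 2 ≤ k) (hlam : 0 < lam)
    (h : lam = k * (1 - Real.exp (-lam))) (m : ℕ) (U : Finset (List (Fin k)))
    (hU : U ⊆ wd k m) (ε : ℝ) (hε : 0 < ε) :
    ∃ n0 : ℕ, ∀ n, n0 ≤ n → ∀ (o : Fin n) (T0 : Fin n → Fin k → Fin n),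
      ((n : ℝ) - 1) * ((nu k lam m U - ε) * (Om T0 ∅ ∅ (Finset.univ.erase o)).card) ≤
        ∑ T ∈ Om T0 ∅ ∅ (Finset.univ.erase o), (NW T m U : ℝ) := by
  obtain ⟨b, n0, H⟩ := tv1 k lam hk hlam h m ε hε
  refine ⟨n0, fun n hn o T0 => ?_⟩
  set Ω := Om T0 ∅ ∅ (Finset.univ.erase o) with hΩ
  have e1 : ∑ T ∈ Ω, (NW T m U : ℝ) =
      ∑ p : Fin n, ∑ T ∈ Ω, if Wset m (ball T m p) = U then (1 : ℝ) else 0 := by
    rw [Finset.sum_comm]
    exact Finset.sum_congr rfl fun T _ => hd_NW_eq T m U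
  rw [e1]
  have e2 : ∀ p ∈ Finset.univ.erase o, (nu k lam m U - ε) * Ω.card ≤
      ∑ T ∈ Ω, if Wset m (ball T m p) = U then (1 : ℝ) else 0 := by
    intro p hp
    have hpo : p ≠ o := (Finset.mem_erase.mp hp).1
    have h1 := (H n hn o p T0 hpo).1 {τ | Wset m τ ≠ U}
    rw [hd_P1_compl k lam (by omega) hlam m U hU, ← hΩ] at h1
    have h2 := hd_ncard_filter Ω (fun T => ball T m p ∈ {τ | Wset m τ ≠ U})
    rw [h2] at h1
    have h3 : ∑ T ∈ Ω, (if Wset m (ball T m p) = U then (1 : ℝ) else 0) =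
        Ω.card - ((Ω.filter (fun T => ball T m p ∈ {τ | Wset m τ ≠ U})).card : ℝ) := by
      rw [Finset.sum_boole]
      have h4 := Finset.card_filter_add_card_filter_not (s := Ω)
        (fun T => Wset m (ball T m p) = U)
      have h5 : (Ω.filter (fun T => ball T m p ∈ {τ | Wset m τ ≠ U})).card =
          (Ω.filter (fun T => ¬ Wset m (ball T m p) = U)).card := by
        congr 1
      rw [h5, ← h4]
      push_cast
      ring
    rw [h3]
    nlinarith
  calc ((n : ℝ) - 1) * ((nu k lam m U - ε) * Ω.card)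
      = ∑ _p ∈ Finset.univ.erase o, (nu k lam m U - ε) * Ω.card := by
        rw [Finset.sum_const, nsmul_eq_mul, Finset.card_erase_of_mem (Finset.mem_univ o)]
        have : 1 ≤ n := by
          have := o.2
          omega
        rw [Finset.card_univ, Fintype.card_fin, Nat.cast_sub this]
        simp
    _ ≤ ∑ p ∈ Finset.univ.erase o, ∑ T ∈ Ω,
        (if Wset m (ball T m p) = U then (1 : ℝ) else 0) := Finset.sum_le_sum e2
    _ ≤ ∑ p : Fin n, ∑ T ∈ Ω, (if Wset m (ball T m p) = U then (1 : ℝ) else 0) := by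
        refine Finset.sum_le_sum_of_subset_of_nonneg (Finset.erase_subset _ _) ?_
        intro p _ _
        refine Finset.sum_nonneg fun T _ => ?_
        split_ifs <;> norm_num

open Classical in
/-- second moment -/
theorem hd_second (k : ℕ) (lam : ℝ) (hk : 2 ≤ k) (hlam : 0 < lam)
    (h : lam = k * (1 - Real.exp (-lam))) (m : ℕ) (U : Finset (List (Fin k)))
    (hU : U ⊆ wd k m) (ε : ℝ) (hε : 0 < ε) :
    ∃ n0 : ℕ, ∀ n, n0 ≤ n → ∀ (o : Fin n) (T0 : Fin n → Fin k → Fin n),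
      ∑ T ∈ Om T0 ∅ ∅ (Finset.univ.erase o), (NW T m U : ℝ) ^ 2 ≤
        ((n : ℝ) ^ 2 * (nu k lam m U ^ 2 + ε) + 3 * n) *
          (Om T0 ∅ ∅ (Finset.univ.erase o)).card := by
  obtain ⟨n0, H⟩ := tv2 k lam hk hlam h m ε hε
  refine ⟨n0, fun n hn o T0 => ?_⟩
  set Ω := Om T0 ∅ ∅ (Finset.univ.erase o) with hΩ
  set c := nu k lam m U with hc
  have e1 : ∑ T ∈ Ω, (NW T m U : ℝ) ^ 2 =
      ∑ p : Fin n, ∑ q : Fin n,
        ((Ω.filter (fun T => ball T m p ∈ {τ | Wset m τ = U} ∧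
          ball T m q ∈ {τ | Wset m τ = U})).card : ℝ) := by
    have h1 : ∀ T ∈ Ω, (NW T m U : ℝ) ^ 2 = ∑ p : Fin n, ∑ q : Fin n,
        if (Wset m (ball T m p) = U ∧ Wset m (ball T m q) = U) then (1 : ℝ) else 0 := by
      intro T _
      rw [hd_NW_eq, sq, Finset.sum_mul_sum]
      refine Finset.sum_congr rfl fun p _ => Finset.sum_congr rfl fun q _ => ?_
      by_cases hp : Wset m (ball T m p) = U
      · by_cases hq : Wset m (ball T m q) = U
        · simp [hp, hq]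
        · simp [hp, hq]
      · simp [hp]
    rw [Finset.sum_congr rfl h1, Finset.sum_comm]
    refine Finset.sum_congr rfl fun p _ => ?_
    rw [Finset.sum_comm]
    refine Finset.sum_congr rfl fun q _ => ?_
    rw [Finset.sum_boole]
    congr 2
  rw [e1]
  have hc0 := hd_nu_mem k lam (by omega) hlam m U hU
  have hΩ0 : (0 : ℝ) ≤ Ω.card := Nat.cast_nonneg _
  have e2 : ∀ p q : Fin n, ((Ω.filter (fun T => ball T m p ∈ {τ | Wset m τ = U} ∧
          ball T m q ∈ {τ | Wset m τ = U})).card : ℝ) ≤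
      (c ^ 2 + ε) * Ω.card + ((if p = o then (Ω.card : ℝ) else 0) +
        (if q = o then (Ω.card : ℝ) else 0) + (if p = q then (Ω.card : ℝ) else 0)) := by
    intro p q
    have hle : ((Ω.filter (fun T => ball T m p ∈ {τ | Wset m τ = U} ∧
          ball T m q ∈ {τ | Wset m τ = U})).card : ℝ) ≤ Ω.card := by
      exact_mod_cast Finset.card_filter_le _ _
    have hpos : 0 ≤ (c ^ 2 + ε) * Ω.card := mul_nonneg (by positivity) hΩ0
    have i1 : (0 : ℝ) ≤ if p = o then (Ω.card : ℝ) else 0 := by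
      split_ifs
      · exact hΩ0
      · exact le_rfl
    have i2 : (0 : ℝ) ≤ if q = o then (Ω.card : ℝ) else 0 := by
      split_ifs
      · exact hΩ0
      · exact le_rfl
    have i3 : (0 : ℝ) ≤ if p = q then (Ω.card : ℝ) else 0 := by
      split_ifs
      · exact hΩ0
      · exact le_rfl
    by_cases h1 : p = o
    · rw [if_pos h1]
      rw [if_pos h1] at i1
      linarith
    · by_cases h2 : q = o
      · rw [if_pos h2]
        linarith
      · by_cases h3 : p = q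
        · rw [if_pos h3]
          linarith
        · have h4 := H n hn o p q T0 h1 h2 h3 {τ | Wset m τ = U} {τ | Wset m τ = U}
          rw [hd_P1_eq k lam (by omega) hlam m U hU, ← hΩ] at h4
          have h5 := hd_ncard_filter Ω (fun T => ball T m p ∈ {τ | Wset m τ = U} ∧
            ball T m q ∈ {τ | Wset m τ = U})
          rw [h5, ← hc, ← sq] at h4
          linarith
  calc ∑ p : Fin n, ∑ q : Fin n,
        ((Ω.filter (fun T => ball T m p ∈ {τ | Wset m τ = U} ∧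
          ball T m q ∈ {τ | Wset m τ = U})).card : ℝ)
      ≤ ∑ p : Fin n, ∑ q : Fin n, ((c ^ 2 + ε) * Ω.card + ((if p = o then (Ω.card : ℝ) else 0) +
        (if q = o then (Ω.card : ℝ) else 0) + (if p = q then (Ω.card : ℝ) else 0))) :=
        Finset.sum_le_sum fun p _ => Finset.sum_le_sum fun q _ => e2 p q
    _ = ((n : ℝ) ^ 2 * (c ^ 2 + ε) + 3 * n) * Ω.card := by
        simp only [Finset.sum_add_distrib, Finset.sum_const, nsmul_eq_mul, Finset.card_univ,
          Fintype.card_fin, Finset.sum_ite_eq', Finset.sum_ite_eq, Finset.mem_univ, if_true,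
          ← Finset.mul_sum]
        ring

theorem hd_alg1 (S2 n c e M : ℝ) (hn : 0 < n) (h : S2 ≤ (n ^ 2 * (c ^ 2 + e) + 3 * n) * M) :
    S2 / n ^ 2 ≤ ((c ^ 2 + e) + 3 / n) * M := by
  rw [div_le_iff₀ (by positivity)]
  refine h.trans (le_of_eq ?_)
  field_simp

theorem hd_alg2 (S1 n c e M : ℝ) (hn : 0 < n) (hM0 : 0 ≤ M) (hc : c ≤ 1) (he : 0 ≤ e)
    (h : (n - 1) * ((c - e) * M) ≤ S1) : (c - e - 1 / n) * M ≤ S1 / n := by
  rw [le_div_iff₀ hn]
  refine le_trans ?_ h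
  have : (c - e - 1 / n) * M * n = (n * (c - e) - 1) * M := by
    field_simp
  rw [this]
  nlinarith

theorem hd_alg3 (x n c : ℝ) (hn : 0 < n) :
    (x / n - c) ^ 2 = x ^ 2 / n ^ 2 - 2 * c * x / n + c ^ 2 := by
  field_simp
  ring

theorem hd_prod_bd (x y u v : ℝ) (hy0 : 0 ≤ y) (hy1 : y ≤ 1) (hu0 : 0 ≤ u) (hu1 : u ≤ 1) :
    |x * y - u * v| ≤ |x - u| + |y - v| := by
  have e : x * y - u * v = (x - u) * y + u * (y - v) := by ring
  rw [e]
  refine (abs_add_le _ _).trans ?_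
  rw [abs_mul, abs_mul, abs_of_nonneg hy0, abs_of_nonneg hu0]
  have h1 := abs_nonneg (x - u)
  have h2 := abs_nonneg (y - v)
  nlinarith

theorem nu_conc (k : ℕ) (lam : ℝ) (hk : 2 ≤ k) (hlam : 0 < lam)
    (h : lam = k * (1 - Real.exp (-lam))) (m : ℕ) (U : Finset (List (Fin k)))
    (hU : U ⊆ wd k m) (ε : ℝ) (hε : 0 < ε) :
    ∃ n0 : ℕ, ∀ n, n0 ≤ n → ∀ (o : Fin n) (T0 : Fin n → Fin k → Fin n),
      ∑ T ∈ Om T0 ∅ ∅ (Finset.univ.erase o), |(NW T m U : ℝ) / n - nu k lam m U|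
        ≤ ε * (Om T0 ∅ ∅ (Finset.univ.erase o)).card := by
  classical
  have hc := hd_nu_mem k lam (by omega) hlam m U hU
  obtain ⟨n1, H1⟩ := hd_first k lam hk hlam h m U hU (ε ^ 2 / 6) (by positivity)
  obtain ⟨n2, H2⟩ := hd_second k lam hk hlam h m U hU (ε ^ 2 / 6) (by positivity)
  obtain ⟨n3, hn3⟩ := exists_nat_gt (10 / ε ^ 2)
  refine ⟨max n1 (max n2 n3), fun n hn o T0 => ?_⟩
  have h1 := H1 n (le_trans (le_max_left _ _) hn) o T0
  have h2 := H2 n (le_trans (le_trans (le_max_left _ _) (le_max_right _ _)) hn) o T0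
  have h3 : n3 ≤ n := le_trans (le_trans (le_max_right _ _) (le_max_right _ _)) hn
  set Ω := Om T0 ∅ ∅ (Finset.univ.erase o) with hΩ
  set c := nu k lam m U with hcd
  have hn0 : (0 : ℝ) < n := by
    have := o.2
    exact_mod_cast (by omega : 0 < n)
  have hn4 : 10 / ε ^ 2 < n := lt_of_lt_of_le hn3 (by exact_mod_cast h3)
  have hε2 : 0 < ε ^ 2 := by positivity
  have hn5 : 10 < n * ε ^ 2 := by
    rw [div_lt_iff₀ hε2] at hn4
    exact hn4
  have hM0 : (0 : ℝ) ≤ Ω.card := Nat.cast_nonneg _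
  -- second moment of the difference
  have hsq : ∑ T ∈ Ω, ((NW T m U : ℝ) / n - c) ^ 2 ≤ ε ^ 2 * Ω.card := by
    have e1 : ∑ T ∈ Ω, ((NW T m U : ℝ) / n - c) ^ 2 =
        (∑ T ∈ Ω, (NW T m U : ℝ) ^ 2) / n ^ 2 - 2 * c * (∑ T ∈ Ω, (NW T m U : ℝ)) / n +
          c ^ 2 * Ω.card := by
      rw [Finset.sum_div, Finset.mul_sum, Finset.sum_div]
      rw [show c ^ 2 * (Ω.card : ℝ) = ∑ _T ∈ Ω, c ^ 2 by simp [mul_comm]]
      rw [← Finset.sum_sub_distrib, ← Finset.sum_add_distrib]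
      refine Finset.sum_congr rfl fun T _ => ?_
      exact hd_alg3 _ _ _ hn0
    rw [e1]
    have e2 : (∑ T ∈ Ω, (NW T m U : ℝ) ^ 2) / n ^ 2 ≤
        ((c ^ 2 + ε ^ 2 / 6) + 3 / n) * Ω.card := hd_alg1 _ _ _ _ _ hn0 h2
    have e3 : (c - ε ^ 2 / 6 - 1 / n) * Ω.card ≤ (∑ T ∈ Ω, (NW T m U : ℝ)) / n :=
      hd_alg2 _ _ _ _ _ hn0 hM0 hc.2 (by positivity) h1
    have e4 : 2 * c * (∑ T ∈ Ω, (NW T m U : ℝ)) / n ≥
        2 * c * ((c - ε ^ 2 / 6 - 1 / n) * Ω.card) := by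
      rw [mul_div_assoc]
      exact mul_le_mul_of_nonneg_left e3 (by linarith [hc.1])
    have e5 : (1 : ℝ) / n ≤ ε ^ 2 / 10 := by
      rw [div_le_div_iff₀ hn0 (by norm_num)]
      linarith
    have e6 : (3 : ℝ) / n = 3 * (1 / n) := by ring
    have e7 : (0 : ℝ) < 1 / n := by positivity
    have e8 : ((c ^ 2 + ε ^ 2 / 6) + 3 / n) * (Ω.card : ℝ) -
        2 * c * ((c - ε ^ 2 / 6 - 1 / n) * Ω.card) + c ^ 2 * Ω.card =
        (ε ^ 2 / 6 + 2 * c * (ε ^ 2 / 6) + (3 + 2 * c) * (1 / n)) * Ω.card := by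
      rw [e6]; ring
    have e9 : ε ^ 2 / 6 + 2 * c * (ε ^ 2 / 6) + (3 + 2 * c) * (1 / n) ≤ ε ^ 2 := by
      have a1 : 2 * c * (ε ^ 2 / 6) ≤ 2 * (ε ^ 2 / 6) := by nlinarith [hc.2]
      have a2 : (3 + 2 * c) * (1 / n) ≤ 5 * (1 / (n : ℝ)) := by nlinarith [hc.2]
      linarith
    calc _ ≤ ((c ^ 2 + ε ^ 2 / 6) + 3 / n) * (Ω.card : ℝ) -
        2 * c * ((c - ε ^ 2 / 6 - 1 / n) * Ω.card) + c ^ 2 * Ω.card := by linarith
      _ = (ε ^ 2 / 6 + 2 * c * (ε ^ 2 / 6) + (3 + 2 * c) * (1 / n)) * Ω.card := e8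
      _ ≤ ε ^ 2 * Ω.card := mul_le_mul_of_nonneg_right e9 hM0
  -- Cauchy-Schwarz
  have hcs : (∑ T ∈ Ω, |(NW T m U : ℝ) / n - c|) ^ 2 ≤
      Ω.card * ∑ T ∈ Ω, ((NW T m U : ℝ) / n - c) ^ 2 := by
    have := sq_sum_le_card_mul_sum_sq (s := Ω) (f := fun T => |(NW T m U : ℝ) / n - c|)
    simpa [sq_abs] using this
  refine (abs_le_of_sq_le_sq' ?_ (mul_nonneg hε.le hM0)).2
  calc (∑ T ∈ Ω, |(NW T m U : ℝ) / n - c|) ^ 2
      ≤ Ω.card * ∑ T ∈ Ω, ((NW T m U : ℝ) / n - c) ^ 2 := hcs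
    _ ≤ Ω.card * (ε ^ 2 * Ω.card) := mul_le_mul_of_nonneg_left hsq hM0
    _ = (ε * Ω.card) ^ 2 := by ring

theorem alive_conc (k : ℕ) (lam : ℝ) (hk : 2 ≤ k) (hlam : 0 < lam)
    (h : lam = k * (1 - Real.exp (-lam))) (m : ℕ) (ε : ℝ) (hε : 0 < ε) :
    ∃ n0 : ℕ, ∀ n, n0 ≤ n → ∀ (o : Fin n) (T0 : Fin n → Fin k → Fin n),
      ∑ T ∈ Om T0 ∅ ∅ (Finset.univ.erase o), ∑ T' ∈ Om T0 ∅ ∅ (Finset.univ.erase o),
        |(Set.ncard {z : Fin n × Fin n | alive m (ball T m z.1, ball T' m z.2)} : ℝ)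
          - P2 k lam m {x | alive m x} * (n:ℝ) ^ 2|
        ≤ ε * (n:ℝ) ^ 2 * ((Om T0 ∅ ∅ (Finset.univ.erase o)).card : ℝ) ^ 2 := by
  classical
  set P := (wd k m).powerset with hP
  set N : ℝ := (P.card : ℝ) with hN
  have hN0 : 0 ≤ N := Nat.cast_nonneg _
  have hN1 : 0 < 2 * N ^ 2 + 1 := by nlinarith [sq_nonneg N]
  set δ : ℝ := ε / (2 * N ^ 2 + 1) with hδ
  have hδ0 : 0 < δ := div_pos hε hN1
  have hex : ∀ U : Finset (List (Fin k)), ∃ n0 : ℕ, U ∈ P → ∀ n, n0 ≤ n →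
      ∀ (o : Fin n) (T0 : Fin n → Fin k → Fin n),
      ∑ T ∈ Om T0 ∅ ∅ (Finset.univ.erase o), |(NW T m U : ℝ) / n - nu k lam m U|
        ≤ δ * (Om T0 ∅ ∅ (Finset.univ.erase o)).card := by
    intro U
    by_cases hU : U ∈ P
    · obtain ⟨n0, H⟩ := nu_conc k lam hk hlam h m U (Finset.mem_powerset.mp hU) δ hδ0
      exact ⟨n0, fun _ => H⟩
    · exact ⟨0, fun h => absurd h hU⟩
  choose f hf using hex
  refine ⟨P.sup f, fun n hn o T0 => ?_⟩
  have hconc : ∀ U ∈ P, ∑ T ∈ Om T0 ∅ ∅ (Finset.univ.erase o),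
      |(NW T m U : ℝ) / n - nu k lam m U| ≤
        δ * (Om T0 ∅ ∅ (Finset.univ.erase o)).card := fun U hU =>
    hf U hU n (le_trans (Finset.le_sup hU) hn) o T0
  set Ω := Om T0 ∅ ∅ (Finset.univ.erase o) with hΩ
  have hn0 : (0 : ℝ) < n := by
    have := o.2
    exact_mod_cast (by omega : 0 < n)
  have hM0 : (0 : ℝ) ≤ Ω.card := Nat.cast_nonneg _
  -- the count
  have hcount : ∀ T T' : Fin n → Fin k → Fin n,
      (Set.ncard {z : Fin n × Fin n | alive m (ball T m z.1, ball T' m z.2)} : ℝ) =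
      ∑ S ∈ P, ∑ S' ∈ P, if Disjoint S S' then 0 else (NW T m S : ℝ) * NW T' m S' := by
    intro T T'
    have h1 := hd_ncard_filter (Finset.univ : Finset (Fin n × Fin n))
      (fun z => alive m (ball T m z.1, ball T' m z.2))
    simp only [Finset.mem_univ, true_and] at h1
    rw [h1, ← Finset.sum_boole, Fintype.sum_prod_type]
    have h2 : ∀ p q : Fin n, (if alive m (ball T m p, ball T' m q) then (1 : ℝ) else 0) =
        ∑ S ∈ P, ∑ S' ∈ P, if Disjoint S S' then 0 else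
          (if Wset m (ball T m p) = S then (1 : ℝ) else 0) *
          (if Wset m (ball T' m q) = S' then (1 : ℝ) else 0) := by
      intro p q
      rw [Finset.sum_eq_single (Wset m (ball T m p))]
      · rw [Finset.sum_eq_single (Wset m (ball T' m q))]
        · by_cases hd : Disjoint (Wset m (ball T m p)) (Wset m (ball T' m q))
          · rw [if_pos hd, if_neg]
            rw [alive_iff]
            exact fun h => h hd
          · rw [if_neg hd, if_pos ((alive_iff m _).mpr hd)]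
            simp
        · intro S' _ hne
          rw [if_neg (Ne.symm hne)]
          simp
        · intro hnot
          exact absurd (Finset.mem_powerset.mpr (Finset.filter_subset _ _)) hnot
      · intro S _ hne
        refine Finset.sum_eq_zero fun S' _ => ?_
        rw [if_neg (Ne.symm hne)]
        simp
      · intro hnot
        exact absurd (Finset.mem_powerset.mpr (Finset.filter_subset _ _)) hnot
    simp only [h2]
    have h3 : ∑ p : Fin n, ∑ q : Fin n, ∑ S ∈ P, ∑ S' ∈ P, (if Disjoint S S' then 0 else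
          (if Wset m (ball T m p) = S then (1 : ℝ) else 0) *
          (if Wset m (ball T' m q) = S' then (1 : ℝ) else 0)) =
        ∑ S ∈ P, ∑ S' ∈ P, ∑ p : Fin n, ∑ q : Fin n, (if Disjoint S S' then 0 else
          (if Wset m (ball T m p) = S then (1 : ℝ) else 0) *
          (if Wset m (ball T' m q) = S' then (1 : ℝ) else 0)) := by
      calc _ = ∑ p : Fin n, ∑ S ∈ P, ∑ q : Fin n, ∑ S' ∈ P, (if Disjoint S S' then 0 else
          (if Wset m (ball T m p) = S then (1 : ℝ) else 0) *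
          (if Wset m (ball T' m q) = S' then (1 : ℝ) else 0)) :=
            Finset.sum_congr rfl fun p _ => Finset.sum_comm
        _ = ∑ S ∈ P, ∑ p : Fin n, ∑ q : Fin n, ∑ S' ∈ P, (if Disjoint S S' then 0 else
          (if Wset m (ball T m p) = S then (1 : ℝ) else 0) *
          (if Wset m (ball T' m q) = S' then (1 : ℝ) else 0)) := Finset.sum_comm
        _ = ∑ S ∈ P, ∑ p : Fin n, ∑ S' ∈ P, ∑ q : Fin n, (if Disjoint S S' then 0 else
          (if Wset m (ball T m p) = S then (1 : ℝ) else 0) *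
          (if Wset m (ball T' m q) = S' then (1 : ℝ) else 0)) :=
            Finset.sum_congr rfl fun S _ => Finset.sum_congr rfl fun p _ => Finset.sum_comm
        _ = _ := Finset.sum_congr rfl fun S _ => Finset.sum_comm
    rw [h3]
    refine Finset.sum_congr rfl fun S _ => Finset.sum_congr rfl fun S' _ => ?_
    by_cases hd : Disjoint S S'
    · simp [hd]
    · simp only [if_neg hd]
      rw [hd_NW_eq, hd_NW_eq, Finset.sum_mul_sum]
  -- pointwise bound
  have hpt : ∀ T T' : Fin n → Fin k → Fin n,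
      |(Set.ncard {z : Fin n × Fin n | alive m (ball T m z.1, ball T' m z.2)} : ℝ)
          - P2 k lam m {x | alive m x} * (n:ℝ) ^ 2| ≤
      (n : ℝ) ^ 2 * ∑ S ∈ P, ∑ S' ∈ P, (|(NW T m S : ℝ) / n - nu k lam m S| +
        |(NW T' m S' : ℝ) / n - nu k lam m S'|) := by
    intro T T'
    rw [hcount, al_eq_sum k (by omega) lam hlam m, Finset.sum_mul, ← Finset.sum_sub_distrib,
      Finset.mul_sum]
    refine (Finset.abs_sum_le_sum_abs _ _).trans (Finset.sum_le_sum fun S hS => ?_)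
    rw [Finset.sum_mul, ← Finset.sum_sub_distrib, Finset.mul_sum]
    refine (Finset.abs_sum_le_sum_abs _ _).trans (Finset.sum_le_sum fun S' hS' => ?_)
    by_cases hd : Disjoint S S'
    · rw [if_pos hd, if_pos hd]
      simp only [zero_mul, sub_zero, abs_zero]
      positivity
    · rw [if_neg hd, if_neg hd]
      have hs := hd_nu_mem k lam (by omega) hlam m S (Finset.mem_powerset.mp hS)
      have e : (NW T m S : ℝ) * NW T' m S' - nu k lam m S * nu k lam m S' * (n : ℝ) ^ 2 =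
          (n : ℝ) ^ 2 * ((NW T m S : ℝ) / n * ((NW T' m S' : ℝ) / n) -
            nu k lam m S * nu k lam m S') := by
        field_simp
      rw [e, abs_mul, abs_of_nonneg (by positivity : (0 : ℝ) ≤ (n : ℝ) ^ 2)]
      refine mul_le_mul_of_nonneg_left ?_ (by positivity)
      refine hd_prod_bd _ _ _ _ (by positivity) ?_ hs.1 hs.2
      rw [div_le_one hn0]
      exact hd_NW_le T' m S'
  calc ∑ T ∈ Ω, ∑ T' ∈ Ω,
        |(Set.ncard {z : Fin n × Fin n | alive m (ball T m z.1, ball T' m z.2)} : ℝ)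
          - P2 k lam m {x | alive m x} * (n:ℝ) ^ 2|
      ≤ ∑ T ∈ Ω, ∑ T' ∈ Ω, (n : ℝ) ^ 2 * ∑ S ∈ P, ∑ S' ∈ P,
        (|(NW T m S : ℝ) / n - nu k lam m S| + |(NW T' m S' : ℝ) / n - nu k lam m S'|) :=
        Finset.sum_le_sum fun T _ => Finset.sum_le_sum fun T' _ => hpt T T'
    _ = (n : ℝ) ^ 2 * ∑ S ∈ P, ∑ S' ∈ P, ∑ T ∈ Ω, ∑ T' ∈ Ω,
        (|(NW T m S : ℝ) / n - nu k lam m S| + |(NW T' m S' : ℝ) / n - nu k lam m S'|) := by
        simp only [← Finset.mul_sum]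
        congr 1
        calc _ = ∑ T ∈ Ω, ∑ S ∈ P, ∑ T' ∈ Ω, ∑ S' ∈ P,
              (|(NW T m S : ℝ) / n - nu k lam m S| + |(NW T' m S' : ℝ) / n - nu k lam m S'|) :=
              Finset.sum_congr rfl fun T _ => Finset.sum_comm
          _ = ∑ S ∈ P, ∑ T ∈ Ω, ∑ T' ∈ Ω, ∑ S' ∈ P,
              (|(NW T m S : ℝ) / n - nu k lam m S| + |(NW T' m S' : ℝ) / n - nu k lam m S'|) :=
              Finset.sum_comm
          _ = ∑ S ∈ P, ∑ T ∈ Ω, ∑ S' ∈ P, ∑ T' ∈ Ω,
              (|(NW T m S : ℝ) / n - nu k lam m S| + |(NW T' m S' : ℝ) / n - nu k lam m S'|) :=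
              Finset.sum_congr rfl fun S _ => Finset.sum_congr rfl fun T _ => Finset.sum_comm
          _ = _ := Finset.sum_congr rfl fun S _ => Finset.sum_comm
    _ ≤ (n : ℝ) ^ 2 * ∑ S ∈ P, ∑ S' ∈ P, (2 * δ * (Ω.card : ℝ) ^ 2) := by
        refine mul_le_mul_of_nonneg_left ?_ (by positivity)
        refine Finset.sum_le_sum fun S hS => Finset.sum_le_sum fun S' hS' => ?_
        have a1 := hconc S hS
        have a2 := hconc S' hS'
        simp only [Finset.sum_add_distrib, Finset.sum_const, nsmul_eq_mul]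
        rw [← Finset.mul_sum]
        nlinarith
    _ = (n : ℝ) ^ 2 * (N * (N * (2 * δ * (Ω.card : ℝ) ^ 2))) := by
        simp [hN]
    _ ≤ ε * (n:ℝ) ^ 2 * (Ω.card : ℝ) ^ 2 := by
        have hb : 2 * N ^ 2 * δ ≤ ε := by
          rw [hδ, mul_div_assoc', div_le_iff₀ hN1]
          nlinarith
        have : (n : ℝ) ^ 2 * (N * (N * (2 * δ * (Ω.card : ℝ) ^ 2))) =
            (2 * N ^ 2 * δ) * ((n : ℝ) ^ 2 * (Ω.card : ℝ) ^ 2) := by ring
        rw [this, mul_assoc ε]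
        exact mul_le_mul_of_nonneg_right hb (mul_nonneg (sq_nonneg _) (sq_nonneg _))
end AS
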