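import Pool.Agent.Helper513.AS.HA
import Pool.Agent.Helper513.AS.HB
import Pool.Agent.Helper513.AS.E4

set_option autoImplicit false

namespace AS
open Finset RA SI
section



end

/-- pairs of states reachable from `(o,o)` -/
def ReachO {n k : ℕ} (o : Fin n) (T T' : Fin n → Fin k → Fin n) : Set (Fin n × Fin n) :=
  {z | ∃ w : List (Fin k), run T o w = z.1 ∧ run T' o w = z.2}


/-- class of `T` -/
noncomputable def clz {n k : ℕ} (o : Fin n) (m : ℕ) (p : Fin n) (T : Fin n → Fin k → Fin n) :
    Finset (Fin n → Fin k → Fin n) :=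
  Om T (bX T m p) (bK T m p) ((Finset.univ \ bK T m p).erase o)

theorem Om_congr {V : Type} [Fintype V] {k : ℕ} {T0 T1 : V → Fin k → V}
    {X : Finset (V × Fin k)} {K R R' : Finset V} (h : ∀ c ∈ X, T0 c.1 c.2 = T1 c.1 c.2)
    (hR : R = R') :
    Om T0 X K R = Om T1 X K R' := by
  subst hR
  classical
  ext T
  simp only [Om, Finset.mem_filter, Finset.mem_univ, true_and]
  constructor
  · rintro ⟨h1, h2, h3⟩
    exact ⟨fun c hc => (h1 c hc).trans (h c hc), h2, h3⟩
  · rintro ⟨h1, h2, h3⟩
    exact ⟨fun c hc => (h1 c hc).trans (h c hc).symm, h2, h3⟩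

theorem clz_props {n k : ℕ} (T0 T : Fin n → Fin k → Fin n) (o p : Fin n) (m : ℕ)
    (hT : T ∈ Om T0 ∅ ∅ (Finset.univ.erase o)) (ho : o ∉ bst T m p) :
    T ∈ clz o m p T ∧ ∀ T' ∈ clz o m p T, clz o m p T' = clz o m p T ∧
      T' ∈ Om T0 ∅ ∅ (Finset.univ.erase o) ∧ o ∉ bst T' m p := by
  obtain ⟨h1, h2⟩ := ball_class T0 T o p m hT ho
  refine ⟨h1, ?_⟩
  intro T' hT'
  obtain ⟨h3, h4, h5, h6, h7⟩ := h2 T' hT'
  refine ⟨?_, h3, ?_⟩
  · unfold clz
    rw [h6, h7]
    apply Om_congr _ rfl
    intro c hc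
    have hT'' : T' ∈ Om T (bX T m p) (bK T m p) ((Finset.univ \ bK T m p).erase o) := hT'
    simp only [Om, Finset.mem_filter, Finset.mem_univ, true_and] at hT''
    exact hT''.1 c hc
  · rw [h5]; exact ho

theorem mem_inl_HE {n k : ℕ} (T : Fin n → Fin k → Fin n) (s : Fin n) (c : Fin n × Fin k) :
    c ∈ inl T s ↔ T c.1 c.2 = s := by
  unfold inl
  rw [List.mem_filter]
  constructor
  · rintro ⟨_, h⟩
    simpa using h
  · intro h
    refine ⟨?_, by simpa using h⟩
    obtain ⟨a, b⟩ := c
    rw [List.pair_mem_product]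
    exact ⟨List.mem_finRange a, List.mem_finRange b⟩

theorem mem_bK {n k : ℕ} (T : Fin n → Fin k → Fin n) (m : ℕ) :
    ∀ (p y : Fin n) (u : List (Fin k)), u.length < m → run T y u = p → y ∈ bK T m p := by
  induction m with
  | zero => intro p y u h; exact absurd h (Nat.not_lt_zero _)
  | succ m ih =>
    intro p y u hu hr
    rcases List.eq_nil_or_concat u with rfl | ⟨v, a, rfl⟩
    · have : y = p := hr
      subst this
      unfold bK
      exact Finset.mem_insert_self _ _
    · unfold bK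
      apply Finset.mem_insert_of_mem
      rw [Finset.mem_biUnion]
      have hr' : T (run T y v) a = p := by
        rw [← hr]
        unfold run
        rw [List.concat_eq_append, List.foldl_append]
        rfl
      refine ⟨(run T y v, a), ?_, ?_⟩
      · rw [List.mem_toFinset, mem_inl_HE]
        exact hr'
      · apply ih _ y v _ rfl
        rw [List.length_concat] at hu
        omega

theorem run_same {n k : ℕ} (T P : Fin n → Fin k → Fin n) (m : ℕ) (p : Fin n)
    (hP : ∀ c ∈ bX T m p, P c.1 c.2 = T c.1 c.2) :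
    ∀ (u : List (Fin k)) (x : Fin n), u.length ≤ m → run T x u = p → run P x u = p := by
  intro u
  induction u with
  | nil => intro x _ h; exact h
  | cons a u ih =>
    intro x hu hr
    have hr' : run T (T x a) u = p := hr
    rw [List.length_cons] at hu
    have h1 : T x a ∈ bK T m p := mem_bK T m p (T x a) u (by omega) hr'
    have h2 : (x, a) ∈ bX T m p := (ball_props T m p).2.2.2.1 (x, a) h1
    have h3 : P x a = T x a := hP (x, a) h2
    show run P (P x a) u = p
    rw [h3]
    exact ih (T x a) (by omega) hr'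

theorem run_traj {n k : ℕ} (T : Fin n → Fin k → Fin n) (p : Fin n) (W : ℕ → Fin k) (L : ℕ) :
    run T p ((List.range L).map W) = traj T p W L := by
  induction L with
  | zero => rfl
  | succ L ih =>
    rw [List.range_succ, List.map_append]
    unfold run at ih ⊢
    rw [List.foldl_append, ih]
    rfl

/-- TARGET -/
theorem unreached_matched (k : ℕ) (hk : 2 ≤ k) (m M b : ℕ) (hM : 1 ≤ M) (ε : ℝ) (hε : 0 < ε) :
    ∃ n0 : ℕ, ∀ n, n0 ≤ n → ∀ (o p q : Fin n) (T0 : Fin n → Fin k → Fin n),
      (Set.ncard {P : (Fin n → Fin k → Fin n) × (Fin n → Fin k → Fin n) |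
          P.1 ∈ Om T0 ∅ ∅ (Finset.univ.erase o) ∧ P.2 ∈ Om T0 ∅ ∅ (Finset.univ.erase o) ∧
          (o ∉ bst P.1 m p ∧ (bst P.1 m p).card = nn m (ball P.1 m p) ∧ (bst P.1 m p).card ≤ b) ∧
          (o ∉ bst P.2 m q ∧ (bst P.2 m q).card = nn m (ball P.2 m q) ∧ (bst P.2 m q).card ≤ b) ∧
          M ≤ cm m (ball P.1 m p, ball P.2 m q) ∧ (p, q) ∉ ReachO o P.1 P.2} : ℝ)
        ≤ (12 / M + ε) * ((Om T0 ∅ ∅ (Finset.univ.erase o)).card : ℝ) ^ 2 := by
  classical
  obtain ⟨n0, hn0⟩ := second_moment k hk M b hM ε hε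
  refine ⟨n0, ?_⟩
  intro n hn o p q T0
  have hκ : (0:ℝ) ≤ 12 / M + ε := by positivity
  set Ω := Om T0 ∅ ∅ (Finset.univ.erase o) with hΩ
  let D1 : Finset (Fin n → Fin k → Fin n) := Ω.filter (fun T => o ∉ bst T m p)
  let D2 : Finset (Fin n → Fin k → Fin n) := Ω.filter (fun T => o ∉ bst T m q)
  let D := D1 ×ˢ D2
  let S : Finset ((Fin n → Fin k → Fin n) × (Fin n → Fin k → Fin n)) :=
    Finset.univ.filter (fun P => P.1 ∈ Ω ∧ P.2 ∈ Ω ∧
          (o ∉ bst P.1 m p ∧ (bst P.1 m p).card = nn m (ball P.1 m p) ∧ (bst P.1 m p).card ≤ b) ∧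
          (o ∉ bst P.2 m q ∧ (bst P.2 m q).card = nn m (ball P.2 m q) ∧ (bst P.2 m q).card ≤ b) ∧
          M ≤ cm m (ball P.1 m p, ball P.2 m q) ∧ (p, q) ∉ ReachO o P.1 P.2)
  have hS : (Set.ncard {P : (Fin n → Fin k → Fin n) × (Fin n → Fin k → Fin n) |
          P.1 ∈ Ω ∧ P.2 ∈ Ω ∧
          (o ∉ bst P.1 m p ∧ (bst P.1 m p).card = nn m (ball P.1 m p) ∧ (bst P.1 m p).card ≤ b) ∧
          (o ∉ bst P.2 m q ∧ (bst P.2 m q).card = nn m (ball P.2 m q) ∧ (bst P.2 m q).card ≤ b) ∧
          M ≤ cm m (ball P.1 m p, ball P.2 m q) ∧ (p, q) ∉ ReachO o P.1 P.2}) = S.card := by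
    rw [← Set.ncard_coe_finset]
    congr 1
    ext P
    simp only [S, Set.mem_ofPred_eq, Finset.coe_filter, Finset.mem_univ, true_and]
  rw [hS]
  let f : (Fin n → Fin k → Fin n) × (Fin n → Fin k → Fin n) →
      Finset (Fin n → Fin k → Fin n) × Finset (Fin n → Fin k → Fin n) :=
    fun P => (clz o m p P.1, clz o m q P.2)
  have hSD : S ⊆ D := by
    intro P hP
    simp only [S, Finset.mem_filter, Finset.mem_univ, true_and] at hP
    obtain ⟨h1, h2, h3, h4, _⟩ := hP
    simp only [D, D1, D2, Finset.mem_product, Finset.mem_filter]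
    exact ⟨⟨h1, h3.1⟩, ⟨h2, h4.1⟩⟩
  have c1 : S.card = ∑ c ∈ D.image f, (S.filter (fun P => f P = c)).card :=
    Finset.card_eq_sum_card_fiberwise (fun P hP => Finset.mem_image_of_mem f (hSD hP))
  have c2 : D.card = ∑ c ∈ D.image f, (D.filter (fun P => f P = c)).card :=
    Finset.card_eq_sum_card_fiberwise (fun P hP => Finset.mem_image_of_mem f hP)
  have key : ∀ c ∈ D.image f, ((S.filter (fun P => f P = c)).card : ℝ) ≤
      (12 / M + ε) * ((D.filter (fun P => f P = c)).card : ℝ) := by
    intro c _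
    rcases Finset.eq_empty_or_nonempty (S.filter (fun P => f P = c)) with he | ⟨TT, hTT⟩
    · rw [he, Finset.card_empty, Nat.cast_zero]
      positivity
    · obtain ⟨T, T'⟩ := TT
      rw [Finset.mem_filter] at hTT
      obtain ⟨hTS, hTf⟩ := hTT
      simp only [S, Finset.mem_filter, Finset.mem_univ, true_and] at hTS
      obtain ⟨h1, h2, ⟨h3, h4, h5⟩, ⟨h6, h7, h8⟩, h9, h10⟩ := hTS
      obtain ⟨x, y, u, hx, hy, hu, hxp, hyp⟩ := matched T T' m M p q h4 h7 h9
      have hb1 := ball_props T m p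
      have hb2 := ball_props T' m q
      have hcl1 := clz_props T0 T o p m h1 h3
      have hcl2 := clz_props T0 T' o q m h2 h6
      have hsm := hn0 n hn o T T' (bX T m p) (bX T' m q) (bK T m p) (bK T' m q)
        (bst T m p) (bst T' m q) x y hb1.1 hb2.1 hb1.2.1 hb2.2.1 h3 h6 h5 h8 hx hy
        (fun i => ⟨(hxp i).1, (hxp i).2.1⟩) (fun i => ⟨(hyp i).1, (hyp i).2.1⟩)
      have hsub : ((S.filter (fun P => f P = c)).card : ℝ) ≤
        (Set.ncard {P : (Fin n → Fin k → Fin n) × (Fin n → Fin k → Fin n) |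
          P.1 ∈ Om T (bX T m p) (bK T m p) ((Finset.univ \ (bK T m p)).erase o) ∧
          P.2 ∈ Om T' (bX T' m q) (bK T' m q) ((Finset.univ \ (bK T' m q)).erase o) ∧
          ¬ ∃ (W : ℕ → Fin k) (L : ℕ) (i : Fin M),
            traj P.1 o W L = x i ∧ traj P.2 o W L = y i} : ℝ) := by
        rw [← Set.ncard_coe_finset]
        apply Nat.cast_le.2
        apply Set.ncard_le_ncard _ (Set.toFinite _)
        intro P hP
        rw [Finset.mem_coe, Finset.mem_filter] at hP
        obtain ⟨hPS, hPf⟩ := hP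
        simp only [S, Finset.mem_filter, Finset.mem_univ, true_and] at hPS
        obtain ⟨g1, g2, ⟨g3, _, _⟩, ⟨g6, _, _⟩, g9, g10⟩ := hPS
        have e : f P = f (T, T') := hPf.trans hTf.symm
        have e1 : clz o m p P.1 = clz o m p T := congrArg Prod.fst e
        have e2 : clz o m q P.2 = clz o m q T' := congrArg Prod.snd e
        have m1 : P.1 ∈ clz o m p T := by
          rw [← e1]; exact (clz_props T0 P.1 o p m g1 g3).1
        have m2 : P.2 ∈ clz o m q T' := by
          rw [← e2]; exact (clz_props T0 P.2 o q m g2 g6).1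
        refine ⟨m1, m2, ?_⟩
        rintro ⟨W, L, i, hi1, hi2⟩
        apply g10
        have a1 : ∀ c ∈ bX T m p, P.1 c.1 c.2 = T c.1 c.2 := by
          have : P.1 ∈ Om T (bX T m p) (bK T m p) ((Finset.univ \ bK T m p).erase o) := m1
          simp only [Om, Finset.mem_filter, Finset.mem_univ, true_and] at this
          exact this.1
        have a2 : ∀ c ∈ bX T' m q, P.2 c.1 c.2 = T' c.1 c.2 := by
          have : P.2 ∈ Om T' (bX T' m q) (bK T' m q) ((Finset.univ \ bK T' m q).erase o) := m2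
          simp only [Om, Finset.mem_filter, Finset.mem_univ, true_and] at this
          exact this.1
        refine ⟨(List.range L).map W ++ u i, ?_, ?_⟩
        · have r1 := run_same T P.1 m p a1 (u i) (x i) (hu i).le (hxp i).2.2
          have r2 := run_traj P.1 o W L
          show run P.1 o ((List.range L).map W ++ u i) = p
          unfold run at r1 r2 ⊢
          rw [List.foldl_append, r2, hi1, r1]
        · have r1 := run_same T' P.2 m q a2 (u i) (y i) (hu i).le (hyp i).2.2
          have r2 := run_traj P.2 o W L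
          show run P.2 o ((List.range L).map W ++ u i) = q
          unfold run at r1 r2 ⊢
          rw [List.foldl_append, r2, hi2, r1]
      have hD : (clz o m p T) ×ˢ (clz o m q T') ⊆ D.filter (fun P => f P = c) := by
        intro P hP
        rw [Finset.mem_product] at hP
        obtain ⟨g1, g2, g3⟩ := hcl1.2 P.1 hP.1
        obtain ⟨g4, g5, g6⟩ := hcl2.2 P.2 hP.2
        rw [Finset.mem_filter]
        constructor
        · simp only [D, D1, D2, Finset.mem_product, Finset.mem_filter]
          exact ⟨⟨g2, g3⟩, ⟨g5, g6⟩⟩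
        · rw [← hTf]
          show (clz o m p P.1, clz o m q P.2) = (clz o m p T, clz o m q T')
          rw [g1, g4]
      have hDc : ((clz o m p T).card : ℝ) * ((clz o m q T').card : ℝ) ≤
          ((D.filter (fun P => f P = c)).card : ℝ) := by
        have := Finset.card_le_card hD
        rw [Finset.card_product] at this
        exact_mod_cast this
      calc ((S.filter (fun P => f P = c)).card : ℝ)
          ≤ _ := hsub
        _ ≤ (12 / M + ε) * (((clz o m p T).card : ℝ) * ((clz o m q T').card : ℝ)) := hsm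
        _ ≤ _ := mul_le_mul_of_nonneg_left hDc hκ
  calc (S.card : ℝ) = ∑ c ∈ D.image f, ((S.filter (fun P => f P = c)).card : ℝ) := by
        rw [c1]; push_cast; rfl
    _ ≤ ∑ c ∈ D.image f, (12 / M + ε) * ((D.filter (fun P => f P = c)).card : ℝ) :=
        Finset.sum_le_sum key
    _ = (12 / M + ε) * (D.card : ℝ) := by
        rw [← Finset.mul_sum, c2]; push_cast; rfl
    _ ≤ (12 / M + ε) * ((Ω.card : ℝ) ^ 2) := by
        apply mul_le_mul_of_nonneg_left _ hκ
        have h1 : D1.card ≤ Ω.card := Finset.card_filter_le _ _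
        have h2 : D2.card ≤ Ω.card := Finset.card_filter_le _ _
        have h3 : D.card = D1.card * D2.card := Finset.card_product _ _
        rw [h3, sq]
        push_cast
        apply mul_le_mul (by exact_mod_cast h1) (by exact_mod_cast h2) (by positivity)
          (by positivity)
end AS
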