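import Pool.Agent.Helper513.AS.HE
import Pool.Agent.Helper513.AS.HC
import Pool.Agent.Helper513.AS.D4c

set_option autoImplicit false

namespace AS
open Finset RA SI






theorem unreached_alive (k : ℕ) (lam : ℝ) (hk : 2 ≤ k) (hlam : 0 < lam)
    (h : lam = k * (1 - Real.exp (-lam))) (η : ℝ) (hη : 0 < η) :
    ∃ m n0 : ℕ, ∀ n, n0 ≤ n → ∀ (o p q : Fin n) (T0 : Fin n → Fin k → Fin n), p ≠ o → q ≠ o →
      (Set.ncard {P : (Fin n → Fin k → Fin n) × (Fin n → Fin k → Fin n) |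
          P.1 ∈ Om T0 ∅ ∅ (Finset.univ.erase o) ∧ P.2 ∈ Om T0 ∅ ∅ (Finset.univ.erase o) ∧
          alive m (ball P.1 m p, ball P.2 m q) ∧ (p, q) ∉ ReachO o P.1 P.2} : ℝ)
        ≤ η * ((Om T0 ∅ ∅ (Finset.univ.erase o)).card : ℝ) ^ 2 := by
  have hη16 : 0 < η / 16 := by positivity
  obtain ⟨M0, hM0⟩ := exists_nat_gt (12 / (η / 16))
  let M : ℕ := M0 + 1
  have hM1 : 1 ≤ M := Nat.le_add_left 1 M0
  have hM : (12 : ℝ) / M ≤ η / 16 := by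
    have h1 : (12 : ℝ) / (η / 16) ≤ M := by
      have : (M : ℝ) = M0 + 1 := by push_cast [M]; ring
      rw [this]
      linarith
    have hMpos : (0 : ℝ) < M := by exact_mod_cast hM1
    rw [div_le_iff₀ hη16] at h1
    rw [div_le_iff₀ hMpos]
    linarith
  obtain ⟨s, m1, hfew⟩ := few_matched k hk lam hlam M (η / 16) hη16
  obtain ⟨b1, n1, htv1⟩ := tv1 k lam hk hlam h m1 (η / 16) hη16
  obtain ⟨b2, n2, htv2⟩ := tv1 k lam hk hlam h (s + m1) (η / 16) hη16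
  obtain ⟨n3, hun1⟩ := unreached_matched k hk m1 M b1 hM1 (η / 16) hη16
  obtain ⟨n4, hun2⟩ := unreached_matched k hk (s + m1) M b2 hM1 (η / 16) hη16
  obtain ⟨n5, htvP⟩ := tvP2 k lam hk hlam h (s + m1) (η / 16) hη16
  refine ⟨s + m1, n1 + n2 + n3 + n4 + n5, fun n hn o p q T0 hpo hqo => ?_⟩
  have e1 := fun x hx => (htv1 n (by omega) o x T0 hx).2
  have e2 := fun x hx => (htv2 n (by omega) o x T0 hx).2
  have u1 := hun1 n (by omega) o p q T0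
  have u2 := hun2 n (by omega) o p q T0
  have z1 := htvP n (by omega) o p q T0 hpo hqo
    {x | alive (s + m1) x ∧ cm m1 (trunc m1 x.1, trunc m1 x.2) < M ∧ cm (s + m1) x < M}
  clear htv1 htv2 hun1 hun2 htvP
  generalize hΩ : Om T0 ∅ ∅ (Finset.univ.erase o) = Ω at *
  -- product sets
  have hprod1 : ∀ (Q : (Fin n → Fin k → Fin n) → Prop),
      (Set.ncard {T | T ∈ Ω ∧ Q T} : ℝ) ≤ (η / 16) * Ω.card →
      (Set.ncard {P : (Fin n → Fin k → Fin n) × (Fin n → Fin k → Fin n) |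
        P.1 ∈ Ω ∧ P.2 ∈ Ω ∧ Q P.1} : ℝ) ≤ (η / 16) * (Ω.card : ℝ) ^ 2 := by
    intro Q hQ
    have h1 : {P : (Fin n → Fin k → Fin n) × (Fin n → Fin k → Fin n) |
        P.1 ∈ Ω ∧ P.2 ∈ Ω ∧ Q P.1} = {T | T ∈ Ω ∧ Q T} ×ˢ (Ω : Set (Fin n → Fin k → Fin n)) := by
      ext P
      simp only [Set.mem_ofPred_eq, Set.mem_prod, Finset.mem_coe]
      tauto
    rw [h1, Set.ncard_prod, Set.ncard_coe_finset]
    push_cast
    calc (Set.ncard {T | T ∈ Ω ∧ Q T} : ℝ) * Ω.card ≤ ((η / 16) * Ω.card) * Ω.card :=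
          mul_le_mul_of_nonneg_right hQ (Nat.cast_nonneg _)
      _ = _ := by ring
  have hprod2 : ∀ (Q : (Fin n → Fin k → Fin n) → Prop),
      (Set.ncard {T | T ∈ Ω ∧ Q T} : ℝ) ≤ (η / 16) * Ω.card →
      (Set.ncard {P : (Fin n → Fin k → Fin n) × (Fin n → Fin k → Fin n) |
        P.1 ∈ Ω ∧ P.2 ∈ Ω ∧ Q P.2} : ℝ) ≤ (η / 16) * (Ω.card : ℝ) ^ 2 := by
    intro Q hQ
    have h1 : {P : (Fin n → Fin k → Fin n) × (Fin n → Fin k → Fin n) |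
        P.1 ∈ Ω ∧ P.2 ∈ Ω ∧ Q P.2} = (Ω : Set (Fin n → Fin k → Fin n)) ×ˢ {T | T ∈ Ω ∧ Q T} := by
      ext P
      simp only [Set.mem_ofPred_eq, Set.mem_prod, Finset.mem_coe]
    rw [h1, Set.ncard_prod, Set.ncard_coe_finset]
    push_cast
    calc (Ω.card : ℝ) * (Set.ncard {T | T ∈ Ω ∧ Q T} : ℝ) ≤ Ω.card * ((η / 16) * Ω.card) :=
          mul_le_mul_of_nonneg_left hQ (Nat.cast_nonneg _)
      _ = _ := by ring
  have a1 := hprod1 _ (e1 p hpo)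
  have a2 := hprod2 _ (e1 q hqo)
  have a3 := hprod1 _ (e2 p hpo)
  have a4 := hprod2 _ (e2 q hqo)
  have hzz : (Set.ncard {P : (Fin n → Fin k → Fin n) × (Fin n → Fin k → Fin n) |
            P.1 ∈ Ω ∧ P.2 ∈ Ω ∧
            (ball P.1 (s + m1) p, ball P.2 (s + m1) q) ∈ {x : Tr k (s + m1) × Tr k (s + m1) |
              alive (s + m1) x ∧ cm m1 (trunc m1 x.1, trunc m1 x.2) < M ∧
                cm (s + m1) x < M}} : ℝ) ≤ (η / 16 + η / 16) * (Ω.card : ℝ) ^ 2 :=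
    z1.trans (mul_le_mul_of_nonneg_right (add_le_add hfew le_rfl) (sq_nonneg _))
  have hu1 := u1.trans (mul_le_mul_of_nonneg_right (add_le_add hM le_rfl)
    (sq_nonneg _))
  have hu2 := u2.trans (mul_le_mul_of_nonneg_right (add_le_add hM le_rfl)
    (sq_nonneg _))
  clear u1 u2 z1 e1 e2
  -- the union bound
  refine le_trans (Nat.cast_le.mpr (Set.ncard_le_ncard (t :=
    ({P : (Fin n → Fin k → Fin n) × (Fin n → Fin k → Fin n) | P.1 ∈ Ω ∧ P.2 ∈ Ω ∧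
      ¬ (o ∉ bst P.1 m1 p ∧ (bst P.1 m1 p).card = nn m1 (ball P.1 m1 p) ∧
        (bst P.1 m1 p).card ≤ b1)} ∪
    ({P | P.1 ∈ Ω ∧ P.2 ∈ Ω ∧
      ¬ (o ∉ bst P.2 m1 q ∧ (bst P.2 m1 q).card = nn m1 (ball P.2 m1 q) ∧
        (bst P.2 m1 q).card ≤ b1)} ∪
    ({P | P.1 ∈ Ω ∧ P.2 ∈ Ω ∧
      ¬ (o ∉ bst P.1 (s + m1) p ∧ (bst P.1 (s + m1) p).card = nn (s + m1) (ball P.1 (s + m1) p) ∧
        (bst P.1 (s + m1) p).card ≤ b2)} ∪
    ({P | P.1 ∈ Ω ∧ P.2 ∈ Ω ∧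
      ¬ (o ∉ bst P.2 (s + m1) q ∧ (bst P.2 (s + m1) q).card = nn (s + m1) (ball P.2 (s + m1) q) ∧
        (bst P.2 (s + m1) q).card ≤ b2)} ∪
    ({P | P.1 ∈ Ω ∧ P.2 ∈ Ω ∧
          (o ∉ bst P.1 m1 p ∧ (bst P.1 m1 p).card = nn m1 (ball P.1 m1 p) ∧
            (bst P.1 m1 p).card ≤ b1) ∧
          (o ∉ bst P.2 m1 q ∧ (bst P.2 m1 q).card = nn m1 (ball P.2 m1 q) ∧
            (bst P.2 m1 q).card ≤ b1) ∧
          M ≤ cm m1 (ball P.1 m1 p, ball P.2 m1 q) ∧ (p, q) ∉ ReachO o P.1 P.2} ∪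
    ({P | P.1 ∈ Ω ∧ P.2 ∈ Ω ∧
          (o ∉ bst P.1 (s + m1) p ∧
            (bst P.1 (s + m1) p).card = nn (s + m1) (ball P.1 (s + m1) p) ∧
            (bst P.1 (s + m1) p).card ≤ b2) ∧
          (o ∉ bst P.2 (s + m1) q ∧
            (bst P.2 (s + m1) q).card = nn (s + m1) (ball P.2 (s + m1) q) ∧
            (bst P.2 (s + m1) q).card ≤ b2) ∧
          M ≤ cm (s + m1) (ball P.1 (s + m1) p, ball P.2 (s + m1) q) ∧
          (p, q) ∉ ReachO o P.1 P.2} ∪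
    {P | P.1 ∈ Ω ∧ P.2 ∈ Ω ∧
            (ball P.1 (s + m1) p, ball P.2 (s + m1) q) ∈ {x : Tr k (s + m1) × Tr k (s + m1) |
              alive (s + m1) x ∧ cm m1 (trunc m1 x.1, trunc m1 x.2) < M ∧
                cm (s + m1) x < M}}))))))) ?_ (Set.toFinite _))) ?_
  · rintro P ⟨hP1, hP2, hal, hre⟩
    by_cases c1 : (o ∉ bst P.1 m1 p ∧ (bst P.1 m1 p).card = nn m1 (ball P.1 m1 p) ∧
        (bst P.1 m1 p).card ≤ b1)
    swap
    · exact Or.inl ⟨hP1, hP2, c1⟩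
    by_cases c2 : (o ∉ bst P.2 m1 q ∧ (bst P.2 m1 q).card = nn m1 (ball P.2 m1 q) ∧
        (bst P.2 m1 q).card ≤ b1)
    swap
    · exact Or.inr (Or.inl ⟨hP1, hP2, c2⟩)
    by_cases c3 : (o ∉ bst P.1 (s + m1) p ∧
        (bst P.1 (s + m1) p).card = nn (s + m1) (ball P.1 (s + m1) p) ∧
        (bst P.1 (s + m1) p).card ≤ b2)
    swap
    · exact Or.inr (Or.inr (Or.inl ⟨hP1, hP2, c3⟩))
    by_cases c4 : (o ∉ bst P.2 (s + m1) q ∧
        (bst P.2 (s + m1) q).card = nn (s + m1) (ball P.2 (s + m1) q) ∧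
        (bst P.2 (s + m1) q).card ≤ b2)
    swap
    · exact Or.inr (Or.inr (Or.inr (Or.inl ⟨hP1, hP2, c4⟩)))
    by_cases c5 : M ≤ cm m1 (ball P.1 m1 p, ball P.2 m1 q)
    · exact Or.inr (Or.inr (Or.inr (Or.inr (Or.inl ⟨hP1, hP2, c1, c2, c5, hre⟩))))
    by_cases c6 : M ≤ cm (s + m1) (ball P.1 (s + m1) p, ball P.2 (s + m1) q)
    · exact Or.inr (Or.inr (Or.inr (Or.inr (Or.inr (Or.inl ⟨hP1, hP2, c3, c4, c6, hre⟩)))))
    · refine Or.inr (Or.inr (Or.inr (Or.inr (Or.inr (Or.inr ⟨hP1, hP2, hal, ?_, ?_⟩)))))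
      · show cm m1 (trunc m1 (ball P.1 (s + m1) p), trunc m1 (ball P.2 (s + m1) q)) < M
        rw [trunc_ball, trunc_ball]
        exact not_le.mp c5
      · exact not_le.mp c6
  · have hsq : 0 ≤ η * (Ω.card : ℝ) ^ 2 := mul_nonneg hη.le (sq_nonneg _)
    refine le_trans (Nat.cast_le.mpr ((Set.ncard_union_le _ _).trans (Nat.add_le_add_left
      ((Set.ncard_union_le _ _).trans (Nat.add_le_add_left
      ((Set.ncard_union_le _ _).trans (Nat.add_le_add_left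
      ((Set.ncard_union_le _ _).trans (Nat.add_le_add_left
      ((Set.ncard_union_le _ _).trans (Nat.add_le_add_left
      (Set.ncard_union_le _ _) _)) _)) _)) _)) _))) ?_
    push_cast
    nlinarith [a1, a2, a3, a4, hu1, hu2, hzz]
end AS
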