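import Pool.Agent.Helper513.AS.HF1
import Pool.Agent.Helper513.AS.HD
import Pool.Agent.Helper513.AS.D4c
import Pool.Agent.Helper513.AS.HA

set_option autoImplicit false

namespace AS
open Finset RA SI Filter Topology





theorem al_tendsto (k : ℕ) (hk : 2 ≤ k) (lam : ℝ) (h0 : 0 < lam) :
    Tendsto (al k lam) atTop (𝓝 (⨅ m, al k lam m)) ∧ (∀ m, (⨅ m, al k lam m) ≤ al k lam m) ∧
      0 ≤ ⨅ m, al k lam m := by
  have h1 : ∀ m, 0 ≤ al k lam m := fun m => ((P2_univ k (by omega) lam h0 m).2 _).1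
  have hb : BddBelow (Set.range (al k lam)) := ⟨0, by rintro _ ⟨m, rfl⟩; exact h1 m⟩
  exact ⟨tendsto_atTop_ciInf (al_antitone k hk lam h0) hb, fun m => ciInf_le hb m, le_ciInf h1⟩

theorem hf2_ncard {α : Type} [Fintype α] (P : α → Prop) [DecidablePred P] :
    {z | P z}.ncard = (Finset.univ.filter P).card := by
  classical
  rw [← Set.ncard_coe_finset]
  congr 1
  ext z
  simp

/-- upper side -/
theorem hf2_upper {n k : ℕ} (hk : 2 ≤ k) (o : Fin n) (T T' : Fin n → Fin k → Fin n) (m : ℕ) :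
    (ReachO o T T').ncard ≤
      Set.ncard {z : Fin n × Fin n | alive m (ball T m z.1, ball T' m z.2)} + k ^ m := by
  classical
  have hsub : ReachO o T T' ⊆ {z : Fin n × Fin n | alive m (ball T m z.1, ball T' m z.2)} ∪
      (((Finset.range m).biUnion (fun i => (Finset.univ : Finset (Fin i → Fin k)).image
        (fun v => (run T o (List.ofFn v), run T' o (List.ofFn v))))  : Finset (Fin n × Fin n)) :
        Set (Fin n × Fin n)) := by
    rintro z ⟨w, h1, h2⟩
    by_cases hw : m ≤ w.length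
    · left
      refine ⟨(w.drop (w.length - m)).reverse, ?_, ?_⟩
      · rw [cnt_ball_pos]
        refine ⟨by simp; omega, run T o (w.take (w.length - m)), ?_⟩
        rw [List.reverse_reverse, ← h1]
        unfold run
        rw [← List.foldl_append, List.take_append_drop]
      · rw [cnt_ball_pos]
        refine ⟨by simp; omega, run T' o (w.take (w.length - m)), ?_⟩
        rw [List.reverse_reverse, ← h2]
        unfold run
        rw [← List.foldl_append, List.take_append_drop]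
    · right
      rw [Finset.mem_coe, Finset.mem_biUnion]
      refine ⟨w.length, Finset.mem_range.2 (by omega), ?_⟩
      rw [Finset.mem_image]
      refine ⟨fun i => w.get i, Finset.mem_univ _, ?_⟩
      rw [List.ofFn_get]
      exact Prod.ext h1 h2
  refine (Set.ncard_le_ncard hsub (Set.toFinite _)).trans ?_
  refine (Set.ncard_union_le _ _).trans ?_
  apply Nat.add_le_add_left
  rw [Set.ncard_coe_finset]
  refine Finset.card_biUnion_le.trans ?_
  have h1 : ∀ i ∈ Finset.range m, ((Finset.univ : Finset (Fin i → Fin k)).image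
        (fun v => (run T o (List.ofFn v), run T' o (List.ofFn v)))).card ≤ k ^ i := by
    intro i _
    refine Finset.card_image_le.trans ?_
    simp
  refine (Finset.sum_le_sum h1).trans ?_
  exact (Nat.geomSum_lt hk (fun i hi => Finset.mem_range.1 hi)).le

theorem hf2_lower {n k : ℕ} (o : Fin n) (T T' : Fin n → Fin k → Fin n) (m : ℕ) :
    Set.ncard {z : Fin n × Fin n | alive m (ball T m z.1, ball T' m z.2)} ≤
    (ReachO o T T').ncard +
      Set.ncard {z : Fin n × Fin n | alive m (ball T m z.1, ball T' m z.2) ∧ z ∉ ReachO o T T'} := by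
  have hsub : {z : Fin n × Fin n | alive m (ball T m z.1, ball T' m z.2)} ⊆
    ReachO o T T' ∪ {z : Fin n × Fin n | alive m (ball T m z.1, ball T' m z.2) ∧ z ∉ ReachO o T T'} := by
    intro z hz
    by_cases h : z ∈ ReachO o T T'
    · left; exact h
    · right; exact ⟨hz, h⟩
  exact (Set.ncard_le_ncard hsub (Set.toFinite _)).trans (Set.ncard_union_le _ _)

theorem hf2_sumU {n k : ℕ} (o : Fin n) (O : Finset (Fin n → Fin k → Fin n)) (m : ℕ) (η : ℝ)
    (h0 : 0 ≤ η)
    (h : ∀ p q : Fin n, p ≠ o → q ≠ o →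
      (Set.ncard {P : (Fin n → Fin k → Fin n) × (Fin n → Fin k → Fin n) |
          P.1 ∈ O ∧ P.2 ∈ O ∧
          alive m (ball P.1 m p, ball P.2 m q) ∧ (p, q) ∉ ReachO o P.1 P.2} : ℝ)
        ≤ η * (O.card : ℝ) ^ 2) :
    ∑ T ∈ O, ∑ T' ∈ O, (Set.ncard {z : Fin n × Fin n | alive m (ball T m z.1, ball T' m z.2) ∧
      z ∉ ReachO o T T'} : ℝ) ≤ (η * (n : ℝ) ^ 2 + 2 * n) * (O.card : ℝ) ^ 2 := by
  classical
  have e1 : ∀ T T' : Fin n → Fin k → Fin n, (Set.ncard {z : Fin n × Fin n | alive m (ball T m z.1, ball T' m z.2) ∧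
      z ∉ ReachO o T T'} : ℝ) = ∑ z : Fin n × Fin n,
        if alive m (ball T m z.1, ball T' m z.2) ∧ z ∉ ReachO o T T' then (1 : ℝ) else 0 := by
    intro T T'
    rw [hf2_ncard, Finset.natCast_card_filter]
  simp only [e1]
  rw [← Finset.sum_product' (f := fun T T' => ∑ z : Fin n × Fin n,
        if alive m (ball T m z.1, ball T' m z.2) ∧ z ∉ ReachO o T T' then (1 : ℝ) else 0),
    Finset.sum_comm]
  have hO : (0 : ℝ) ≤ (O.card : ℝ) ^ 2 := by positivity
  have hz : ∀ z : Fin n × Fin n, (∑ x ∈ O ×ˢ O,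
      if alive m (ball x.1 m z.1, ball x.2 m z.2) ∧ z ∉ ReachO o x.1 x.2 then (1 : ℝ) else 0) ≤
      η * (O.card : ℝ) ^ 2 + ((if z.1 = o then (O.card : ℝ) ^ 2 else 0) +
        (if z.2 = o then (O.card : ℝ) ^ 2 else 0)) := by
    intro z
    by_cases hz : z.1 ≠ o ∧ z.2 ≠ o
    · rw [if_neg hz.1, if_neg hz.2, add_zero, add_zero]
      refine le_trans (le_of_eq ?_) (h z.1 z.2 hz.1 hz.2)
      rw [hf2_ncard, ← Finset.natCast_card_filter]
      congr 2
      ext x
      simp only [Finset.mem_filter, Finset.mem_product, Finset.mem_univ, true_and]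
      tauto
    · have h1 : (∑ x ∈ O ×ˢ O,
          if alive m (ball x.1 m z.1, ball x.2 m z.2) ∧ z ∉ ReachO o x.1 x.2 then (1 : ℝ) else 0) ≤
          (O.card : ℝ) ^ 2 := by
        rw [← Finset.natCast_card_filter]
        have h2 : ((O ×ˢ O).filter (fun x => alive m (ball x.1 m z.1, ball x.2 m z.2) ∧
            z ∉ ReachO o x.1 x.2)).card ≤ O.card * O.card := by
          rw [← Finset.card_product]
          exact Finset.card_filter_le _ _
        calc _ ≤ ((O.card * O.card : ℕ) : ℝ) := by exact_mod_cast h2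
          _ = _ := by push_cast; ring
      have h3 : (0 : ℝ) ≤ η * (O.card : ℝ) ^ 2 := mul_nonneg h0 hO
      rw [not_and_or, not_not, not_not] at hz
      rcases hz with hz | hz
      · rw [if_pos hz]
        have : (0 : ℝ) ≤ if z.2 = o then (O.card : ℝ) ^ 2 else 0 := by split_ifs <;> positivity
        linarith
      · rw [if_pos hz]
        have : (0 : ℝ) ≤ if z.1 = o then (O.card : ℝ) ^ 2 else 0 := by split_ifs <;> positivity
        linarith
  refine (Finset.sum_le_sum (fun z _ => hz z)).trans (le_of_eq ?_)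
  rw [Finset.sum_add_distrib, Finset.sum_add_distrib, Finset.sum_const, Finset.card_univ,
    Fintype.card_prod, Fintype.card_fin, ← Finset.univ_product_univ, Finset.sum_product,
    Finset.sum_product]
  simp only [Finset.sum_ite_eq', Finset.mem_univ, if_true, Finset.sum_const, Finset.card_univ,
    Fintype.card_fin, nsmul_eq_mul]
  have hx : (∑ x : Fin n, ∑ _y : Fin n, if x = o then (O.card : ℝ) ^ 2 else 0) = n * (O.card : ℝ) ^ 2 := by
    rw [Finset.sum_comm]
    simp only [Finset.sum_ite_eq', Finset.mem_univ, if_true, Finset.sum_const, Finset.card_univ,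
      Fintype.card_fin, nsmul_eq_mul]
  rw [hx]
  push_cast
  ring

theorem reach_conc (k : ℕ) (lam : ℝ) (hk : 2 ≤ k) (hlam : 0 < lam)
    (h : lam = k * (1 - Real.exp (-lam))) (ε : ℝ) (hε : 0 < ε) :
    ∃ n0 : ℕ, ∀ n, n0 ≤ n → ∀ (o : Fin n) (T0 : Fin n → Fin k → Fin n),
      ∑ T ∈ Om T0 ∅ ∅ (Finset.univ.erase o), ∑ T' ∈ Om T0 ∅ ∅ (Finset.univ.erase o),
        |((ReachO o T T').ncard : ℝ) - (⨅ m, al k lam m) * (n:ℝ) ^ 2|
        ≤ ε * (n:ℝ) ^ 2 * ((Om T0 ∅ ∅ (Finset.univ.erase o)).card : ℝ) ^ 2 := by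
  obtain ⟨ht, hle, h0⟩ := al_tendsto k hk lam hlam
  obtain ⟨c, hc⟩ : ∃ c, c = ⨅ m, al k lam m := ⟨_, rfl⟩
  rw [← hc] at ht hle h0 ⊢
  obtain ⟨m, hm⟩ := (ht.eventually (gt_mem_nhds (show c < c + ε / 8 by linarith))).exists
  obtain ⟨m', n0, hm'⟩ := unreached_alive k lam hk hlam h (ε / 8) (by positivity)
  obtain ⟨n1, hn1⟩ := alive_conc k lam hk hlam h m (ε / 8) (by positivity)
  obtain ⟨n2, hn2⟩ := alive_conc k lam hk hlam h m' (ε / 8) (by positivity)
  obtain ⟨n3, hn3⟩ := exists_nat_ge (16 / ε)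
  obtain ⟨n4, hn4⟩ := exists_nat_ge (8 * (k : ℝ) ^ m / ε)
  refine ⟨n0 + n1 + n2 + n3 + n4 + 1, ?_⟩
  intro n hn o T0
  obtain ⟨O, hO⟩ : ∃ O, O = Om T0 ∅ ∅ (Finset.univ.erase o) := ⟨_, rfl⟩
  have g1 := hn1 n (by omega) o T0
  have g2 := hn2 n (by omega) o T0
  have g3 := hf2_sumU o O m' (ε / 8) (by positivity) (fun p q hp hq => by
    rw [hO]; exact hm' n (by omega) o p q T0 hp hq)
  rw [← hO] at g1 g2 ⊢
  have hn1' : (1 : ℝ) ≤ n := by
    have : 1 ≤ n := by omega
    exact_mod_cast this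
  have hnn : (n : ℝ) ≤ (n : ℝ) ^ 2 := by nlinarith
  have k1 : 2 * (n : ℝ) ≤ ε / 8 * (n : ℝ) ^ 2 := by
    have : (n3 : ℝ) ≤ n := by exact_mod_cast (by omega : n3 ≤ n)
    have h2 : 16 / ε ≤ n := hn3.trans this
    rw [div_le_iff₀ hε] at h2
    nlinarith
  have k2 : (k : ℝ) ^ m ≤ ε / 8 * (n : ℝ) ^ 2 := by
    have : (n4 : ℝ) ≤ n := by exact_mod_cast (by omega : n4 ≤ n)
    have h2 : 8 * (k : ℝ) ^ m / ε ≤ n := hn4.trans this
    rw [div_le_iff₀ hε] at h2
    nlinarith
  have key : ∀ T ∈ O, ∀ T' ∈ O, |((ReachO o T T').ncard : ℝ) - c * (n:ℝ) ^ 2| ≤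
      |(Set.ncard {z : Fin n × Fin n | alive m (ball T m z.1, ball T' m z.2)} : ℝ)
          - P2 k lam m {x | alive m x} * (n:ℝ) ^ 2| +
      |(Set.ncard {z : Fin n × Fin n | alive m' (ball T m' z.1, ball T' m' z.2)} : ℝ)
          - P2 k lam m' {x | alive m' x} * (n:ℝ) ^ 2| +
      (Set.ncard {z : Fin n × Fin n | alive m' (ball T m' z.1, ball T' m' z.2) ∧
        z ∉ ReachO o T T'} : ℝ) + ε / 4 * (n : ℝ) ^ 2 := by
    intro T _ T' _
    have u : ((ReachO o T T').ncard : ℝ) ≤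
      (Set.ncard {z : Fin n × Fin n | alive m (ball T m z.1, ball T' m z.2)} : ℝ) + (k : ℝ) ^ m := by
      exact_mod_cast hf2_upper hk o T T' m
    have l : (Set.ncard {z : Fin n × Fin n | alive m' (ball T m' z.1, ball T' m' z.2)} : ℝ) ≤
      ((ReachO o T T').ncard : ℝ) +
        (Set.ncard {z : Fin n × Fin n | alive m' (ball T m' z.1, ball T' m' z.2) ∧
          z ∉ ReachO o T T'} : ℝ) := by
      exact_mod_cast hf2_lower o T T' m'
    have e1 : P2 k lam m {x | alive m x} = al k lam m := rfl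
    have e2 : P2 k lam m' {x | alive m' x} = al k lam m' := rfl
    rw [e1, e2]
    have a1 := le_abs_self ((Set.ncard {z : Fin n × Fin n | alive m (ball T m z.1, ball T' m z.2)} : ℝ)
          - al k lam m * (n:ℝ) ^ 2)
    have a2 := neg_abs_le ((Set.ncard {z : Fin n × Fin n | alive m' (ball T m' z.1, ball T' m' z.2)} : ℝ)
          - al k lam m' * (n:ℝ) ^ 2)
    have a3 := abs_nonneg ((Set.ncard {z : Fin n × Fin n | alive m (ball T m z.1, ball T' m z.2)} : ℝ)
          - al k lam m * (n:ℝ) ^ 2)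
    have a4 := abs_nonneg ((Set.ncard {z : Fin n × Fin n | alive m' (ball T m' z.1, ball T' m' z.2)} : ℝ)
          - al k lam m' * (n:ℝ) ^ 2)
    have a5 : (0 : ℝ) ≤ (Set.ncard {z : Fin n × Fin n | alive m' (ball T m' z.1, ball T' m' z.2) ∧
          z ∉ ReachO o T T'} : ℝ) := Nat.cast_nonneg _
    have n2 : (0 : ℝ) ≤ (n : ℝ) ^ 2 := by positivity
    have b1 : al k lam m * (n : ℝ) ^ 2 ≤ (c + ε / 8) * (n : ℝ) ^ 2 :=
      mul_le_mul_of_nonneg_right hm.le n2
    have b2 : c * (n : ℝ) ^ 2 ≤ al k lam m' * (n : ℝ) ^ 2 := mul_le_mul_of_nonneg_right (hle m') n2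
    rw [abs_le]
    constructor
    · nlinarith
    · nlinarith
  refine (Finset.sum_le_sum (fun T hT => Finset.sum_le_sum (fun T' hT' => key T hT T' hT'))).trans ?_
  simp only [Finset.sum_add_distrib]
  rw [Finset.sum_const, Finset.sum_const, nsmul_eq_mul, nsmul_eq_mul]
  have hOO : (0 : ℝ) ≤ (O.card : ℝ) ^ 2 := sq_nonneg _
  have c1 : (ε / 8 * (n : ℝ) ^ 2 + 2 * n) * (O.card : ℝ) ^ 2 ≤
      (ε / 4 * (n : ℝ) ^ 2) * (O.card : ℝ) ^ 2 := by
    apply mul_le_mul_of_nonneg_right _ hOO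
    linarith
  have c2 : 0 ≤ ε * (n : ℝ) ^ 2 * (O.card : ℝ) ^ 2 := mul_nonneg (by positivity) hOO
  calc _ ≤ ε / 8 * (n : ℝ) ^ 2 * (O.card : ℝ) ^ 2 + ε / 8 * (n : ℝ) ^ 2 * (O.card : ℝ) ^ 2 +
        (ε / 4 * (n : ℝ) ^ 2) * (O.card : ℝ) ^ 2 + ε / 4 * (n : ℝ) ^ 2 * (O.card : ℝ) ^ 2 := by
        have e : (O.card : ℝ) * (O.card * (ε / 4 * (n : ℝ) ^ 2)) =
          ε / 4 * (n : ℝ) ^ 2 * (O.card : ℝ) ^ 2 := by ring
        rw [e]
        linarith
    _ ≤ _ := by linarith
end AS
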