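import Pool.Agent.Helper513.AS.HF2
import Pool.Agent.Helper513.AS.F6
import Pool.Agent.Helper513.AS.G1

set_option autoImplicit false

namespace AS
open Finset RA SI Filter Topology




theorem main_limit (k : ℕ) (lam : ℝ) (hk : 2 ≤ k) (hlam : 0 < lam)
    (h : lam = k * (1 - Real.exp (-lam))) :
    Tendsto (fun n : ℕ => E (Fin k) n / (n:ℝ) ^ 2) atTop (𝓝 (⨅ m, al k lam m)) := by
  classical
  obtain ⟨C, mC, hC⟩ := Om_le_acc k hk
  have key : Tendsto (fun m : ℕ => E (Fin k) (m + 1) / ((m:ℝ) + 1) ^ 2) atTop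
      (𝓝 (⨅ m, al k lam m)) := by
    apply final_of_reach k hk
    intro ε hε
    have hε' : 0 < ε / ((C : ℝ) ^ 2 + 1) := by positivity
    obtain ⟨n0, hn0⟩ := reach_conc k lam hk hlam h (ε / ((C : ℝ) ^ 2 + 1)) hε'
    refine ⟨max n0 mC, fun m hm => ?_⟩
    have hm1 : n0 ≤ m := (le_max_left _ _).trans hm
    have hm2 : mC ≤ m := (le_max_right _ _).trans hm
    have h1 := hn0 (m + 1) (by omega) 0 (fun _ _ => 0)
    have h2 := hC m hm2 (fun _ _ => 0)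
    have hsub : ∀ T : Fin (m+1) → Fin k → Fin (m+1), RA.Acc T 0 →
        T ∈ Om (fun _ _ => (0 : Fin (m+1))) ∅ ∅ (Finset.univ.erase 0) := fun T hT =>
      acc_sub_Om k m (fun _ _ => 0) hT
    set O : Finset (Fin (m+1) → Fin k → Fin (m+1)) :=
      Om (fun _ _ => (0 : Fin (m+1))) ∅ ∅ (Finset.univ.erase 0) with hO
    set A : ℕ := Set.ncard {T : Fin (m+1) → Fin k → Fin (m+1) | RA.Acc T 0} with hA
    have h3 : (O.card : ℝ) ≤ C * A := by exact_mod_cast h2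
    have h4 : ∑ T ∈ O, ∑ T' ∈ O, |((Reach T T').ncard : ℝ) - (⨅ m, al k lam m) * ((m:ℝ) + 1) ^ 2|
        ≤ ε / ((C : ℝ) ^ 2 + 1) * ((m:ℝ) + 1) ^ 2 * (O.card : ℝ) ^ 2 := by
      have h5 := h1
      push_cast at h5
      exact h5
    refine le_trans (le_trans ?_ h4) ?_
    · refine le_trans (Finset.sum_le_sum fun T _ => Finset.sum_le_sum_of_subset_of_nonneg
        (t := O) (fun T' hT' => hsub T' (Finset.mem_filter.1 hT').2)
        (fun T' _ _ => abs_nonneg _)) ?_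
      exact Finset.sum_le_sum_of_subset_of_nonneg
        (fun T hT => hsub T (Finset.mem_filter.1 hT).2)
        (fun T _ _ => Finset.sum_nonneg fun T' _ => abs_nonneg _)
    · have h6 : (O.card : ℝ) ^ 2 ≤ (C : ℝ) ^ 2 * (A : ℝ) ^ 2 := by
        rw [← mul_pow]
        exact pow_le_pow_left₀ (Nat.cast_nonneg _) h3 2
      have h7 : ε / ((C : ℝ) ^ 2 + 1) * ((C : ℝ) ^ 2 * (A : ℝ) ^ 2) ≤ ε * (A : ℝ) ^ 2 := by
        have h8 : ε / ((C : ℝ) ^ 2 + 1) * ((C : ℝ) ^ 2 * (A : ℝ) ^ 2) =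
            ε * (A : ℝ) ^ 2 * ((C : ℝ) ^ 2 / ((C : ℝ) ^ 2 + 1)) := by
          ring
        rw [h8]
        have h9 : (C : ℝ) ^ 2 / ((C : ℝ) ^ 2 + 1) ≤ 1 := by
          rw [div_le_one (by positivity)]
          linarith
        exact mul_le_of_le_one_right (by positivity) h9
      calc ε / ((C : ℝ) ^ 2 + 1) * ((m:ℝ) + 1) ^ 2 * (O.card : ℝ) ^ 2
          ≤ ε / ((C : ℝ) ^ 2 + 1) * ((m:ℝ) + 1) ^ 2 * ((C : ℝ) ^ 2 * (A : ℝ) ^ 2) :=
            mul_le_mul_of_nonneg_left h6 (by positivity)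
        _ = ((m:ℝ) + 1) ^ 2 * (ε / ((C : ℝ) ^ 2 + 1) * ((C : ℝ) ^ 2 * (A : ℝ) ^ 2)) := by ring
        _ ≤ ((m:ℝ) + 1) ^ 2 * (ε * (A : ℝ) ^ 2) := mul_le_mul_of_nonneg_left h7 (by positivity)
        _ = ε * ((m:ℝ) + 1) ^ 2 * (A : ℝ) ^ 2 := by ring
  have h1 : Tendsto (fun m : ℕ => E (Fin k) (m + 1) / (((m + 1 : ℕ) : ℝ)) ^ 2) atTop
      (𝓝 (⨅ m, al k lam m)) := by
    refine key.congr fun m => ?_
    push_cast
    rfl
  exact (tendsto_add_atTop_iff_nat (f := fun n : ℕ => E (Fin k) n / (n:ℝ) ^ 2) 1).1 h1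

end AS
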