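import Pool.Agent.Helper513.AS.Defs

set_option autoImplicit false

namespace AS
open Finset
theorem sti_uniq {α : Type} (R : α → α → Prop) (hir : ∀ a, ¬ R a a)
    (has : ∀ a b, R a b → ¬ R b a) :
    ∀ (l1 l2 : List α), l1.Pairwise R → l2.Pairwise R → (∀ a, a ∈ l1 ↔ a ∈ l2) → l1 = l2 := by
  intro l1
  induction l1 with
  | nil =>
    intro l2 _ _ h
    symm
    rw [List.eq_nil_iff_forall_not_mem]
    intro a ha
    exact absurd ((h a).mpr ha) (by simp)
  | cons a t1 ih =>
    intro l2 h1 h2 h
    cases l2 with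
    | nil => exact absurd ((h a).mp (by simp)) (by simp)
    | cons b t2 =>
      rw [List.pairwise_cons] at h1 h2
      have hab : a = b := by
        by_contra hne
        have ha : a ∈ t2 := by
          have := (h a).mp (by simp)
          rcases List.mem_cons.mp this with h' | h'
          · exact absurd h' hne
          · exact h'
        have hb : b ∈ t1 := by
          have := (h b).mpr (by simp)
          rcases List.mem_cons.mp this with h' | h'
          · exact absurd h'.symm hne
          · exact h'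
        exact has _ _ (h1.1 b hb) (h2.1 a ha)
      subst hab
      congr 1
      apply ih t2 h1.2 h2.2
      intro c
      constructor
      · intro hc
        have := (h c).mp (List.mem_cons_of_mem _ hc)
        rcases List.mem_cons.mp this with h' | h'
        · subst h'; exact absurd (h1.1 _ hc) (hir _)
        · exact h'
      · intro hc
        have := (h c).mpr (List.mem_cons_of_mem _ hc)
        rcases List.mem_cons.mp this with h' | h'
        · subst h'; exact absurd (h2.1 _ hc) (hir _)
        · exact h'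

theorem sti_fin (n : ℕ) : (List.finRange n).Pairwise (· < ·) := by
  rw [List.pairwise_iff_getElem]
  intro i j hi hj hij
  simp only [List.getElem_finRange]
  exact hij

theorem sti_inl {n k : ℕ} (T : Fin n → Fin k → Fin n) (s : Fin n) :
    (inl T s).Pairwise (fun c d => c.1 < d.1 ∨ (c.1 = d.1 ∧ c.2 < d.2)) := by
  unfold inl
  apply List.Pairwise.filter
  unfold List.product
  rw [List.pairwise_flatMap]
  constructor
  · intro a _
    rw [List.pairwise_map]
    exact (sti_fin k).imp (fun h => Or.inr ⟨rfl, h⟩)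
  · apply (sti_fin n).imp
    intro a b hab c hc d hd
    rw [List.mem_map] at hc hd
    obtain ⟨e, _, rfl⟩ := hc
    obtain ⟨e', _, rfl⟩ := hd
    exact Or.inl hab

theorem sti_mem_inl {n k : ℕ} (T : Fin n → Fin k → Fin n) (s : Fin n) (c : Fin n × Fin k) :
    c ∈ inl T s ↔ T c.1 c.2 = s := by
  obtain ⟨a, b⟩ := c
  unfold inl
  rw [List.mem_filter]
  have hm : (a, b) ∈ (List.finRange n).product (List.finRange k) := by
    unfold List.product
    rw [List.mem_flatMap]
    exact ⟨a, List.mem_finRange a, List.mem_map.mpr ⟨b, List.mem_finRange b, rfl⟩⟩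
  simp [hm]

theorem sti_fst {n k m : ℕ} : ∀ (x : List (Fin n)) (l : List (Fin k × Tr k m)),
    x.length = l.length → (List.zip x (l.map Prod.fst)).map Prod.fst = x := by
  intro x l h
  rw [List.map_fst_zip]
  simp [h]

theorem sti_ball {n k m : ℕ} (T : Fin n → Fin k → Fin n) :
    ∀ (x : List (Fin n)) (l : List (Fin k × Tr k m)), x.length = l.length →
    (∀ r ∈ List.zipWith (fun y (c : Fin k × Tr k m) => ((⟨m, c.2⟩ : Σ m, Tr k m), y)) x l,
      ball T r.1.1 r.2 = r.1.2) →
    (List.zip x (l.map Prod.fst)).map (fun c => (c.2, ball T m c.1)) = l := by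
  intro x
  induction x with
  | nil =>
    intro l h _
    cases l with
    | nil => rfl
    | cons c l => simp at h
  | cons y x ih =>
    intro l h hr
    cases l with
    | nil => simp at h
    | cons c l =>
      simp only [List.map_cons, List.zip_cons_cons, List.zipWith_cons_cons, List.mem_cons,
        forall_eq_or_imp] at hr ⊢
      rw [ih l (by simpa using h) hr.2, hr.1]

theorem sti_memz {n k m : ℕ} :
    ∀ (x : List (Fin n)) (l : List (Fin k × Tr k m)) (c : Fin n × Fin k),
    c ∈ List.zip x (l.map Prod.fst) → ∃ τ : Tr k m, ((⟨m, τ⟩ : Σ m, Tr k m), c.1) ∈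
      List.zipWith (fun y (c : Fin k × Tr k m) => ((⟨m, c.2⟩ : Σ m, Tr k m), y)) x l := by
  intro x
  induction x with
  | nil => intro l c hc; simp at hc
  | cons y x ih =>
    intro l c hc
    cases l with
    | nil => simp at hc
    | cons d l =>
      simp only [List.map_cons, List.zip_cons_cons, List.mem_cons] at hc
      rcases hc with rfl | hc
      · exact ⟨d.2, by simp⟩
      · obtain ⟨τ, hτ⟩ := ih l c hc
        exact ⟨τ, by rw [List.zipWith_cons_cons]; exact List.mem_cons_of_mem _ hτ⟩

theorem sti_card {n k m : ℕ} (T : Fin n → Fin k → Fin n) :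
    ∀ (x : List (Fin n)) (l : List (Fin k × Tr k m)), x.length = l.length →
    (∀ r ∈ List.zipWith (fun y (c : Fin k × Tr k m) => ((⟨m, c.2⟩ : Σ m, Tr k m), y)) x l,
      (bst T r.1.1 r.2).card = nn r.1.1 r.1.2) →
    (List.zipWith (fun y (c : Fin k × Tr k m) => ((⟨m, c.2⟩ : Σ m, Tr k m), y)) x l).Pairwise
      (fun r r' => Disjoint (bst T r.1.1 r.2) (bst T r'.1.1 r'.2)) →
    ((List.zip x (l.map Prod.fst)).toFinset.biUnion (fun c => bst T m c.1)).card
      = (l.map (fun c : Fin k × Tr k m => nn m c.2)).sum := by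
  intro x
  induction x with
  | nil =>
    intro l h _ _
    cases l with
    | nil => rfl
    | cons c l => simp at h
  | cons y x ih =>
    intro l h hr hp
    cases l with
    | nil => simp at h
    | cons c l =>
      simp only [List.map_cons, List.zip_cons_cons, List.zipWith_cons_cons, List.mem_cons,
        forall_eq_or_imp, List.pairwise_cons, List.toFinset_cons, List.sum_cons] at hr hp ⊢
      rw [Finset.biUnion_insert, Finset.card_union_of_disjoint,
        ih l (by simpa using h) hr.2 hp.2, hr.1]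
      rw [Finset.disjoint_biUnion_right]
      intro d hd
      rw [List.mem_toFinset] at hd
      obtain ⟨τ, hτ⟩ := sti_memz x l d hd
      exact hp.1 _ hτ

theorem sti_Om {V : Type} [Fintype V] {k : ℕ} (T0 : V → Fin k → V)
    (X : Finset (V × Fin k)) (K R : Finset V) (T : V → Fin k → V) :
    T ∈ Om T0 X K R ↔ (∀ c ∈ X, T c.1 c.2 = T0 c.1 c.2) ∧ (∀ c, c ∉ X → T c.1 c.2 ∉ K) ∧
    ∀ r ∈ R, ∃ c, c ∉ X ∧ T c.1 c.2 = r := by
  classical
  unfold Om
  simp only [Finset.mem_filter, Finset.mem_univ, true_and]

theorem step_incl {n k : ℕ} (o : Fin n) (T0 : Fin n → Fin k → Fin n) (X : Finset (Fin n × Fin k))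
    (K Av : Finset (Fin n)) (R' : List ((Σ m, Tr k m) × Fin n)) (s0 : Fin n) (m : ℕ)
    (l : List (Fin k × Tr k m)) (x : List (Fin n))
    (hlen : x.length = l.length) (hl : l ≠ [])
    (hKA : K ⊆ Av) (hoA : o ∈ Av)
    (hXA : ∀ c ∈ X, c.1 ∈ Av ∨ c.1 = s0 ∨ ∃ r ∈ R', r.2 = c.1)
    (hT0 : ∀ c ∈ X, T0 c.1 c.2 ∈ K) (hs0 : s0 ∉ Av)
    (hx : x.Pairwise (· < ·)) (hxA : ∀ y ∈ x, y ∉ Av ∧ y ≠ s0 ∧ ∀ r ∈ R', r.2 ≠ y)
    (T : Fin n → Fin k → Fin n)
    (hT : T ∈ Om (fun v a => if (v, a) ∈ List.zip x (l.map Prod.fst) then s0 else T0 v a)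
      (X ∪ (List.zip x (l.map Prod.fst)).toFinset) (insert s0 K)
      ((Finset.univ \ (insert s0 K)).erase o))
    (hG : GoodB T (insert s0 Av)
      (List.zipWith (fun y (c : Fin k × Tr k m) => ((⟨m, c.2⟩ : Σ m, Tr k m), y)) x l ++ R')) :
    T ∈ Om T0 X K ((Finset.univ \ K).erase o) ∧
      GoodB T Av (((⟨m + 1, l⟩ : Σ m, Tr k m), s0) :: R') ∧
      inl T s0 = List.zip x (l.map Prod.fst) := by
  set C := List.zip x (l.map Prod.fst) with hC
  have hCx : ∀ c ∈ C, c.1 ∈ x := fun c hc => (List.of_mem_zip hc).1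
  have hCX : ∀ c ∈ C, c ∉ X := by
    intro c hc hcX
    obtain ⟨h1, h2, h3⟩ := hxA c.1 (hCx c hc)
    rcases hXA c hcX with h | h | ⟨r, hr, hrc⟩
    · exact h1 h
    · exact h2 h
    · exact h3 r hr hrc
  have hs0K : s0 ∉ K := fun h => hs0 (hKA h)
  rw [sti_Om] at hT
  obtain ⟨ha, hb, hc⟩ := hT
  have haC : ∀ c ∈ C, T c.1 c.2 = s0 := by
    intro c hcC
    have h1 : T c.1 c.2 = if c ∈ C then s0 else T0 c.1 c.2 :=
      ha c (Finset.mem_union_right _ (List.mem_toFinset.mpr hcC))
    rw [h1, if_pos hcC]
  have haX : ∀ c ∈ X, T c.1 c.2 = T0 c.1 c.2 := by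
    intro c hcX
    have h1 : T c.1 c.2 = if c ∈ C then s0 else T0 c.1 c.2 :=
      ha c (Finset.mem_union_left _ hcX)
    rw [h1, if_neg (fun hcC => hCX c hcC hcX)]
  have hnot : ∀ c, c ∉ X → c ∉ C → T c.1 c.2 ∉ insert s0 K := by
    intro c h1 h2
    apply hb c
    rw [Finset.mem_union, List.mem_toFinset]
    rintro (h | h)
    · exact h1 h
    · exact h2 h
  have hinl : inl T s0 = C := by
    apply sti_uniq (fun c d : Fin n × Fin k => c.1 < d.1 ∨ (c.1 = d.1 ∧ c.2 < d.2))
    · rintro a (h | ⟨_, h⟩)
      · exact lt_irrefl _ h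
      · exact lt_irrefl _ h
    · rintro a b (h | ⟨h, h'⟩) (g | ⟨g, g'⟩)
      · exact lt_asymm h g
      · rw [g] at h; exact lt_irrefl _ h
      · rw [h] at g; exact lt_irrefl _ g
      · exact lt_asymm h' g'
    · exact sti_inl T s0
    · have h1 : (C.map Prod.fst).Pairwise (· < ·) := by
        rw [hC, sti_fst x l hlen]
        exact hx
      rw [List.pairwise_map] at h1
      exact h1.imp (fun h => Or.inl h)
    · intro c
      rw [sti_mem_inl]
      constructor
      · intro h
        by_contra hcC
        by_cases hcX : c ∈ X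
        · have h1 := hT0 c hcX
          rw [← haX c hcX, h] at h1
          exact hs0K h1
        · have h1 := hnot c hcX hcC
          rw [h] at h1
          exact h1 (Finset.mem_insert_self _ _)
      · exact haC c
  refine ⟨?_, ?_, hinl⟩
  · rw [sti_Om]
    refine ⟨haX, ?_, ?_⟩
    · intro c hcX
      by_cases hcC : c ∈ C
      · rw [haC c hcC]; exact hs0K
      · exact fun h => hnot c hcX hcC (Finset.mem_insert_of_mem h)
    · intro r hr
      rw [Finset.mem_erase, Finset.mem_sdiff] at hr
      by_cases hrs : r = s0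
      · have hCne : C ≠ [] := by
          intro h0
          have h1 : C.length = l.length := by
            rw [hC, List.length_zip, List.length_map, hlen, Nat.min_self]
          rw [h0] at h1
          exact hl (List.eq_nil_of_length_eq_zero h1.symm)
        obtain ⟨c, hcC⟩ := List.exists_mem_of_ne_nil C hCne
        exact ⟨c, hCX c hcC, by rw [haC c hcC, hrs]⟩
      · obtain ⟨c, hcn, hcr⟩ := hc r (by
          rw [Finset.mem_erase, Finset.mem_sdiff, Finset.mem_insert]
          refine ⟨hr.1, Finset.mem_univ _, ?_⟩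
          rintro (h | h)
          · exact hrs h
          · exact hr.2.2 h)
        exact ⟨c, fun h => hcn (Finset.mem_union_left _ h), hcr⟩
  · obtain ⟨g1, g2⟩ := hG
    rw [List.pairwise_append] at g2
    obtain ⟨p1, p2, p3⟩ := g2
    have gz : ∀ r ∈ List.zipWith (fun y (c : Fin k × Tr k m) => ((⟨m, c.2⟩ : Σ m, Tr k m), y)) x l,
        ball T r.1.1 r.2 = r.1.2 ∧ Disjoint (bst T r.1.1 r.2) (insert s0 Av) ∧
          (bst T r.1.1 r.2).card = nn r.1.1 r.1.2 :=
      fun r hr => g1 r (List.mem_append_left _ hr)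
    have gR : ∀ r ∈ R', ball T r.1.1 r.2 = r.1.2 ∧ Disjoint (bst T r.1.1 r.2) (insert s0 Av) ∧
          (bst T r.1.1 r.2).card = nn r.1.1 r.1.2 :=
      fun r hr => g1 r (List.mem_append_right _ hr)
    have hbst : bst T (m + 1) s0 = insert s0 (C.toFinset.biUnion (fun c => bst T m c.1)) := by
      show insert s0 ((inl T s0).toFinset.biUnion (fun c => bst T m c.1)) = _
      rw [hinl]
    have hball : ball T (m + 1) s0 = l := by
      show List.map (fun c : Fin n × Fin k => (c.2, ball T m c.1)) (inl T s0) = l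
      rw [hinl]
      exact sti_ball T x l hlen (fun r hr => (gz r hr).1)
    have hdC : ∀ c ∈ C, Disjoint (bst T m c.1) (insert s0 Av) := by
      intro c hcC
      obtain ⟨τ, hτ⟩ := sti_memz x l c hcC
      exact (gz _ hτ).2.1
    have hs0U : s0 ∉ C.toFinset.biUnion (fun c => bst T m c.1) := by
      intro h
      rw [Finset.mem_biUnion] at h
      obtain ⟨c, hcC, hsc⟩ := h
      rw [List.mem_toFinset] at hcC
      exact (Finset.disjoint_left.mp (hdC c hcC) hsc) (Finset.mem_insert_self _ _)
    constructor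
    · intro r hr
      rcases List.mem_cons.mp hr with rfl | hr
      · refine ⟨hball, ?_, ?_⟩
        · show Disjoint (bst T (m + 1) s0) Av
          rw [hbst, Finset.disjoint_insert_left]
          refine ⟨hs0, ?_⟩
          rw [Finset.disjoint_biUnion_left]
          intro c hcC
          rw [List.mem_toFinset] at hcC
          exact Finset.disjoint_of_subset_right (Finset.subset_insert _ _) (hdC c hcC)
        · show (bst T (m + 1) s0).card = 1 + (List.map (fun c : Fin k × Tr k m => nn m c.2) l).sum
          rw [hbst, Finset.card_insert_of_notMem hs0U,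
            sti_card T x l hlen (fun r hr => (gz r hr).2.2) p1]
          ring
      · obtain ⟨q1, q2, q3⟩ := gR r hr
        exact ⟨q1, Finset.disjoint_of_subset_right (Finset.subset_insert _ _) q2, q3⟩
    · rw [List.pairwise_cons]
      refine ⟨?_, p2⟩
      intro r' hr'
      show Disjoint (bst T (m + 1) s0) (bst T r'.1.1 r'.2)
      rw [hbst, Finset.disjoint_insert_left]
      constructor
      · intro h
        exact (Finset.disjoint_left.mp (gR r' hr').2.1 h) (Finset.mem_insert_self _ _)
      · rw [Finset.disjoint_biUnion_left]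
        intro c hcC
        rw [List.mem_toFinset] at hcC
        obtain ⟨τ, hτ⟩ := sti_memz x l c hcC
        exact p3 _ hτ r' hr'
end AS
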