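import Pool.Agent.Helper513.AS.D1
import Pool.Agent.Helper513.AS.B1
import Pool.Agent.Helper513.AS.C4
import Pool.Agent.Helper513.AS.L1

set_option autoImplicit false

namespace AS
open Finset Filter Topology





theorem zw_fst {k m n : ℕ} (x : List (Fin n)) (l : List (Fin k × Tr k m))
    (h : x.length = l.length) :
    (List.zipWith (fun y (c : Fin k × Tr k m) => ((⟨m, c.2⟩ : Σ m, Tr k m), y)) x l).map Prod.fst
      = l.map (fun c => (⟨m, c.2⟩ : Σ m, Tr k m)) := by
  induction x generalizing l with
  | nil =>
    cases l with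
    | nil => simp
    | cons c l => simp at h
  | cons a x ih =>
    cases l with
    | nil => simp at h
    | cons c l =>
      have h' : x.length = l.length := by simpa using h
      have := ih l h'
      simp only [List.zipWith_cons_cons, List.map_cons]
      rw [this]

theorem zw_snd {k m n : ℕ} (x : List (Fin n)) (l : List (Fin k × Tr k m))
    (h : x.length = l.length) :
    (List.zipWith (fun y (c : Fin k × Tr k m) => ((⟨m, c.2⟩ : Σ m, Tr k m), y)) x l).map Prod.snd
      = x := by
  induction x generalizing l with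
  | nil =>
    cases l with
    | nil => simp
    | cons c l => simp at h
  | cons a x ih =>
    cases l with
    | nil => simp at h
    | cons c l =>
      have h' : x.length = l.length := by simpa using h
      have := ih l h'
      simp only [List.zipWith_cons_cons, List.map_cons]
      rw [this]

theorem lim_seq (k : ℕ) (lam : ℝ) (hk : 2 ≤ k) (hlam : 0 < lam)
    (h : lam = k * (1 - Real.exp (-lam))) (t g b' l : ℕ) (q r : ℝ)
    (hq : 0 < q) (hr : r < q * ((lam / k) ^ l / ((l.factorial : ℝ) * (Real.exp lam - 1)))) :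
    ∃ n0 : ℕ, ∀ n, n0 ≤ n →
      r ≤ q * (((n - b').choose l : ℕ) : ℝ) *
        (cvr (n * k - (t + l)) (n - (g + 1)) (n - (g + 1) - 1) : ℝ)
        / (cvr (n * k - t) (n - g) (n - g - 1) : ℝ) := by
  have h1 := cvr_ratio k lam hk hlam h t g l 1
  -- (n - c)/n -> 1
  set c : ℕ := b' + l with hc
  have h2 : Tendsto (fun n : ℕ => (((n - c : ℕ) : ℝ) / (n : ℝ))) atTop (𝓝 1) := by
    have h3 : Tendsto (fun n : ℕ => (1 : ℝ) - (c : ℝ) / (n : ℝ)) atTop (𝓝 (1 - 0)) :=
      tendsto_const_nhds.sub (tendsto_const_div_atTop_nhds_zero_nat (c : ℝ))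
    rw [sub_zero] at h3
    refine h3.congr' ?_
    filter_upwards [eventually_ge_atTop (c + 1)] with n hn
    have hn0 : (n : ℝ) ≠ 0 := by
      have : 0 < n := by omega
      positivity
    rw [Nat.cast_sub (by omega)]
    field_simp
  have h4 : Tendsto (fun n : ℕ => q * ((((n - c : ℕ) : ℝ) / (n : ℝ)) ^ l / (l.factorial : ℝ) *
      ((n : ℝ) ^ l * cvr (n * k - (t + l)) (n - (g + 1)) (n - (g + 1) - 1)
        / cvr (n * k - t) (n - g) (n - g - 1)))) atTop
      (𝓝 (q * ((1 : ℝ) ^ l / (l.factorial : ℝ) * ((lam / k) ^ l / (Real.exp lam - 1) ^ 1)))) :=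
    tendsto_const_nhds.mul (((h2.pow l).div_const _).mul h1)
  have h5 : r < q * ((1 : ℝ) ^ l / (l.factorial : ℝ) * ((lam / k) ^ l / (Real.exp lam - 1) ^ 1)) := by
    have e : q * ((1 : ℝ) ^ l / (l.factorial : ℝ) * ((lam / k) ^ l / (Real.exp lam - 1) ^ 1))
        = q * ((lam / k) ^ l / ((l.factorial : ℝ) * (Real.exp lam - 1))) := by
      rw [one_pow, pow_one, div_mul_div_comm, one_mul]
    rw [e]; exact hr
  have h6 := h4.eventually (lt_mem_nhds h5)
  rw [Filter.eventually_atTop] at h6
  obtain ⟨n1, hn1⟩ := h6
  refine ⟨max n1 (c + 1), fun n hn => ?_⟩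
  have hA := hn1 n (le_trans (le_max_left _ _) hn)
  have hB : c + 1 ≤ n := le_trans (le_max_right _ _) hn
  refine le_trans hA.le ?_
  have hn0 : (0 : ℝ) < (n : ℝ) := by
    have : 0 < n := by omega
    exact_mod_cast this
  have h7 : (((n - c : ℕ) : ℝ)) ^ l / (l.factorial : ℝ) ≤ (((n - b').choose l : ℕ) : ℝ) := by
    have h8 := Nat.pow_le_choose (α := ℝ) l (n - b')
    refine le_trans ?_ h8
    have h9 : (((n - c : ℕ) : ℝ)) ≤ ((n - b' + 1 - l : ℕ) : ℝ) := by
      exact_mod_cast (by omega : n - c ≤ n - b' + 1 - l)
    gcongr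
  have h10 : ((((n - c : ℕ) : ℝ) / (n : ℝ)) ^ l / (l.factorial : ℝ) *
      ((n : ℝ) ^ l * cvr (n * k - (t + l)) (n - (g + 1)) (n - (g + 1) - 1)
        / cvr (n * k - t) (n - g) (n - g - 1)))
      = (((n - c : ℕ) : ℝ)) ^ l / (l.factorial : ℝ) *
        ((cvr (n * k - (t + l)) (n - (g + 1)) (n - (g + 1) - 1) : ℝ)
        / (cvr (n * k - t) (n - g) (n - g - 1) : ℝ)) := by
    rw [div_pow]
    have : (n : ℝ) ^ l ≠ 0 := by positivity
    field_simp
  rw [h10]
  have h11 : q * (((n - b').choose l : ℕ) : ℝ) *
        (cvr (n * k - (t + l)) (n - (g + 1)) (n - (g + 1) - 1) : ℝ)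
        / (cvr (n * k - t) (n - g) (n - g - 1) : ℝ)
      = q * ((((n - b').choose l : ℕ) : ℝ) *
        ((cvr (n * k - (t + l)) (n - (g + 1)) (n - (g + 1) - 1) : ℝ)
        / (cvr (n * k - t) (n - g) (n - g - 1) : ℝ))) := by
    ring
  rw [h11]
  gcongr

theorem sum_ncard_le {α ι : Type} [Finite α] (P : Finset ι) (SA : ι → Set α) (Tg : Set α)
    (h1 : ∀ A ∈ P, ∀ T ∈ SA A, T ∈ Tg)
    (h2 : ∀ A ∈ P, ∀ B ∈ P, A ≠ B → ∀ T ∈ SA A, T ∈ SA B → False) :
    ∑ A ∈ P, (SA A).ncard ≤ Tg.ncard := by
  classical
  have hfin : ∀ S : Set α, S.Finite := fun S => Set.toFinite S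
  have hcard : ∀ S : Set α, S.ncard = (hfin S).toFinset.card :=
    fun S => Set.ncard_eq_toFinset_card S (hfin S)
  have hdisj : (P : Set ι).PairwiseDisjoint (fun A => (hfin (SA A)).toFinset) := by
    intro A hA' B hB' hne
    rw [Function.onFun, Finset.disjoint_left]
    intro T hT1 hT2
    rw [Set.Finite.mem_toFinset] at hT1 hT2
    exact h2 A hA' B hB' hne T hT1 hT2
  have hsub : P.biUnion (fun A => (hfin (SA A)).toFinset) ⊆ (hfin Tg).toFinset := by
    intro T hT
    rw [Finset.mem_biUnion] at hT
    obtain ⟨A, hA', hT⟩ := hT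
    rw [Set.Finite.mem_toFinset] at hT ⊢
    exact h1 A hA' T hT
  rw [hcard Tg]
  refine le_trans ?_ (Finset.card_le_card hsub)
  rw [Finset.card_biUnion hdisj]
  exact le_of_eq (Finset.sum_congr rfl (fun A _ => hcard (SA A)))

theorem one_step {n k : ℕ} (o : Fin n) (T0 : Fin n → Fin k → Fin n) (X : Finset (Fin n × Fin k))
    (K Av : Finset (Fin n)) (R' : List ((Σ m, Tr k m) × Fin n)) (s0 : Fin n) (m : ℕ)
    (l : List (Fin k × Tr k m)) (hl : l ≠ [])
    (hKA : K ⊆ Av) (hoA : o ∈ Av)
    (hXA : ∀ c ∈ X, c.1 ∈ Av ∨ c.1 = s0 ∨ ∃ r ∈ R', r.2 = c.1)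
    (hT0 : ∀ c ∈ X, T0 c.1 c.2 ∈ K) (hs0 : s0 ∉ Av)
    (q : ℝ) (hq : 0 ≤ q) (b : ℕ) (hb : Av.card ≤ b)
    (hA : ∀ x : List (Fin n), x.length = l.length → x.Pairwise (· < ·) →
      (∀ y ∈ x, y ∉ Av ∧ y ≠ s0 ∧ ∀ r ∈ R', r.2 ≠ y) →
      q ≤ Set.ncard {T | T ∈ Om (fun v a => if (v, a) ∈ List.zip x (l.map Prod.fst) then s0
          else T0 v a)
        (X ∪ (List.zip x (l.map Prod.fst)).toFinset) (insert s0 K)
        ((Finset.univ \ (insert s0 K)).erase o) ∧ GoodB T (insert s0 Av)
        (List.zipWith (fun y (c : Fin k × Tr k m) => ((⟨m, c.2⟩ : Σ m, Tr k m), y)) x l ++ R')}) :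
    (((n - (b + 1 + R'.length)).choose l.length : ℕ) : ℝ) * q ≤
      Set.ncard {T | T ∈ Om T0 X K ((Finset.univ \ K).erase o) ∧
        GoodB T Av (((⟨m + 1, l⟩ : Σ m, Tr k m), s0) :: R')} := by
  set Bad : Finset (Fin n) := insert s0 (Av ∪ (R'.map Prod.snd).toFinset) with hBad
  have hBc : Bad.card ≤ b + 1 + R'.length := by
    refine le_trans (Finset.card_insert_le _ _) ?_
    have h1 := Finset.card_union_le Av (R'.map Prod.snd).toFinset
    have h2 := List.toFinset_card_le (R'.map Prod.snd)
    rw [List.length_map] at h2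
    omega
  set P : Finset (Finset (Fin n)) := Finset.powersetCard l.length (Finset.univ \ Bad) with hP
  have hPc : (n - (b + 1 + R'.length)).choose l.length ≤ P.card := by
    rw [hP, Finset.card_powersetCard, Finset.card_sdiff_of_subset (Finset.subset_univ _),
      Finset.card_univ, Fintype.card_fin]
    exact Nat.choose_le_choose _ (by omega)
  have hprop : ∀ A ∈ P, A.sort.length = l.length ∧ A.sort.Pairwise (· < ·) ∧
      (∀ y ∈ A.sort, y ∉ Av ∧ y ≠ s0 ∧ ∀ r ∈ R', r.2 ≠ y) := by
    intro A hA'
    rw [hP, Finset.mem_powersetCard] at hA'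
    refine ⟨by rw [Finset.length_sort]; exact hA'.2, (Finset.sortedLT_sort A).pairwise, ?_⟩
    intro y hy
    rw [Finset.mem_sort] at hy
    have hy1 := hA'.1 hy
    rw [Finset.mem_sdiff, hBad, Finset.mem_insert, Finset.mem_union, List.mem_toFinset,
      List.mem_map] at hy1
    have hy2 := hy1.2
    push Not at hy2
    refine ⟨hy2.2.1, hy2.1, fun r hr => hy2.2.2 r hr⟩
  have hstx : ∀ x : List (Fin n), x.length = l.length → x.Pairwise (· < ·) →
      (∀ y ∈ x, y ∉ Av ∧ y ≠ s0 ∧ ∀ r ∈ R', r.2 ≠ y) →
      ∃ S : Set (Fin n → Fin k → Fin n), q ≤ S.ncard ∧ (∀ T ∈ S, 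
        (T ∈ Om T0 X K ((Finset.univ \ K).erase o) ∧
        GoodB T Av (((⟨m + 1, l⟩ : Σ m, Tr k m), s0) :: R')) ∧
        inl T s0 = List.zip x (l.map Prod.fst)) := by
    intro x p1 p2 p3
    refine ⟨_, hA x p1 p2 p3, ?_⟩
    intro T hT
    rw [Set.mem_ofPred_eq] at hT
    have := step_incl o T0 X K Av R' s0 m l x p1 hl hKA hoA hXA hT0 hs0 p2 p3 T hT.1 hT.2
    exact ⟨⟨this.1, this.2.1⟩, this.2.2⟩
  have hstA : ∀ A : Finset (Fin n), ∃ S : Set (Fin n → Fin k → Fin n), A ∈ P →
      (q ≤ S.ncard ∧ (∀ T ∈ S, 
        (T ∈ Om T0 X K ((Finset.univ \ K).erase o) ∧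
        GoodB T Av (((⟨m + 1, l⟩ : Σ m, Tr k m), s0) :: R')) ∧
        inl T s0 = List.zip A.sort (l.map Prod.fst))) := by
    intro A
    by_cases hAP : A ∈ P
    · obtain ⟨p1, p2, p3⟩ := hprop A hAP
      obtain ⟨S, hS⟩ := hstx A.sort p1 p2 p3
      exact ⟨S, fun _ => hS⟩
    · exact ⟨∅, fun h => absurd h hAP⟩
  choose SA hSA using hstA
  obtain ⟨Tg, hTg⟩ : ∃ Tg : Set (Fin n → Fin k → Fin n),
      Tg = {T | T ∈ Om T0 X K ((Finset.univ \ K).erase o) ∧
        GoodB T Av (((⟨m + 1, l⟩ : Σ m, Tr k m), s0) :: R')} := ⟨_, rfl⟩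
  rw [← hTg]
  have hst : ∀ A ∈ P, ∀ T ∈ SA A, T ∈ Tg ∧ inl T s0 = List.zip A.sort (l.map Prod.fst) := by
    intro A hA' T hT
    have := (hSA A hA').2 T hT
    refine ⟨?_, this.2⟩
    rw [hTg, Set.mem_ofPred_eq]
    exact this.1
  have hle : ∑ A ∈ P, (SA A).ncard ≤ Tg.ncard := by
    refine sum_ncard_le P SA Tg (fun A hA' T hT => (hst A hA' T hT).1) ?_
    intro A hA' B hB' hne T hT1 hT2
    have e1 := (hst A hA' T hT1).2
    have e2 := (hst B hB' T hT2).2
    apply hne
    have e3 : A.sort = B.sort := by
      have f1 := List.map_fst_zip (l₁ := A.sort) (l₂ := l.map Prod.fst)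
        (by rw [List.length_map]; exact (hprop A hA').1.le)
      have f2 := List.map_fst_zip (l₁ := B.sort) (l₂ := l.map Prod.fst)
        (by rw [List.length_map]; exact (hprop B hB').1.le)
      rw [← f1, ← f2, ← e1, ← e2]
    rw [← Finset.sort_toFinset A (· ≤ ·), ← Finset.sort_toFinset B (· ≤ ·), e3]
  have hle2 : (P.card : ℝ) * q ≤ ((∑ A ∈ P, (SA A).ncard : ℕ) : ℝ) := by
    rw [← nsmul_eq_mul, Nat.cast_sum]
    refine Finset.card_nsmul_le_sum _ _ _ ?_
    intro A hA'
    exact (hSA A hA').1
  calc (((n - (b + 1 + R'.length)).choose l.length : ℕ) : ℝ) * q ≤ (P.card : ℝ) * q := by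
        gcongr
    _ ≤ ((∑ A ∈ P, (SA A).ncard : ℕ) : ℝ) := hle2
    _ ≤ (Tg.ncard : ℝ) := by exact_mod_cast hle

/-- local limit theorem for the backward balls of several states -/
theorem local_limit (k : ℕ) (lam : ℝ) (hk : 2 ≤ k) (hlam : 0 < lam)
    (h : lam = k * (1 - Real.exp (-lam))) (Sh : List (Σ m, Tr k m)) :
    ∀ (t g b : ℕ) (ε : ℝ), 0 < ε → ∃ n0 : ℕ, ∀ n, n0 ≤ n → ∀ (o : Fin n)
      (T0 : Fin n → Fin k → Fin n) (X : Finset (Fin n × Fin k)) (K Av : Finset (Fin n))
      (R : List ((Σ m, Tr k m) × Fin n)), R.map Prod.fst = Sh →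
      X.card = t → K.card = g → Av.card ≤ b → K ⊆ Av → o ∈ Av → o ∉ K →
      (∀ c ∈ X, c.1 ∈ Av ∨ ∃ r ∈ R, r.2 = c.1) → (∀ c ∈ X, T0 c.1 c.2 ∈ K) →
      (R.map Prod.snd).Nodup → (∀ r ∈ R, r.2 ∉ Av) →
      ((Sh.map (fun τ => wt k lam τ.1 τ.2)).prod - ε) *
          ((Om T0 X K ((Finset.univ \ K).erase o)).card : ℝ)
        ≤ Set.ncard {T | T ∈ Om T0 X K ((Finset.univ \ K).erase o) ∧ GoodB T Av R} := by
  obtain ⟨N, hN⟩ : ∃ N, (Sh.map (fun τ => nn τ.1 τ.2)).sum = N := ⟨_, rfl⟩
  induction N using Nat.strong_induction_on generalizing Sh with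
  | _ N ih =>
  intro t g b ε hε
  rcases Sh with _ | ⟨⟨m, l⟩, Sh'⟩
  · refine ⟨0, ?_⟩
    intro n _ o T0 X K Av R hR _ _ _ _ _ _ _ _ _ _
    have hR0 : R = [] := by simpa using hR
    subst hR0
    have h1 : {T | T ∈ Om T0 X K ((Finset.univ \ K).erase o) ∧ GoodB T Av []}
        = ((Om T0 X K ((Finset.univ \ K).erase o) : Finset (Fin n → Fin k → Fin n)) :
          Set (Fin n → Fin k → Fin n)) := by
      ext T
      simp [GoodB]
    rw [h1, Set.ncard_coe_finset]
    have h2 : (0 : ℝ) ≤ ((Om T0 X K ((Finset.univ \ K).erase o)).card : ℝ) := Nat.cast_nonneg _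
    simp only [List.map_nil, List.prod_nil]
    nlinarith
  · rcases m with _ | m
    · have hlt : (Sh'.map (fun τ => nn τ.1 τ.2)).sum < N := by
        rw [← hN, List.map_cons, List.sum_cons]
        simp only [nn]
        omega
      obtain ⟨n0, hn0⟩ := ih _ hlt Sh' rfl t g (b + 1) ε hε
      refine ⟨n0, ?_⟩
      intro n hn o T0 X K Av R hR hX hK hAv hKA hoA hoK hXA hT0 hnd hRA
      rcases R with _ | ⟨⟨τ, s0⟩, R'⟩
      · simp at hR
      · rw [List.map_cons, List.cons.injEq] at hR
        obtain ⟨h1, hR'⟩ := hR
        have h1' : τ = ⟨0, l⟩ := h1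
        subst h1'
        rw [List.map_cons, List.nodup_cons] at hnd
        have hs0 : s0 ∉ Av := hRA _ List.mem_cons_self
        have hmain := hn0 n hn o T0 X K (insert s0 Av) R' hR' hX hK
          (le_trans (Finset.card_insert_le _ _) (by omega))
          (hKA.trans (Finset.subset_insert _ _)) (Finset.mem_insert_of_mem hoA) hoK
          (by
            intro c hc
            rcases hXA c hc with h2 | ⟨r, hr, h2⟩
            · exact Or.inl (Finset.mem_insert_of_mem h2)
            · rcases List.mem_cons.1 hr with h3 | h3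
              · left
                rw [← h2, h3]
                exact Finset.mem_insert_self _ _
              · exact Or.inr ⟨r, h3, h2⟩) hT0 hnd.2
          (by
            intro r hr
            rw [Finset.mem_insert, not_or]
            refine ⟨?_, hRA r (List.mem_cons_of_mem _ hr)⟩
            intro h2
            apply hnd.1
            rw [List.mem_map]
            exact ⟨r, hr, h2⟩)
        have hprod : (List.map (fun τ : Σ m, Tr k m => wt k lam τ.1 τ.2)
            (⟨0, l⟩ :: Sh')).prod = (List.map (fun τ : Σ m, Tr k m => wt k lam τ.1 τ.2) Sh').prod := by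
          rw [List.map_cons, List.prod_cons]
          simp only [wt, one_mul]
        rw [hprod]
        refine le_trans hmain ?_
        have hsub : {T | T ∈ Om T0 X K ((Finset.univ \ K).erase o) ∧ GoodB T (insert s0 Av) R'} ⊆
            {T | T ∈ Om T0 X K ((Finset.univ \ K).erase o) ∧
              GoodB T Av (((⟨0, l⟩ : Σ m, Tr k m), s0) :: R')} := by
          intro T hT
          refine ⟨hT.1, ?_, ?_⟩
          · intro r hr
            rcases List.mem_cons.1 hr with h3 | h3
            · subst h3
              refine ⟨Subsingleton.elim (α := Unit) _ _, ?_, ?_⟩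
              · simp only [bst, Finset.disjoint_singleton_left]
                exact hs0
              · simp [bst, nn]
            · obtain ⟨g1, g2, g3⟩ := hT.2.1 r h3
              refine ⟨g1, ?_, g3⟩
              exact Finset.disjoint_of_subset_right (Finset.subset_insert _ _) g2
          · rw [List.pairwise_cons]
            refine ⟨?_, hT.2.2⟩
            intro r hr
            obtain ⟨g1, g2, g3⟩ := hT.2.1 r hr
            simp only [bst]
            rw [Finset.disjoint_singleton_left]
            intro h4
            exact Finset.disjoint_left.1 g2 h4 (Finset.mem_insert_self _ _)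
        exact_mod_cast Set.ncard_le_ncard hsub (Set.toFinite _)
    · change List (Fin k × Tr k m) at l
      have hom0 : ∀ (n : ℕ) (o : Fin n) (T0 : Fin n → Fin k → Fin n)
          (X : Finset (Fin n × Fin k)) (K Av : Finset (Fin n))
          (R : List ((Σ m, Tr k m) × Fin n)) (c : ℝ), c ≤ 0 →
          c * ((Om T0 X K ((Finset.univ \ K).erase o)).card : ℝ)
            ≤ Set.ncard {T | T ∈ Om T0 X K ((Finset.univ \ K).erase o) ∧ GoodB T Av R} := by
        intro n o T0 X K Av R c hc
        have h1 : (0 : ℝ) ≤ ((Om T0 X K ((Finset.univ \ K).erase o)).card : ℝ) :=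
          Nat.cast_nonneg _
        have h2 : (0 : ℝ) ≤ (Set.ncard {T | T ∈ Om T0 X K ((Finset.univ \ K).erase o) ∧
          GoodB T Av R} : ℝ) := Nat.cast_nonneg _
        exact le_trans (mul_nonpos_of_nonpos_of_nonneg hc h1) h2
      by_cases hl0 : l = []
      · refine ⟨0, ?_⟩
        intro n _ o T0 X K Av R _ _ _ _ _ _ _ _ _ _ _
        refine hom0 n o T0 X K Av R _ ?_
        have hz : (List.map (fun τ : Σ m, Tr k m => wt k lam τ.1 τ.2)
            ((⟨m + 1, l⟩ : Σ m, Tr k m) :: Sh')).prod = 0 := by
          rw [List.map_cons, List.prod_cons]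
          simp only [wt, hl0, List.length_nil, if_true, zero_mul]
        rw [hz]
        linarith
      · have hlen : 0 < l.length := List.length_pos_iff.2 hl0
        have hk0 : (0 : ℝ) < (k : ℝ) := by
          have : 0 < k := by omega
          exact_mod_cast this
        have hexp : 0 < Real.exp lam - 1 := by
          have := Real.add_one_lt_exp hlam.ne'
          linarith
        set D : ℝ := (lam / k) ^ l.length / ((l.length.factorial : ℝ) * (Real.exp lam - 1)) with hD
        have hDpos : 0 < D := by
          have : (0 : ℝ) < (l.length.factorial : ℝ) := by exact_mod_cast Nat.factorial_pos _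
          positivity
        obtain ⟨Sh2, hSh2⟩ : ∃ Sh2 : List (Σ m, Tr k m),
          Sh2 = l.map (fun c => (⟨m, c.2⟩ : Σ m, Tr k m)) ++ Sh' := ⟨_, rfl⟩
        obtain ⟨P2, hP2⟩ : ∃ P2 : ℝ, P2 = (Sh2.map (fun τ => wt k lam τ.1 τ.2)).prod := ⟨_, rfl⟩
        have hP : (List.map (fun τ : Σ m, Tr k m => wt k lam τ.1 τ.2)
            ((⟨m + 1, l⟩ : Σ m, Tr k m) :: Sh')).prod = D * P2 := by
          rw [List.map_cons, List.prod_cons, hP2, hSh2, List.map_append, List.prod_append,
            List.map_map]
          simp only [wt]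
          rw [if_neg hlen.ne', hD, mul_assoc]
          rfl
        have hlt : (Sh2.map (fun τ => nn τ.1 τ.2)).sum < N := by
          rw [← hN, List.map_cons, List.sum_cons, hSh2, List.map_append, List.sum_append,
            List.map_map]
          simp only [nn]
          have : ((fun τ : Σ m, Tr k m => nn τ.1 τ.2) ∘ fun c : Fin k × Tr k m =>
            (⟨m, c.2⟩ : Σ m, Tr k m)) = fun c : Fin k × Tr k m => nn m c.2 := rfl
          rw [this]
          omega
        rw [hP]
        obtain ⟨ε', hε'⟩ : ∃ ε' : ℝ, ε' = ε / (2 * D) := ⟨_, rfl⟩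
        have hε'pos : 0 < ε' := by rw [hε']; positivity
        have hDε : D * ε' = ε / 2 := by
          rw [hε']; field_simp
        by_cases hq : P2 ≤ ε'
        · refine ⟨0, ?_⟩
          intro n _ o T0 X K Av R _ _ _ _ _ _ _ _ _ _ _
          refine hom0 n o T0 X K Av R _ ?_
          have : D * P2 ≤ D * ε' := by gcongr
          linarith
        · push Not at hq
          obtain ⟨n0, hn0⟩ := ih _ hlt Sh2 rfl (t + l.length) (g + 1) (b + 1) ε' hε'pos
          obtain ⟨n1, hn1⟩ := lim_seq k lam hk hlam h t g (b + 1 + Sh'.length) l.length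
            (P2 - ε') (D * P2 - ε) (by linarith) (by
              rw [← hD, sub_mul, mul_comm ε' D, hDε, mul_comm P2 D]
              linarith)
          refine ⟨max n0 n1, ?_⟩
          intro n hn o T0 X K Av R hR hX hK hAv hKA hoA hoK hXA hT0 hnd hRA
          have hnn0 := le_trans (le_max_left n0 n1) hn
          have hnn1 := le_trans (le_max_right n0 n1) hn
          rcases R with _ | ⟨⟨τ, s0⟩, R'⟩
          · simp at hR
          rw [List.map_cons, List.cons.injEq] at hR
          obtain ⟨h1, hR'⟩ := hR
          have h1' : τ = ⟨m + 1, l⟩ := h1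
          subst h1'
          rw [List.map_cons, List.nodup_cons] at hnd
          have hs0 : s0 ∉ Av := hRA _ List.mem_cons_self
          have hs0K : s0 ∉ K := fun h2 => hs0 (hKA h2)
          have hos0 : o ≠ s0 := fun h2 => hs0 (h2 ▸ hoA)
          have hXA' : ∀ c ∈ X, c.1 ∈ Av ∨ c.1 = s0 ∨ ∃ r ∈ R', r.2 = c.1 := by
            intro c hc
            rcases hXA c hc with h2 | ⟨r, hr, h2⟩
            · exact Or.inl h2
            · rcases List.mem_cons.1 hr with h3 | h3
              · right; left
                rw [← h2, h3]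
              · exact Or.inr (Or.inr ⟨r, h3, h2⟩)
          have hlenR : R'.length = Sh'.length := by rw [← hR', List.length_map]
          have hcardOm : (Om T0 X K ((Finset.univ \ K).erase o)).card
              = cvr (n * k - t) (n - g) (n - g - 1) := by
            rw [card_Om T0 X K _ (Finset.disjoint_of_subset_left (Finset.erase_subset _ _)
              Finset.sdiff_disjoint), hX, hK, Fintype.card_fin, Finset.card_erase_of_mem (by
                simp [hoK]), Finset.card_sdiff_of_subset (Finset.subset_univ _), Finset.card_univ,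
              Fintype.card_fin, hK]
          have key := one_step o T0 X K Av R' s0 m l hl0 hKA hoA hXA' hT0 hs0
            ((P2 - ε') * (cvr (n * k - (t + l.length)) (n - (g + 1)) (n - (g + 1) - 1) : ℝ))
            (mul_nonneg (by linarith) (Nat.cast_nonneg _)) b hAv (by
              intro x hx1 hx2 hx3
              have hzfst : List.map Prod.fst (List.zip x (l.map Prod.fst)) = x :=
                List.map_fst_zip (by rw [List.length_map]; exact hx1.le)
              have hxnd : x.Nodup := hx2.imp (fun h => h.ne)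
              have hznd : (List.zip x (l.map Prod.fst)).Nodup := by
                apply List.Nodup.of_map Prod.fst
                rw [hzfst]; exact hxnd
              have hzmem : ∀ c ∈ List.zip x (l.map Prod.fst), c.1 ∈ x := by
                intro c hc
                rw [← hzfst]
                exact List.mem_map_of_mem hc
              have hXc : (X ∪ (List.zip x (l.map Prod.fst)).toFinset).card = t + l.length := by
                rw [Finset.card_union_of_disjoint, hX, List.toFinset_card_of_nodup hznd,
                  List.length_zip, List.length_map, hx1, min_self]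
                rw [Finset.disjoint_left]
                intro c hc1 hc2
                rw [List.mem_toFinset] at hc2
                have hc3 := hx3 c.1 (hzmem c hc2)
                rcases hXA' c hc1 with h2 | h2 | ⟨r, hr, h2⟩
                · exact hc3.1 h2
                · exact hc3.2.1 h2
                · exact hc3.2.2 r hr h2
              have hKc : (insert s0 K).card = g + 1 := by
                rw [Finset.card_insert_of_notMem hs0K, hK]
              have hoK' : o ∉ insert s0 K := by
                rw [Finset.mem_insert, not_or]; exact ⟨hos0, hoK⟩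
              have hmain := hn0 n hnn0 o
                (fun v a => if (v, a) ∈ List.zip x (l.map Prod.fst) then s0 else T0 v a)
                (X ∪ (List.zip x (l.map Prod.fst)).toFinset) (insert s0 K) (insert s0 Av)
                (List.zipWith (fun y (c : Fin k × Tr k m) => ((⟨m, c.2⟩ : Σ m, Tr k m), y)) x l
                  ++ R')
                (by rw [List.map_append, zw_fst x l hx1, hR', hSh2])
                hXc hKc (le_trans (Finset.card_insert_le _ _) (by omega))
                (Finset.insert_subset_insert _ hKA) (Finset.mem_insert_of_mem hoA) hoK'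
                (by
                  intro c hc
                  rw [Finset.mem_union, List.mem_toFinset] at hc
                  rcases hc with hc | hc
                  · rcases hXA' c hc with h2 | h2 | ⟨r, hr, h2⟩
                    · exact Or.inl (Finset.mem_insert_of_mem h2)
                    · left; rw [h2]; exact Finset.mem_insert_self _ _
                    · exact Or.inr ⟨r, List.mem_append_right _ hr, h2⟩
                  · right
                    have h2 := hzmem c hc
                    rw [← zw_snd x l hx1, List.mem_map] at h2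
                    obtain ⟨r, hr, h3⟩ := h2
                    exact ⟨r, List.mem_append_left _ hr, h3⟩)
                (by
                  intro c hc
                  rw [Finset.mem_union, List.mem_toFinset] at hc
                  by_cases hcz : (c.1, c.2) ∈ List.zip x (l.map Prod.fst)
                  · simp only [hcz, if_true]
                    exact Finset.mem_insert_self _ _
                  · simp only [hcz, if_false]
                    apply Finset.mem_insert_of_mem
                    rcases hc with hc | hc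
                    · exact hT0 c hc
                    · exact absurd hc hcz)
                (by
                  rw [List.map_append, zw_snd x l hx1, List.nodup_append]
                  refine ⟨hxnd, hnd.2, ?_⟩
                  intro a ha c hc hac
                  rw [List.mem_map] at hc
                  obtain ⟨r, hr, h2⟩ := hc
                  exact (hx3 a ha).2.2 r hr (h2.trans hac.symm))
                (by
                  intro r hr
                  rw [List.mem_append] at hr
                  rw [Finset.mem_insert, not_or]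
                  rcases hr with hr | hr
                  · have h2 : r.2 ∈ x := by
                      rw [← zw_snd x l hx1]
                      exact List.mem_map_of_mem hr
                    exact ⟨(hx3 _ h2).2.1, (hx3 _ h2).1⟩
                  · refine ⟨?_, hRA r (List.mem_cons_of_mem _ hr)⟩
                    intro h2
                    apply hnd.1
                    rw [List.mem_map]
                    exact ⟨r, hr, h2⟩)
              rw [card_Om _ _ _ _ (Finset.disjoint_of_subset_left (Finset.erase_subset _ _)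
                Finset.sdiff_disjoint), hXc, hKc, Fintype.card_fin, Finset.card_erase_of_mem (by
                  simpa using hoK'), Finset.card_sdiff_of_subset (Finset.subset_univ _),
                Finset.card_univ, Fintype.card_fin, hKc, ← hP2] at hmain
              exact hmain)
          rw [hcardOm]
          refine le_trans ?_ key
          rw [hlenR]
          have hA := hn1 n hnn1
          rcases Nat.eq_zero_or_pos (cvr (n * k - t) (n - g) (n - g - 1)) with hz | hpos
          · rw [hz, Nat.cast_zero, mul_zero]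
            exact mul_nonneg (Nat.cast_nonneg _) (mul_nonneg (by linarith) (Nat.cast_nonneg _))
          · have hpos' : (0 : ℝ) < (cvr (n * k - t) (n - g) (n - g - 1) : ℝ) := by
              exact_mod_cast hpos
            rw [le_div_iff₀ hpos'] at hA
            refine le_trans hA (le_of_eq ?_)
            ring
end AS
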